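import Pool.Agent.MP_e23604_nt.P.SPer

/-!
A quantitative Tauberian theorem.
-/

open Finset
open scoped Classical

noncomputable section

namespace Pool.Agent.MP_e23604_nt.P

theorem xSTau_nG {u s : ℂ} {y B D : ℝ} (hy : 0 < y) (hu : ‖u‖ ≤ B) (hs : 0 ≤ s.re) (hD : 0 < D)
    (hD' : D ≤ s.re ^ 2 + s.im ^ 2) : ‖u * (y : ℂ) ^ s / (s * (s + 1))‖ ≤ B * y ^ s.re / D := by
  have h1 : ‖s‖ ^ 2 = s.re ^ 2 + s.im ^ 2 := by
    rw [Complex.sq_norm, Complex.normSq_apply]; ring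
  have h2 : ‖s‖ ≤ ‖s + 1‖ := by
    refine le_of_sq_le_sq ?_ (norm_nonneg _)
    rw [h1, Complex.sq_norm, Complex.normSq_apply]
    simp only [Complex.add_re, Complex.add_im, Complex.one_re, Complex.one_im]
    nlinarith
  rw [norm_div, norm_mul, norm_mul, Complex.norm_cpow_eq_rpow_re_of_pos hy]
  have h3 : D ≤ ‖s‖ * ‖s + 1‖ := by nlinarith [norm_nonneg s]
  have h4 : 0 ≤ B := (norm_nonneg _).trans hu
  gcongr

theorem xSTau_tail (f : ℝ → ℂ) {K T : ℝ} (hT : 0 < T) (h : ∀ t, T < t → ‖f t‖ ≤ K / t ^ 2) :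
    ‖∫ t in Set.Ioi T, f t‖ ≤ K / T := by
  have h1 := (integrableOn_Ioi_rpow_of_lt (a := -2) (by norm_num) hT).const_mul K
  refine (MeasureTheory.norm_integral_le_of_norm_le h1 ?_).trans (le_of_eq ?_)
  · refine (MeasureTheory.ae_restrict_iff' measurableSet_Ioi).2 (.of_forall fun t ht => ?_)
    rw [Real.rpow_neg (hT.trans ht).le, Real.rpow_two, ← div_eq_mul_inv]
    exact h t ht
  · rw [MeasureTheory.integral_const_mul, integral_Ioi_rpow_of_lt (by norm_num) hT,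
      show (-2 : ℝ) + 1 = -1 by norm_num, Real.rpow_neg_one]
    field_simp

theorem xSTau_rect (A : ℂ → ℂ) {σ c T Bd y : ℝ} (hσ : 1 / 2 ≤ σ) (hc : σ ≤ c) (hc' : c - σ ≤ 1)
    (hT : 0 < T) (hy : 1 ≤ y) (hA : DifferentiableOn ℂ A (Set.Icc σ c ×ℂ Set.Icc (-T) T))
    (hB : ∀ s ∈ Set.Icc σ c ×ℂ Set.Icc (-T) T, ‖A s‖ ≤ Bd) :
    ‖∫ t in (-T)..T, A (c + t * Complex.I) * (y : ℂ) ^ ((c : ℂ) + t * Complex.I) /
      ((c + t * Complex.I) * (c + t * Complex.I + 1))‖ ≤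
        2 * (Bd * y ^ c / T ^ 2) + 16 * (Bd * y ^ σ) := by
  have hy0 : 0 < y := by linarith
  have hTT : -T ≤ T := by linarith
  have hBd : 0 ≤ Bd := (norm_nonneg _).trans (hB ⟨σ, T⟩ ⟨⟨le_rfl, hc⟩, ⟨hTT, le_rfl⟩⟩)
  set G : ℂ → ℂ := fun s => A s * (y : ℂ) ^ s / (s * (s + 1)) with hG
  have hd : DifferentiableOn ℂ G (Set.Icc σ c ×ℂ Set.Icc (-T) T) := by
    refine (hA.mul (differentiableOn_id.const_cpow (Or.inl ?_))).div (by fun_prop) fun s hs => ?_
    · exact_mod_cast hy0.ne'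
    · have h1 : σ ≤ s.re := hs.1.1
      refine mul_ne_zero (fun h => ?_) fun h => ?_
      · rw [h, Complex.zero_re] at h1; linarith
      · have := congrArg Complex.re h
        rw [Complex.add_re, Complex.one_re, Complex.zero_re] at this; linarith
  have h0 := Complex.integral_boundary_rect_eq_zero_of_differentiableOn G ⟨σ, -T⟩ ⟨c, T⟩
    (by simpa only [Set.uIcc_of_le hc, Set.uIcc_of_le hTT] using hd)
  have hh : ∀ t : ℝ, t ^ 2 = T ^ 2 → -T ≤ t → t ≤ T →
      ‖∫ u : ℝ in σ..c, G (u + t * Complex.I)‖ ≤ Bd * y ^ c / T ^ 2 := fun t ht h1 h2 => by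
    refine (intervalIntegral.norm_integral_le_of_norm_le_const (C := Bd * y ^ c / T ^ 2)
      fun u hu => ?_).trans ?_
    · rw [Set.uIoc_of_le hc] at hu
      refine (xSTau_nG (B := Bd) (D := T ^ 2) hy0 (hB _ ⟨?_, ?_⟩) ?_ (by positivity) ?_).trans ?_
      · simpa using ⟨hu.1.le, hu.2⟩
      · simpa using ⟨h1, h2⟩
      · simpa using by linarith [hu.1]
      · simpa [ht] using sq_nonneg u
      · have : y ^ (u + t * Complex.I : ℂ).re ≤ y ^ c :=
          Real.rpow_le_rpow_of_exponent_le hy (by simpa using hu.2)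
        gcongr
    · rw [abs_of_nonneg (by linarith)]
      exact mul_le_of_le_one_right (by positivity) hc'
  have hl : ‖∫ t : ℝ in (-T)..T, G (σ + t * Complex.I)‖ ≤ 16 * (Bd * y ^ σ) := by
    refine (intervalIntegral.norm_integral_le_of_norm_le
      (g := fun t => 4 * (Bd * y ^ σ) * (1 + t ^ 2)⁻¹) hTT (.of_forall fun t ht => ?_)
      (Continuous.intervalIntegrable ?_ _ _)).trans ?_
    · refine (xSTau_nG (B := Bd) (D := (1 + t ^ 2) / 4) hy0 (hB _ ⟨?_, ?_⟩) ?_ (by positivity)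
        ?_).trans (le_of_eq ?_)
      · simpa using hc
      · simpa using ⟨ht.1.le, ht.2⟩
      · simpa using by linarith
      · simpa using by nlinarith [sq_nonneg t]
      · have : (σ + t * Complex.I : ℂ).re = σ := by simp
        rw [this]
        field_simp
    · exact continuous_const.mul (Continuous.inv₀ (by fun_prop) fun t => by positivity)
    · rw [intervalIntegral.integral_const_mul, integral_inv_one_add_sq]
      have h1 := Real.arctan_lt_pi_div_two T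
      have h2 := Real.neg_pi_div_two_lt_arctan (-T)
      have h3 := Real.pi_le_four
      have h4 : 0 ≤ Bd * y ^ σ := by positivity
      nlinarith
  have h1 := hh T rfl hTT le_rfl
  have h2 := hh (-T) (by ring) le_rfl hTT
  dsimp only at h0
  have h3 : Complex.I * ∫ t : ℝ in (-T)..T, G (c + t * Complex.I) =
      Complex.I * (∫ t : ℝ in (-T)..T, G (σ + t * Complex.I)) +
        (∫ u : ℝ in σ..c, G (u + T * Complex.I)) -
        ∫ u : ℝ in σ..c, G (u + (-T : ℝ) * Complex.I) := by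
    simp only [smul_eq_mul] at h0
    linear_combination h0
  have h4 := congrArg norm h3
  rw [norm_mul, Complex.norm_I, one_mul] at h4
  have h5 := norm_sub_le_of_le (norm_add_le_of_le
    (show ‖Complex.I * ∫ t : ℝ in (-T)..T, G (σ + t * Complex.I)‖ ≤ 16 * (Bd * y ^ σ) by
      rwa [norm_mul, Complex.norm_I, one_mul]) h1) h2
  rw [← h4] at h5
  linarith

theorem xSTau_S : ∃ C : ℝ, 0 < C ∧ ∀ (a : ℕ → ℂ) (A : ℂ → ℂ) (η T Bd x y : ℝ),
    (∀ n, ‖a n‖ ≤ 1 + Real.log n) → 3 ≤ x → x ≤ y → y ≤ 2 * x → 1 ≤ T → η ≤ 1 / 2 →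
    1 / Real.log x ≤ η →
    DifferentiableOn ℂ A (Set.Icc (1 - η) (1 + η) ×ℂ Set.Icc (-T) T) →
    (∀ s : ℂ, 1 < s.re → s.re ≤ 1 + η → |s.im| ≤ T → A s = LSeries a s) →
    (∀ s ∈ Set.Icc (1 - η) (1 + η) ×ℂ Set.Icc (-T) T, ‖A s‖ ≤ Bd) →
    ‖∑ n ∈ Icc 1 ⌊y⌋₊, a n * (1 - n / y)‖ ≤
      C * (x * (Real.log x ^ 2 / T + Bd / T ^ 2 + Bd * x ^ (-η))) := by
  obtain ⟨C, hC, HC⟩ := norm_LSeries_le
  refine ⟨4 * C * Real.exp 2 + 4 * Real.exp 2 + 32, by positivity,
    fun a A η T Bd x y ha hx hxy hyx hT hη hL hA hAL hB => ?_⟩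
  have hL0 : 0 < Real.log x := Real.log_pos (by linarith)
  have hi : 0 < 1 / Real.log x := by positivity
  have hy0 : 0 < y := by linarith
  have hT0 : 0 < T := by linarith
  have hBd : 0 ≤ Bd := (norm_nonneg _).trans (hB 1 ⟨⟨by simpa using by linarith,
    by simpa using by linarith⟩, ⟨by simpa using hT0.le, by simpa using hT0.le⟩⟩)
  obtain ⟨c, hc⟩ : ∃ c, c = 1 + 1 / Real.log x := ⟨_, rfl⟩
  obtain ⟨hI, hP⟩ := perron a ha (c := c) (y := y) (by linarith) (by linarith) hy0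
  have hsub : Set.Icc (1 - η) c ×ℂ Set.Icc (-T) T ⊆ Set.Icc (1 - η) (1 + η) ×ℂ Set.Icc (-T) T :=
    fun s hs => ⟨⟨hs.1.1, hs.1.2.trans (by linarith)⟩, hs.2⟩
  have hR := xSTau_rect A (σ := 1 - η) (c := c) (Bd := Bd) (y := y) (by linarith) (by linarith)
    (by linarith) hT0 (by linarith) (hA.mono hsub) fun s hs => hB s (hsub hs)
  set F : ℝ → ℂ := fun t => LSeries a (c + t * Complex.I) *
      (y : ℂ) ^ ((c : ℂ) + t * Complex.I) / ((c + t * Complex.I) * (c + t * Complex.I + 1))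
    with hF
  have hFb : ∀ t : ℝ, t ≠ 0 → ‖F t‖ ≤ C * Real.log x ^ 2 * y ^ c / t ^ 2 := fun t ht => by
    have e1 : (c + t * Complex.I : ℂ).re = c := by simp
    have h1 := (HC a ha (c + t * Complex.I) (by rw [e1]; linarith) (by rw [e1]; linarith)).2
    have h2 := xSTau_nG (D := t ^ 2) (s := c + t * Complex.I) hy0 h1 (by rw [e1]; linarith)
      (by positivity) (by simpa using sq_nonneg c)
    rw [e1] at h2
    refine h2.trans (le_of_eq ?_)
    rw [show c - 1 = 1 / Real.log x by linarith]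
    field_simp
  have t1 := xSTau_tail F hT0 fun t ht => hFb t (hT0.trans ht).ne'
  have t2 := xSTau_tail (fun t => F (-t)) (K := C * Real.log x ^ 2 * y ^ c) hT0 fun t ht => by
    simpa using hFb (-t) (neg_ne_zero.2 (hT0.trans ht).ne')
  rw [integral_comp_neg_Ioi] at t2
  rw [intervalIntegral.integral_congr (g := F) fun t ht => by
    rw [Set.uIcc_of_le (by linarith)] at ht
    simp only [hF]
    rw [hAL _ (by simpa using by linarith) (by simpa using by linarith)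
      (by simpa using abs_le.2 ht)]] at hR
  have e2 : ∫ t, F t = (∫ t in Set.Iic (-T), F t) + (∫ t in (-T)..T, F t) +
      ∫ t in Set.Ioi T, F t := by
    rw [← intervalIntegral.integral_Iic_sub_Iic hI.integrableOn hI.integrableOn, add_sub_cancel,
      intervalIntegral.integral_Iic_add_Ioi hI.integrableOn hI.integrableOn]
  have t3 := norm_add_le_of_le (norm_add_le_of_le t2 hR) t1
  rw [← e2] at t3
  have t4 : ‖(1 / (2 * Real.pi) : ℂ)‖ ≤ 1 := by
    rw [norm_div, norm_one, norm_mul, Complex.norm_real, Real.norm_of_nonneg Real.pi_pos.le,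
      Complex.norm_ofNat]
    exact (div_le_one (by positivity)).2 (by linarith [Real.pi_gt_three])
  have y1 : y ^ c ≤ 2 * x * Real.exp 2 := by
    rw [hc, Real.rpow_add hy0, Real.rpow_one, Real.rpow_def_of_pos hy0]
    have : Real.log y ≤ 2 * Real.log x := by
      rw [← Real.log_rpow (by linarith), Real.rpow_two]
      exact Real.log_le_log hy0 (by nlinarith)
    have : Real.log y * (1 / Real.log x) ≤ 2 := by
      rwa [mul_one_div, div_le_iff₀ hL0]
    gcongr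
  have y2 : y ^ (1 - η) ≤ 2 * x * x ^ (-η) := by
    rw [sub_eq_add_neg, Real.rpow_add hy0, Real.rpow_one]
    have := Real.rpow_le_rpow_of_nonpos (by linarith : 0 < x) hxy (by linarith : -η ≤ 0)
    gcongr
  rw [hP, norm_mul]
  refine (mul_le_of_le_one_left (norm_nonneg _) t4).trans (t3.trans ?_)
  have u1 : C * Real.log x ^ 2 * y ^ c / T ≤ 2 * C * Real.exp 2 * (x * (Real.log x ^ 2 / T)) := by
    calc _ ≤ C * Real.log x ^ 2 * (2 * x * Real.exp 2) / T := by gcongr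
      _ = _ := by ring
  have u2 : Bd * y ^ c / T ^ 2 ≤ 2 * Real.exp 2 * (x * (Bd / T ^ 2)) := by
    calc _ ≤ Bd * (2 * x * Real.exp 2) / T ^ 2 := by gcongr
      _ = _ := by ring
  have u3 : Bd * y ^ (1 - η) ≤ 2 * (x * (Bd * x ^ (-η))) := by
    calc _ ≤ Bd * (2 * x * x ^ (-η)) := by gcongr
      _ = _ := by ring
  have v1 : 0 ≤ x * (Real.log x ^ 2 / T) := by positivity
  have v2 : 0 ≤ x * (Bd / T ^ 2) := by positivity
  have v3 : 0 ≤ x * (Bd * x ^ (-η)) := by positivity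
  have v4 : 0 < C * Real.exp 2 := by positivity
  have v5 := Real.exp_pos 2
  rw [mul_add x, mul_add x]
  generalize x * (Real.log x ^ 2 / T) = p at *
  generalize x * (Bd / T ^ 2) = q at *
  generalize x * (Bd * x ^ (-η)) = r at *
  nlinarith [mul_nonneg v4.le v2, mul_nonneg v4.le v3, mul_nonneg v5.le v1, mul_nonneg v5.le v3]

theorem tauber : ∃ C : ℝ, 0 < C ∧ ∀ (a : ℕ → ℂ) (A : ℂ → ℂ) (η T Bd x h : ℝ),
    (∀ n, ‖a n‖ ≤ 1 + Real.log n) → 3 ≤ x → 1 ≤ h → h ≤ x → 1 ≤ T → η ≤ 1 / 2 →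
    1 / Real.log x ≤ η →
    DifferentiableOn ℂ A (Set.Icc (1 - η) (1 + η) ×ℂ Set.Icc (-T) T) →
    (∀ s : ℂ, 1 < s.re → s.re ≤ 1 + η → |s.im| ≤ T → A s = LSeries a s) →
    (∀ s ∈ Set.Icc (1 - η) (1 + η) ×ℂ Set.Icc (-T) T, ‖A s‖ ≤ Bd) →
    ‖∑ n ∈ Icc 1 ⌊x⌋₊, a n‖ ≤
      C * (x ^ 2 / h * (Real.log x ^ 2 / T + Bd / T ^ 2 + Bd * x ^ (-η)) + h * Real.log x) := by
  obtain ⟨C, hC, HC⟩ := xSTau_S
  refine ⟨3 * C + 6, by positivity, fun a A η T Bd x h ha hx hh hhx hT hη hL hA hAL hB => ?_⟩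
  have s1 := HC a A η T Bd x x ha hx le_rfl (by linarith) hT hη hL hA hAL hB
  have s2 := HC a A η T Bd x (x + h) ha hx (by linarith) (by linarith) hT hη hL hA hAL hB
  have hx0 : 0 < x := by linarith
  have hh0 : 0 < h := by linarith
  have hL1 : 1 ≤ Real.log x := by
    rw [Real.le_log_iff_exp_le hx0]
    linarith [Real.exp_one_lt_d9]
  generalize Real.log x ^ 2 / T + Bd / T ^ 2 + Bd * x ^ (-η) = R at s1 s2 ⊢
  have hR : 0 ≤ R := by
    have := (norm_nonneg _).trans s1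
    rwa [mul_nonneg_iff_of_pos_left hC, mul_nonneg_iff_of_pos_left hx0] at this
  have hfl : ⌊x⌋₊ ≤ ⌊x + h⌋₊ := Nat.floor_le_floor (by linarith)
  have hIc : ∀ n : ℕ, Icc 1 n = Ioc 0 n := fun n => rfl
  have key : (h : ℂ) * ∑ n ∈ Icc 1 ⌊x⌋₊, a n =
      ((x + h : ℝ) : ℂ) * ∑ n ∈ Icc 1 ⌊x + h⌋₊, a n * (1 - n / ((x + h : ℝ) : ℂ)) -
        (x : ℂ) * ∑ n ∈ Icc 1 ⌊x⌋₊, a n * (1 - n / (x : ℂ)) -
        ∑ n ∈ Ioc ⌊x⌋₊ ⌊x + h⌋₊, a n * ((x + h - n : ℝ) : ℂ) := by
    have e1 : (x : ℂ) ≠ 0 := by exact_mod_cast hx0.ne'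
    have e2 : ((x + h : ℝ) : ℂ) ≠ 0 := by exact_mod_cast (add_pos hx0 hh0).ne'
    rw [hIc, hIc, ← sum_Ioc_consecutive _ (Nat.zero_le _) hfl, mul_add, mul_sum, mul_sum, mul_sum,
      mul_sum, add_sub_right_comm, add_sub_assoc, ← sum_sub_distrib, ← sum_sub_distrib,
      sum_eq_zero (s := Ioc ⌊x⌋₊ ⌊x + h⌋₊), add_zero]
    · refine sum_congr rfl fun n _ => ?_
      field_simp
      push_cast
      ring
    · intro n _
      field_simp
      push_cast
      ring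
  have s3 : ‖∑ n ∈ Ioc ⌊x⌋₊ ⌊x + h⌋₊, a n * ((x + h - n : ℝ) : ℂ)‖ ≤
      2 * h * (3 * Real.log x * h) := by
    refine (norm_sum_le _ _).trans ((sum_le_card_nsmul _ _ (3 * Real.log x * h)
      fun n hn => ?_).trans ?_)
    · obtain ⟨h1, h2⟩ := mem_Ioc.1 hn
      have h3 : x < n := (Nat.floor_lt hx0.le).1 h1
      have h4 : (n : ℝ) ≤ x + h := (Nat.le_floor_iff (by linarith)).1 h2
      have h5 : Real.log n ≤ 2 * Real.log x := by
        rw [← Real.log_rpow hx0, Real.rpow_two]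
        exact Real.log_le_log (by linarith) (by nlinarith)
      rw [norm_mul, Complex.norm_real, Real.norm_of_nonneg (by linarith)]
      exact mul_le_mul ((ha n).trans (by linarith)) (by linarith) (by linarith) (by positivity)
    · rw [nsmul_eq_mul, Nat.card_Ioc, Nat.cast_sub hfl]
      have h1 := Nat.floor_le (a := x + h) (by linarith)
      have h2 := Nat.lt_floor_add_one x
      exact mul_le_mul_of_nonneg_right (by linarith) (by positivity)
  have s4 := norm_sub_le_of_le (norm_sub_le_of_le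
    (norm_mul_le_of_le (show ‖((x + h : ℝ) : ℂ)‖ ≤ 2 * x by
      rw [Complex.norm_real, Real.norm_of_nonneg (by linarith)]; linarith) s2)
    (norm_mul_le_of_le (show ‖(x : ℂ)‖ ≤ x by
      rw [Complex.norm_real, Real.norm_of_nonneg hx0.le]) s1)) s3
  rw [← key, norm_mul, Complex.norm_real, Real.norm_of_nonneg hh0.le] at s4
  refine le_of_mul_le_mul_left (s4.trans ?_) hh0
  have e3 : h * ((3 * C + 6) * (x ^ 2 / h * R + h * Real.log x)) =
      (3 * C + 6) * (x ^ 2 * R + h ^ 2 * Real.log x) := by field_simp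
  rw [e3]
  have v1 : 0 ≤ x ^ 2 * R := by positivity
  have v2 : 0 ≤ C * (h ^ 2 * Real.log x) := by positivity
  nlinarith

end Pool.Agent.MP_e23604_nt.P
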