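import Pool.Agent.MP_e23604_nt.P.SUb

/-!
Upper bounds for Dirichlet L-functions and for zeta.
-/

open Finset DirichletCharacter
open scoped Classical

noncomputable section

namespace Pool.Agent.MP_e23604_nt.P

theorem xSGrow_sum_range {q : ℕ} [NeZero q] (g : ZMod q → ℂ) :
    ∑ k ∈ range q, g (k : ZMod q) = ∑ a, g a := by
  refine Finset.sum_bij' (fun k _ => (k : ZMod q)) (fun a _ => a.val) ?_ ?_ ?_ ?_ ?_
  · intro k _; exact mem_univ _
  · intro a _; exact mem_range.2 (ZMod.val_lt a)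
  · intro k hk; exact ZMod.val_cast_of_lt (mem_range.1 hk)
  · intro a _; exact ZMod.natCast_zmod_val a
  · intro k _; rfl

theorem xSGrow_period {q : ℕ} [NeZero q] {χ : DirichletCharacter ℂ q} (hχ : χ ≠ 1) (m : ℕ) :
    ∑ k ∈ range q, χ ((m + k : ℕ) : ZMod q) = 0 := by
  have h1 := xSGrow_sum_range (q := q) (fun a => χ ((m : ZMod q) + a))
  have h2 : ∑ a : ZMod q, χ ((m : ZMod q) + a) = ∑ a : ZMod q, χ a :=
    Equiv.sum_comp (Equiv.addLeft (m : ZMod q)) (fun a => χ a)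
  rw [h2, MulChar.sum_eq_zero_of_ne_one hχ] at h1
  simpa [Nat.cast_add] using h1

theorem xSGrow_psum {q : ℕ} [NeZero q] {χ : DirichletCharacter ℂ q} (hχ : χ ≠ 1) (n : ℕ) :
    ‖∑ k ∈ range n, χ ((1 + k : ℕ) : ZMod q)‖ ≤ q := by
  induction n using Nat.strong_induction_on with
  | _ n ih =>
    rcases le_or_gt n q with hn | hn
    · refine (norm_sum_le _ _).trans ?_
      calc ∑ k ∈ range n, ‖χ ((1 + k : ℕ) : ZMod q)‖ ≤ ∑ k ∈ range n, (1 : ℝ) :=
            sum_le_sum fun k _ => χ.norm_le_one _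
        _ = n := by simp
        _ ≤ q := by exact_mod_cast hn
    · have hq : 0 < q := Nat.pos_of_ne_zero (NeZero.ne q)
      obtain ⟨m, rfl⟩ : ∃ m, n = m + q := ⟨n - q, by omega⟩
      rw [Finset.sum_range_add]
      have h3 : ∑ k ∈ range q, χ ((1 + (m + k) : ℕ) : ZMod q)
          = ∑ k ∈ range q, χ ((1 + m + k : ℕ) : ZMod q) :=
        Finset.sum_congr rfl fun k _ => by rw [add_assoc]
      rw [h3, xSGrow_period hχ, add_zero]
      exact ih m (by omega)

theorem xSGrow_ident {f g : ℂ → ℂ} (hf : Differentiable ℂ f)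
    (hg : DifferentiableOn ℂ g {s | 0 < s.re}) (h : ∀ s : ℂ, 1 < s.re → f s = g s)
    {s : ℂ} (hs : 0 < s.re) : f s = g s := by
  have hUo : IsOpen {s : ℂ | 0 < s.re} := isOpen_lt continuous_const Complex.continuous_re
  have hUc : IsPreconnected {s : ℂ | 0 < s.re} := (convex_halfSpace_re_gt 0).isPreconnected
  have h1 : AnalyticOnNhd ℂ f {s : ℂ | 0 < s.re} := hf.differentiableOn.analyticOnNhd hUo
  have h2 : AnalyticOnNhd ℂ g {s : ℂ | 0 < s.re} := hg.analyticOnNhd hUo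
  have hz : (2 : ℂ) ∈ {s : ℂ | 0 < s.re} := by simp
  have heq : f =ᶠ[nhds 2] g := by
    have : ∀ᶠ s in nhds (2 : ℂ), 1 < s.re :=
      (isOpen_lt continuous_const Complex.continuous_re).mem_nhds (by simp)
    filter_upwards [this] with s hs using h s hs
  exact h1.eqOn_of_preconnected_of_eventuallyEq h2 hUc hz heq hs

theorem xSGrow_deriv {f : ℂ → ℂ} (hf : Differentiable ℂ f) {ε K : ℝ} (h0 : 0 < ε)
    (h1 : ε ≤ 1 / 2) (hK : 0 ≤ K)
    (h : ∀ s : ℂ, 1 - ε ≤ s.re → ‖f s‖ ≤ 20 / ε * (K * (‖s‖ + 1)) ^ (2 * ε))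
    {s : ℂ} (hs : 1 - ε / 2 ≤ s.re) :
    ‖deriv f s‖ ≤ 40 / ε ^ 2 * (K * (‖s‖ + 2)) ^ (2 * ε) := by
  have hR : 0 < ε / 2 := by linarith
  have key := Complex.norm_deriv_le_of_forall_mem_sphere_norm_le (c := s) (R := ε / 2)
    (C := 20 / ε * (K * (‖s‖ + 2)) ^ (2 * ε)) hR hf.diffContOnCl (by
      intro z hz
      have hz' : ‖z - s‖ = ε / 2 := by simpa [dist_eq_norm] using hz
      have hre : |(z - s).re| ≤ ε / 2 := hz' ▸ Complex.abs_re_le_norm (z - s)
      have hre' : 1 - ε ≤ z.re := by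
        have := (abs_le.1 hre).1
        simp only [Complex.sub_re] at this
        linarith
      have hn : ‖z‖ + 1 ≤ ‖s‖ + 2 := by
        have : ‖z‖ ≤ ‖s‖ + ‖z - s‖ := by
          calc ‖z‖ = ‖s + (z - s)‖ := by ring_nf
            _ ≤ _ := norm_add_le _ _
        linarith
      refine (h z hre').trans ?_
      gcongr)
  refine key.trans (le_of_eq ?_)
  field_simp
  ring

theorem L_ub {q : ℕ} [NeZero q] {χ : DirichletCharacter ℂ q} (hχ : χ ≠ 1) {ε : ℝ} (h0 : 0 < ε)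
    (h1 : ε ≤ 1 / 2) {s : ℂ} (hs : 1 - ε ≤ s.re) :
    ‖LFunction χ s‖ ≤ 20 / ε * ((q + 1) * (‖s‖ + 1)) ^ (2 * ε) := by
  obtain ⟨h, hd, he, hb⟩ := ub_abs (fun n => χ n) 0 q (fun n => χ.norm_le_one _) (by simp) (by
    intro n
    have hIcc : ∑ k ∈ Icc 1 n, χ (k : ZMod q) = ∑ k ∈ range n, χ ((1 + k : ℕ) : ZMod q) := by
      rw [← Finset.Ico_add_one_right_eq_Icc, Finset.sum_Ico_eq_sum_range]
      simp
    rw [zero_mul, sub_zero, hIcc]
    exact xSGrow_psum hχ n)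
  have : LFunction χ s = h s := by
    refine xSGrow_ident (differentiable_LFunction hχ) hd (fun s hs => ?_) (by linarith)
    rw [LFunction_eq_LSeries χ hs, he s hs]
    simp
  rw [this]
  exact hb ε h0 h1 s hs

theorem L_deriv_ub {q : ℕ} [NeZero q] {χ : DirichletCharacter ℂ q} (hχ : χ ≠ 1) {ε : ℝ}
    (h0 : 0 < ε) (h1 : ε ≤ 1 / 2) {s : ℂ} (hs : 1 - ε / 2 ≤ s.re) :
    ‖deriv (LFunction χ) s‖ ≤ 40 / ε ^ 2 * ((q + 1) * (‖s‖ + 2)) ^ (2 * ε) :=
  xSGrow_deriv (differentiable_LFunction hχ) h0 h1 (by positivity)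
    (fun _ hs => L_ub hχ h0 h1 hs) hs

theorem zeta1_diff : Differentiable ℂ zeta1 := by
  rw [← differentiableOn_univ,
    ← Complex.differentiableOn_compl_singleton_and_continuousAt_iff (c := 1) Filter.univ_mem]
  refine ⟨?_, continuousAt_update_same.2 riemannZeta_residue_one⟩
  have : DifferentiableOn ℂ (fun s : ℂ => (s - 1) * riemannZeta s) (Set.univ \ {1}) := by
    intro s hs
    have hs1 : s ≠ 1 := hs.2
    exact ((differentiableAt_id.sub_const 1).mul
      (differentiableAt_riemannZeta hs1)).differentiableWithinAt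
  refine this.congr fun s hs => ?_
  have hs1 : s ≠ 1 := hs.2
  exact Function.update_of_ne hs1 _ _

theorem zH_diff : Differentiable ℂ zH := by
  rw [← differentiableOn_univ]
  exact (Complex.differentiableOn_dslope Filter.univ_mem).2 zeta1_diff.differentiableOn

theorem zeta1_one : zeta1 1 = 1 := Function.update_self _ _ _

theorem zeta1_eq (s : ℂ) : zeta1 s = 1 + (s - 1) * zH s := by
  have := sub_smul_dslope zeta1 1 s
  rw [smul_eq_mul, zeta1_one] at this
  unfold zH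
  rw [this]
  ring

theorem zeta_eq {s : ℂ} (hs : s ≠ 1) : riemannZeta s = 1 / (s - 1) + zH s := by
  have h1 := zeta1_eq s
  have h2 : zeta1 s = (s - 1) * riemannZeta s := Function.update_of_ne hs _ _
  have h3 : s - 1 ≠ 0 := sub_ne_zero.2 hs
  rw [h2] at h1
  field_simp
  linear_combination h1

theorem zH_ub {ε : ℝ} (h0 : 0 < ε) (h1 : ε ≤ 1 / 2) {s : ℂ} (hs : 1 - ε ≤ s.re) :
    ‖zH s‖ ≤ 20 / ε * (‖s‖ + 1) ^ (2 * ε) := by
  obtain ⟨h, hd, he, hb⟩ := ub_abs 1 1 0 (fun n => by simp) (by simp) (by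
    intro n
    simp)
  have : zH s = h s := by
    refine xSGrow_ident zH_diff hd (fun s hs => ?_) (by linarith)
    have hs1 : s ≠ 1 := by
      rintro rfl
      simp at hs
    have h2 := he s hs
    rw [LSeries_one_eq_riemannZeta hs, zeta_eq hs1] at h2
    exact add_left_cancel h2
  rw [this]
  simpa using hb ε h0 h1 s hs

theorem zH_deriv_ub {ε : ℝ} (h0 : 0 < ε) (h1 : ε ≤ 1 / 2) {s : ℂ} (hs : 1 - ε / 2 ≤ s.re) :
    ‖deriv zH s‖ ≤ 40 / ε ^ 2 * (‖s‖ + 2) ^ (2 * ε) := by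
  have := xSGrow_deriv (K := 1) zH_diff h0 h1 zero_le_one
    (fun s hs => by simpa using zH_ub h0 h1 hs) hs
  simpa using this

theorem xSGrow_zeta_real {x : ℝ} (hx : 0 < x) : ‖riemannZeta (1 + x)‖ ≤ 1 + 1 / x := by
  have hs : 1 < (1 + (x : ℂ)).re := by simpa using hx
  have hs' : (1 : ℝ) < 1 + x := by linarith
  rw [zeta_eq_tsum_one_div_nat_add_one_cpow hs]
  have hcast : ∑' n : ℕ, 1 / (n + 1 : ℂ) ^ (1 + (x : ℂ))
      = ((∑' n : ℕ, 1 / (n + 1 : ℝ) ^ (1 + x) : ℝ) : ℂ) := by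
    rw [Complex.ofReal_tsum]
    refine tsum_congr fun n => ?_
    rw [Complex.ofReal_div, Complex.ofReal_cpow (by positivity)]
    push_cast
    rfl
  rw [hcast, Complex.norm_real, Real.norm_of_nonneg (tsum_nonneg fun n => by positivity)]
  have h1 := ZetaAsymptotics.zeta_limit_aux1 hs'
  have h2 : 0 ≤ ZetaAsymptotics.termTSum (1 + x) :=
    tsum_nonneg fun n => ZetaAsymptotics.term_nonneg _ _
  rw [add_sub_cancel_left] at h1
  have h3 : 0 ≤ (1 + x) * ZetaAsymptotics.termTSum (1 + x) := by positivity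
  linarith

/-- The trivial character to the right of the line of real part one. -/
theorem triv_ub (q : ℕ) [NeZero q] {x : ℝ} (hx : 0 < x) :
    ‖LFunctionTrivChar q (1 + x)‖ ≤ 1 + 1 / x := by
  have hs1 : (1 + (x : ℂ)) ≠ 1 := by
    intro h
    have : (x : ℂ) = 0 := by linear_combination h
    exact hx.ne' (by exact_mod_cast this)
  rw [LFunctionTrivChar_eq_mul_riemannZeta hs1, norm_mul, norm_prod]
  have h1 : ∏ p ∈ q.primeFactors, ‖1 - (p : ℂ) ^ (-(1 + (x : ℂ)))‖ ≤ 1 := by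
    refine Finset.prod_le_one (fun _ _ => norm_nonneg _) fun p hp => ?_
    have hp1 : (1 : ℝ) ≤ p := by exact_mod_cast (Nat.prime_of_mem_primeFactors hp).one_le
    have hc : 1 - (p : ℂ) ^ (-(1 + (x : ℂ))) = ((1 - (p : ℝ) ^ (-(1 + x)) : ℝ) : ℂ) := by
      rw [Complex.ofReal_sub, Complex.ofReal_cpow (by positivity)]
      push_cast
      rfl
    rw [hc, Complex.norm_real, Real.norm_eq_abs, abs_le]
    have h2 : 0 ≤ (p : ℝ) ^ (-(1 + x)) := by positivity
    have h3 : (p : ℝ) ^ (-(1 + x)) ≤ 1 := Real.rpow_le_one_of_one_le_of_nonpos hp1 (by linarith)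
    constructor <;> linarith
  calc _ ≤ 1 * ‖riemannZeta (1 + x)‖ := by gcongr
    _ ≤ _ := by rw [one_mul]; exact xSGrow_zeta_real hx

theorem triv_ub' (q : ℕ) [NeZero q] {s : ℂ} (hs : 1 < s.re) :
    ‖LFunctionTrivChar q s‖ ≤ (q.divisors.card : ℝ) * ‖riemannZeta s‖ := by
  have hs1 : s ≠ 1 := by
    rintro rfl
    simp at hs
  rw [LFunctionTrivChar_eq_mul_riemannZeta hs1, norm_mul, norm_prod,
    Nat.card_divisors (NeZero.ne q)]
  push_cast
  refine mul_le_mul_of_nonneg_right ?_ (norm_nonneg _)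
  refine Finset.prod_le_prod (fun _ _ => norm_nonneg _) fun p hp => ?_
  have hpp := Nat.prime_of_mem_primeFactors hp
  have hp1 : (1 : ℝ) ≤ p := by exact_mod_cast hpp.one_le
  have h1 : ‖(p : ℂ) ^ (-s)‖ ≤ 1 := by
    rw [Complex.norm_natCast_cpow_of_pos hpp.pos]
    exact Real.rpow_le_one_of_one_le_of_nonpos hp1 (by simp only [Complex.neg_re]; linarith)
  have h2 : (1 : ℝ) ≤ q.factorization p := by
    have : 0 < q.factorization p :=
      hpp.factorization_pos_of_dvd (NeZero.ne q) (Nat.dvd_of_mem_primeFactors hp)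
    exact_mod_cast this
  calc _ ≤ ‖(1 : ℂ)‖ + ‖(p : ℂ) ^ (-s)‖ := norm_sub_le _ _
    _ ≤ _ := by rw [norm_one]; linarith

/-- A function with small derivative and a large value at the right end of a segment. -/
theorem seg_lower {f : ℂ → ℂ} {r D t : ℝ} (hr : 0 < r) (hD : 0 < D)
    (hf : ∀ σ : ℝ, |σ - 1| ≤ r → DifferentiableAt ℂ f (σ + t * Complex.I) ∧
      ‖deriv f (σ + t * Complex.I)‖ ≤ D)
    (h : 4 * r * D ≤ ‖f (((1 + r : ℝ) : ℂ) + t * Complex.I)‖) (σ : ℝ) (hσ : |σ - 1| ≤ r) :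
    f (σ + t * Complex.I) ≠ 0 ∧ ‖logDeriv f (σ + t * Complex.I)‖ ≤ 1 / (2 * r) := by
  have hmem : ∀ x : ℝ, x ∈ Set.Icc (1 - r) (1 + r) ↔ |x - 1| ≤ r := by
    intro x
    rw [abs_le, Set.mem_Icc]
    constructor <;> rintro ⟨a, b⟩ <;> constructor <;> linarith
  have hder : ∀ x ∈ Set.Icc (1 - r) (1 + r),
      HasDerivWithinAt (fun y : ℝ => f (y + t * Complex.I)) (deriv f (x + t * Complex.I))
        (Set.Icc (1 - r) (1 + r)) x := by
    intro x hx
    have h1 := ((hf x ((hmem x).1 hx)).1.hasDerivAt).comp_add_const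
    exact h1.comp_ofReal.hasDerivWithinAt
  have hmv := Convex.norm_image_sub_le_of_norm_hasDerivWithin_le (C := D) hder
    (fun x hx => (hf x ((hmem x).1 hx)).2) (convex_Icc _ _) ((hmem σ).2 hσ)
    (Set.right_mem_Icc.2 (by linarith : 1 - r ≤ 1 + r))
  have hd : ‖1 + r - σ‖ ≤ 2 * r := by
    have := abs_le.1 hσ
    rw [Real.norm_eq_abs, abs_le]
    constructor <;> linarith [this.1, this.2]
  have hlow : 2 * r * D ≤ ‖f (σ + t * Complex.I)‖ := by
    have h1 : ‖f (((1 + r : ℝ) : ℂ) + t * Complex.I)‖ ≤ ‖f (σ + t * Complex.I)‖ +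
        ‖f (((1 + r : ℝ) : ℂ) + t * Complex.I) - f (σ + t * Complex.I)‖ := by
      calc _ = ‖f (σ + t * Complex.I) +
          (f (((1 + r : ℝ) : ℂ) + t * Complex.I) - f (σ + t * Complex.I))‖ := by ring_nf
        _ ≤ _ := norm_add_le _ _
    have h2 : D * ‖1 + r - σ‖ ≤ D * (2 * r) := by gcongr
    linarith
  have hpos : 0 < ‖f (σ + t * Complex.I)‖ := lt_of_lt_of_le (by positivity) hlow
  refine ⟨norm_pos_iff.1 hpos, ?_⟩
  rw [logDeriv_apply, norm_div, div_le_div_iff₀ hpos (by positivity)]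
  have := (hf σ hσ).2
  nlinarith

end Pool.Agent.MP_e23604_nt.P
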