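import Pool.Agent.MP_e23604_nt.P.SSieg

/-!
A zero free region for Dirichlet L-functions.
-/

open Finset DirichletCharacter
open scoped Classical

noncomputable section

namespace Pool.Agent.MP_e23604_nt.P

theorem xSZfL_pow {Q x η : ℝ} (hQ : 0 ≤ Q) (hx : 0 ≤ x) (h : x ≤ 12 * Q) (h0 : 0 < η)
    (h1 : η ≤ 1 / 2) : x ^ (2 * η) ≤ 12 * (Q ^ η) ^ 2 := by
  refine (Real.rpow_le_rpow hx h (by positivity)).trans ?_
  rw [Real.mul_rpow (by norm_num) hQ, mul_comm 2 η, Real.rpow_mul hQ, Real.rpow_two]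
  refine mul_le_mul_of_nonneg_right ?_ (sq_nonneg _)
  calc (12 : ℝ) ^ (η * 2) ≤ 12 ^ (1 : ℝ) :=
        Real.rpow_le_rpow_of_exponent_le (by norm_num) (by linarith)
    _ = 12 := Real.rpow_one _

theorem xSZfL_prod {q : ℕ} [NeZero q] (χ : DirichletCharacter ℂ q) {r t D M : ℝ} (hr : 0 < r)
    (hr1 : r ≤ 1) (hM : ‖LFunction (χ ^ 2) (1 + r + 2 * Complex.I * t)‖ ≤ M)
    (h : 2048 * r * D ^ 4 * M ≤ 1) : 4 * r * D ≤ ‖LFunction χ (1 + r + Complex.I * t)‖ := by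
  have h1 := norm_LFunction_product_ge_one χ hr t
  rw [norm_mul, norm_mul, norm_pow, norm_pow] at h1
  have h2 : r * ‖LFunctionTrivChar q (1 + r)‖ ≤ 2 := by
    have h3 := mul_le_mul_of_nonneg_left (triv_ub q hr) hr.le
    rw [mul_add, mul_one_div_cancel hr.ne'] at h3
    linarith
  have h3 := norm_nonneg (LFunctionTrivChar q (1 + r))
  have h4 := norm_nonneg (LFunction χ (1 + r + Complex.I * t))
  have h5 := norm_nonneg (LFunction (χ ^ 2) (1 + r + 2 * Complex.I * t))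
  generalize ‖LFunctionTrivChar q (1 + r)‖ = a at *
  generalize ‖LFunction χ (1 + r + Complex.I * t)‖ = b at *
  generalize ‖LFunction (χ ^ 2) (1 + r + 2 * Complex.I * t)‖ = m at *
  have h6 : (r * a) ^ 3 ≤ 2 ^ 3 := pow_le_pow_left₀ (by positivity) h2 3
  have h7 : r ^ 3 ≤ 8 * (b ^ 4 * M) :=
    calc r ^ 3 ≤ r ^ 3 * (a ^ 3 * b ^ 4 * m) := le_mul_of_one_le_right (by positivity) h1
      _ = (r * a) ^ 3 * (b ^ 4 * m) := by ring
      _ ≤ 2 ^ 3 * (b ^ 4 * M) := by gcongr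
      _ = _ := by norm_num
  have h8 : 0 < M := by
    by_contra h8
    have := mul_nonpos_of_nonneg_of_nonpos (pow_nonneg h4 4) (not_lt.1 h8)
    have := pow_pos hr 3
    linarith
  by_contra h9
  have h10 := mul_lt_mul_of_pos_right (pow_lt_pow_left₀ (not_le.1 h9) h4 four_ne_zero) h8
  have h11 := mul_le_mul_of_nonneg_left h (pow_pos hr 3).le
  nlinarith

theorem xSZfL_low {η : ℝ} (h0 : 0 < η) (h1 : η ≤ 1 / 2) : ∃ c : ℝ, 0 < c ∧ c ≤ η / 2 ∧
    ∀ (q : ℕ) [NeZero q] (χ : DirichletCharacter ℂ q), χ ≠ 1 → ∀ T : ℝ, 1 ≤ T →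
      (∀ s : ℂ, 1 - η / 2 ≤ s.re → ‖s‖ ≤ 4 * T →
        ‖deriv (LFunction χ) s‖ ≤ 480 / η ^ 2 * ((q * T) ^ η) ^ 2) ∧
      ∀ r t : ℝ, 0 < r → r * ((q * T) ^ η) ^ 12 ≤ c → |t| ≤ T →
        4 * r * (480 / η ^ 2 * ((q * T) ^ η) ^ 2) ≤ ‖LFunction χ (1 + r + Complex.I * t)‖ := by
  obtain ⟨c₁, hc₁, hS⟩ := siegel h0
  obtain ⟨C, hC, hτ⟩ := MP_2a1f0e_nt.divisor_bound h0
  obtain ⟨K, hK⟩ : ∃ K, K = 480 / η ^ 2 := ⟨_, rfl⟩
  have hK0 : 0 < K := by rw [hK]; positivity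
  have hK1 : 20 / η * 12 ≤ K := by
    rw [hK, div_mul_eq_mul_div, div_le_div_iff₀ h0 (by positivity)]
    nlinarith
  obtain ⟨M, hM⟩ : ∃ M, M = C * K * (2 / c₁ + 1) := ⟨_, rfl⟩
  have hc2 : 0 < 2 / c₁ := by positivity
  have hM1 : K ≤ M := by
    rw [hM]
    nlinarith [mul_le_mul_of_nonneg_right hC hK0.le, mul_pos (mul_pos hK0 hc2) (one_pos.trans_le hC)]
  have hM0 : 0 < M := hK0.trans_le hM1
  refine ⟨min (η / 2) (min (c₁ / (10 * K)) (1 / (2048 * K ^ 4 * M))), by positivity,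
    min_le_left _ _, fun q _ χ hχ T hT => ?_⟩
  have hq : (1 : ℝ) ≤ q := by exact_mod_cast NeZero.one_le
  have hQ : (1 : ℝ) ≤ q * T := one_le_mul_of_one_le_of_one_le hq hT
  have hu : 1 ≤ (q * T) ^ η := Real.one_le_rpow hQ h0.le
  have hqu : (q : ℝ) ^ η ≤ (q * T) ^ η :=
    Real.rpow_le_rpow (by positivity) (le_mul_of_one_le_right (by positivity) hT) h0.le
  have hp : ∀ x : ℝ, 0 ≤ x → x ≤ 12 * (q * T) → x ^ (2 * η) ≤ 12 * ((q * T) ^ η) ^ 2 :=
    fun x hx h => xSZfL_pow (by positivity) hx h h0 h1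
  rw [← hK]
  generalize (q * T) ^ η = u at hu hqu hp ⊢
  have hu0 : 0 < u := one_pos.trans_le hu
  have hD : ∀ s : ℂ, 1 - η / 2 ≤ s.re → ‖s‖ ≤ 4 * T → ‖deriv (LFunction χ) s‖ ≤ K * u ^ 2 := by
    intro s hs hs'
    refine (L_deriv_ub hχ h0 h1 hs).trans ((mul_le_mul_of_nonneg_left
      (hp _ (by positivity) ?_) (by positivity)).trans_eq (by rw [hK]; ring))
    nlinarith [mul_le_mul (show (q : ℝ) + 1 ≤ 2 * q by linarith) (show ‖s‖ + 2 ≤ 6 * T by linarith)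
      (by positivity) (by positivity)]
  refine ⟨hD, fun r t hr hrc ht => ?_⟩
  rw [le_min_iff, le_min_iff] at hrc
  obtain ⟨r1, r2, r3⟩ := hrc
  have hru : ∀ n ≤ 12, r * u ^ n ≤ r * u ^ 12 := fun n hn =>
    mul_le_mul_of_nonneg_left (pow_le_pow_right₀ hu hn) hr.le
  have hr1 : r ≤ 1 := by
    have := hru 0 (by norm_num)
    rw [pow_zero] at this
    linarith
  have hn : ∀ y : ℝ, ‖(1 + r + Complex.I * y : ℂ)‖ ≤ 2 + |y| := fun y => by
    refine (Complex.norm_le_abs_re_add_abs_im _).trans ?_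
    simp only [Complex.add_re, Complex.one_re, Complex.ofReal_re, Complex.I_mul_re,
      Complex.ofReal_im, neg_zero, add_zero, Complex.add_im, Complex.one_im, Complex.I_mul_im,
      zero_add]
    rw [abs_of_pos (by linarith)]
    linarith
  have key : ‖LFunction (χ ^ 2) (1 + r + 2 * Complex.I * t)‖ ≤ M * u ^ 4 →
      4 * r * (K * u ^ 2) ≤ ‖LFunction χ (1 + r + Complex.I * t)‖ := fun h => by
    refine xSZfL_prod χ hr hr1 h ?_
    rw [le_div_iff₀ (by positivity)] at r3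
    linarith
  obtain ⟨s, hs⟩ : ∃ s : ℂ, s = 1 + r + 2 * Complex.I * t := ⟨_, rfl⟩
  rw [← hs] at key
  have hs1 : s.re = 1 + r := by simp [hs]
  have hs2 : s.im = 2 * t := by simp [hs]
  have hs3 : ‖s‖ ≤ 4 * T := by
    have h3 := hn (2 * t)
    rw [abs_mul, abs_two, show (1 + r + Complex.I * ((2 * t : ℝ) : ℂ) : ℂ) = s by
      rw [hs]; push_cast; ring] at h3
    linarith
  have hu2 : u ^ 2 ≤ u ^ 3 := pow_le_pow_right₀ hu (by norm_num)
  have hu3 : u ^ 2 ≤ u ^ 4 := pow_le_pow_right₀ hu (by norm_num)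
  have hb : ∀ x : ℝ, 0 ≤ x → x ≤ 12 * (q * T) → 20 / η * x ^ (2 * η) ≤ K * u ^ 2 := fun x hx h =>
    (mul_le_mul_of_nonneg_left (hp x hx h) (by positivity)).trans (by
      rw [← mul_assoc]
      exact mul_le_mul_of_nonneg_right hK1 (by positivity))
  by_cases h2 : χ ^ 2 = 1
  swap
  · refine key ((L_ub h2 h0 h1 (by linarith)).trans ((hb _ (by positivity) ?_).trans (by gcongr)))
    nlinarith [mul_le_mul (show (q : ℝ) + 1 ≤ 2 * q by linarith) (show ‖s‖ + 1 ≤ 6 * T by linarith)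
      (by positivity) (by positivity)]
  rcases le_total (c₁ / (2 * K * u ^ 3)) |t| with h3 | h3
  · refine key ?_
    have h4 : ‖1 / (s - 1)‖ ≤ 2 / c₁ * K * u ^ 3 := by
      have h5 := Complex.abs_im_le_norm (s - 1)
      rw [Complex.sub_im, Complex.one_im, sub_zero, hs2, abs_mul, abs_two] at h5
      have h6 : 0 < c₁ / (2 * K * u ^ 3) := by positivity
      rw [norm_div, norm_one]
      refine (one_div_le_one_div_of_le h6 (by linarith)).trans_eq ?_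
      field_simp
    have h5 : ‖zH s‖ ≤ K * u ^ 3 := (zH_ub h0 h1 (by linarith)).trans
      ((hb _ (by positivity) (by nlinarith)).trans (by gcongr))
    have h6 : ‖riemannZeta s‖ ≤ 2 / c₁ * K * u ^ 3 + K * u ^ 3 := by
      rw [zeta_eq fun h => by rw [h, Complex.one_re] at hs1; linarith]
      exact (norm_add_le _ _).trans (add_le_add h4 h5)
    have h7 : (q.divisors.card : ℝ) ≤ C * u :=
      (hτ q).trans (mul_le_mul_of_nonneg_left hqu (by linarith))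
    rw [h2]
    refine (triv_ub' q (by linarith)).trans ((mul_le_mul h7 h6 (norm_nonneg _)
      (mul_nonneg (by linarith) hu0.le)).trans_eq ?_)
    rw [hM]
    ring
  · have h4 := Convex.norm_image_sub_le_of_norm_deriv_le (𝕜 := ℂ) (f := LFunction χ)
      (s := {s : ℂ | 1 - η / 2 ≤ s.re} ∩ Metric.closedBall 0 (4 * T)) (x := 1 + r + Complex.I * t)
      (y := 1) (fun x _ => differentiable_LFunction hχ x)
      (fun x hx => hD x hx.1 (mem_closedBall_zero_iff.1 hx.2))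
      ((convex_halfSpace_re_ge _).inter (convex_closedBall _ _))
      ⟨by simp; linarith, mem_closedBall_zero_iff.2 ((hn t).trans (by linarith))⟩
      ⟨by simp; linarith, mem_closedBall_zero_iff.2 (by rw [norm_one]; linarith)⟩
    have h5 : ‖(1 : ℂ) - (1 + r + Complex.I * t)‖ ≤ r + |t| := by
      refine (Complex.norm_le_abs_re_add_abs_im _).trans ?_
      simp [abs_of_pos hr]
    have h6 : c₁ / u ≤ ‖LFunction χ 1‖ := by
      refine le_trans ?_ (hS q χ h2 hχ)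
      rw [Real.rpow_neg (by positivity), ← div_eq_mul_inv]
      exact div_le_div_of_nonneg_left hc₁.le (by positivity) hqu
    have h7 := norm_sub_norm_le (LFunction χ 1) (LFunction χ (1 + r + Complex.I * t))
    have h8 := mul_le_mul_of_nonneg_left h5 (show 0 ≤ K * u ^ 2 by positivity)
    have h9 : K * u ^ 2 * |t| ≤ c₁ / u / 2 :=
      (mul_le_mul_of_nonneg_left h3 (by positivity)).trans_eq (by field_simp)
    have h10 : 5 * r * (K * u ^ 2) ≤ c₁ / u / 2 := by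
      have h11 := (hru 3 (by norm_num)).trans r2
      rw [le_div_iff₀ (by positivity)] at h11
      rw [le_div_iff₀ two_pos, le_div_iff₀ hu0]
      linarith
    linarith

theorem zf_L {ε : ℝ} (hε : 0 < ε) : ∃ c : ℝ, 0 < c ∧ c ≤ 1 / 2 ∧ ∀ (q : ℕ) [NeZero q]
    (χ : DirichletCharacter ℂ q), χ ≠ 1 → ∀ T : ℝ, 1 ≤ T → ∀ s : ℂ,
      |s.re - 1| ≤ c * (q * T) ^ (-ε) → |s.im| ≤ T →
      LFunction χ s ≠ 0 ∧ ‖logDeriv (LFunction χ) s‖ ≤ (q * T) ^ ε / c := by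
  obtain ⟨η, h0, h1, h2⟩ : ∃ η : ℝ, 0 < η ∧ η ≤ 1 / 2 ∧ η * 12 ≤ ε :=
    ⟨min (1 / 2) (ε / 12), by positivity, min_le_left _ _, by linarith [min_le_right (1 / 2) (ε / 12)]⟩
  obtain ⟨c, hc, hc1, h⟩ := xSZfL_low h0 h1
  refine ⟨c, hc, by linarith, fun q _ χ hχ T hT s hs hs' => ?_⟩
  obtain ⟨hD, hL⟩ := h q χ hχ T hT
  have hq : (1 : ℝ) ≤ q := by exact_mod_cast NeZero.one_le
  have hQ : (1 : ℝ) ≤ q * T := one_le_mul_of_one_le_of_one_le hq hT
  generalize (q : ℝ) * T = Q at *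
  have hQ0 : 0 < Q := one_pos.trans_le hQ
  have h3 : Q ^ (-ε) ≤ 1 := Real.rpow_le_one_of_one_le_of_nonpos hQ (by linarith)
  have h4 : c * Q ^ (-ε) ≤ c := mul_le_of_le_one_right hc.le h3
  have h5 : c * Q ^ (-ε) * (Q ^ η) ^ 12 ≤ c := by
    rw [mul_assoc, ← Real.rpow_natCast, ← Real.rpow_mul hQ0.le, ← Real.rpow_add hQ0]
    exact mul_le_of_le_one_right hc.le
      (Real.rpow_le_one_of_one_le_of_nonpos hQ (by push_cast; linarith))
  have h6 := seg_lower (f := LFunction χ) (r := c * Q ^ (-ε)) (D := 480 / η ^ 2 * (Q ^ η) ^ 2)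
    (t := s.im) (by positivity) (by positivity) (fun σ hσ => ⟨differentiable_LFunction hχ _, ?_⟩)
    ?_ s.re hs
  · rw [Complex.re_add_im] at h6
    refine ⟨h6.1, h6.2.trans ?_⟩
    rw [Real.rpow_neg hQ0.le, div_le_div_iff₀ (by positivity) hc]
    have h7 : Q ^ ε * (2 * (c * (Q ^ ε)⁻¹)) = 2 * c := by field_simp
    linarith
  · obtain ⟨h7, h8⟩ := abs_le.1 hσ
    refine hD _ (by simp; linarith) ((Complex.norm_le_abs_re_add_abs_im _).trans ?_)
    have h9 : |σ| ≤ 2 := abs_le.2 ⟨by linarith, by linarith⟩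
    simp
    linarith
  · rw [mul_comm (s.im : ℂ), Complex.ofReal_add, Complex.ofReal_one]
    exact hL _ _ (by positivity) h5 hs'

end Pool.Agent.MP_e23604_nt.P
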