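import Pool.Agent.MP_e23604_nt.P.SGrow

/-!
A zero free region for zeta.
-/

open Finset DirichletCharacter
open scoped Classical

noncomputable section

namespace Pool.Agent.MP_e23604_nt.P

theorem xSZfZ_bd {η : ℝ} (h0 : 0 < η) (h1 : η ≤ 1 / 2) {T : ℝ} (hT : 1 ≤ T) {s : ℂ}
    (hs : 1 - η / 2 ≤ s.re) (hn : ‖s‖ ≤ 4 * T) :
    ‖zH s‖ ≤ 240 / η ^ 2 * T ^ (2 * η) ∧ ‖deriv zH s‖ ≤ 240 / η ^ 2 * T ^ (2 * η) := by
  have hP : 0 ≤ T ^ (2 * η) := Real.rpow_nonneg (by linarith) _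
  have key : ∀ x : ℝ, 0 ≤ x → x ≤ 6 * T → x ^ (2 * η) ≤ 6 * T ^ (2 * η) := by
    intro x hx hx'
    calc x ^ (2 * η) ≤ (6 * T) ^ (2 * η) := Real.rpow_le_rpow hx hx' (by linarith)
      _ = 6 ^ (2 * η) * T ^ (2 * η) := Real.mul_rpow (by norm_num) (by linarith)
      _ ≤ 6 * T ^ (2 * η) := by
        refine mul_le_mul_of_nonneg_right ?_ hP
        calc (6 : ℝ) ^ (2 * η) ≤ 6 ^ (1 : ℝ) :=
              Real.rpow_le_rpow_of_exponent_le (by norm_num) (by linarith)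
          _ = 6 := Real.rpow_one 6
  have hn0 := norm_nonneg s
  constructor
  · refine (zH_ub h0 h1 (by linarith)).trans ?_
    calc 20 / η * (‖s‖ + 1) ^ (2 * η) ≤ 20 / η * (6 * T ^ (2 * η)) :=
          mul_le_mul_of_nonneg_left (key _ (by linarith) (by linarith)) (by positivity)
      _ = 120 / η * T ^ (2 * η) := by ring
      _ ≤ 240 / η ^ 2 * T ^ (2 * η) := by
        refine mul_le_mul_of_nonneg_right ?_ hP
        rw [div_le_div_iff₀ h0 (by positivity)]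
        nlinarith
  · refine (zH_deriv_ub h0 h1 hs).trans ?_
    calc 40 / η ^ 2 * (‖s‖ + 2) ^ (2 * η) ≤ 40 / η ^ 2 * (6 * T ^ (2 * η)) :=
          mul_le_mul_of_nonneg_left (key _ (by linarith) (by linarith)) (by positivity)
      _ = 240 / η ^ 2 * T ^ (2 * η) := by ring

theorem xSZfZ_deriv (s : ℂ) : deriv zeta1 s = zH s + (s - 1) * deriv zH s := by
  have h : zeta1 = fun s => 1 + (s - 1) * zH s := funext zeta1_eq
  have h2 : HasDerivAt (fun s : ℂ => 1 + (s - 1) * zH s)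
      (1 * zH s + (s - 1) * deriv zH s) s :=
    (((hasDerivAt_id s).sub_const 1).mul (zH_diff s).hasDerivAt).const_add 1
  rw [h, h2.deriv, one_mul]

theorem xSZfZ_norm (x t : ℝ) : ‖(x : ℂ) + t * Complex.I‖ ≤ |x| + |t| := by
  refine (norm_add_le _ _).trans ?_
  simp

theorem xSZfZ_im (x t : ℝ) : |t| ≤ ‖(x : ℂ) + t * Complex.I‖ := by
  have := Complex.abs_im_le_norm ((x : ℂ) + t * Complex.I)
  simpa using this

/-- The derivative on a horizontal segment. -/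
theorem xSZfZ_D {r B t T : ℝ} (hr : r ≤ 1) (hT : 1 ≤ T) (ht : |t| ≤ T)
    (hb : ∀ s : ℂ, 1 - r ≤ s.re → ‖s‖ ≤ 4 * T → ‖zH s‖ ≤ B ∧ ‖deriv zH s‖ ≤ B)
    (σ : ℝ) (hσ : |σ - 1| ≤ r) :
    ‖deriv zeta1 (σ + t * Complex.I)‖ ≤ B * (2 + |t|) := by
  have h1 := abs_le.1 hσ
  have h2 : |σ| ≤ 2 := abs_le.2 ⟨by linarith [h1.1], by linarith [h1.2]⟩
  obtain ⟨h3, h4⟩ := hb (σ + t * Complex.I) (by simp; linarith [h1.1])
    ((xSZfZ_norm σ t).trans (by linarith))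
  have h5 : ‖(σ : ℂ) + t * Complex.I - 1‖ ≤ 1 + |t| := by
    have : (σ : ℂ) + t * Complex.I - 1 = ((σ - 1 : ℝ) : ℂ) + t * Complex.I := by
      push_cast; ring
    rw [this]
    exact (xSZfZ_norm _ _).trans (by linarith)
  rw [xSZfZ_deriv]
  refine (norm_add_le _ _).trans ?_
  rw [norm_mul]
  have h6 : ‖(σ : ℂ) + t * Complex.I - 1‖ * ‖deriv zH (σ + t * Complex.I)‖ ≤ (1 + |t|) * B :=
    mul_le_mul h5 h4 (norm_nonneg _) (by positivity)
  linarith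

/-- The three-four-one inequality. -/
theorem xSZfZ_341 {r : ℝ} (hr : 0 < r) (hr1 : r ≤ 1) (t : ℝ) :
    1 ≤ (2 / r) ^ 3 * ‖riemannZeta (((1 + r : ℝ) : ℂ) + t * Complex.I)‖ ^ 4 *
      ‖riemannZeta (((1 + r : ℝ) : ℂ) + (2 * t : ℝ) * Complex.I)‖ := by
  have h := norm_LFunction_product_ge_one (1 : DirichletCharacter ℂ 1) hr t
  have h2 := triv_ub 1 hr
  rw [norm_mul, norm_mul, norm_pow, norm_pow, LFunction_modOne_eq, LFunction_modOne_eq] at h
  have e1 : (1 : ℂ) + r + Complex.I * t = ((1 + r : ℝ) : ℂ) + t * Complex.I := by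
    push_cast; ring
  have e2 : (1 : ℂ) + r + 2 * Complex.I * t = ((1 + r : ℝ) : ℂ) + (2 * t : ℝ) * Complex.I := by
    push_cast; ring
  rw [e1, e2] at h
  refine le_trans h ?_
  have h3 : ‖LFunctionTrivChar 1 (1 + r)‖ ≤ 2 / r := by
    refine h2.trans ?_
    rw [le_div_iff₀ hr, add_mul, one_div, inv_mul_cancel₀ hr.ne']
    linarith
  gcongr

theorem xSZfZ_main {r A P T t : ℝ} (hA : 1 ≤ A) (hP : 1 ≤ P) (hr : 0 < r) (hT : 1 ≤ T)
    (hrA : 24 * A * r ≤ 1) (ht : |t| ≤ T)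
    (hb1 : ∀ s : ℂ, 1 - r ≤ s.re → ‖s‖ ≤ 4 * 1 → ‖zH s‖ ≤ A ∧ ‖deriv zH s‖ ≤ A)
    (hb : ∀ s : ℂ, 1 - r ≤ s.re → ‖s‖ ≤ 4 * T → ‖zH s‖ ≤ A * P ∧ ‖deriv zH s‖ ≤ A * P)
    (h : 32 * 36 ^ 4 * A ^ 9 * (r * P ^ 5) < 1) (σ : ℝ) (hσ : |σ - 1| ≤ r) :
    zeta1 (σ + t * Complex.I) ≠ 0 ∧ ‖logDeriv zeta1 (σ + t * Complex.I)‖ ≤ 1 / (2 * r) := by
  have hr1 : r ≤ 1 := by nlinarith
  have ht0 := abs_nonneg t
  have hsub : ∀ u : ℝ, ((1 + r : ℝ) : ℂ) + u * Complex.I - 1 = (r : ℂ) + u * Complex.I := by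
    intro u; push_cast; ring
  by_cases hc : 4 * A * |t| ≤ 1
  · have ht1 : |t| ≤ 1 := by nlinarith
    refine seg_lower (D := A * 3) hr (by positivity) (fun σ hσ => ⟨zeta1_diff _, ?_⟩) ?_ σ hσ
    · refine (xSZfZ_D hr1 le_rfl ht1 hb1 σ hσ).trans ?_
      nlinarith
    · have h1 : ‖zH (((1 + r : ℝ) : ℂ) + t * Complex.I)‖ ≤ A := by
        refine (hb1 _ (by simp; linarith) ((xSZfZ_norm _ _).trans ?_)).1
        rw [abs_of_pos (by linarith)]
        linarith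
      have h2 : ‖(r : ℂ) + t * Complex.I‖ ≤ r + |t| := by
        have := xSZfZ_norm r t
        rwa [abs_of_pos hr] at this
      have h3 : ‖((r : ℂ) + t * Complex.I) * zH (((1 + r : ℝ) : ℂ) + t * Complex.I)‖ ≤
          (r + |t|) * A := by
        rw [norm_mul]
        exact mul_le_mul h2 h1 (norm_nonneg _) (by positivity)
      rw [zeta1_eq, hsub]
      have h4 := norm_sub_le
        (1 + ((r : ℂ) + t * Complex.I) * zH (((1 + r : ℝ) : ℂ) + t * Complex.I))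
        (((r : ℂ) + t * Complex.I) * zH (((1 + r : ℝ) : ℂ) + t * Complex.I))
      rw [add_sub_cancel_right, norm_one] at h4
      nlinarith
  · push Not at hc
    have htp : 0 < |t| := by
      rcases ht0.lt_or_eq with h1 | h1
      · exact h1
      · rw [← h1] at hc; linarith
    have hne : ∀ u : ℝ, ((1 + r : ℝ) : ℂ) + u * Complex.I ≠ 1 := by
      intro u h1
      have := congrArg Complex.re h1
      simp at this
      linarith
    refine seg_lower (D := 9 * A ^ 2 * P * |t|) hr (by positivity)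
      (fun σ hσ => ⟨zeta1_diff _, ?_⟩) ?_ σ hσ
    · refine (xSZfZ_D hr1 hT ht hb σ hσ).trans ?_
      have h1 : 2 + |t| ≤ 9 * A * |t| := by nlinarith
      calc A * P * (2 + |t|) ≤ A * P * (9 * A * |t|) := by gcongr
        _ = 9 * A ^ 2 * P * |t| := by ring
    · have h1 : ‖riemannZeta (((1 + r : ℝ) : ℂ) + (2 * t : ℝ) * Complex.I)‖ ≤ 4 * A * P := by
        rw [zeta_eq (hne _), hsub]
        refine (norm_add_le _ _).trans ?_
        have h2 : ‖zH (((1 + r : ℝ) : ℂ) + (2 * t : ℝ) * Complex.I)‖ ≤ A * P := by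
          refine (hb _ (by simp; linarith) ((xSZfZ_norm _ _).trans ?_)).1
          rw [abs_of_pos (by linarith), abs_mul, abs_two]
          linarith
        have h3 : 2 * |t| ≤ ‖(r : ℂ) + (2 * t : ℝ) * Complex.I‖ := by
          have := xSZfZ_im r (2 * t)
          rwa [abs_mul, abs_two] at this
        have h4 : ‖1 / ((r : ℂ) + (2 * t : ℝ) * Complex.I)‖ ≤ 2 * A := by
          rw [norm_div, norm_one, div_le_iff₀ (by linarith)]
          nlinarith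
        nlinarith
      have h2 : 36 * r * A ^ 2 * P ≤ ‖riemannZeta (((1 + r : ℝ) : ℂ) + t * Complex.I)‖ := by
        by_contra h3
        push Not at h3
        have h4 := xSZfZ_341 hr hr1 t
        have h5 : (2 / r) ^ 3 * ‖riemannZeta (((1 + r : ℝ) : ℂ) + t * Complex.I)‖ ^ 4 *
            ‖riemannZeta (((1 + r : ℝ) : ℂ) + (2 * t : ℝ) * Complex.I)‖ ≤
            (2 / r) ^ 3 * (36 * r * A ^ 2 * P) ^ 4 * (4 * A * P) := by
          gcongr
        have h6 : (2 / r) ^ 3 * (36 * r * A ^ 2 * P) ^ 4 * (4 * A * P) =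
            32 * 36 ^ 4 * A ^ 9 * (r * P ^ 5) := by
          field_simp
          ring
        linarith
      have h3 : zeta1 (((1 + r : ℝ) : ℂ) + t * Complex.I) =
          ((r : ℂ) + t * Complex.I) * riemannZeta (((1 + r : ℝ) : ℂ) + t * Complex.I) := by
        rw [← hsub]
        unfold zeta1
        rw [Function.update_of_ne (hne t)]
      rw [h3, norm_mul]
      calc 4 * r * (9 * A ^ 2 * P * |t|) = |t| * (36 * r * A ^ 2 * P) := by ring
        _ ≤ _ := mul_le_mul (xSZfZ_im r t) h2 (by positivity) (norm_nonneg _)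

theorem zf_zeta {ε : ℝ} (hε : 0 < ε) : ∃ c : ℝ, 0 < c ∧ c ≤ 1 / 2 ∧ ∀ T : ℝ, 1 ≤ T → ∀ s : ℂ,
    |s.re - 1| ≤ c * T ^ (-ε) → |s.im| ≤ T →
    zeta1 s ≠ 0 ∧ ‖logDeriv zeta1 s‖ ≤ T ^ ε / c := by
  obtain ⟨η, h0, h1, h2⟩ : ∃ η : ℝ, 0 < η ∧ η ≤ 1 / 2 ∧ 10 * η ≤ ε :=
    ⟨min (ε / 10) (1 / 2), lt_min (by linarith) (by norm_num), min_le_right _ _,
      by linarith [min_le_left (ε / 10) (1 / 2)]⟩
  obtain ⟨A, hAe⟩ : ∃ A : ℝ, A = 240 / η ^ 2 := ⟨_, rfl⟩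
  have hA2 : 2 ≤ A * η := by
    rw [hAe, div_mul_eq_mul_div, le_div_iff₀ (by positivity)]
    nlinarith
  have hA0 : 0 < A := by rw [hAe]; positivity
  have hA : 1 ≤ A := by nlinarith
  have hA9 : A ≤ A ^ 9 := le_self_pow₀ hA (by norm_num)
  obtain ⟨c, hce⟩ : ∃ c : ℝ, c = 1 / (64 * 36 ^ 4 * A ^ 9) := ⟨_, rfl⟩
  have hc0 : 0 < c := by rw [hce]; positivity
  have hc1 : 64 * 36 ^ 4 * A ^ 9 * c = 1 := by
    rw [hce]; field_simp
  have hc2 : 24 * A * c ≤ 1 := by nlinarith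
  have hc3 : c ≤ η / 2 := by nlinarith
  refine ⟨c, hc0, by linarith, fun T hT s hs ht => ?_⟩
  have hT0 : 0 < T := by linarith
  have hq0 : 0 < T ^ (-ε) := Real.rpow_pos_of_pos hT0 _
  have hq1 : T ^ (-ε) ≤ 1 := Real.rpow_le_one_of_one_le_of_nonpos hT (by linarith)
  have hr0 : 0 < c * T ^ (-ε) := mul_pos hc0 hq0
  have hr1 : c * T ^ (-ε) ≤ c := mul_le_of_le_one_right hc0.le hq1
  have hP : 1 ≤ T ^ (2 * η) := Real.one_le_rpow hT (by linarith)
  have hP5 : T ^ (-ε) * (T ^ (2 * η)) ^ 5 ≤ 1 := by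
    rw [← Real.rpow_natCast, ← Real.rpow_mul hT0.le, ← Real.rpow_add hT0]
    refine Real.rpow_le_one_of_one_le_of_nonpos hT ?_
    push_cast
    linarith
  have hm := xSZfZ_main (r := c * T ^ (-ε)) (t := s.im) hA hP hr0 hT (by nlinarith) ht
    (fun s h3 h4 => by
      have := xSZfZ_bd h0 h1 le_rfl (s := s) (by linarith) h4
      rwa [Real.one_rpow, mul_one, ← hAe] at this)
    (fun s h3 h4 => by
      have := xSZfZ_bd h0 h1 hT (s := s) (by linarith) h4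
      rwa [← hAe] at this)
    (by
      have h3 : c * T ^ (-ε) * (T ^ (2 * η)) ^ 5 ≤ c := by
        rw [mul_assoc]
        exact mul_le_of_le_one_right hc0.le hP5
      have h4 : 32 * 36 ^ 4 * A ^ 9 * (c * T ^ (-ε) * (T ^ (2 * η)) ^ 5) ≤
          32 * 36 ^ 4 * A ^ 9 * c := by gcongr
      linarith)
    s.re hs
  rw [Complex.re_add_im] at hm
  refine ⟨hm.1, hm.2.trans ?_⟩
  rw [Real.rpow_neg hT0.le, div_le_div_iff₀ (by positivity) hc0]
  have h3 : 0 < T ^ ε := Real.rpow_pos_of_pos hT0 _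
  have h4 : T ^ ε * (2 * (c * (T ^ ε)⁻¹)) = 2 * c := by field_simp
  linarith

end Pool.Agent.MP_e23604_nt.P
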