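import Mathlib

/-!
The family in the final statement.
-/

namespace Pool.Agent.MP_e23604_nt

/-- The product of the four forms. -/
def famD (a b p q : ℕ) : ℕ :=
  a * b * (4 * a + b) * (16 * p ^ 2 * q ^ 2 * a + (p ^ 2 + q ^ 2) ^ 2 * b)

/-- The curve y^2 = x^3 + D x. -/
def ED (D : ℕ) : WeierstrassCurve ℚ := ⟨0, 0, 0, D, 0⟩

end Pool.Agent.MP_e23604_nt
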