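import Pool.Agent.MP_e23604_nt.P.Div

/-!
Truncated inclusion-exclusion.
-/

open Finset
open scoped Classical

noncomputable section

namespace Pool.Agent.MP_e23604_nt.P

theorem xBonf_abs_mu (e : ℕ) (n : ℤ) : |mu e n| ≤ if (e : ℤ) ∣ n then 1 else 0 := by
  unfold mu
  split_ifs with h
  · have := ArithmeticFunction.abs_moebius_le_one (n := e)
    exact_mod_cast this
  · simp

theorem xBonf_abs_sum {n : ℤ} (s : Finset ℕ) :
    |∑ e ∈ s, mu e n| ≤ ((s.filter fun e : ℕ => (e : ℤ) ∣ n).card : ℝ) := by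
  refine (Finset.abs_sum_le_sum_abs _ _).trans ?_
  refine (Finset.sum_le_sum fun e _ => xBonf_abs_mu e n).trans ?_
  rw [← Finset.sum_filter]
  simp

theorem xBonf_full {Q : Finset ℕ} (hQ : ∀ q ∈ Q, q.Prime) (n : ℤ) :
    ∑ e ∈ (∏ q ∈ Q, q).divisors, mu e n = if Rough Q n then (1 : ℝ) else 0 := by
  have hP : (∏ q ∈ Q, q) ≠ 0 := Finset.prod_ne_zero_iff.2 fun q hq => (hQ q hq).ne_zero
  have h1 : ∑ e ∈ (∏ q ∈ Q, q).divisors, mu e n =
      ∑ e ∈ (Nat.gcd (∏ q ∈ Q, q) n.natAbs).divisors, (ArithmeticFunction.moebius e : ℝ) := by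
    unfold mu
    rw [← Finset.sum_filter]
    refine Finset.sum_congr ?_ fun _ _ => rfl
    ext e
    simp only [Finset.mem_filter, Nat.mem_divisors, Nat.dvd_gcd_iff, Int.natCast_dvd]
    constructor
    · rintro ⟨⟨h1, _⟩, h2⟩
      exact ⟨⟨h1, h2⟩, Nat.gcd_ne_zero_left hP⟩
    · rintro ⟨⟨h1, h2⟩, _⟩
      exact ⟨⟨h1, hP⟩, h2⟩
  have h2 : ∀ g : ℕ, ∑ e ∈ g.divisors, (ArithmeticFunction.moebius e : ℝ) =
      if g = 1 then 1 else 0 := by
    intro g
    have h := congrArg (fun f : ArithmeticFunction ℤ => f g)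
      ArithmeticFunction.moebius_mul_coe_zeta
    simp only [ArithmeticFunction.coe_mul_zeta_apply, ArithmeticFunction.one_apply] at h
    have h' : ((∑ e ∈ g.divisors, ArithmeticFunction.moebius e : ℤ) : ℝ) =
        ((if g = 1 then 1 else 0 : ℤ) : ℝ) := by rw [h]
    push_cast at h'
    exact h'
  rw [h1, h2]
  refine if_congr ?_ rfl rfl
  change Nat.Coprime _ _ ↔ _
  rw [Nat.coprime_prod_left_iff]
  unfold Rough
  refine forall₂_congr fun q hq => ?_
  rw [(hQ q hq).coprime_iff_not_dvd, Int.natCast_dvd]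

theorem xBonf_two_pow {n : ℤ} (hn : n ≠ 0) {e : ℕ} (he : (e : ℤ) ∣ n) :
    (2 : ℝ) ^ e.primeFactors.card ≤ tau n := by
  have hn' : n.natAbs ≠ 0 := Int.natAbs_ne_zero.2 hn
  have h1 : e.primeFactors.card ≤ n.natAbs.primeFactors.card :=
    Finset.card_le_card (Nat.primeFactors_mono (Int.natCast_dvd.1 he) hn')
  have h2 : 2 ^ n.natAbs.primeFactors.card ≤ n.natAbs.divisors.card := by
    rw [Nat.card_divisors hn']
    refine Finset.pow_card_le_prod _ _ _ fun p hp => ?_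
    have := (Nat.prime_of_mem_primeFactors hp).factorization_pos_of_dvd hn'
      (Nat.dvd_of_mem_primeFactors hp)
    omega
  have h3 : 2 ^ e.primeFactors.card ≤ n.natAbs.divisors.card :=
    (Nat.pow_le_pow_right (by norm_num) h1).trans h2
  unfold tau
  exact_mod_cast h3

theorem flat_approx {Q : Finset ℕ} (hQ : ∀ q ∈ Q, q.Prime) (k : ℕ) {n : ℤ} (hn : n ≠ 0) :
    |(if Rough Q n then (1 : ℝ) else 0) - flat Q k n| ≤ tau n ^ 2 / 2 ^ k := by
  rw [← xBonf_full hQ n]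
  unfold flat ES
  rw [← Finset.sum_filter_add_sum_filter_not (∏ q ∈ Q, q).divisors
    (fun e => e.primeFactors.card ≤ k), add_sub_cancel_left]
  refine (xBonf_abs_sum _).trans ?_
  set M := (((∏ q ∈ Q, q).divisors.filter fun e => ¬ e.primeFactors.card ≤ k).filter
    fun e : ℕ => (e : ℤ) ∣ n) with hM
  have h2k : (0 : ℝ) < 2 ^ k := by positivity
  rcases M.eq_empty_or_nonempty with h0 | ⟨e, he⟩
  · rw [h0]
    simp only [Finset.card_empty, Nat.cast_zero]
    positivity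
  · have hc : (M.card : ℝ) ≤ tau n := card_le_tau hn M fun d hd => (Finset.mem_filter.1 hd).2
    have he1 := (Finset.mem_filter.1 he).2
    have he2 := (Finset.mem_filter.1 (Finset.mem_filter.1 he).1).2
    have h3 : (2 : ℝ) ^ k ≤ tau n :=
      (pow_le_pow_right₀ (by norm_num) (by omega)).trans (xBonf_two_pow hn he1)
    rw [le_div_iff₀ h2k, pow_two]
    exact mul_le_mul hc h3 h2k.le (h2k.le.trans h3)

theorem abs_flat_le (Q : Finset ℕ) (k : ℕ) {n : ℤ} (hn : n ≠ 0) : |flat Q k n| ≤ tau n := by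
  unfold flat
  exact (xBonf_abs_sum _).trans (card_le_tau hn _ fun d hd => (Finset.mem_filter.1 hd).2)

theorem ES_spec {Q : Finset ℕ} {W k e : ℕ} (hQ : Q ⊆ PW W) (he : e ∈ ES Q k) :
    1 ≤ e ∧ e ≤ (W + 1) ^ k ∧ ∀ c : ℕ, (∀ q ∈ Q, ¬ q ∣ c) → Nat.Coprime e c := by
  have hp : ∀ q ∈ Q, q.Prime := fun q hq => (Finset.mem_filter.1 (hQ hq)).2
  have hW : ∀ q ∈ Q, q ≤ W + 1 := fun q hq =>
    (Finset.mem_range.1 (Finset.mem_filter.1 (hQ hq)).1).le
  unfold ES at he
  obtain ⟨he1, he2⟩ := Finset.mem_filter.1 he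
  have hd : e ∣ ∏ q ∈ Q, q := Nat.dvd_of_mem_divisors he1
  refine ⟨Nat.pos_of_mem_divisors he1, ?_, fun c hc => ?_⟩
  · have hsq : Squarefree (∏ q ∈ Q, q) := by
      refine Finset.squarefree_prod_of_pairwise_isCoprime ?_ fun q hq => (hp q hq).squarefree
      intro a ha b hb hab
      exact Nat.coprime_iff_isRelPrime.1 ((Nat.coprime_primes (hp a ha) (hp b hb)).2 hab)
    have hse : Squarefree e := hsq.squarefree_of_dvd hd
    calc e = ∏ p ∈ e.primeFactors, p := (Nat.prod_primeFactors_of_squarefree hse).symm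
      _ ≤ (W + 1) ^ e.primeFactors.card := by
          refine Finset.prod_le_pow_card _ _ _ fun p hp' => ?_
          have hpp := Nat.prime_of_mem_primeFactors hp'
          obtain ⟨q, hq, hpq⟩ := (Prime.dvd_finsetProd_iff hpp.prime _).1
            ((Nat.dvd_of_mem_primeFactors hp').trans hd)
          rw [(Nat.prime_dvd_prime_iff_eq hpp (hp q hq)).1 hpq]
          exact hW q hq
      _ ≤ (W + 1) ^ k := Nat.pow_le_pow_right (by omega) he2
  · refine Nat.Coprime.coprime_dvd_left hd ?_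
    rw [Nat.coprime_prod_left_iff]
    exact fun q hq => (hp q hq).coprime_iff_not_dvd.2 (hc q hq)

theorem xBonf_cnt {ι : Type} (T : Finset ι) (j : ℕ) :
    ∑ E ∈ T.powerset, (if E.card = j then (1 : ℝ) else 0) = T.card.choose j := by
  rw [← Finset.sum_filter, ← Finset.powersetCard_eq_filter]
  simp

theorem xBonf_alt {ι : Type} (T : Finset ι) (k : ℕ) (f : ℕ → ℝ) :
    ∑ E ∈ T.powerset, (if E.card ≤ k then f E.card else 0) =
      ∑ j ∈ range (k + 1), f j * T.card.choose j := by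
  simp_rw [← xBonf_cnt, Finset.mul_sum]
  rw [Finset.sum_comm]
  refine Finset.sum_congr rfl fun E _ => ?_
  simp_rw [mul_ite, mul_one, mul_zero]
  rw [Finset.sum_ite_eq]
  simp

theorem xBonf_pt {ι : Type} (T : Finset ι) (k : ℕ) :
    |(if T = ∅ then (1 : ℝ) else 0) -
      ∑ E ∈ T.powerset, (if E.card ≤ k then (-1 : ℝ) ^ E.card else 0)| ≤
      ∑ E ∈ T.powerset, (if E.card = k + 1 then (1 : ℝ) else 0) := by
  rw [xBonf_alt T k (fun j => (-1 : ℝ) ^ j), xBonf_cnt]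
  split_ifs with h
  · subst h
    rw [Finset.sum_range_succ']
    simp
  · obtain ⟨r, hr⟩ : ∃ r, T.card = r + 1 :=
      Nat.exists_eq_succ_of_ne_zero (Finset.card_ne_zero.2 (Finset.nonempty_iff_ne_empty.2 h))
    rw [hr]
    have h1 := Int.alternating_sum_range_choose_eq_choose (n := r) (m := k)
    have h2 : ∑ j ∈ range (k + 1), (-1 : ℝ) ^ j * ((r + 1).choose j : ℝ) =
        (-1) ^ k * (r.choose k : ℝ) := by exact_mod_cast h1
    rw [h2, zero_sub, abs_neg, abs_mul, abs_pow, abs_neg, abs_one, one_pow, one_mul,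
      Nat.abs_cast, Nat.choose_succ_succ]
    push_cast
    have : (0 : ℝ) ≤ r.choose (k + 1) := Nat.cast_nonneg _
    linarith

theorem xBonf_swap {Ω ι : Type} (S : Finset Ω) (G : Ω → ℝ) (I : Finset ι) (y : ι → Ω → Prop)
    (c : Finset ι → ℝ) :
    ∑ ω ∈ S, G ω * ∑ E ∈ (I.filter fun i => y i ω).powerset, c E =
      ∑ E ∈ I.powerset, c E * ∑ ω ∈ S.filter fun ω => ∀ i ∈ E, y i ω, G ω := by
  have h1 : ∀ ω, ∑ E ∈ (I.filter fun i => y i ω).powerset, c E =
      ∑ E ∈ I.powerset, if ∀ i ∈ E, y i ω then c E else 0 := by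
    intro ω
    rw [← Finset.sum_filter]
    refine Finset.sum_congr ?_ fun _ _ => rfl
    ext E
    simp only [Finset.mem_powerset, Finset.mem_filter]
    constructor
    · intro h
      exact ⟨fun i hi => (Finset.mem_filter.1 (h hi)).1, fun i hi => (Finset.mem_filter.1 (h hi)).2⟩
    · rintro ⟨h1, h2⟩ i hi
      exact Finset.mem_filter.2 ⟨h1 hi, h2 i hi⟩
  simp_rw [h1, Finset.mul_sum]
  rw [Finset.sum_comm]
  refine Finset.sum_congr rfl fun E _ => ?_
  rw [Finset.sum_filter]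
  refine Finset.sum_congr rfl fun ω _ => ?_
  split_ifs
  · ring
  · simp

theorem xBonf_count (n m : ℕ) : ∑ j ∈ range (m + 1), (n.choose j : ℝ) ≤ ((n : ℝ) + 1) ^ m := by
  rw [add_pow]
  refine Finset.sum_le_sum fun j hj => ?_
  have h1 : (n.choose j : ℝ) ≤ (n : ℝ) ^ j := by exact_mod_cast Nat.choose_le_pow n j
  have h2 : (1 : ℝ) ≤ m.choose j := by
    exact_mod_cast Nat.choose_pos (Nat.lt_succ_iff.1 (Finset.mem_range.1 hj))
  rw [one_pow, mul_one]
  exact h1.trans (le_mul_of_one_le_right (by positivity) h2)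

theorem fund {Ω ι : Type} (S : Finset Ω) (G : Ω → ℝ) (hG : ∀ ω ∈ S, 0 ≤ G ω) (I : Finset ι)
    (y : ι → Ω → Prop) (ν : ι → ℝ) (hν : ∀ i ∈ I, 0 ≤ ν i ∧ ν i ≤ 1) {A R : ℝ} (hA : 0 ≤ A)
    (k : ℕ) (h : ∀ E ⊆ I, E.card ≤ k + 1 →
      |∑ ω ∈ S.filter fun ω => ∀ i ∈ E, y i ω, G ω - A * ∏ i ∈ E, ν i| ≤ R) :
    |∑ ω ∈ S.filter fun ω => ∀ i ∈ I, ¬ y i ω, G ω - A * ∏ i ∈ I, (1 - ν i)| ≤
      A * (∏ i ∈ I, (1 + 2 * ν i)) / 2 ^ k + 2 * ((I.card : ℝ) + 1) ^ (k + 1) * R := by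
  have hR : 0 ≤ R := (abs_nonneg _).trans (h ∅ (Finset.empty_subset _) (by simp))
  set F : Finset ι → ℝ := fun E => ∑ ω ∈ S.filter fun ω => ∀ i ∈ E, y i ω, G ω with hF
  set N : Finset ι → ℝ := fun E => ∏ i ∈ E, ν i with hN
  have hN0 : ∀ E ∈ I.powerset, 0 ≤ N E := fun E hE =>
    Finset.prod_nonneg fun i hi => (hν i (Finset.mem_powerset.1 hE hi)).1
  -- step 1
  have s1 : |∑ ω ∈ S.filter fun ω => ∀ i ∈ I, ¬ y i ω, G ω -
      ∑ E ∈ I.powerset, (if E.card ≤ k then (-1 : ℝ) ^ E.card else 0) * F E| ≤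
      ∑ E ∈ I.powerset, (if E.card = k + 1 then (1 : ℝ) else 0) * F E := by
    rw [hF]
    beta_reduce
    rw [← xBonf_swap S G I y (fun E => if E.card ≤ k then (-1 : ℝ) ^ E.card else 0),
      ← xBonf_swap S G I y (fun E => if E.card = k + 1 then (1 : ℝ) else 0),
      Finset.sum_filter, ← Finset.sum_sub_distrib]
    refine (Finset.abs_sum_le_sum_abs _ _).trans (Finset.sum_le_sum fun ω hω => ?_)
    have e1 : (if ∀ i ∈ I, ¬ y i ω then G ω else 0) =
        G ω * if (I.filter fun i => y i ω) = ∅ then (1 : ℝ) else 0 := by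
      simp only [Finset.filter_eq_empty_iff]
      split_ifs <;> simp_all
    rw [e1, ← mul_sub, abs_mul, abs_of_nonneg (hG ω hω)]
    exact mul_le_mul_of_nonneg_left (xBonf_pt _ k) (hG ω hω)
  have s2 : ∏ i ∈ I, (1 - ν i) = ∑ E ∈ I.powerset, (-1 : ℝ) ^ E.card * N E := by
    have : ∏ i ∈ I, (1 - ν i) = ∏ i ∈ I, (1 + (-1) * ν i) :=
      Finset.prod_congr rfl fun i _ => by ring
    rw [this, Finset.prod_one_add]
    refine Finset.sum_congr rfl fun E _ => ?_
    rw [Finset.prod_mul_distrib, Finset.prod_const]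
  have s3 : ∏ i ∈ I, (1 + 2 * ν i) = ∑ E ∈ I.powerset, (2 : ℝ) ^ E.card * N E := by
    rw [Finset.prod_one_add]
    refine Finset.sum_congr rfl fun E _ => ?_
    rw [Finset.prod_mul_distrib, Finset.prod_const]
  have s4 : ∑ E ∈ I.powerset, (if E.card ≤ k + 1 then (1 : ℝ) else 0) ≤
      ((I.card : ℝ) + 1) ^ (k + 1) := by
    rw [xBonf_alt I (k + 1) (fun _ => (1 : ℝ))]
    simp only [one_mul]
    exact xBonf_count _ _
  have s5 : |∑ E ∈ I.powerset, (if E.card ≤ k then (-1 : ℝ) ^ E.card else 0) * F E -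
      A * ∏ i ∈ I, (1 - ν i)| ≤ ∑ E ∈ I.powerset, (if E.card ≤ k then R else A * N E) := by
    rw [s2, Finset.mul_sum, ← Finset.sum_sub_distrib]
    refine (Finset.abs_sum_le_sum_abs _ _).trans (Finset.sum_le_sum fun E hE => ?_)
    split_ifs with hk
    · have := h E (Finset.mem_powerset.1 hE) (by omega)
      rw [show (-1 : ℝ) ^ E.card * F E - A * ((-1) ^ E.card * N E) =
        (-1) ^ E.card * (F E - A * N E) by ring, abs_mul, abs_pow, abs_neg, abs_one, one_pow,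
        one_mul]
      exact this
    · rw [zero_mul, zero_sub, abs_neg, abs_mul, abs_mul, abs_pow, abs_neg, abs_one, one_pow,
        one_mul, abs_of_nonneg hA, abs_of_nonneg (hN0 E hE)]
  have s6 : ∑ E ∈ I.powerset, (if E.card = k + 1 then (1 : ℝ) else 0) * F E +
      ∑ E ∈ I.powerset, (if E.card ≤ k then R else A * N E) ≤
      A * (∑ E ∈ I.powerset, (2 : ℝ) ^ E.card * N E) / 2 ^ k +
        (∑ E ∈ I.powerset, (if E.card ≤ k + 1 then (1 : ℝ) else 0)) * R := by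
    rw [Finset.mul_sum, Finset.sum_div, Finset.sum_mul, ← Finset.sum_add_distrib,
      ← Finset.sum_add_distrib]
    refine Finset.sum_le_sum fun E hE => ?_
    have hAN : 0 ≤ A * N E := mul_nonneg hA (hN0 E hE)
    have h2k : (0 : ℝ) < 2 ^ k := by positivity
    have key : ∀ c : ℝ, c * 2 ^ k ≤ 2 ^ E.card →
        c * (A * N E) ≤ A * (2 ^ E.card * N E) / 2 ^ k := by
      intro c hc
      rw [le_div_iff₀ h2k]
      calc c * (A * N E) * 2 ^ k = (c * 2 ^ k) * (A * N E) := by ring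
        _ ≤ 2 ^ E.card * (A * N E) := mul_le_mul_of_nonneg_right hc hAN
        _ = _ := by ring
    rcases lt_trichotomy E.card (k + 1) with h1 | h1 | h1
    · rw [if_neg h1.ne, if_pos (by omega), if_pos h1.le]
      have := key 0 (by simp)
      linarith
    · rw [if_pos h1, if_neg (by omega), if_pos h1.le]
      have h3 := key 2 (by rw [h1, pow_succ]; linarith)
      have h4 := (abs_le.1 (h E (Finset.mem_powerset.1 hE) h1.le)).2
      change F E - A * N E ≤ R at h4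
      linarith
    · rw [if_neg h1.ne', if_neg (by omega), if_neg (by omega)]
      have := key 1 (by rw [one_mul]; exact pow_le_pow_right₀ (by norm_num) (by omega))
      linarith
  have s7 := abs_sub_le (∑ ω ∈ S.filter fun ω => ∀ i ∈ I, ¬ y i ω, G ω)
    (∑ E ∈ I.powerset, (if E.card ≤ k then (-1 : ℝ) ^ E.card else 0) * F E)
    (A * ∏ i ∈ I, (1 - ν i))
  have s8 := mul_le_mul_of_nonneg_right s4 hR
  have s9 : 0 ≤ ((I.card : ℝ) + 1) ^ (k + 1) * R := by positivity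
  rw [s3]
  linarith

end Pool.Agent.MP_e23604_nt.P
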