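import Pool.Agent.MP_e23604_nt.P.Geo
import Pool.Agent.MP_e23604_nt.P.CW

/-!
The Cauchy-Schwarz inequality of step 3.
-/

open Finset
open scoped Classical

noncomputable section

namespace Pool.Agent.MP_e23604_nt.P

theorem xC3_blk {Z U : ℕ} (hU : 1 ≤ U) {c : ℕ} (h1 : U ≤ c) (h2 : c ≤ Z) (v : ℝ) :
    v = ∑ j ∈ (range (Nat.log 2 Z + 1)).filter fun j => U * 2 ^ j ≤ Z,
      if U * 2 ^ j ≤ c ∧ c < 2 * (U * 2 ^ j) then v else 0 := by
  have hq : c / U ≠ 0 := by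
    have : 1 ≤ c / U := (Nat.le_div_iff_mul_le hU).2 (by simpa using h1)
    omega
  have ha : 2 ^ Nat.log 2 (c / U) ≤ c / U := Nat.pow_log_le_self 2 hq
  have hb : c / U < 2 ^ (Nat.log 2 (c / U) + 1) := Nat.lt_pow_succ_log_self (by norm_num) _
  have ha' : U * 2 ^ Nat.log 2 (c / U) ≤ c := by
    rw [mul_comm]; exact (Nat.le_div_iff_mul_le hU).1 ha
  have hb' : c < 2 * (U * 2 ^ Nat.log 2 (c / U)) := by
    have := (Nat.div_lt_iff_lt_mul hU).1 hb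
    calc c < 2 ^ (Nat.log 2 (c / U) + 1) * U := this
      _ = _ := by ring
  rw [Finset.sum_eq_single (Nat.log 2 (c / U))]
  · rw [if_pos ⟨ha', hb'⟩]
  · intro j _ hj
    rw [if_neg]
    rintro ⟨h3, h4⟩
    apply hj
    symm
    apply (Nat.log_eq_iff (Or.inr ⟨by norm_num, hq⟩)).2
    constructor
    · exact (Nat.le_div_iff_mul_le hU).2 (by rw [mul_comm]; exact h3)
    · apply (Nat.div_lt_iff_lt_mul hU).2
      calc c < 2 * (U * 2 ^ j) := h4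
        _ = _ := by ring
  · intro h
    exfalso
    apply h
    rw [mem_filter, mem_range]
    refine ⟨Nat.lt_succ_of_le (Nat.log_mono_right ((Nat.div_le_self _ _).trans h2)), ha'.trans h2⟩

theorem blocks (X : ℕ) (T : Finset (ℕ × ℕ)) (Z : ℕ) {U : ℕ} (hU : 1 ≤ U)
    (g : ℕ × ℕ → Fin 4 → ℤ → ℝ) : SS X T (MF Z U) g =
      ∑ j ∈ (range (Nat.log 2 Z + 1)).filter fun j => U * 2 ^ j ≤ Z,
        SS X T (MB Z U (U * 2 ^ j)) g := by
  unfold SS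
  rw [Finset.sum_comm]
  refine Finset.sum_congr rfl fun τ _ => ?_
  unfold MB MF
  refine (Finset.sum_congr rfl fun m hm =>
    xC3_blk hU (mem_MS.1 hm).2.2 (MS_le hm 0).2 _).trans ?_
  rw [Finset.sum_comm]
  exact Finset.sum_congr rfl fun j _ => (Finset.sum_filter _ _).symm

/-- The range of the variable `n`. -/
def xC3_N (X M : ℕ) : Finset ℤ := Icc (1 : ℤ) (2 * (X : ℤ) / M)

theorem xC3_mem {X M c : ℕ} (hM : 1 ≤ M) (hc : M ≤ c) {n : ℤ} (h1 : (X : ℤ) < c * n)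
    (h2 : (c : ℤ) * n ≤ 2 * X) : n ∈ xC3_N X M := by
  have hM' : (1 : ℤ) ≤ M := by exact_mod_cast hM
  have hc' : (M : ℤ) ≤ c := by exact_mod_cast hc
  have hX : (0 : ℤ) ≤ X := Int.natCast_nonneg X
  have hn : 1 ≤ n := by
    by_contra h
    have : n ≤ 0 := by omega
    nlinarith
  unfold xC3_N
  rw [mem_Icc]
  refine ⟨hn, (Int.le_ediv_iff_mul_le (by omega)).2 ?_⟩
  nlinarith

theorem xC3_reidx {X M c : ℕ} (hM : 1 ≤ M) (hc : M ≤ c) (f : ℤ → ℝ)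
    (hf : ∀ a, f a ≠ 0 → (c : ℤ) ∣ a) : ∑ a ∈ Ioc (X : ℤ) (2 * X), f a =
      ∑ n ∈ xC3_N X M, if (X : ℤ) < c * n ∧ (c : ℤ) * n ≤ 2 * X then f (c * n) else 0 := by
  rw [← Finset.sum_filter]
  have hc0 : (c : ℤ) ≠ 0 := by
    have : 1 ≤ c := hM.trans hc
    omega
  have hinj : Set.InjOn (fun n : ℤ => (c : ℤ) * n)
      ↑((xC3_N X M).filter fun n => (X : ℤ) < c * n ∧ (c : ℤ) * n ≤ 2 * X) :=
    fun x _ y _ h => mul_left_cancel₀ hc0 h
  rw [← Finset.sum_image (f := f) hinj]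
  symm
  apply Finset.sum_subset
  · intro a ha
    obtain ⟨n, hn, rfl⟩ := mem_image.1 ha
    exact mem_Ioc.2 (mem_filter.1 hn).2
  · intro a ha hna
    by_contra h
    obtain ⟨n, rfl⟩ := hf a h
    apply hna
    have := mem_Ioc.1 ha
    exact mem_image.2 ⟨n, mem_filter.2 ⟨xC3_mem hM hc this.1 this.2, this⟩, rfl⟩

/-- The second weight. -/
def xC3_w (b : ℤ) (d : ℕ) : ℝ := if (d : ℤ) ∣ b then lam (b / d) else 0

theorem xC3_sumlog {b : ℕ} (hb : b ≠ 0) : ∑ p ∈ b.primeFactors, Real.log p ≤ Real.log b := by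
  rw [← Real.log_prod (fun p hp => by
    have := (Nat.prime_of_mem_primeFactors hp).pos
    positivity)]
  have h1 : ∏ p ∈ b.primeFactors, p ≤ b :=
    Nat.le_of_dvd (Nat.pos_of_ne_zero hb) (Nat.prod_primeFactors_dvd b)
  have h2 : 0 < ∏ p ∈ b.primeFactors, p :=
    Finset.prod_pos fun p hp => (Nat.prime_of_mem_primeFactors hp).pos
  rw [← Nat.cast_prod]
  exact Real.log_le_log (by exact_mod_cast h2) (by exact_mod_cast h1)

theorem xC3_wsum {b : ℤ} (hb : 0 < b) (Z : ℕ) :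
    ∑ d ∈ Icc 1 Z, xC3_w b d ^ 2 ≤ Real.log b ^ 2 := by
  obtain ⟨b, rfl⟩ := Int.eq_ofNat_of_zero_le hb.le
  have hb0 : b ≠ 0 := by omega
  have hl : 0 ≤ Real.log b := Real.log_natCast_nonneg b
  set S := (Icc 1 Z).filter fun d => d ∣ b ∧ (b / d).Prime with hS
  have h1 : ∑ d ∈ Icc 1 Z, xC3_w (b : ℤ) d ^ 2 = ∑ d ∈ S, Real.log ((b / d : ℕ) : ℝ) ^ 2 := by
    rw [hS, Finset.sum_filter]
    refine Finset.sum_congr rfl fun d _ => ?_
    unfold xC3_w lam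
    have e : ((b : ℤ) / (d : ℤ)) = ((b / d : ℕ) : ℤ) := by push_cast; rfl
    rw [e, Int.toNat_natCast]
    by_cases h : d ∣ b
    · rw [if_pos (Int.natCast_dvd_natCast.2 h)]
      by_cases hp : (b / d).Prime
      · rw [if_pos hp, if_pos ⟨h, hp⟩, Int.cast_natCast]
      · rw [if_neg hp, if_neg fun h' => hp h'.2]; norm_num
    · rw [if_neg fun h' => h (Int.natCast_dvd_natCast.1 h'), if_neg fun h' => h h'.1]; norm_num
  have hinj : Set.InjOn (fun d : ℕ => b / d) ↑S := by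
    intro x hx y hy h
    have hx' := (mem_filter.1 hx).2
    have hy' := (mem_filter.1 hy).2
    have e1 := Nat.div_mul_cancel hx'.1
    have e2 := Nat.div_mul_cancel hy'.1
    simp only at h
    rw [h] at e1
    exact Nat.eq_of_mul_eq_mul_left hy'.2.pos (e1.trans e2.symm)
  have h2 : ∑ d ∈ S, Real.log ((b / d : ℕ) : ℝ) ^ 2 =
      ∑ p ∈ S.image fun d => b / d, Real.log (p : ℝ) ^ 2 :=
    (Finset.sum_image (f := fun p : ℕ => Real.log (p : ℝ) ^ 2) hinj).symm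
  have h3 : (S.image fun d => b / d) ⊆ b.primeFactors := by
    intro p hp
    obtain ⟨d, hd, rfl⟩ := mem_image.1 hp
    have hd' := (mem_filter.1 hd).2
    exact Nat.mem_primeFactors.2 ⟨hd'.2, Nat.div_dvd_of_dvd hd'.1, hb0⟩
  rw [h1, h2, Int.cast_natCast]
  calc ∑ p ∈ S.image fun d => b / d, Real.log (p : ℝ) ^ 2
      ≤ ∑ p ∈ b.primeFactors, Real.log (p : ℝ) ^ 2 :=
        Finset.sum_le_sum_of_subset_of_nonneg h3 fun _ _ _ => by positivity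
    _ ≤ ∑ p ∈ b.primeFactors, Real.log b * Real.log (p : ℝ) := by
        refine Finset.sum_le_sum fun p hp => ?_
        have hp0 := (Nat.prime_of_mem_primeFactors hp).pos
        have hle : p ≤ b := Nat.le_of_mem_primeFactors hp
        have : Real.log p ≤ Real.log b :=
          Real.log_le_log (by exact_mod_cast hp0) (by exact_mod_cast hle)
        have h0 : 0 ≤ Real.log p := Real.log_natCast_nonneg p
        nlinarith
    _ = Real.log b * ∑ p ∈ b.primeFactors, Real.log (p : ℝ) := by rw [Finset.mul_sum]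
    _ ≤ Real.log b * Real.log b := mul_le_mul_of_nonneg_left (xC3_sumlog hb0) hl
    _ = _ := by ring

theorem xC3_lam_le {n : ℤ} {R : ℝ} (hR : 1 ≤ R) (h1 : 1 ≤ n) (h2 : (n : ℝ) ≤ R) :
    lam n ^ 2 ≤ Real.log R ^ 2 := by
  have h0 : (0 : ℝ) < n := by exact_mod_cast h1
  have hl : lam n ≤ Real.log R := by
    unfold lam
    split_ifs
    · exact Real.log_le_log h0 h2
    · exact Real.log_nonneg hR
  exact pow_le_pow_left₀ (lam_nonneg n) hl 2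

/-- The index set. -/
def xC3_Ix (T : Finset (ℕ × ℕ)) (X M Z : ℕ) : Finset ((ℕ × ℕ) × (ℤ × (ℤ × ℕ))) :=
  T ×ˢ (xC3_N X M ×ˢ (Ioc (X : ℤ) (2 * X) ×ˢ Icc 1 Z))

theorem xC3_first {X : ℕ} (hX : 6 ≤ Real.log X) (C0 : ℝ) (Y Z : ℕ) {M : ℕ} (hM : 1 ≤ M) :
    ∑ i ∈ xC3_Ix (TT C0 Y) X M Z, (lam i.2.1 * xC3_w i.2.2.1 i.2.2.2) ^ 2 ≤
      (X : ℝ) ^ 2 * (Y : ℝ) ^ 2 / M * Real.log X ^ 6 := by
  have hX2 : (2 : ℝ) ≤ X := by
    by_contra h
    have h' : (X : ℝ) < 2 := not_le.1 h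
    have : Real.log X ≤ X := Real.log_le_self (Nat.cast_nonneg X)
    linarith
  have hM' : (1 : ℝ) ≤ M := by exact_mod_cast hM
  have hMz : (0 : ℤ) < M := by exact_mod_cast hM
  set L := Real.log X with hL
  have hl2 : Real.log (2 * X : ℝ) ≤ 2 * L := by
    rw [Real.log_mul (by norm_num) (by linarith)]
    have : Real.log 2 ≤ L := Real.log_le_log (by norm_num) hX2
    linarith
  have hl0 : 0 ≤ Real.log (2 * X : ℝ) := Real.log_nonneg (by linarith)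
  have hsq : Real.log (2 * X : ℝ) ^ 2 ≤ 4 * L ^ 2 := by nlinarith
  have hq : (((2 * (X : ℤ) / M : ℤ)) : ℝ) ≤ 2 * X / M := by
    rw [le_div_iff₀ (by linarith)]
    have := Int.ediv_mul_le (2 * (X : ℤ)) hMz.ne'
    exact_mod_cast this
  have hA : ∑ n ∈ xC3_N X M, lam n ^ 2 ≤ 2 * X / M * (4 * L ^ 2) := by
    have hc : ((xC3_N X M).card : ℝ) ≤ 2 * X / M := by
      unfold xC3_N
      rw [Int.card_Icc]
      have h0 : 0 ≤ 2 * (X : ℤ) / M := Int.ediv_nonneg (by positivity) hMz.le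
      have e : ((2 * (X : ℤ) / M + 1 - 1).toNat : ℤ) = 2 * (X : ℤ) / M := by omega
      have e' : (((2 * (X : ℤ) / M + 1 - 1).toNat : ℕ) : ℝ) = ((2 * (X : ℤ) / M : ℤ) : ℝ) := by
        rw [← Int.cast_natCast, e]
      rw [e']; exact hq
    calc ∑ n ∈ xC3_N X M, lam n ^ 2 ≤ ∑ n ∈ xC3_N X M, 4 * L ^ 2 := by
          refine Finset.sum_le_sum fun n hn => ?_
          have hn' := mem_Icc.1 hn
          have h3 : (n : ℝ) ≤ 2 * X := by
            have h4 : (n : ℝ) ≤ ((2 * (X : ℤ) / M : ℤ) : ℝ) := by exact_mod_cast hn'.2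
            have h5 : 2 * (X : ℝ) / M ≤ 2 * X := div_le_self (by linarith) hM'
            linarith
          exact (xC3_lam_le (by linarith) hn'.1 h3).trans hsq
      _ = (xC3_N X M).card * (4 * L ^ 2) := by rw [Finset.sum_const, nsmul_eq_mul]
      _ ≤ _ := mul_le_mul_of_nonneg_right hc (by positivity)
  have hB : ∑ b ∈ Ioc (X : ℤ) (2 * X), ∑ d ∈ Icc 1 Z, xC3_w b d ^ 2 ≤ X * (4 * L ^ 2) := by
    calc ∑ b ∈ Ioc (X : ℤ) (2 * X), ∑ d ∈ Icc 1 Z, xC3_w b d ^ 2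
        ≤ ∑ b ∈ Ioc (X : ℤ) (2 * X), 4 * L ^ 2 := by
          refine Finset.sum_le_sum fun b hb => ?_
          have hb' := mem_Ioc.1 hb
          have hb0 : 0 < b := lt_of_le_of_lt (Int.natCast_nonneg X) hb'.1
          have hb1 : (1 : ℝ) ≤ b := by exact_mod_cast hb0
          have hb2 : (b : ℝ) ≤ 2 * X := by exact_mod_cast hb'.2
          refine (xC3_wsum hb0 Z).trans (le_trans ?_ hsq)
          exact pow_le_pow_left₀ (Real.log_nonneg hb1) (Real.log_le_log (by linarith) hb2) 2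
      _ = X * (4 * L ^ 2) := by
          rw [Finset.sum_const, nsmul_eq_mul, Int.card_Ioc]
          have : (2 * (X : ℤ) - X).toNat = X := by omega
          rw [this]
  have hE : ∑ i ∈ xC3_Ix (TT C0 Y) X M Z, (lam i.2.1 * xC3_w i.2.2.1 i.2.2.2) ^ 2 =
      (TT C0 Y).card * ((∑ n ∈ xC3_N X M, lam n ^ 2) *
        ∑ b ∈ Ioc (X : ℤ) (2 * X), ∑ d ∈ Icc 1 Z, xC3_w b d ^ 2) := by
    unfold xC3_Ix
    simp only [Finset.sum_product, Finset.sum_const, nsmul_eq_mul, mul_pow]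
    congr 1
    rw [Finset.sum_mul]
    refine Finset.sum_congr rfl fun n _ => ?_
    simp only [Finset.mul_sum]
  rw [hE]
  have hA0 : 0 ≤ ∑ n ∈ xC3_N X M, lam n ^ 2 := Finset.sum_nonneg fun _ _ => by positivity
  have hB0 : 0 ≤ ∑ b ∈ Ioc (X : ℤ) (2 * X), ∑ d ∈ Icc 1 Z, xC3_w b d ^ 2 :=
    Finset.sum_nonneg fun _ _ => Finset.sum_nonneg fun _ _ => by positivity
  calc ((TT C0 Y).card : ℝ) * ((∑ n ∈ xC3_N X M, lam n ^ 2) *
        ∑ b ∈ Ioc (X : ℤ) (2 * X), ∑ d ∈ Icc 1 Z, xC3_w b d ^ 2)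
      ≤ (Y : ℝ) ^ 2 * ((2 * X / M * (4 * L ^ 2)) * (X * (4 * L ^ 2))) := by
        refine mul_le_mul (card_TT C0 Y) (mul_le_mul hA hB hB0 (by positivity))
          (mul_nonneg hA0 hB0) (by positivity)
    _ = (X : ℝ) ^ 2 * (Y : ℝ) ^ 2 / M * (32 * L ^ 4) := by ring
    _ ≤ _ := by
        refine mul_le_mul_of_nonneg_left ?_ (by positivity)
        have h4 : 0 ≤ L ^ 4 := by positivity
        have h5 : 32 ≤ L ^ 2 := by nlinarith
        calc 32 * L ^ 4 ≤ L ^ 2 * L ^ 4 := mul_le_mul_of_nonneg_right h5 h4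
          _ = L ^ 6 := by ring

/-- One term of the inner sum. -/
def xC3_t (X : ℕ) (g : ℤ → ℝ) (τ : ℕ × ℕ) (x : (Fin 4 → ℕ) × ℕ) (n b : ℤ) : ℝ :=
  if (X : ℤ) < x.1 0 * n ∧ (x.1 0 : ℤ) * n ≤ 2 * X then
    F3 τ x n b * g ((4 * (x.1 0 : ℤ) * n + 1 * b) / (x.1 2 : ℤ)) else 0

/-- The inner sum. -/
def xC3_P (X Z U M W k : ℕ) (g : ℤ → ℝ) (i : (ℕ × ℕ) × (ℤ × (ℤ × ℕ))) : ℝ :=
  ∑ x ∈ (MB Z U M i.1 ×ˢ ES (Q4 W i.1) k).filter fun x => x.1 1 = i.2.2.2,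
    xC3_t X g i.1 x i.2.1 i.2.2.1

theorem xC3_MB {Z U M : ℕ} {τ : ℕ × ℕ} {m : Fin 4 → ℕ} (h : m ∈ MB Z U M τ) :
    M ≤ m 0 ∧ m 1 ∈ Icc 1 Z := by
  have h' := mem_filter.1 h
  exact ⟨h'.2.1, mem_Icc.2 (MS_le h'.1 1)⟩

theorem xC3_one {X M : ℕ} (hM : 1 ≤ M) (W k : ℕ) (g : ℤ → ℝ) (τ : ℕ × ℕ) {m : Fin 4 → ℕ}
    (hm : M ≤ m 0) :
    ∑ z ∈ box X, GG τ m z.1 z.2 * ∏ i, (![lam, lam, g, flat (Q4 W τ) k] : Fin 4 → ℤ → ℝ) i
      (uu τ m z i) = ∑ e ∈ ES (Q4 W τ) k, ∑ n ∈ xC3_N X M, ∑ b ∈ Ioc (X : ℤ) (2 * X),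
        lam n * xC3_w b (m 1) * xC3_t X g τ (m, e) n b := by
  have hm0 : (m 0 : ℤ) ≠ 0 := by
    have : 1 ≤ m 0 := hM.trans hm
    omega
  unfold box
  rw [Finset.sum_product, xC3_reidx hM hm]
  · rw [Finset.sum_comm (s := ES (Q4 W τ) k)]
    refine Finset.sum_congr rfl fun n _ => ?_
    rw [Finset.sum_comm]
    unfold xC3_t
    split_ifs with hc
    · refine Finset.sum_congr rfl fun b _ => ?_
      rw [Fin.prod_univ_four]
      simp only [Matrix.cons_val_zero, Matrix.cons_val_one, Matrix.cons_val]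
      unfold flat F3
      simp only [Finset.mul_sum]
      refine Finset.sum_congr rfl fun e _ => ?_
      by_cases hG : GG τ m (m 0 * n) b = 0
      · rw [hG]; ring
      · have hd : (m 1 : ℤ) ∣ b := by simpa [LL] using ((GG_cond hG).2.2 1).1
        have e0 : uu τ m ((m 0 : ℤ) * n, b) 0 = n := by
          simp [uu, LL, Int.mul_ediv_cancel_left _ hm0]
        have e1 : lam (uu τ m ((m 0 : ℤ) * n, b) 1) = xC3_w b (m 1) := by
          simp [uu, LL, xC3_w, hd]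
        have e2 : uu τ m ((m 0 : ℤ) * n, b) 2 = (4 * (m 0 : ℤ) * n + 1 * b) / (m 2 : ℤ) := by
          simp [uu, LL, mul_assoc]
        rw [e0, e1, e2]
        ring
    · simp
  · intro a ha
    obtain ⟨b, _, hb⟩ := Finset.exists_ne_zero_of_sum_ne_zero ha
    have hG := left_ne_zero_of_mul hb
    simpa [LL] using ((GG_cond hG).2.2 0).1

theorem xC3_SS {X M : ℕ} (hM : 1 ≤ M) (Z U W k : ℕ) (g : ℤ → ℝ) (T : Finset (ℕ × ℕ)) :
    SS X T (MB Z U M) (fun τ => ![lam, lam, g, flat (Q4 W τ) k]) =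
      ∑ i ∈ xC3_Ix T X M Z, (lam i.2.1 * xC3_w i.2.2.1 i.2.2.2) * xC3_P X Z U M W k g i := by
  unfold SS xC3_Ix
  rw [Finset.sum_product]
  refine Finset.sum_congr rfl fun τ _ => ?_
  rw [Finset.sum_congr rfl fun m hm => xC3_one hM W k g τ (xC3_MB hm).1,
    ← Finset.sum_product' (f := fun m e => ∑ n ∈ xC3_N X M, ∑ b ∈ Ioc (X : ℤ) (2 * X),
        lam n * xC3_w b (m 1) * xC3_t X g τ (m, e) n b), Finset.sum_comm, Finset.sum_product]
  refine Finset.sum_congr rfl fun n _ => ?_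
  rw [Finset.sum_comm, Finset.sum_product]
  refine Finset.sum_congr rfl fun b _ => ?_
  rw [← Finset.sum_fiberwise_of_maps_to (g := fun x : (Fin 4 → ℕ) × ℕ => x.1 1) (t := Icc 1 Z)
    fun x hx => (xC3_MB (mem_product.1 hx).1).2]
  refine Finset.sum_congr rfl fun d _ => ?_
  unfold xC3_P
  rw [Finset.mul_sum]
  refine Finset.sum_congr rfl fun x hx => ?_
  rw [← (mem_filter.1 hx).2]

theorem xC3_T {X M : ℕ} (hM : 1 ≤ M) (g : ℤ → ℝ) (τ : ℕ × ℕ) {x y : (Fin 4 → ℕ) × ℕ}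
    (hx : M ≤ x.1 0) (hy : M ≤ y.1 0) : (dat3 X (τ, (x, y))).T g g =
      ∑ n ∈ xC3_N X M, ∑ b ∈ Ioc (X : ℤ) (2 * X), xC3_t X g τ x n b * xC3_t X g τ y n b := by
  have hx0 : (0 : ℤ) < x.1 0 := by exact_mod_cast hM.trans hx
  have hy0 : (0 : ℤ) < y.1 0 := by exact_mod_cast hM.trans hy
  have hI : Ioc (max ((X : ℤ) / x.1 0) ((X : ℤ) / y.1 0))
      (min (2 * (X : ℤ) / x.1 0) (2 * (X : ℤ) / y.1 0)) = (xC3_N X M).filter fun n =>
        ((X : ℤ) < x.1 0 * n ∧ (x.1 0 : ℤ) * n ≤ 2 * X) ∧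
          ((X : ℤ) < y.1 0 * n ∧ (y.1 0 : ℤ) * n ≤ 2 * X) := by
    ext n
    rw [mem_Ioc, mem_filter, max_lt_iff, le_min_iff, Int.ediv_lt_iff_lt_mul hx0,
      Int.ediv_lt_iff_lt_mul hy0, Int.le_ediv_iff_mul_le hx0, Int.le_ediv_iff_mul_le hy0,
      mul_comm n, mul_comm n]
    constructor
    · rintro ⟨⟨h1, h2⟩, h3, h4⟩
      exact ⟨xC3_mem hM hx h1 h3, ⟨h1, h3⟩, h2, h4⟩
    · rintro ⟨_, ⟨h1, h3⟩, h2, h4⟩
      exact ⟨⟨h1, h2⟩, h3, h4⟩
  unfold Datum.T Datum.bx Datum.l Datum.l'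
  simp only [dat3]
  rw [hI, Finset.sum_product, Finset.sum_filter]
  refine Finset.sum_congr rfl fun n _ => ?_
  unfold xC3_t
  by_cases h1 : (X : ℤ) < x.1 0 * n ∧ (x.1 0 : ℤ) * n ≤ 2 * X
  · by_cases h2 : (X : ℤ) < y.1 0 * n ∧ (y.1 0 : ℤ) * n ≤ 2 * X
    · rw [if_pos ⟨h1, h2⟩]
      refine Finset.sum_congr rfl fun b _ => ?_
      rw [if_pos h1, if_pos h2]
      ring
    · rw [if_neg fun h => h2 h.2]
      simp [h2]
  · rw [if_neg fun h => h1 h.1]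
    simp [h1]

theorem xC3_sq {α : Type} (A : Finset α) (c : α → ℕ) (D : Finset ℕ) (hc : ∀ x ∈ A, c x ∈ D)
    (t : α → ℝ) : ∑ d ∈ D, (∑ x ∈ A.filter fun x => c x = d, t x) ^ 2 =
      ∑ p ∈ (A ×ˢ A).filter fun p => c p.1 = c p.2, t p.1 * t p.2 := by
  rw [← Finset.sum_fiberwise_of_maps_to (g := fun p : α × α => c p.1) (t := D)
    fun p hp => hc _ (mem_product.1 (mem_filter.1 hp).1).1]
  refine Finset.sum_congr rfl fun d _ => ?_
  rw [pow_two, Finset.sum_mul_sum, ← Finset.sum_product']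
  refine Finset.sum_congr ?_ fun _ _ => rfl
  ext p
  simp only [mem_product, mem_filter]
  constructor
  · rintro ⟨⟨h1, h2⟩, h3, h4⟩
    exact ⟨⟨⟨h1, h3⟩, h2.trans h4.symm⟩, h2⟩
  · rintro ⟨⟨⟨h1, h3⟩, h2⟩, h4⟩
    exact ⟨⟨h1, h4⟩, h3, h2.symm.trans h4⟩

theorem xC3_second {X M : ℕ} (hM : 1 ≤ M) (Z U W k : ℕ) (g : ℤ → ℝ) (T : Finset (ℕ × ℕ)) :
    ∑ i ∈ xC3_Ix T X M Z, xC3_P X Z U M W k g i ^ 2 =
      ∑ π ∈ P3 T Z U M W k, (dat3 X π).T g g := by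
  unfold P3 xC3_Ix
  rw [Finset.sum_biUnion, Finset.sum_product]
  · refine Finset.sum_congr rfl fun τ _ => ?_
    rw [Finset.sum_image fun x _ y _ h => (Prod.mk.inj h).2]
    rw [Finset.sum_congr rfl fun p hp => xC3_T hM g τ (x := p.1) (y := p.2)
      (xC3_MB (mem_product.1 (mem_product.1 (mem_filter.1 hp).1).1).1).1
      (xC3_MB (mem_product.1 (mem_product.1 (mem_filter.1 hp).1).2).1).1]
    rw [Finset.sum_comm, Finset.sum_product]
    refine Finset.sum_congr rfl fun n _ => ?_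
    rw [Finset.sum_comm, Finset.sum_product]
    refine Finset.sum_congr rfl fun b _ => ?_
    exact xC3_sq (MB Z U M τ ×ˢ ES (Q4 W τ) k) (fun x => x.1 1) (Icc 1 Z)
      (fun x hx => (xC3_MB (mem_product.1 hx).1).2) (fun x => xC3_t X g τ x n b)
  · intro τ _ σ _ h
    rw [Function.onFun, Finset.disjoint_left]
    intro p hp hq
    obtain ⟨x, _, rfl⟩ := mem_image.1 hp
    obtain ⟨y, _, hy⟩ := mem_image.1 hq
    exact h (Prod.mk.inj hy).1.symm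

theorem cs3 : ∃ X1 : ℕ, ∀ X ≥ X1, ∀ (Y Z U M W k : ℕ) (C0 : ℝ) (g : ℤ → ℝ), 1 ≤ M →
    SS X (TT C0 Y) (MB Z U M) (fun τ => ![lam, lam, g, flat (Q4 W τ) k]) ^ 2 ≤
      (X : ℝ) ^ 2 * (Y : ℝ) ^ 2 / M * Real.log X ^ 6 *
        ∑ π ∈ P3 (TT C0 Y) Z U M W k, (dat3 X π).T g g := by
  obtain ⟨X1, h1⟩ := log_pow_le 0 0 6
  refine ⟨X1, fun X hX Y Z U M W k C0 g hM => ?_⟩
  rw [xC3_SS hM, ← xC3_second hM]
  refine (Finset.sum_mul_sq_le_sq_mul_sq _ _ _).trans ?_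
  exact mul_le_mul_of_nonneg_right (xC3_first (h1 X hX).1 C0 Y Z hM)
    (Finset.sum_nonneg fun _ _ => by positivity)

end Pool.Agent.MP_e23604_nt.P
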