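import Pool.Agent.MP_e23604_nt.P.Geo
import Pool.Agent.MP_e23604_nt.P.CW
import Pool.Agent.MP_e23604_nt.P.C3

/-!
The Cauchy-Schwarz inequality of step 4.
-/

open Finset
open scoped Classical

noncomputable section

namespace Pool.Agent.MP_e23604_nt.P

theorem xC4_cs {Ω ι κ : Type} [DecidableEq κ] (S : Finset Ω) (J : Finset ι) (K : Finset κ) (key : ι → κ)
    (hk : ∀ x ∈ J, key x ∈ K) (w : Ω → κ → ℝ) (t : Ω → ι → ℝ) {A : ℝ}
    (hA : ∑ z ∈ S, ∑ k ∈ K, w z k ^ 2 ≤ A) :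
    (∑ z ∈ S, ∑ x ∈ J, w z (key x) * t z x) ^ 2 ≤ A *
      ∑ y ∈ (J ×ˢ J).filter fun y => key y.1 = key y.2, ∑ z ∈ S, t z y.1 * t z y.2 := by
  have e1 : ∑ z ∈ S, ∑ x ∈ J, w z (key x) * t z x =
      ∑ i ∈ S ×ˢ K, w i.1 i.2 * ∑ x ∈ J.filter fun x => key x = i.2, t i.1 x := by
    rw [Finset.sum_product]
    refine Finset.sum_congr rfl fun z _ => ?_
    rw [← Finset.sum_fiberwise_of_maps_to hk]
    refine Finset.sum_congr rfl fun k _ => ?_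
    rw [Finset.mul_sum]
    exact Finset.sum_congr rfl fun x hx => by rw [(mem_filter.1 hx).2]
  have e2 : ∑ i ∈ S ×ˢ K, (∑ x ∈ J.filter fun x => key x = i.2, t i.1 x) ^ 2 =
      ∑ y ∈ (J ×ˢ J).filter fun y => key y.1 = key y.2, ∑ z ∈ S, t z y.1 * t z y.2 := by
    rw [Finset.sum_product, Finset.sum_comm (t := S)]
    refine Finset.sum_congr rfl fun z _ => ?_
    rw [← Finset.sum_fiberwise_of_maps_to (g := fun y : ι × ι => key y.1) (t := K)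
      fun y hy => hk _ (mem_product.1 (mem_filter.1 hy).1).1]
    refine Finset.sum_congr rfl fun k _ => ?_
    rw [pow_two, Finset.sum_mul_sum, ← Finset.sum_product']
    refine Finset.sum_congr ?_ fun _ _ => rfl
    ext y
    simp only [mem_product, mem_filter]
    constructor
    · rintro ⟨⟨a, b⟩, c, d⟩
      exact ⟨⟨⟨a, c⟩, b.trans d.symm⟩, b⟩
    · rintro ⟨⟨⟨a, c⟩, b⟩, d⟩
      exact ⟨⟨a, d⟩, c, b.symm.trans d⟩
  rw [← Finset.sum_product'] at hA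
  rw [e1, ← e2]
  exact (Finset.sum_mul_sq_le_sq_mul_sq _ _ _).trans
    (mul_le_mul_of_nonneg_right hA (Finset.sum_nonneg fun _ _ => sq_nonneg _))

theorem xC4_w {X : ℕ} (hX : 10 ≤ X) (Z : ℕ) {n : ℤ} (h0 : 0 < n) (h1 : n ≤ 10 * X) :
    ∑ d ∈ Icc 1 Z, xC3_w n d ^ 2 ≤ (2 * Real.log X) ^ 2 := by
  have a0 : (1 : ℝ) ≤ n := by exact_mod_cast h0
  have a1 : (n : ℝ) ≤ (X : ℝ) ^ 2 := by
    have : (n : ℝ) ≤ 10 * X := by exact_mod_cast h1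
    have : (10 : ℝ) ≤ X := by exact_mod_cast hX
    nlinarith
  have a2 := Real.log_le_log (by linarith) a1
  rw [Real.log_pow] at a2
  exact (xC3_wsum h0 Z).trans (pow_le_pow_left₀ (Real.log_nonneg a0) (by exact_mod_cast a2) 2)

theorem cs4 : ∃ C X1 : ℕ, ∀ X ≥ X1, ∀ (Y Z U : ℕ) (C0 : ℝ) (g : ℤ → ℝ),
    SS X (TT C0 Y) (MF Z U) (fun _ => ![lam, lam, lam, g]) ^ 2 ≤
      (X : ℝ) ^ 2 * Real.log X ^ C * ∑ π ∈ P4 (TT C0 Y) Z U, (dat4 X π).T g g := by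
  obtain ⟨X1, h1⟩ := log_pow_le 0 1 2
  refine ⟨12, X1 + 10, fun X hX Y Z U C0 g => ?_⟩
  have hL := (h1 X (by omega)).1
  obtain ⟨T, hT⟩ : ∃ T, T = TT C0 Y := ⟨_, rfl⟩
  rw [← hT]
  let J : Finset ((ℕ × ℕ) × (Fin 4 → ℕ)) :=
    (T ×ˢ Fintype.piFinset fun _ => Icc 1 Z).filter fun x => x.2 ∈ MF Z U x.1
  have hJ : ∀ x, x ∈ J ↔ x.1 ∈ T ∧ x.2 ∈ MF Z U x.1 := fun x => by
    simp only [J, mem_filter, mem_product, Fintype.mem_piFinset, mem_Icc]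
    exact ⟨fun h => ⟨h.1.1, h.2⟩, fun h => ⟨⟨h.1, MS_le h.2⟩, h.2⟩⟩
  have e1 : SS X T (MF Z U) (fun _ => ![lam, lam, lam, g]) = ∑ z ∈ box X, ∑ x ∈ J,
      xC3_w z.1 (x.2 0) * xC3_w z.2 (x.2 1) * xC3_w (4 * z.1 + z.2) (x.2 2) *
        (GG x.1 x.2 z.1 z.2 * g (uu x.1 x.2 z 3)) := by
    rw [Finset.sum_comm, Finset.sum_finset_product J T (MF Z U) hJ, SS]
    refine Finset.sum_congr rfl fun τ _ => Finset.sum_congr rfl fun m _ =>
      Finset.sum_congr rfl fun z _ => ?_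
    by_cases hG : GG τ m z.1 z.2 = 0
    · simp [hG]
    have d0 : (m 0 : ℤ) ∣ z.1 := ((GG_cond hG).2.2 0).1
    have d1 : (m 1 : ℤ) ∣ z.2 := ((GG_cond hG).2.2 1).1
    have d2 : (m 2 : ℤ) ∣ 4 * z.1 + z.2 := ((GG_cond hG).2.2 2).1
    simp only [Fin.prod_univ_four, Matrix.cons_val_zero, Matrix.cons_val_one, Matrix.cons_val,
      xC3_w, if_pos d0, if_pos d1, if_pos d2]
    have u0 : uu τ m z 0 = z.1 / m 0 := rfl
    have u1 : uu τ m z 1 = z.2 / m 1 := rfl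
    have u2 : uu τ m z 2 = (4 * z.1 + z.2) / m 2 := rfl
    rw [u0, u1, u2]
    ring
  have e2 : ∑ y ∈ (J ×ˢ J).filter fun y => (y.1.2 0, y.1.2 1, y.1.2 2) = (y.2.2 0, y.2.2 1, y.2.2 2),
      ∑ z ∈ box X, GG y.1.1 y.1.2 z.1 z.2 * g (uu y.1.1 y.1.2 z 3) *
        (GG y.2.1 y.2.2 z.1 z.2 * g (uu y.2.1 y.2.2 z 3)) =
      ∑ π ∈ P4 T Z U, (dat4 X π).T g g := by
    refine Finset.sum_nbij' (fun y => ((y.1.1, y.2.1), (y.1.2, y.2.2)))
      (fun π => ((π.1.1, π.2.1), (π.1.2, π.2.2))) ?_ ?_ (fun _ _ => rfl) (fun _ _ => rfl) ?_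
    · intro y hy
      simp only [J, P4, mem_filter, mem_product, Prod.mk.injEq] at hy ⊢
      tauto
    · intro y hy
      simp only [J, P4, mem_filter, mem_product, Prod.mk.injEq] at hy ⊢
      tauto
    · intro y _
      refine Finset.sum_congr rfl fun z _ => ?_
      change _ = GG y.1.1 y.1.2 z.1 z.2 * GG y.2.1 y.2.2 z.1 z.2 * g (uu y.1.1 y.1.2 z 3) *
        g (uu y.2.1 y.2.2 z 3)
      ring
  have e3 : ∑ z ∈ box X, ∑ k ∈ Icc 1 Z ×ˢ Icc 1 Z ×ˢ Icc 1 Z,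
      (xC3_w z.1 k.1 * xC3_w z.2 k.2.1 * xC3_w (4 * z.1 + z.2) k.2.2) ^ 2 ≤
      (X : ℝ) ^ 2 * Real.log X ^ 12 := by
    rw [← card_box, ← nsmul_eq_mul]
    refine Finset.sum_le_card_nsmul _ _ _ fun z hz => ?_
    obtain ⟨⟨a1, a2⟩, a3, a4⟩ := mem_box.1 hz
    have b0 := xC4_w (X := X) (by omega) Z (n := z.1) (by omega) (by omega)
    have b1 := xC4_w (X := X) (by omega) Z (n := z.2) (by omega) (by omega)
    have b2 := xC4_w (X := X) (by omega) Z (n := 4 * z.1 + z.2) (by omega) (by omega)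
    have b3 : (2 * Real.log X) ^ 2 ≤ Real.log X ^ 4 := by
      calc _ ≤ (Real.log X * Real.log X) ^ 2 := by gcongr
        _ = _ := by ring
    calc _ = (∑ d ∈ Icc 1 Z, xC3_w z.1 d ^ 2) * ((∑ d ∈ Icc 1 Z, xC3_w z.2 d ^ 2) *
          ∑ d ∈ Icc 1 Z, xC3_w (4 * z.1 + z.2) d ^ 2) := by
          rw [Finset.sum_mul_sum, ← Finset.sum_product', Finset.sum_mul_sum,
            ← Finset.sum_product']
          exact Finset.sum_congr rfl fun _ _ => by ring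
      _ ≤ Real.log X ^ 4 * (Real.log X ^ 4 * Real.log X ^ 4) := by
          gcongr
          exacts [b0.trans b3, b1.trans b3, b2.trans b3]
      _ = _ := by ring
  have cs := xC4_cs (box X) J (Icc 1 Z ×ˢ Icc 1 Z ×ˢ Icc 1 Z) (fun x => (x.2 0, x.2 1, x.2 2))
    (fun x hx => by
      have := MS_le ((hJ x).1 hx).2
      simp only [mem_product, mem_Icc]
      exact ⟨this 0, this 1, this 2⟩)
    (fun z k => xC3_w z.1 k.1 * xC3_w z.2 k.2.1 * xC3_w (4 * z.1 + z.2) k.2.2)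
    (fun z x => GG x.1 x.2 z.1 z.2 * g (uu x.1 x.2 z 3)) e3
  rw [e2] at cs
  rw [e1]
  exact cs

end Pool.Agent.MP_e23604_nt.P
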