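import Pool.Agent.MP_e23604_nt.P.Defs

/-!
Reduction of the kernel of the full matrix to the small block.
-/

open Finset
open scoped Classical

noncomputable section

namespace Pool.Agent.MP_e23604_nt.P

theorem xCLin_one {ι κ : Type} [Fintype ι] [Fintype κ]
    (B : (ι → ZMod 2) →ₗ[ZMod 2] (ι → ZMod 2) →ₗ[ZMod 2] ZMod 2) (x0 x1 x2 x3 : ι → ZMod 2)
    (δ : κ → ι → ZMod 2) (A : κ → κ → ZMod 2) (c r : κ → ZMod 2)
    (hA : ∀ i j, A i j = B (δ i) (δ j) + B (δ i) (x0 + x1) * B (x0 + x2) (δ j))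
    (hc : ∀ i, c i = B (δ i) x0) (hr : ∀ j, r j = B x0 (δ j))
    (r1 : ∀ u, B u x2 = B u x0) (r2 : ∀ u, B u x3 = B u x1) (β : ZMod 2) (b0 : B x0 x0 = β)
    (b1 : B x0 x1 = β) (b3 : B x2 x0 = β) (b4 : B x2 x1 = β + 1)
    (G1 : ∀ v : κ → ZMod 2, (∀ i, ∑ j, A i j * v j = 0) → ∑ j, r j * v j = 0 → v = 0)
    (G4 : ∃ u : κ → ZMod 2, (∀ j, ∑ i, u i * A i j = 0) ∧ ∑ i, u i * c i = 1)
    (c0 c1 c2 c3 : ZMod 2) (ω : κ → ZMod 2) (v : ι → ZMod 2)
    (hv : v = c0 • x0 + c1 • x1 + c2 • x2 + c3 • x3 + ∑ k, ω k • δ k) (h : ∀ u, B u v = 0) :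
    v = 0 ∨ v = x0 + x2 ∨ v = x1 + x3 ∨ v = x0 + x2 + (x1 + x3) := by
  have two : (2 : ZMod 2) = 0 := rfl
  have hw : ∀ u, B u (∑ k, ω k • δ k) = ∑ k, B u (δ k) * ω k := fun u => by
    rw [map_sum]
    exact sum_congr rfl fun k _ => by rw [map_smul, smul_eq_mul, mul_comm]
  have E : ∀ u, (c0 + c2) * B u x0 + (c1 + c3) * B u x1 + ∑ k, B u (δ k) * ω k = 0 := fun u => by
    have := h u
    rw [hv] at this
    simp only [map_add, map_smul, smul_eq_mul, r1, r2, hw] at this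
    linear_combination this
  have e0 := E x0
  have e2 : ∑ k, B (x0 + x2) (δ k) * ω k = c1 + c3 := by
    have := E (x0 + x2)
    rw [map_add B, LinearMap.add_apply, LinearMap.add_apply, b0, b1, b3, b4, ← map_add B] at this
    linear_combination this - ((c0 + c2) * β + (c1 + c3) * β + (c1 + c3)) * two
  have ek : ∀ i, ∑ j, A i j * ω j = (c0 + c2 + (c1 + c3)) * c i := fun i => by
    simp only [hA, add_mul, sum_add_distrib, mul_assoc, ← mul_sum]
    rw [e2, map_add, hc]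
    linear_combination E (δ i) - (c0 + c2) * B (δ i) x0 * two
  rw [b0, b1] at e0
  have hs : c0 + c2 + (c1 + c3) = 0 := by
    obtain ⟨u, hu, hu'⟩ := G4
    have h1 : ∑ i, u i * ∑ j, A i j * ω j = 0 := by
      simp only [mul_sum, ← mul_assoc]
      rw [sum_comm]
      exact sum_eq_zero fun j _ => by rw [← sum_mul, hu, zero_mul]
    simp only [ek, mul_left_comm (u _), ← mul_sum] at h1
    rwa [hu', mul_one] at h1
  have h0 : ω = 0 := G1 ω (fun i => by rw [ek, hs, zero_mul]) (by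
    simp only [hr]
    linear_combination e0 - β * hs)
  subst h0
  simp only [Pi.zero_apply, mul_zero, sum_const_zero, zero_smul, add_zero] at e2 hv
  obtain rfl : c3 = c1 := by linear_combination -e2 - c1 * two
  obtain rfl : c2 = c0 := by linear_combination hs - (c0 + c3) * two
  have k : ∀ a : ZMod 2, a = 0 ∨ a = 1 := by decide
  rw [hv]
  rcases k c2 with rfl | rfl <;> rcases k c3 with rfl | rfl
  · left
    simp
  · right; right; left
    simp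
  · right; left
    simp
  · right; right; right
    simp only [one_smul]
    abel

theorem xCLin_dec {ι κ : Type} [Fintype κ] (χ : Fin 4 → ι → ZMod 2) (p : Fin 4 → ι) (e : κ → ι)
    (he : Function.Injective e) (hp : ∀ i j, χ i (p j) = if i = j then 1 else 0)
    (hpe : ∀ i k, p i ≠ e k) (hall : ∀ x, (∃ i, x = p i) ∨ ∃ k, x = e k) (v : ι → ZMod 2) :
    ∃ ω : κ → ZMod 2, v = v (p 0) • χ 0 + v (p 1) • χ 1 + v (p 2) • χ 2 + v (p 3) • χ 3 +
      ∑ k, ω k • (Pi.single (e k) 1 : ι → ZMod 2) := by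
  refine ⟨fun k => v (e k) - (v (p 0) • χ 0 + v (p 1) • χ 1 + v (p 2) • χ 2 + v (p 3) • χ 3) (e k),
    funext fun x => ?_⟩
  rw [Pi.add_apply, Finset.sum_apply]
  rcases hall x with ⟨i, rfl⟩ | ⟨k, rfl⟩
  · rw [sum_eq_zero fun k _ => by rw [Pi.smul_apply, Pi.single_eq_of_ne (hpe i k), smul_zero]]
    fin_cases i <;> simp [hp]
  · rw [sum_eq_single k (fun j _ hj => by
      rw [Pi.smul_apply, Pi.single_eq_of_ne (he.ne hj.symm), smul_zero]) (by simp), Pi.smul_apply,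
      Pi.single_eq_same, smul_eq_mul, mul_one, add_sub_cancel]

theorem ker_of_good {ι κ : Type} [Fintype ι] [Fintype κ] (R : ι → ι → ZMod 2)
    (χ : Fin 4 → ι → ZMod 2) (p : Fin 4 → ι) (e : κ → ι) (he : Function.Injective e)
    (hp : ∀ i j, χ i (p j) = if i = j then 1 else 0) (hpe : ∀ i k, p i ≠ e k)
    (hall : ∀ x, (∃ i, x = p i) ∨ ∃ k, x = e k)
    (r1 : ∀ x, ∑ y, R x y * (χ 0 y + χ 2 y) = 0) (r2 : ∀ x, ∑ y, R x y * (χ 1 y + χ 3 y) = 0)
    (l1 : ∀ y, ∑ x, (χ 0 x + χ 1 x) * R x y = 0) (l2 : ∀ y, ∑ x, (χ 2 x + χ 3 x) * R x y = 0)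
    (β : ZMod 2) (b1 : ∑ x, χ 0 x * ∑ y, R x y * χ 1 y = β)
    (b2 : ∑ x, χ 0 x * ∑ y, R x y * χ 2 y = β) (b3 : ∑ x, χ 2 x * ∑ y, R x y * χ 0 y = β)
    (b4 : ∑ x, χ 2 x * ∑ y, R x y * χ 1 y = β + 1)
    (hG : GoodM (fun i j => R (e i) (e j) + (∑ y, R (e i) y * (χ 0 y + χ 1 y)) *
        ∑ x, (χ 0 x + χ 2 x) * R x (e j)) (fun i => ∑ y, R (e i) y * χ 0 y)
      (fun j => ∑ x, χ 0 x * R x (e j))) :
    (∀ v : ι → ZMod 2, (∀ x, ∑ y, R x y * v y = 0) →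
      v = 0 ∨ v = χ 0 + χ 2 ∨ v = χ 1 + χ 3 ∨ v = χ 0 + χ 2 + (χ 1 + χ 3)) ∧
    ∀ u : ι → ZMod 2, (∀ y, ∑ x, u x * R x y = 0) →
      u = 0 ∨ u = χ 0 + χ 1 ∨ u = χ 2 + χ 3 ∨ u = χ 0 + χ 1 + (χ 2 + χ 3) := by
  have two : (2 : ZMod 2) = 0 := rfl
  obtain ⟨B, hB⟩ : ∃ B : (ι → ZMod 2) →ₗ[ZMod 2] (ι → ZMod 2) →ₗ[ZMod 2] ZMod 2,
      ∀ u v, B u v = ∑ x, u x * ∑ y, R x y * v y :=
    ⟨Matrix.toBilin' (Matrix.of R), fun u v => by
      simp only [Matrix.toBilin'_apply, Matrix.of_apply, mul_sum, mul_assoc]⟩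
  have hB' : ∀ u v, B u v = ∑ y, (∑ x, u x * R x y) * v y := fun u v => by
    simp only [hB, mul_sum, sum_mul, mul_assoc]
    exact sum_comm
  have s1 : ∀ x v, B (Pi.single x 1) v = ∑ y, R x y * v y := fun x v => by
    simp [hB, Pi.single_apply]
  have s2 : ∀ u y, B u (Pi.single y 1) = ∑ x, u x * R x y := fun u y => by
    simp [hB, Pi.single_apply]
  have s3 : ∀ x y, B (Pi.single x 1) (Pi.single y 1) = R x y := fun x y => by
    simp [s1, Pi.single_apply]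
  have rk : ∀ a b : ι → ZMod 2, (∀ x, ∑ y, R x y * (a y + b y) = 0) → ∀ u, B u b = B u a :=
    fun a b h u => by
      have h1 : B u (a + b) = 0 := by simp only [hB, Pi.add_apply, h, mul_zero, sum_const_zero]
      rw [map_add] at h1
      linear_combination h1 - B u a * two
  have lk : ∀ a b : ι → ZMod 2, (∀ y, ∑ x, (a x + b x) * R x y = 0) → ∀ u, B b u = B a u :=
    fun a b h u => by
      have h1 : B (a + b) u = 0 := by simp only [hB', Pi.add_apply, h, zero_mul, sum_const_zero]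
      rw [map_add, LinearMap.add_apply] at h1
      linear_combination h1 - B a u * two
  rw [← hB] at b1 b2 b3 b4
  have b0 : B (χ 0) (χ 0) = β := by rw [← rk _ _ r1, b2]
  obtain ⟨G1, G2, ⟨g3, G3, G3'⟩, G4⟩ := hG
  refine ⟨fun v hv => ?_, fun u hu => ?_⟩
  · obtain ⟨ω, hω⟩ := xCLin_dec χ p e he hp hpe hall v
    refine xCLin_one B (χ 0) (χ 1) (χ 2) (χ 3) (fun k => Pi.single (e k) 1) _ _ _ (fun i j => ?_)
      (fun i => (s1 _ _).symm) (fun j => (s2 _ _).symm) (rk _ _ r1) (rk _ _ r2) β b0 b1 b3 b4 G1 G4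
      _ _ _ _ ω v hω fun u => by simp only [hB, hv, mul_zero, sum_const_zero]
    rw [s3, s1, s2]
    rfl
  · obtain ⟨ω, hω⟩ := xCLin_dec χ p e he hp hpe hall u
    refine xCLin_one B.flip (χ 0) (χ 2) (χ 1) (χ 3) (fun k => Pi.single (e k) 1)
      (fun j i => R (e i) (e j) + (∑ y, R (e i) y * (χ 0 y + χ 1 y)) *
        ∑ x, (χ 0 x + χ 2 x) * R x (e j)) (fun j => ∑ x, χ 0 x * R x (e j))
      (fun i => ∑ y, R (e i) y * χ 0 y) (fun i j => ?_)
      (fun i => (s2 _ _).symm) (fun j => (s1 _ _).symm) (lk _ _ l1) (lk _ _ l2) β b0 b3 b1 b4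
      (fun v h1 h2 => G2 v (fun j => ?_) ?_) ⟨g3, fun j => ?_, ?_⟩
      (u (p 0)) (u (p 2)) (u (p 1)) (u (p 3)) ω u (hω.trans (by abel)) fun v => ?_
    · rw [LinearMap.flip_apply, LinearMap.flip_apply, LinearMap.flip_apply, s3, s1, s2, mul_comm]
      rfl
    · simpa only [mul_comm] using h1 j
    · simpa only [mul_comm] using h2
    · simpa only [mul_comm] using G3 j
    · simpa only [mul_comm] using G3'
    · simp only [LinearMap.flip_apply, hB', hu, zero_mul, sum_const_zero]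

end Pool.Agent.MP_e23604_nt.P
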