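import Pool.Agent.MP_e23604_nt.P.CRel
import Pool.Agent.MP_e23604_nt.P.CLin

/-!
The kernels of the Redei matrix on the good event.
-/

open Finset
open scoped Classical

noncomputable section

namespace Pool.Agent.MP_e23604_nt.P

theorem xCKer_LL {τ : ℕ × ℕ} {m : Fin 4 → ℕ} {z : ℤ × ℤ} (hc : Cond τ m z.1 z.2)
    (hp : ∀ i, (uu τ m z i).toNat.Prime) (i : Fin 4) :
    ((uu τ m z i).toNat : ℤ) = uu τ m z i ∧ LN τ z.1 z.2 i = m i * (uu τ m z i).toNat ∧
      LL τ z.1 z.2 i = (m i * (uu τ m z i).toNat : ℕ) ∧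
      Nat.Coprime (uu τ m z i).toNat (MM m) := by
  have h1 : ((uu τ m z i).toNat : ℤ) = uu τ m z i := by
    have := (hp i).pos
    omega
  have h2 : LL τ z.1 z.2 i = (m i * (uu τ m z i).toNat : ℕ) := by
    rw [Nat.cast_mul, h1, uu, Int.mul_ediv_cancel' (hc.2.2 i).1]
  refine ⟨h1, by rw [LN, h2, Int.toNat_natCast], h2, ?_⟩
  rw [← Nat.isCoprime_iff_coprime, h1]
  exact (hc.2.2 i).2

theorem four_of {τ : ℕ × ℕ} {m : Fin 4 → ℕ} {z : ℤ × ℤ} (hτ : Adm τ) (hm : Squarefree (MM m))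
    (ha : 0 < z.1) (hb : 0 < z.2) (hc : Cond τ m z.1 z.2) (hp : ∀ i, (uu τ m z i).toNat.Prime)
    (hi : Function.Injective (uu τ m z)) : Four τ z.1 z.2 := by
  refine ⟨hτ, ha, hb, hc.1, hc.2.1, ?_⟩
  have h := xCKer_LL hc hp
  have e : (DD τ z.1 z.2).toNat = MM m * ∏ i, (uu τ m z i).toNat := by
    rw [DD, Finset.prod_congr rfl fun i _ => (h i).2.2.1, ← Nat.cast_prod, Int.toNat_natCast,
      Finset.prod_mul_distrib, MM]
  rw [e, Nat.squarefree_mul (Nat.Coprime.prod_right fun i _ => (h i).2.2.2.symm)]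
  refine ⟨hm, Finset.squarefree_prod_of_pairwise_isCoprime (fun i _ j _ hij => ?_)
    fun i _ => (hp i).prime.squarefree⟩
  refine Nat.coprime_iff_isRelPrime.1 ((Nat.coprime_primes (hp i) (hp j)).2 fun e => hij (hi ?_))
  rw [← (h i).1, ← (h j).1, e]

theorem xCKer_ind_mul (D : ℕ) {d d' : ℕ} (h : Nat.Coprime d d') :
    ind D (d * d') = ind D d + ind D d' := by
  funext x
  have hx := Nat.prime_of_mem_primeFactors x.2
  simp only [ind, Pi.add_apply, hx.dvd_mul]
  by_cases h1 : (x : ℕ) ∣ d <;> by_cases h2 : (x : ℕ) ∣ d' <;> simp [h1, h2]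
  exact absurd (Nat.eq_one_of_dvd_coprimes h h1 h2) hx.ne_one

theorem xCKer_ind_one (D : ℕ) : ind D 1 = 0 := by
  funext x
  simp [ind, (Nat.prime_of_mem_primeFactors x.2).ne_one]

section

variable {τ : ℕ × ℕ} {a b : ℤ}

theorem xCKer_prod (h : Four τ a b) :
    (DD τ a b).toNat = LN τ a b 0 * LN τ a b 2 * (LN τ a b 1 * LN τ a b 3) ∧
      (DD τ a b).toNat = LN τ a b 0 * LN τ a b 1 * (LN τ a b 2 * LN τ a b 3) := by
  rw [h.prod, Fin.prod_univ_four]
  exact ⟨by ring, by ring⟩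

theorem xCKer_dvd (h : Four τ a b) (i : Fin 4) : LN τ a b i ∣ (DD τ a b).toNat := by
  rw [h.prod]
  exact Finset.dvd_prod_of_mem _ (mem_univ i)

theorem xCKer_ind (h : Four τ a b) (D : ℕ) :
    ind D (DD τ a b).toNat = ind D (LN τ a b 0) + ind D (LN τ a b 2) +
      (ind D (LN τ a b 1) + ind D (LN τ a b 3)) ∧
    ind D (DD τ a b).toNat = ind D (LN τ a b 0) + ind D (LN τ a b 1) +
      (ind D (LN τ a b 2) + ind D (LN τ a b 3)) := by
  have c : ∀ i j : Fin 4, i ≠ j → Nat.Coprime (LN τ a b i) (LN τ a b j) := fun i j => h.cop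
  have e : ind D (DD τ a b).toNat = ind D (LN τ a b 0) + ind D (LN τ a b 2) +
      (ind D (LN τ a b 1) + ind D (LN τ a b 3)) := by
    rw [(xCKer_prod h).1, xCKer_ind_mul D (Nat.Coprime.mul_left
      ((c 0 1 (by decide)).mul_right (c 0 3 (by decide)))
      ((c 2 1 (by decide)).mul_right (c 2 3 (by decide)))), xCKer_ind_mul D (c 0 2 (by decide)),
      xCKer_ind_mul D (c 1 3 (by decide))]
  exact ⟨e, by rw [e]; abel⟩

theorem xCKer_type (h : Four τ a b) (x : ↥(DD τ a b).toNat.primeFactors) :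
    ∃ t, ∀ j, (x : ℕ) ∣ LN τ a b j ↔ j = t := by
  have hx := Nat.prime_of_mem_primeFactors x.2
  have hd := Nat.dvd_of_mem_primeFactors x.2
  obtain ⟨t, -, ht⟩ := hx.prime.exists_mem_finset_dvd (hd.trans h.prod.dvd)
  refine ⟨t, fun j => ⟨fun hj => ?_, fun e => e ▸ ht⟩⟩
  by_contra hne
  exact hx.ne_one (Nat.eq_one_of_dvd_coprimes (h.cop hne) hj ht)

/-- the products of the matrix with the indicator vectors of the forms -/
theorem xCKer_tab (h : Four τ a b) (x : ↥(DD τ a b).toNat.primeFactors) (r l : Fin 4 → ZMod 2)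
    (hr : ∀ j, r j = ∑ y, rede _ x y * ind _ (LN τ a b j) y)
    (hl : ∀ j, l j = ∑ y, ind _ (LN τ a b j) y * rede _ y x) :
    r 0 = (if (x : ℕ) ∣ LN τ a b 0 then sy b x else sy a x) ∧ r 0 + r 2 = 0 ∧ r 1 + r 3 = 0 ∧
      r 0 + r 1 = (if (x : ℕ) ∣ LN τ a b 2 * LN τ a b 3 then ep x else 0) ∧
      l 0 = r 0 + (if (x : ℕ) ∣ LN τ a b 0 then ep x else 0) ∧ l 0 + l 1 = 0 ∧ l 2 + l 3 = 0 ∧
      l 0 + l 2 = (if (x : ℕ) ∣ LN τ a b 1 * LN τ a b 3 then ep x else 0) := by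
  have hx := Nat.prime_of_mem_primeFactors x.2
  obtain ⟨m0, m1, m2, m3, mD⟩ := h.mod4
  have hx2 : (x : ℕ) % 2 = 1 := by
    obtain ⟨k, hk⟩ := Nat.dvd_of_mem_primeFactors x.2
    rcases Nat.mod_two_eq_zero_or_one x with h0 | h0
    · have := congrArg (· % 2) hk
      simp only [Nat.mul_mod, h0, zero_mul] at this
      omega
    · exact h0
  have hL2 : ∀ j, LN τ a b j % 2 = 1 := fun j => by fin_cases j <;> simp <;> omega
  have sr : r 0 + r 2 + (r 1 + r 3) = 0 := by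
    have := rede_right h.sqf dvd_rfl x
    rw [if_pos (Nat.dvd_of_mem_primeFactors x.2), Nat.div_self (by omega), (xCKer_ind h _).1] at this
    simp only [Pi.add_apply, mul_add, sum_add_distrib, ← hr] at this
    simpa [sy] using this
  have sl : l 0 + l 2 + (l 1 + l 3) = 0 := by
    have := rede_left h.sqf (by omega) dvd_rfl x
    rw [if_pos (Nat.dvd_of_mem_primeFactors x.2), Nat.div_self (by omega), (xCKer_ind h _).1] at this
    simp only [Pi.add_apply, add_mul, sum_add_distrib, ← hl] at this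
    simpa [sy] using this
  obtain ⟨t, ht⟩ := xCKer_type h x
  have kr : ∀ j, j ≠ t → r j = sy (LL τ a b j) x := fun j hj => by
    rw [hr, rede_right h.sqf (xCKer_dvd h j), if_neg (by rwa [ht]), (h.cast j).1]
  have kl : ∀ j, j ≠ t → l j = sy (LL τ a b j) x + ep x * ep (LN τ a b j) := fun j hj => by
    rw [hl, rede_left h.sqf (by omega) (xCKer_dvd h j), if_neg (by rwa [ht]),
      sy_swap hx2 (hL2 j) ((Nat.Prime.coprime_iff_not_dvd hx).2 (by rwa [ht])), (h.cast j).1]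
  have e0 : ep (LN τ a b 0) = 0 := if_neg (by omega)
  have e1 : ep (LN τ a b 1) = 1 := if_pos m1
  have e2 : ep (LN τ a b 2) = 1 := if_pos m2
  have e3 : ep (LN τ a b 3) = 1 := if_pos m3
  have a0 : LL τ a b 0 = a := rfl
  have a1 : LL τ a b 1 = b := rfl
  simp only [hx.dvd_mul, ht]
  have ht' := (ht t).2 rfl
  obtain rfl | rfl | rfl | rfl : t = 0 ∨ t = 1 ∨ t = 2 ∨ t = 3 := by
    fin_cases t <;> simp
  · obtain ⟨q1, q2⟩ := h.rel0 ht'
    simp only [kr 1 (by decide), kr 2 (by decide), kr 3 (by decide), kl 1 (by decide),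
      kl 2 (by decide), kl 3 (by decide), e1, e2, e3, a1, q1, q2] at sr sl ⊢
    revert sr sl
    generalize r 0 = u, l 0 = v, sy b x = c, ep x = e, sy a x = f
    revert u v c e f
    decide
  · obtain ⟨q1, q2⟩ := h.rel1 ht'
    simp only [kr 0 (by decide), kr 2 (by decide), kr 3 (by decide), kl 0 (by decide),
      kl 2 (by decide), kl 3 (by decide), e0, e2, e3, a0, q1, q2] at sr sl ⊢
    revert sr sl
    generalize r 1 = u, l 1 = v, sy a x = c, ep x = e, sy b x = f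
    revert u v c e f
    decide
  · obtain ⟨q1, q2⟩ := h.rel2 ht'
    simp only [kr 0 (by decide), kr 1 (by decide), kr 3 (by decide), kl 0 (by decide),
      kl 1 (by decide), kl 3 (by decide), e0, e1, e3, a0, a1, q1, q2] at sr sl ⊢
    revert sr sl
    generalize r 2 = u, l 2 = v, sy a x = c, ep x = e
    revert u v c e
    decide
  · obtain ⟨q1, q2⟩ := h.rel3 ht'
    simp only [kr 0 (by decide), kr 1 (by decide), kr 2 (by decide), kl 0 (by decide),
      kl 1 (by decide), kl 2 (by decide), e0, e1, e2, a0, a1, q1, q2] at sr sl ⊢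
    revert sr sl
    generalize r 3 = u, l 3 = v, sy a x = c, ep x = e
    revert u v c e
    decide

end

theorem ker_rede {τ : ℕ × ℕ} {m : Fin 4 → ℕ} {z : ℤ × ℤ} (hτ : Adm τ) (hm : Squarefree (MM m))
    (ha : 0 < z.1) (hb : 0 < z.2) (hG : GG τ m z.1 z.2 ≠ 0) (hp : ∀ i, (uu τ m z i).toNat.Prime)
    (hi : Function.Injective (uu τ m z)) {D : ℕ} (hD : D = (DD τ z.1 z.2).toNat) :
    (∀ d : ℕ, d ∣ D → (∀ l : ℕ, l.Prime → l ∣ D →
        (l ∣ d → jacobiSym ((D / d : ℕ) : ℤ) l = 1) ∧ (¬ l ∣ d → jacobiSym (d : ℤ) l = 1)) →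
      d = 1 ∨ d = LN τ z.1 z.2 0 * LN τ z.1 z.2 2 ∨ d = LN τ z.1 z.2 1 * LN τ z.1 z.2 3 ∨ d = D) ∧
    ∀ e : ℕ, e ∣ D → (∀ l : ℕ, l.Prime → l ∣ D →
        (l ∣ e → jacobiSym (l : ℤ) (D / e) = 1) ∧ (¬ l ∣ e → jacobiSym (l : ℤ) e = 1)) →
      e = 1 ∨ e = LN τ z.1 z.2 0 * LN τ z.1 z.2 1 ∨ e = LN τ z.1 z.2 2 * LN τ z.1 z.2 3 ∨ e = D := by
  subst hD
  have hc := GG_cond hG
  have h := four_of hτ hm ha hb hc hp hi
  have hu := xCKer_LL hc hp
  have hD0 := h.sqf.ne_zero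
  obtain ⟨m0, m1, m2, m3, mD⟩ := h.mod4
  have hMD : MM m ∣ (DD τ z.1 z.2).toNat := by
    rw [h.prod, MM]
    exact Finset.prod_dvd_prod_of_dvd _ _ fun i _ => (hu i).2.1 ▸ dvd_mul_right _ _
  have huL : ∀ i, (uu τ m z i).toNat ∣ LN τ z.1 z.2 i := fun i => (hu i).2.1 ▸ dvd_mul_left _ _
  have hml : ∀ (l : PI m) i, (l : ℕ) ∣ LN τ z.1 z.2 i ↔ (l : ℕ) ∣ m i := fun l i => by
    rw [(hu i).2.1]
    exact Nat.Coprime.dvd_mul_right
      ((hu i).2.2.2.symm.coprime_dvd_left (Nat.dvd_of_mem_primeFactors l.2))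
  have tab := fun x => xCKer_tab h x _ _ (fun _ => rfl) (fun _ => rfl)
  have bil := fun (i j : Fin 4) (hij : i ≠ j) =>
    rede_bil h.sqf (xCKer_dvd h i) (xCKer_dvd h j) (h.cop hij)
  have s20 : sy (LN τ z.1 z.2 2 : ℕ) (LN τ z.1 z.2 0) = sy z.2 (LN τ z.1 z.2 0) := by
    rw [(h.cast 2).1, (h.rel0 dvd_rfl).1]
  have s02 : sy z.1 (LN τ z.1 z.2 2) = sy z.2 (LN τ z.1 z.2 0) := by
    have := sy_swap (m := LN τ z.1 z.2 0) (n := LN τ z.1 z.2 2) (by omega) (by omega)
      (h.cop (by decide))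
    rw [s20, show ep (LN τ z.1 z.2 0) = 0 from if_neg (by omega), zero_mul, add_zero,
      (h.cast 0).1] at this
    exact this
  have key := ker_of_good (κ := PI m) (rede (DD τ z.1 z.2).toNat)
    (fun i => ind _ (LN τ z.1 z.2 i))
    (fun i => ⟨(uu τ m z i).toNat, Nat.mem_primeFactors.2
      ⟨hp i, (huL i).trans (xCKer_dvd h i), hD0⟩⟩)
    (fun l => ⟨l, Nat.primeFactors_mono hMD hD0 l.2⟩)
    (fun _ _ e => Subtype.ext (Subtype.mk.inj e))
    (fun i j => if_congr ⟨fun hd => by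
      by_contra hne
      exact (hp j).ne_one (Nat.eq_one_of_dvd_coprimes (h.cop hne) hd (huL j)),
      fun e => e ▸ huL i⟩ rfl rfl)
    (fun i k e => (hp i).ne_one (Nat.eq_one_of_dvd_coprimes (hu i).2.2.2 dvd_rfl
      ((congrArg Subtype.val e).dvd.trans (Nat.dvd_of_mem_primeFactors k.2))))
    (fun x => by
      have hx := Nat.prime_of_mem_primeFactors x.2
      obtain ⟨t, ht⟩ := xCKer_type h x
      have := (ht t).2 rfl
      rw [(hu t).2.1, hx.dvd_mul] at this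
      rcases this with h1 | h1
      · exact Or.inr ⟨⟨x, Nat.mem_primeFactors.2 ⟨hx, h1.trans (dvd_MM m t), hm.ne_zero⟩⟩, rfl⟩
      · exact Or.inl ⟨t, Subtype.ext ((Nat.prime_dvd_prime_iff_eq hx (hp t)).1 h1)⟩)
    (fun x => by simpa only [mul_add, sum_add_distrib] using (tab x).2.1)
    (fun x => by simpa only [mul_add, sum_add_distrib] using (tab x).2.2.1)
    (fun x => by simpa only [add_mul, sum_add_distrib] using (tab x).2.2.2.2.2.1)
    (fun x => by simpa only [add_mul, sum_add_distrib] using (tab x).2.2.2.2.2.2.1)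
    (sy z.2 (LN τ z.1 z.2 0))
    (by rw [bil 0 1 (by decide), (h.cast 1).1]; rfl)
    (by rw [bil 0 2 (by decide), s20])
    (by rw [bil 2 0 (by decide), (h.cast 0).1]; exact s02)
    (by
      rw [bil 2 1 (by decide), (h.cast 1).1, ← s02, ← show ep (LN τ z.1 z.2 2) = 1 from if_pos m2]
      exact (h.rel2 dvd_rfl).1)
    (by
      have hg : GoodM _ _ _ := GG_good hG
      have hpr := fun l : PI m => Nat.prime_of_mem_primeFactors l.2
      convert hg using 1
      · funext i j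
        rw [sum_congr rfl fun y _ => mul_add _ _ _, sum_add_distrib, (tab _).2.2.2.1,
          sum_congr rfl fun y _ => add_mul _ _ _, sum_add_distrib, (tab _).2.2.2.2.2.2.2]
        simp only [mat, rede, dl, (hpr _).dvd_mul, hml, Subtype.mk.injEq, Subtype.val_inj,
          Int.natCast_div, Int.toNat_of_nonneg (show 0 ≤ DD τ z.1 z.2 by omega)]
      · funext i
        rw [(tab _).1]
        simp only [bl, hml]
      · funext j
        rw [(tab _).2.2.2.2.1, (tab _).1]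
        simp only [bl, hml])
  have c : ∀ i j : Fin 4, i ≠ j → Nat.Coprime (LN τ z.1 z.2 i) (LN τ z.1 z.2 j) := fun i j => h.cop
  have z1 : ∀ (u : ℤ) (n : ℕ), jacobiSym u n = 1 → sy u n = 0 := fun u n e => by simp [sy, e]
  refine ⟨fun d hd hs => ?_, fun d hd hs => ?_⟩
  · have := key.1 (ind _ d) fun x => by
      have := hs x (Nat.prime_of_mem_primeFactors x.2) (Nat.dvd_of_mem_primeFactors x.2)
      rw [rede_right h.sqf hd]
      split_ifs with h1
      exacts [z1 _ _ (this.1 h1), z1 _ _ (this.2 h1)]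
    simp only [← (xCKer_ind h _).1] at this
    rw [← xCKer_ind_one, ← xCKer_ind_mul _ (c 0 2 (by decide)),
      ← xCKer_ind_mul _ (c 1 3 (by decide))] at this
    exact this.imp (ind_inj h.sqf hd (one_dvd _)) (Or.imp
      (ind_inj h.sqf hd (Dvd.intro _ (xCKer_prod h).1.symm)) (Or.imp
      (ind_inj h.sqf hd (Dvd.intro_left _ (xCKer_prod h).1.symm)) (ind_inj h.sqf hd dvd_rfl)))
  · have := key.2 (ind _ d) fun x => by
      have := hs x (Nat.prime_of_mem_primeFactors x.2) (Nat.dvd_of_mem_primeFactors x.2)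
      rw [rede_left h.sqf (by omega) hd]
      split_ifs with h1
      exacts [z1 _ _ (this.1 h1), z1 _ _ (this.2 h1)]
    simp only [← (xCKer_ind h _).2] at this
    rw [← xCKer_ind_one, ← xCKer_ind_mul _ (c 0 1 (by decide)),
      ← xCKer_ind_mul _ (c 2 3 (by decide))] at this
    exact this.imp (ind_inj h.sqf hd (one_dvd _)) (Or.imp
      (ind_inj h.sqf hd (Dvd.intro _ (xCKer_prod h).2.symm)) (Or.imp
      (ind_inj h.sqf hd (Dvd.intro_left _ (xCKer_prod h).2.symm)) (ind_inj h.sqf hd dvd_rfl)))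

end Pool.Agent.MP_e23604_nt.P
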