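import Pool.Agent.MP_e23604_nt.P.CKer
import Pool.Agent.MP_e23604_nt.P.CArB
import Pool.Agent.MP_e23604_nt.P.CDesc

/-!
The good event gives rank two.
-/

open Finset
open scoped Classical

noncomputable section

namespace Pool.Agent.MP_e23604_nt.P

theorem xCMain_nsq {n : ℕ} (hn : Squarefree n) (h1 : n ≠ 1) {z t : ℚ} (hz : z ≠ 0)
    (ht : t = (n : ℚ) * z ^ 2) : ¬ IsSquare t := by
  rintro ⟨w, hw⟩
  have h : IsSquare (n : ℚ) := ⟨w / z, by field_simp; rw [← ht, hw]; ring⟩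
  rw [Rat.isSquare_natCast_iff] at h
  obtain ⟨r, hr⟩ := h
  have h2 := hn r (by rw [hr])
  rw [Nat.isUnit_iff] at h2
  subst h2
  exact h1 hr

theorem xCMain_desc {L0 L1 L2 L3 D : ℕ} {p q : ℚ} (hq : q ≠ 0) (hpq : p - q ≠ 0)
    (h2 : (L2 : ℚ) = 4 * L0 + L1)
    (h3 : (L3 : ℚ) = 4 * (2 * p * q) ^ 2 * L0 + (p ^ 2 + q ^ 2) ^ 2 * L1)
    (hD : D = L0 * L1 * L2 * L3) (sq : Squarefree D)
    (m0 : L0 % 4 = 1) (m1 : L1 % 4 = 3) (m2 : L2 % 4 = 3) (m3 : L3 % 4 = 3) (mD : D % 16 = 11)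
    (kA : ∀ d : ℕ, d ∣ D → (∀ l : ℕ, l.Prime → l ∣ D →
        (l ∣ d → jacobiSym ((D / d : ℕ) : ℤ) l = 1) ∧ (¬ l ∣ d → jacobiSym (d : ℤ) l = 1)) →
      d = 1 ∨ d = L0 * L2 ∨ d = L1 * L3 ∨ d = D)
    (kB : ∀ e : ℕ, e ∣ D → (∀ l : ℕ, l.Prime → l ∣ D →
        (l ∣ e → jacobiSym (l : ℤ) (D / e) = 1) ∧ (¬ l ∣ e → jacobiSym (l : ℤ) e = 1)) →
      e = 1 ∨ e = L0 * L1 ∨ e = L2 * L3 ∨ e = D) :
    Desc2 D (4 * q ^ 2 * L0 * L2)
      (2 * q * L0 * L2 * (8 * q ^ 2 * L0 + (p ^ 2 + q ^ 2) * L1))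
      (L2 * L3 / (p - q) ^ 2)
      (L2 * L3 / (p - q) ^ 2 * (4 * (2 * p * q) * L0 + (p ^ 2 + q ^ 2) * L1) / (p - q)) := by
  have p0 : (0 : ℚ) < L0 := by exact_mod_cast (by omega : 0 < L0)
  have p1 : (0 : ℚ) < L1 := by exact_mod_cast (by omega : 0 < L1)
  have p2 : (0 : ℚ) < L2 := by exact_mod_cast (by omega : 0 < L2)
  have p3 : (0 : ℚ) < L3 := by exact_mod_cast (by omega : 0 < L3)
  have n0 := p0.ne'
  have n1 := p1.ne'
  have n2 := p2.ne'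
  have n3 := p3.ne'
  have hDQ : (D : ℚ) = L0 * L1 * L2 * L3 := by rw [hD]; push_cast; ring
  have pD : (0 : ℚ) < D := by rw [hDQ]; positivity
  have m01 : (L0 * L1) % 4 = 3 := by rw [Nat.mul_mod, m0, m1]
  have m23 : (L2 * L3) % 4 = 1 := by rw [Nat.mul_mod, m2, m3]
  have m02 : (L0 * L2) % 4 = 3 := by rw [Nat.mul_mod, m0, m2]
  have g13 : L1 * L3 ≠ 1 := fun h => by
    have := Nat.eq_one_of_mul_eq_one_right h
    omega
  have g23 : L2 * L3 ≠ 1 := fun h => by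
    have := Nat.eq_one_of_mul_eq_one_right h
    omega
  refine ⟨pD, ?_, ?_, ?_, ?_, ?_, ?_, ?_, ?_, ?_⟩
  · rw [hDQ, h3, h2]; ring
  · rw [hDQ]
    field_simp
    rw [h3, h2]; ring
  · intro d hd hR hp
    obtain ⟨d0, hd0, ⟨z, hz⟩, hc⟩ := locA_arith sq (by omega) hd hR hp
    rcases kA d0 hd0 hc with h | h | h | h
    · exact ⟨z, Or.inl (by rw [hz, h]; simp)⟩
    · refine ⟨z / (2 * q), Or.inr (Or.inr (Or.inl ?_))⟩
      rw [hz, h]; push_cast; field_simp; ring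
    · refine ⟨z / (2 * q * L0 * L2), Or.inr (Or.inr (Or.inr ?_))⟩
      rw [hz, h, hDQ]; push_cast; field_simp; ring
    · exact ⟨z, Or.inr (Or.inl (by rw [hz, h]))⟩
  · intro e he hp
    obtain ⟨e0, he0, ⟨z, hz⟩, hc⟩ := locB_arith sq mD he hp
    rcases kB e0 he0 hc with h | h | h | h
    · exact ⟨z, Or.inl (by rw [hz, h]; simp [star])⟩
    · refine ⟨z * (p - q) / (L2 * L3), Or.inr (Or.inr (Or.inr ?_))⟩
      have hs : star e0 = -((L0 * L1 : ℕ) : ℤ) := by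
        rw [h]; unfold star; rw [if_neg (by omega)]
      rw [hz, hs, hDQ]; push_cast; field_simp
    · refine ⟨z * (p - q), Or.inr (Or.inr (Or.inl ?_))⟩
      have hs : star e0 = ((L2 * L3 : ℕ) : ℤ) := by
        rw [h]; unfold star; rw [if_pos m23]
      rw [hz, hs]; push_cast; field_simp
    · refine ⟨z, Or.inr (Or.inl ?_)⟩
      have hs : star e0 = -((D : ℕ) : ℤ) := by
        rw [h]; unfold star; rw [if_neg (by omega)]
      rw [hz, hs]; push_cast; ring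
  · exact xCMain_nsq sq (by omega) one_ne_zero (by ring)
  · refine xCMain_nsq (n := L0 * L2) (z := 2 * q) (sq.squarefree_of_dvd ⟨L1 * L3, by rw [hD]; ring⟩)
      (by omega) (mul_ne_zero two_ne_zero hq) (by push_cast; ring)
  · refine xCMain_nsq (n := L1 * L3) (z := 2 * q * L0 * L2)
      (sq.squarefree_of_dvd ⟨L0 * L2, by rw [hD]; ring⟩) g13
      (mul_ne_zero (mul_ne_zero (mul_ne_zero two_ne_zero hq) n0) n2) (by rw [hDQ]; push_cast; ring)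
  · refine xCMain_nsq (n := L2 * L3) (z := 1 / (p - q))
      (sq.squarefree_of_dvd ⟨L0 * L1, by rw [hD]; ring⟩) g23
      (one_div_ne_zero hpq) (by push_cast; field_simp)
  · rintro ⟨w, hw⟩
    have h4 : (0 : ℚ) < (p - q) ^ 2 := by positivity
    have h5 : (0 : ℚ) < D * (L2 * L3 / (p - q) ^ 2) := by positivity
    nlinarith [mul_self_nonneg w]

theorem desc_main (τ : ℕ × ℕ) (m : Fin 4 → ℕ) (z : ℤ × ℤ) (hτ : Adm τ) (hm : Squarefree (MM m))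
    (ha : 0 < z.1) (hb : 0 < z.2) (hG : GG τ m z.1 z.2 ≠ 0) (hp : ∀ i, (uu τ m z i).toNat.Prime)
    (hi : Function.Injective (uu τ m z)) :
    Squarefree (DD τ z.1 z.2).toNat ∧ RankTwo ((DD τ z.1 z.2).toNat : ℕ) := by
  have h4 := four_of hτ hm ha hb (GG_cond hG) hp hi
  refine ⟨h4.sqf, ?_⟩
  obtain ⟨kA, kB⟩ := ker_rede hτ hm ha hb hG hp hi rfl
  obtain ⟨m0, m1, m2, m3, mD⟩ := h4.mod4
  have c0 := (h4.cast 0).1
  have c1 := (h4.cast 1).1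
  have c2 := (h4.cast 2).1
  have c3 := (h4.cast 3).1
  have hq : (τ.2 : ℚ) ≠ 0 := by exact_mod_cast hτ.2.2.1.ne'
  have hpq : (τ.1 : ℚ) - τ.2 ≠ 0 := by
    intro h
    have h' : τ.1 = τ.2 := by exact_mod_cast sub_eq_zero.mp h
    have h1 := hτ.1
    have h2 := hτ.2.1
    omega
  have e0 : (LN τ z.1 z.2 0 : ℤ) = z.1 := by rw [c0]; rfl
  have e1 : (LN τ z.1 z.2 1 : ℤ) = z.2 := by rw [c1]; rfl
  have e2 : (LN τ z.1 z.2 2 : ℤ) = 4 * LN τ z.1 z.2 0 + LN τ z.1 z.2 1 := by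
    rw [c2, e0, e1]; rfl
  have e3 : (LN τ z.1 z.2 3 : ℤ) = 4 * (2 * (τ.1 : ℤ) * τ.2) ^ 2 * LN τ z.1 z.2 0 +
      ((τ.1 : ℤ) ^ 2 + (τ.2 : ℤ) ^ 2) ^ 2 * LN τ z.1 z.2 1 := by
    rw [c3, e0, e1]; rfl
  refine descent (xCMain_desc (p := τ.1) (q := τ.2) hq hpq (by exact_mod_cast e2)
    (by exact_mod_cast e3) ?_ h4.sqf m0 m1 m2 m3 mD kA kB)
  rw [h4.prod, Fin.prod_univ_four]

end Pool.Agent.MP_e23604_nt.P
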