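import Pool.Agent.MP_e23604_nt.P.CRed
import Pool.Agent.MP_e23604_nt.P.Basic

/-!
Relations between the symbols of the four forms.
-/

open Finset
open scoped Classical

noncomputable section

namespace Pool.Agent.MP_e23604_nt.P

/-- The setting: four positive, pairwise coprime values of the forms. -/
structure Four (τ : ℕ × ℕ) (a b : ℤ) : Prop where
  adm : Adm τ
  ha : 0 < a
  hb : 0 < b
  a16 : a % 16 = 1
  b16 : b % 16 = 7
  sqf : Squarefree (DD τ a b).toNat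

/-- The forms as natural numbers. -/
def LN (τ : ℕ × ℕ) (a b : ℤ) (i : Fin 4) : ℕ := (LL τ a b i).toNat

variable {τ : ℕ × ℕ} {a b : ℤ}

theorem xCRel_0 : LL τ a b 0 = a := rfl
theorem xCRel_1 : LL τ a b 1 = b := rfl
theorem xCRel_2 : LL τ a b 2 = 4 * a + b := rfl
theorem xCRel_3 : LL τ a b 3 = 4 * kk τ ^ 2 * a + ss τ ^ 2 * b := rfl

theorem xCRel_pos (h : Four τ a b) (i : Fin 4) : 0 < LL τ a b i := by
  have h1 := h.ha
  have h2 := h.hb
  have h3 := h.adm.pos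
  have h4 : 0 < ss τ := h3.1.trans h3.2
  have h5 := h3.1
  fin_cases i
  · exact h1
  · exact h2
  · show 0 < 4 * a + b
    positivity
  · show 0 < 4 * kk τ ^ 2 * a + ss τ ^ 2 * b
    positivity

theorem Four.cast (h : Four τ a b) (i : Fin 4) :
    (LN τ a b i : ℤ) = LL τ a b i ∧ 1 ≤ LN τ a b i := by
  have h1 := xCRel_pos h i
  unfold LN
  omega

theorem Four.prod (h : Four τ a b) : (DD τ a b).toNat = ∏ i, LN τ a b i := by
  have h1 : DD τ a b = ((∏ i, LN τ a b i : ℕ) : ℤ) := by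
    rw [Nat.cast_prod]
    exact prod_congr rfl fun i _ => (h.cast i).1.symm
  rw [h1, Int.toNat_natCast]

theorem Four.mod4 (h : Four τ a b) : LN τ a b 0 % 4 = 1 ∧ LN τ a b 1 % 4 = 3 ∧
    LN τ a b 2 % 4 = 3 ∧ LN τ a b 3 % 4 = 3 ∧ (DD τ a b).toNat % 16 = 11 := by
  have e0 : LN τ a b 0 % 16 = 1 := by
    have h1 := (h.cast 0).1
    have h2 := h.a16
    rw [xCRel_0] at h1
    omega
  have e1 : LN τ a b 1 % 16 = 7 := by
    have h1 := (h.cast 1).1
    have h2 := h.b16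
    rw [xCRel_1] at h1
    omega
  have e2 : LN τ a b 2 % 16 = 11 := by
    have h1 := (h.cast 2).1
    have h2 := h.a16
    have h3 := h.b16
    rw [xCRel_2] at h1
    omega
  have e3 : LN τ a b 3 % 16 = 7 := by
    have h1 := (h.cast 3).1
    have h2 : LL τ a b 3 % 16 = 7 := by
      rw [xCRel_3, Int.add_emod, Int.mul_emod, Int.mul_emod (ss τ ^ 2), h.adm.mod16.1,
        h.adm.mod16.2, h.a16, h.b16]
      norm_num
    omega
  refine ⟨by omega, by omega, by omega, by omega, ?_⟩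
  rw [h.prod, Fin.prod_univ_four, Nat.mul_mod, Nat.mul_mod (_ * _), Nat.mul_mod (LN τ a b 0), e0,
    e1, e2, e3]

theorem Four.cop (h : Four τ a b) {i j : Fin 4} (hij : i ≠ j) :
    Nat.Coprime (LN τ a b i) (LN τ a b j) := by
  have h1 := h.sqf
  rw [h.prod] at h1
  exact MM_cop (m := LN τ a b) h1 hij

theorem xCRel_dvd (h : Four τ a b) {n : ℕ} {i : Fin 4} (hn : n ∣ LN τ a b i) :
    (n : ℤ) ∣ LL τ a b i := by
  rw [← (h.cast i).1]
  exact Int.natCast_dvd_natCast.2 hn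

theorem xCRel_cp (h : Four τ a b) {n : ℕ} {i : Fin 4} (hn : n ∣ LN τ a b i) (j : Fin 4)
    (hij : j ≠ i) : IsCoprime (LL τ a b j) (n : ℤ) := by
  rw [← (h.cast j).1]
  exact Nat.isCoprime_iff_coprime.2 ((h.cop hij).coprime_dvd_right hn)

theorem xCRel_cop {u v c N : ℤ} (h : IsCoprime u N) (hd : N ∣ u - c ^ 2 * v) :
    IsCoprime c N := by
  obtain ⟨t, ht⟩ := hd
  have h1 : u = c * (c * v) + N * t := by linear_combination ht
  rw [h1] at h
  exact h.of_add_mul_left_left.of_mul_left_left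

theorem xCRel_sq {u v c : ℤ} {n : ℕ} (h : IsCoprime u n) (hd : (n : ℤ) ∣ u - c ^ 2 * v) :
    sy u n = sy v n :=
  (sy_congr hd).trans (sy_sq (Int.isCoprime_iff_gcd_eq_one.1 (xCRel_cop h hd)))

theorem xCRel_neg {u : ℤ} {n : ℕ} (h : IsCoprime u n) (hn : n % 2 = 1) :
    sy (-u) n = sy u n + ep n := by
  rw [← neg_one_mul, sy_mul (by simp) (Int.isCoprime_iff_gcd_eq_one.1 h), sy_neg_one hn, add_comm]

theorem xCRel_odd {n m : ℕ} (h : n ∣ m) (hm : m % 4 = 3) : n % 2 = 1 :=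
  Nat.odd_iff.1 (Odd.of_dvd_nat (Nat.odd_iff.2 (by omega)) h)

theorem Four.rel0 (h : Four τ a b) {n : ℕ} (hn : n ∣ LN τ a b 0) :
    sy (LL τ a b 2) n = sy b n ∧ sy (LL τ a b 3) n = sy b n := by
  have hd : (n : ℤ) ∣ a := xCRel_dvd h hn
  refine ⟨sy_congr ?_, xCRel_sq (c := ss τ) (xCRel_cp h hn 3 (by decide)) ?_⟩
  · rw [xCRel_2, add_sub_cancel_right]
    exact hd.mul_left _
  · rw [xCRel_3, add_sub_cancel_right]
    exact hd.mul_left _

theorem Four.rel1 (h : Four τ a b) {n : ℕ} (hn : n ∣ LN τ a b 1) :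
    sy (LL τ a b 2) n = sy a n ∧ sy (LL τ a b 3) n = sy a n := by
  have hd : (n : ℤ) ∣ b := xCRel_dvd h hn
  refine ⟨xCRel_sq (c := 2) (xCRel_cp h hn 2 (by decide)) ?_,
    xCRel_sq (c := 2 * kk τ) (xCRel_cp h hn 3 (by decide)) ?_⟩
  · rw [xCRel_2, show 4 * a + b - 2 ^ 2 * a = b by ring]
    exact hd
  · rw [xCRel_3, show 4 * kk τ ^ 2 * a + ss τ ^ 2 * b - (2 * kk τ) ^ 2 * a = ss τ ^ 2 * b by ring]
    exact hd.mul_left _

theorem Four.rel2 (h : Four τ a b) {n : ℕ} (hn : n ∣ LN τ a b 2) :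
    sy b n = sy a n + ep n ∧ sy (LL τ a b 3) n = sy a n + ep n := by
  have hd : (n : ℤ) ∣ 4 * a + b := xCRel_dvd h hn
  have ha : IsCoprime a (n : ℤ) := xCRel_cp h hn 0 (by decide)
  have hb : IsCoprime b (n : ℤ) := xCRel_cp h hn 1 (by decide)
  rw [← xCRel_neg ha (xCRel_odd hn h.mod4.2.2.1)]
  refine ⟨xCRel_sq (c := 2) hb ?_, xCRel_sq (c := 2 * rr τ) (xCRel_cp h hn 3 (by decide)) ?_⟩
  · rw [show b - 2 ^ 2 * -a = 4 * a + b by ring]
    exact hd
  · rw [xCRel_3, show 4 * kk τ ^ 2 * a + ss τ ^ 2 * b - (2 * rr τ) ^ 2 * -a =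
      ss τ ^ 2 * (4 * a + b) by linear_combination 4 * a * pyth τ]
    exact hd.mul_left _

theorem Four.rel3 (h : Four τ a b) {n : ℕ} (hn : n ∣ LN τ a b 3) :
    sy b n = sy a n + ep n ∧ sy (LL τ a b 2) n = sy a n := by
  have hd : (n : ℤ) ∣ 4 * kk τ ^ 2 * a + ss τ ^ 2 * b := xCRel_dvd h hn
  have ha : IsCoprime a (n : ℤ) := xCRel_cp h hn 0 (by decide)
  have hb : IsCoprime b (n : ℤ) := xCRel_cp h hn 1 (by decide)
  have hc : IsCoprime (LL τ a b 2) (n : ℤ) := xCRel_cp h hn 2 (by decide)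
  have h1 : IsCoprime (ss τ) a := by
    have h2 := xCRel_cp h (dvd_refl (LN τ a b 0)) 3 (by decide)
    rw [(h.cast 0).1, xCRel_0] at h2
    refine xCRel_cop (v := b) h2 ?_
    rw [xCRel_3, add_sub_cancel_right]
    exact dvd_mul_left _ _
  have hs : IsCoprime (ss τ) (n : ℤ) := by
    refine IsCoprime.of_isCoprime_of_dvd_right ?_ hd
    rw [show 4 * kk τ ^ 2 * a + ss τ ^ 2 * b = (2 * kk τ) ^ 2 * a + ss τ * (ss τ * b) by ring]
    exact (h.adm.cop_ks.symm.pow_right.mul_right h1).add_mul_left_right _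
  have hs' := Int.isCoprime_iff_gcd_eq_one.1 hs
  rw [← xCRel_neg ha (xCRel_odd hn h.mod4.2.2.2.1), ← sy_sq (u := b) hs',
    ← sy_sq (u := LL τ a b 2) hs']
  refine ⟨xCRel_sq (c := 2 * kk τ) (hs.pow_left.mul_left hb) ?_,
    xCRel_sq (c := 2 * rr τ) (hs.pow_left.mul_left hc) ?_⟩
  · rw [show ss τ ^ 2 * b - (2 * kk τ) ^ 2 * -a = 4 * kk τ ^ 2 * a + ss τ ^ 2 * b by ring]
    exact hd
  · rw [xCRel_2, show ss τ ^ 2 * (4 * a + b) - (2 * rr τ) ^ 2 * a =
      4 * kk τ ^ 2 * a + ss τ ^ 2 * b by linear_combination (-4) * a * pyth τ]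
    exact hd

end Pool.Agent.MP_e23604_nt.P
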