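import Pool.Agent.MP_e23604_nt.P.Basic

/-!
The members of the family found at one scale.
-/

open Finset
open scoped Classical

noncomputable section

namespace Pool.Agent.MP_e23604_nt.P

/-- The values of the product of the forms on the good event, with four distinct large primes. -/
def GS (X Y Z : ℕ) : Set ℕ :=
  {D | ∃ (τ : ℕ × ℕ) (m : Fin 4 → ℕ) (z : ℤ × ℤ), Adm τ ∧ τ.1 ≤ Y ∧ τ.2 ≤ Y ∧ Squarefree (MM m) ∧
    MM m ≤ Z ∧ z ∈ box X ∧ GG τ m z.1 z.2 ≠ 0 ∧ (∀ i, (uu τ m z i).toNat.Prime) ∧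
    Function.Injective (uu τ m z) ∧ D = (DD τ z.1 z.2).toNat}

end Pool.Agent.MP_e23604_nt.P
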