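import Pool.Agent.MP_e23604_nt.P.Mult
import Pool.Agent.MP_e23604_nt.P.CW
import Pool.Agent.MP_e23604_nt.P.XDefs

/-!
From the weighted count to the number of members of the family.
-/

open Finset
open scoped Classical

noncomputable section

namespace Pool.Agent.MP_e23604_nt.P

section

variable {C0 : ℝ} {X Y Z U : ℕ} {τ τ' : ℕ × ℕ} {m m' : Fin 4 → ℕ} {z z' : ℤ × ℤ}

theorem xCount_mul (hc : Cond τ m z.1 z.2) (i : Fin 4) :
    LL τ z.1 z.2 i = m i * uu τ m z i := (Int.mul_ediv_cancel' (hc.2.2 i).1).symm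

theorem xCount_u (hR : Reg 0 X Y Z U) (hτ : τ ∈ TT C0 Y) (hm : m ∈ MF Z U τ) (hz : z ∈ box X)
    (hc : Cond τ m z.1 z.2) (i : Fin 4) :
    (Z : ℤ) < uu τ m z i ∧ uu τ m z i ≤ LL τ z.1 z.2 i := by
  have h1 := LL_gt (mem_TT hτ).1 hz i
  obtain ⟨h2, h3⟩ := MS_le hm i
  have h4 : Z ^ 2 ≤ X := (Nat.pow_le_pow_right (h2.trans h3) (by norm_num)).trans hR.hZ
  have h2' : (1 : ℤ) ≤ m i := by exact_mod_cast h2
  have h3' : (m i : ℤ) ≤ Z := by exact_mod_cast h3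
  have h4' : (Z : ℤ) ^ 2 ≤ X := by exact_mod_cast h4
  rw [xCount_mul hc] at h1 ⊢
  have h5 : (Z : ℤ) < uu τ m z i := by
    by_contra h
    nlinarith [mul_le_mul_of_nonneg_left (not_lt.1 h) (zero_le_one.trans h2')]
  exact ⟨h5, by nlinarith⟩

theorem xCount_lam (hX : 100 ≤ X) (hR : Reg 0 X Y Z U) (hτ : τ ∈ TT C0 Y) (hm : m ∈ MF Z U τ)
    (hz : z ∈ box X) (hc : Cond τ m z.1 z.2) (i : Fin 4) :
    lam (uu τ m z i) ≤ 2 * Real.log X := by
  obtain ⟨h1, h2⟩ := xCount_u hR hτ hm hz hc i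
  have h3 := LL_le hτ hz i
  have h4 : 40 * Y ^ 4 ≤ X := by
    rcases Nat.lt_or_ge Y 2 with h | h
    · have := Nat.pow_le_pow_left (Nat.le_of_lt_succ h) 4
      omega
    · have h5 := Nat.pow_le_pow_left h 6
      calc 40 * Y ^ 4 ≤ Y ^ 6 * Y ^ 4 := Nat.mul_le_mul_right _ (by omega)
        _ = Y ^ 10 := by ring
        _ ≤ Y ^ 100 := Nat.pow_le_pow_right (by omega) (by norm_num)
        _ ≤ X := hR.hY'
  have h4' : 40 * (Y : ℤ) ^ 4 ≤ X := by exact_mod_cast h4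
  have h5 : uu τ m z i ≤ (X : ℤ) ^ 2 := by nlinarith
  have h6 : (0 : ℤ) < uu τ m z i := lt_of_le_of_lt (Int.natCast_nonneg Z) h1
  have h7 : Real.log (uu τ m z i) ≤ 2 * Real.log X := by
    have h8 := Real.log_le_log (x := uu τ m z i) (y := (X : ℝ) ^ 2) (by exact_mod_cast h6)
      (by exact_mod_cast h5)
    rwa [Real.log_pow, Nat.cast_ofNat] at h8
  rw [lam]
  split_ifs
  · exact h7
  · exact mul_nonneg zero_le_two (Real.log_natCast_nonneg X)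

theorem xCount_pos (hτ : τ ∈ TT C0 Y) (hz : z ∈ box X) : 0 ≤ DD τ z.1 z.2 :=
  prod_nonneg fun i _ => (Int.natCast_nonneg X).trans (LL_gt (mem_TT hτ).1 hz i).le

theorem xCount_mem (hR : Reg 0 X Y Z U) (hτ : τ ∈ TT C0 Y) (hm : m ∈ MF Z U τ) (hz : z ∈ box X)
    (hc : Cond τ m z.1 z.2) (hp : ∀ i, (uu τ m z i).toNat.Prime) (hτ' : τ' ∈ TT C0 Y)
    (hm' : m' ∈ MF Z U τ') (hz' : z' ∈ box X) (hc' : Cond τ' m' z'.1 z'.2)
    (hp' : ∀ i, (uu τ' m' z' i).toNat.Prime) (hD : DD τ z.1 z.2 = DD τ' z'.1 z'.2) (i : Fin 4) :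
    uu τ m z i ∈ univ.image (uu τ' m' z') := by
  have h1 := (xCount_u hR hτ hm hz hc i).1
  obtain ⟨p, hp1⟩ := Int.eq_ofNat_of_zero_le ((Int.natCast_nonneg Z).trans h1.le)
  have h2 := hp i
  rw [hp1, Int.toNat_natCast] at h2
  have h3 : (p : ℤ) ∣ ∏ j, LL τ' z'.1 z'.2 j := by
    refine dvd_trans ?_ (hD ▸ dvd_prod_of_mem _ (mem_univ i) : LL τ z.1 z.2 i ∣ DD τ' z'.1 z'.2)
    rw [xCount_mul hc, hp1]
    exact dvd_mul_left _ _
  have h4 := Nat.prime_iff_prime_int.1 h2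
  obtain ⟨j, -, hj⟩ := h4.exists_mem_finset_dvd h3
  obtain ⟨q, hq1⟩ := Int.eq_ofNat_of_zero_le
    ((Int.natCast_nonneg Z).trans (xCount_u hR hτ' hm' hz' hc' j).1.le)
  have h5 := hp' j
  rw [hq1, Int.toNat_natCast] at h5
  rw [xCount_mul hc', hq1] at hj
  rcases h4.dvd_or_dvd hj with h | h
  · have h6 := Nat.le_of_dvd (MS_le hm' j).1 (Int.natCast_dvd_natCast.1 h)
    have h7 := (MS_le hm' j).2
    omega
  · refine mem_image.2 ⟨j, mem_univ j, ?_⟩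
    rw [hp1, hq1, (Nat.prime_dvd_prime_iff_eq h2 h5).1 (Int.natCast_dvd_natCast.1 h)]

theorem GS_fam {D : ℕ} (h : D ∈ GS X Y Z) : D ≤ 1600 * X ^ 4 * Y ^ 4 ∧
    ∃ a b p q : ℕ, 0 < a ∧ 0 < b ∧ 0 < p ∧ 0 < q ∧
      D = a * b * (4 * a + b) * (16 * p ^ 2 * q ^ 2 * a + (p ^ 2 + q ^ 2) ^ 2 * b) := by
  obtain ⟨τ, m, z, hτ, t2, t4, -, -, hz, -, -, -, rfl⟩ := h
  obtain ⟨⟨h1, h2⟩, h3, h4⟩ := mem_box.1 hz
  obtain ⟨a, ha⟩ := Int.eq_ofNat_of_zero_le ((Int.natCast_nonneg X).trans h1.le)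
  obtain ⟨b, hb⟩ := Int.eq_ofNat_of_zero_le ((Int.natCast_nonneg X).trans h3.le)
  have e : (DD τ z.1 z.2).toNat = a * b * (4 * a + b) *
      (16 * τ.1 ^ 2 * τ.2 ^ 2 * a + (τ.1 ^ 2 + τ.2 ^ 2) ^ 2 * b) := by
    rw [← Int.toNat_natCast (a * b * _ * _), ha, hb]
    congr 1
    simp only [DD, Fin.prod_univ_four, LL, kk, ss, Matrix.cons_val]
    push_cast
    ring
  have a2 : a ≤ 2 * X := by omega
  have b2 : b ≤ 2 * X := by omega
  refine ⟨?_, a, b, τ.1, τ.2, by omega, by omega, by have := hτ.1; omega, hτ.2.2.1, e⟩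
  rw [e]
  calc _ ≤ 2 * X * (2 * X) * (4 * (2 * X) + 2 * X) *
        (16 * Y ^ 2 * Y ^ 2 * (2 * X) + (Y ^ 2 + Y ^ 2) ^ 2 * (2 * X)) := by gcongr
    _ = _ := by ring

theorem GS_finite (X Y Z : ℕ) : (GS X Y Z).Finite :=
  (Set.finite_Iic _).subset fun _ h => (GS_fam h).1

end

theorem count :
    ∀ X ≥ 100, ∀ (Y Z U : ℕ) (C0 : ℝ), Reg 0 X Y Z U →
    SS X (TT C0 Y) (MF Z U) (fun _ _ => lam) ≤ (2 * Real.log X) ^ 4 *
      (64 * ((GS X Y Z).ncard : ℝ) + 2 * X * (Y : ℝ) ^ 2 * (Z : ℝ) ^ 4) := by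
  intro X hX Y Z U C0 hReg
  obtain ⟨N, hN⟩ : ∃ N : Finset (Σ _ : ℕ × ℕ, (Fin 4 → ℕ) × ℤ × ℤ),
      N = ((TT C0 Y).sigma fun τ => MF Z U τ ×ˢ box X).filter fun w =>
        GG w.1 w.2.1 w.2.2.1 w.2.2.2 ≠ 0 ∧ ∀ i, (uu w.1 w.2.1 w.2.2 i).toNat.Prime := ⟨_, rfl⟩
  have hmem : ∀ w ∈ N, w.1 ∈ TT C0 Y ∧ w.2.1 ∈ MF Z U w.1 ∧ w.2.2 ∈ box X ∧
      GG w.1 w.2.1 w.2.2.1 w.2.2.2 ≠ 0 ∧ ∀ i, (uu w.1 w.2.1 w.2.2 i).toNat.Prime := by
    intro w hw
    rw [hN, mem_filter, mem_sigma, mem_product] at hw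
    exact ⟨hw.1.1, hw.1.2.1, hw.1.2.2, hw.2⟩
  have h1 : SS X (TT C0 Y) (MF Z U) (fun _ _ => lam) ≤ N.card * (2 * Real.log X) ^ 4 := by
    rw [SS]
    simp only [← sum_product']
    rw [sum_sigma', ← nsmul_eq_mul]
    refine le_trans (le_of_eq ?_) (sum_le_card_nsmul N (fun w => GG w.1 w.2.1 w.2.2.1 w.2.2.2 *
      ∏ i, lam (uu w.1 w.2.1 w.2.2 i)) _ fun w hw => ?_)
    · rw [hN]
      refine (sum_filter_of_ne fun w _ hw => ⟨left_ne_zero_of_mul hw, fun i => ?_⟩).symm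
      by_contra h
      exact right_ne_zero_of_mul hw (prod_eq_zero (mem_univ i) (if_neg h))
    · obtain ⟨a, b, c, d, -⟩ := hmem w hw
      rw [(GG_cases _ _ _ _).resolve_left d, one_mul]
      refine (prod_le_prod (fun i _ => lam_nonneg _) fun i _ =>
        xCount_lam hX hReg a b c (GG_cond d) i).trans (le_of_eq ?_)
      simp
  have h2 : ((N.filter fun w => Function.Injective (uu w.1 w.2.1 w.2.2)).card : ℝ) ≤
      64 * ((GS X Y Z).ncard : ℝ) := by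
    have h3 := card_le_mul_card_image (f := fun w : Σ _ : ℕ × ℕ, (Fin 4 → ℕ) × ℤ × ℤ =>
      (DD w.1 w.2.2.1 w.2.2.2).toNat)
      (N.filter fun w => Function.Injective (uu w.1 w.2.1 w.2.2)) 64 fun D hD => by
      obtain ⟨v, hv, rfl⟩ := mem_image.1 hD
      obtain ⟨a', b', c', d', e'⟩ := hmem v (mem_filter.1 hv).1
      have hT : (univ.image (uu v.1 v.2.1 v.2.2)).card ≤ 4 := card_image_le.trans (by simp)
      refine (card_le_card_of_injOn (t := univ.image (uu v.1 v.2.1 v.2.2) ×ˢ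
        univ.image (uu v.1 v.2.1 v.2.2) ×ˢ univ.image (uu v.1 v.2.1 v.2.2))
        (fun w => (uu w.1 w.2.1 w.2.2 0, uu w.1 w.2.1 w.2.2 1, uu w.1 w.2.1 w.2.2 2))
        (fun w hw => ?_) fun w hw w' hw' h => ?_).trans ?_
      · obtain ⟨hw1, hw2⟩ := mem_filter.1 (mem_coe.1 hw)
        obtain ⟨a, b, c, d, e⟩ := hmem w (mem_filter.1 hw1).1
        have h4 := xCount_mem hReg a b c (GG_cond d) e a' b' c' (GG_cond d') e' (by
          rw [← Int.toNat_of_nonneg (xCount_pos a c), ← Int.toNat_of_nonneg (xCount_pos a' c'),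
            hw2])
        exact mem_coe.2 (mem_product.2 ⟨h4 0, mem_product.2 ⟨h4 1, h4 2⟩⟩)
      · obtain ⟨hw1, hw2⟩ := mem_filter.1 (mem_coe.1 hw)
        obtain ⟨hw1', hw2'⟩ := mem_filter.1 (mem_coe.1 hw')
        obtain ⟨a, b, c, d, e⟩ := hmem w (mem_filter.1 hw1).1
        obtain ⟨a'', b'', c'', d'', e''⟩ := hmem w' (mem_filter.1 hw1').1
        simp only [Prod.mk.injEq] at h
        obtain ⟨k1, k2, k3⟩ := rep_unique hX hReg a a'' b b'' c c'' (GG_cond d) (GG_cond d'') e e''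
          (mem_filter.1 hw1).2 h.1 h.2.1 h.2.2 (by
            rw [← Int.toNat_of_nonneg (xCount_pos a c),
              ← Int.toNat_of_nonneg (xCount_pos a'' c''), hw2, hw2'])
        exact Sigma.ext k1 (heq_of_eq (Prod.ext k2 k3))
      · rw [card_product, card_product]
        exact Nat.mul_le_mul hT (Nat.mul_le_mul hT hT)
    have h4 := Set.ncard_le_ncard (s := ↑((N.filter fun w =>
        Function.Injective (uu w.1 w.2.1 w.2.2)).image fun w => (DD w.1 w.2.2.1 w.2.2.2).toNat))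
      (fun D hD => by
        obtain ⟨v, hv, rfl⟩ := mem_image.1 (mem_coe.1 hD)
        obtain ⟨a, b, c, d, e⟩ := hmem v (mem_filter.1 hv).1
        exact ⟨_, _, _, (mem_TT a).1, (mem_TT a).2.2.1, (mem_TT a).2.2.2.2.1, (mem_MS.1 b).1.1,
          (mem_MS.1 b).2.1, c, d, e, (mem_filter.1 hv).2, rfl⟩) (GS_finite X Y Z)
    rw [Set.ncard_coe_finset] at h4
    exact_mod_cast h3.trans (Nat.mul_le_mul_left _ h4)
  have h3 : ((N.filter fun w => ¬ Function.Injective (uu w.1 w.2.1 w.2.2)).card : ℝ) ≤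
      2 * X * (Y : ℝ) ^ 2 * (Z : ℝ) ^ 4 := by
    have h4 := card_le_card_of_injOn
      (s := N.filter fun w => ¬ Function.Injective (uu w.1 w.2.1 w.2.2))
      (t := TT C0 Y ×ˢ (Fintype.piFinset fun _ : Fin 4 => Icc 1 Z) ×ˢ Ioc (0 : ℤ) (2 * X : ℕ))
      (fun w => (w.1, w.2.1, uu w.1 w.2.1 w.2.2 0)) (fun w hw => by
        obtain ⟨a, b, c, d, -⟩ := hmem w (mem_filter.1 (mem_coe.1 hw)).1
        obtain ⟨k1, k2⟩ := xCount_u hReg a b c (GG_cond d) 0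
        have k3 : LL w.1 w.2.2.1 w.2.2.2 0 ≤ 2 * X := (mem_box.1 c).1.2
        refine mem_coe.2 (mem_product.2 ⟨a, mem_product.2 ⟨Fintype.mem_piFinset.2 fun i =>
          mem_Icc.2 (MS_le b i), mem_Ioc.2 ⟨?_, ?_⟩⟩⟩)
        · exact lt_of_le_of_lt (Int.natCast_nonneg Z) k1
        · push_cast
          exact k2.trans k3) fun w hw w' hw' h => by
        obtain ⟨hw1, hw2⟩ := mem_filter.1 (mem_coe.1 hw)
        obtain ⟨hw1', hw2'⟩ := mem_filter.1 (mem_coe.1 hw')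
        obtain ⟨a, b, c, d, e⟩ := hmem w hw1
        obtain ⟨a', b', c', d', e'⟩ := hmem w' hw1'
        simp only [Prod.mk.injEq] at h
        have k1 := eq_of_not_inj hX hReg a b c (GG_cond d) e hw2
        have k2 := eq_of_not_inj hX hReg a' b' c' (GG_cond d') e' hw2'
        have k3 : w.2.2.1 = _ := xCount_mul (GG_cond d) 0
        have k4 : w.2.2.2 = _ := xCount_mul (GG_cond d) 1
        have k5 : w'.2.2.1 = _ := xCount_mul (GG_cond d') 0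
        have k6 : w'.2.2.2 = _ := xCount_mul (GG_cond d') 1
        refine Sigma.ext h.1 (heq_of_eq (Prod.ext h.2.1 (Prod.ext ?_ ?_)))
        · rw [k3, k5, h.2.2, h.2.1]
        · rw [k4, k6, ← k1, ← k2, h.2.2, h.2.1]
    rw [card_product, card_product, Fintype.card_piFinset_const, Nat.card_Icc, Int.card_Ioc,
      sub_zero, Int.toNat_natCast, Nat.add_sub_cancel] at h4
    have h5 := card_TT C0 Y
    calc ((N.filter fun w => ¬ Function.Injective (uu w.1 w.2.1 w.2.2)).card : ℝ)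
        ≤ (TT C0 Y).card * ((Z : ℝ) ^ 4 * (2 * X)) := by exact_mod_cast h4
      _ ≤ (Y : ℝ) ^ 2 * ((Z : ℝ) ^ 4 * (2 * X)) := by gcongr
      _ = _ := by ring
  have h4 := card_filter_add_card_filter_not (s := N)
    fun w => Function.Injective (uu w.1 w.2.1 w.2.2)
  refine h1.trans ?_
  rw [mul_comm, ← h4, Nat.cast_add]
  exact mul_le_mul_of_nonneg_left (add_le_add h2 h3) (by positivity)

end Pool.Agent.MP_e23604_nt.P
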