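import Pool.Agent.MP_e23604_nt.P.Basic

/-!
A member of the family has few representations.
-/

open Finset
open scoped Classical

noncomputable section

namespace Pool.Agent.MP_e23604_nt.P

theorem xMult_dvd {u c a : ℤ} (hu : Prime u) (h : u ∣ c * a) (h0 : c ≠ 0) (h1 : |c| < u) : u ∣ a :=
  (hu.dvd_or_dvd h).resolve_left fun h2 => h0 (Int.eq_zero_of_abs_lt_dvd h2 h1)

theorem xMult_eq {u v c : ℤ} (hu : Prime u) (hv : Prime v) (hv0 : 0 < v) (h : u ∣ c * v)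
    (h0 : c ≠ 0) (h1 : |c| < u) : u = v :=
  Int.eq_of_associated_of_nonneg (hu.associated_of_dvd hv (xMult_dvd hu h h0 h1))
    ((abs_nonneg c).trans h1.le) hv0.le

theorem xMult_facts {C0 : ℝ} {X Y Z U : ℕ} (hR : Reg 0 X Y Z U) {τ : ℕ × ℕ}
    {m : Fin 4 → ℕ} {z : ℤ × ℤ} (hτ : τ ∈ TT C0 Y) (hm : m ∈ MF Z U τ) (hz : z ∈ box X)
    (hc : Cond τ m z.1 z.2) (hp : ∀ i, (uu τ m z i).toNat.Prime) :
    (3 : ℤ) ≤ Z ∧ ss τ ^ 2 ≤ Z ∧ ∀ i, (1 : ℤ) ≤ m i ∧ (m i : ℤ) ≤ Z ∧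
      LL τ z.1 z.2 i = m i * uu τ m z i ∧ Prime (uu τ m z i) ∧ 9 * (Z : ℤ) ^ 2 < uu τ m z i := by
  obtain ⟨hk, -, hU⟩ := mem_MS.1 hm
  have h3 : 3 ≤ Z := (Nat.le_of_dvd (MS_le hm 0).1 hk.2.1).trans (MS_le hm 0).2
  have h3' : (3 : ℤ) ≤ Z := by exact_mod_cast h3
  refine ⟨h3', (TT_bounds hτ).2.2.2.trans ?_, fun i => ?_⟩
  · exact_mod_cast hR.hU.trans (hU.trans (MS_le hm 0).2)
  · have h1 : (1 : ℤ) ≤ m i := by exact_mod_cast (MS_le hm i).1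
    have h2 : (m i : ℤ) ≤ Z := by exact_mod_cast (MS_le hm i).2
    have h4 : LL τ z.1 z.2 i = m i * uu τ m z i := (Int.mul_ediv_cancel' (hc.2.2 i).1).symm
    have h5 : 0 < uu τ m z i := Int.pos_iff_toNat_pos.2 (hp i).pos
    refine ⟨h1, h2, h4, ?_, ?_⟩
    · rw [← Int.toNat_of_nonneg h5.le]
      exact Nat.prime_iff_prime_int.1 (hp i)
    · have h6 := LL_gt (mem_TT hτ).1 hz i
      have h7 : (Z : ℤ) ^ 5 ≤ X := by
        exact_mod_cast (Nat.pow_le_pow_right (by omega) (by norm_num)).trans hR.hZ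
      have h8 : (Z : ℤ) * (9 * Z ^ 2) ≤ Z ^ 5 := by
        have : (9 : ℤ) ≤ Z ^ 2 := by nlinarith
        calc (Z : ℤ) * (9 * Z ^ 2) ≤ Z * (Z ^ 2 * Z ^ 2) := by gcongr
          _ = _ := by ring
      refine lt_of_mul_lt_mul_left (a := (Z : ℤ)) ?_ (by linarith)
      nlinarith

/-- The three first large primes and the product determine the parameters. -/
theorem rep_unique {C0 : ℝ} {X Y Z U : ℕ} (hX : 100 ≤ X) (hR : Reg 0 X Y Z U) {τ τ' : ℕ × ℕ}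
    {m m' : Fin 4 → ℕ} {z z' : ℤ × ℤ} (hτ : τ ∈ TT C0 Y) (hτ' : τ' ∈ TT C0 Y) (hm : m ∈ MF Z U τ)
    (hm' : m' ∈ MF Z U τ') (hz : z ∈ box X) (hz' : z' ∈ box X) (hc : Cond τ m z.1 z.2)
    (hc' : Cond τ' m' z'.1 z'.2) (hp : ∀ i, (uu τ m z i).toNat.Prime)
    (hp' : ∀ i, (uu τ' m' z' i).toNat.Prime) (hi : Function.Injective (uu τ m z))
    (h0 : uu τ m z 0 = uu τ' m' z' 0) (h1 : uu τ m z 1 = uu τ' m' z' 1)
    (h2 : uu τ m z 2 = uu τ' m' z' 2) (hD : DD τ z.1 z.2 = DD τ' z'.1 z'.2) :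
    τ = τ' ∧ m = m' ∧ z = z' := by
  obtain ⟨hZ, hs, H⟩ := xMult_facts hR hτ hm hz hc hp
  have hZ3 : (Z : ℤ) ≤ Z ^ 2 := by nlinarith
  obtain ⟨-, hs', H'⟩ := xMult_facts hR hτ' hm' hz' hc' hp'
  obtain ⟨a0, b0, c0, d0, e0⟩ := H 0
  obtain ⟨a1, b1, c1, d1, e1⟩ := H 1
  obtain ⟨a2, b2, c2, -, -⟩ := H 2
  obtain ⟨a3, b3, c3, d3, e3⟩ := H 3
  obtain ⟨a0', b0', c0', -, -⟩ := H' 0
  obtain ⟨a1', b1', c1', -, -⟩ := H' 1
  obtain ⟨a2', b2', c2', -, -⟩ := H' 2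
  obtain ⟨a3', b3', c3', d3', e3'⟩ := H' 3
  clear H H'
  rw [← h0] at c0'
  rw [← h1] at c1'
  rw [← h2] at c2'
  have hne : uu τ m z 0 ≠ uu τ m z 1 := fun h => absurd (hi h) (by decide)
  have hA := (mem_TT hτ).1
  have hA' := (mem_TT hτ').1
  simp only [LL, Matrix.cons_val_zero, Matrix.cons_val_one,
    Matrix.cons_val] at c0 c1 c2 c3 c0' c1' c2' c3'
  have hZ2 : 0 < (Z : ℤ) ^ 2 := by positivity
  have van : ∀ c d : ℤ, c * uu τ m z 0 = d * uu τ m z 1 → |d| ≤ (Z : ℤ) ^ 2 → c = 0 ∧ d = 0 := by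
    intro c d h hd
    have h1 : d = 0 := by
      by_contra h1
      exact hne (xMult_eq d0 d1 (by linarith only [hZ2, e1]) ⟨c, by rw [← h, mul_comm]⟩ h1
        (by linarith only [hZ2, e0, hd]))
    rw [h1, zero_mul] at h
    exact ⟨(mul_eq_zero.1 h).resolve_right d0.ne_zero, h1⟩
  obtain ⟨k1, k2⟩ := van (4 * (m 0 * m' 2 - m' 0 * m 2)) (m' 1 * m 2 - m 1 * m' 2)
    (by linear_combination (m' 2 : ℤ) * (c2 - 4 * c0 - c1) - (m 2 : ℤ) * (c2' - 4 * c0' - c1'))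
    (by
      have t1 := mul_le_mul b1 b2' (Int.natCast_nonneg _) (Int.natCast_nonneg Z)
      have t2 := mul_le_mul b1' b2 (Int.natCast_nonneg _) (Int.natCast_nonneg Z)
      have t3 : (0 : ℤ) ≤ m' 1 * m 2 := by positivity
      have t4 : (0 : ℤ) ≤ m 1 * m' 2 := by positivity
      rw [pow_two, abs_le]
      constructor <;> linarith only [t1, t2, t3, t4])
  have k3 : m 0 * m' 2 = m' 0 * m 2 := by
    have : (m 0 : ℤ) * m' 2 = m' 0 * m 2 := by linarith only [k1]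
    exact_mod_cast this
  have q0 : m 0 = m' 0 := Nat.dvd_antisymm
    ((MM_cop (mem_MS.1 hm).1.1 (by decide : (0 : Fin 4) ≠ 2)).dvd_of_dvd_mul_right ⟨_, k3.symm⟩)
    ((MM_cop (mem_MS.1 hm').1.1 (by decide : (0 : Fin 4) ≠ 2)).dvd_of_dvd_mul_right ⟨_, k3⟩)
  have q2 : m 2 = m' 2 := by
    rw [← q0] at k3
    exact (Nat.eq_of_mul_eq_mul_left (MS_le hm 0).1 k3).symm
  have q1 : m 1 = m' 1 := by
    rw [← q2, ← sub_mul] at k2
    exact_mod_cast (sub_eq_zero.1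
      ((mul_eq_zero.1 k2).resolve_right (one_pos.trans_le a2).ne')).symm
  have hzz : z = z' := Prod.ext (by rw [c0, c0', q0]) (by rw [c1, c1', q1])
  subst hzz
  have g0 := LL_gt hA hz 0
  have g1 := LL_gt hA hz 1
  simp only [LL, Matrix.cons_val_zero, Matrix.cons_val_one] at g0 g1
  have hX0 : (0 : ℤ) ≤ X := by positivity
  have l3 : 4 * kk τ ^ 2 * z.1 + ss τ ^ 2 * z.2 = 4 * kk τ' ^ 2 * z.1 + ss τ' ^ 2 * z.2 := by
    simp only [DD, LL, Fin.prod_univ_four, Matrix.cons_val_zero, Matrix.cons_val_one,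
      Matrix.cons_val] at hD
    exact mul_left_cancel₀ (mul_pos (mul_pos (hX0.trans_lt g0) (hX0.trans_lt g1))
      (by linarith only [hX0, g0, g1])).ne' hD
  obtain ⟨k4, k5⟩ := van ((4 * kk τ ^ 2 - 4 * kk τ' ^ 2) * m 0) ((ss τ' ^ 2 - ss τ ^ 2) * m 1)
    (by linear_combination l3 - (4 * kk τ ^ 2 - 4 * kk τ' ^ 2) * c0 + (ss τ' ^ 2 - ss τ ^ 2) * c1)
    (by
      rw [abs_mul, pow_two (Z : ℤ)]
      exact mul_le_mul (abs_le.2 ⟨by linarith only [sq_nonneg (ss τ'), hs], by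
        linarith only [sq_nonneg (ss τ), hs']⟩) (abs_le.2 ⟨by linarith only [a1, hZ], b1⟩)
        (abs_nonneg _) (Int.natCast_nonneg Z))
  have k6 := (mul_eq_zero.1 k4).resolve_right (one_pos.trans_le a0).ne'
  have k7 := (mul_eq_zero.1 k5).resolve_right (one_pos.trans_le a1).ne'
  have k8 : kk τ = kk τ' := (sq_eq_sq₀ hA.pos.1.le hA'.pos.1.le).1 (by linarith only [k6])
  have k9 : ss τ = ss τ' := (sq_eq_sq₀ (hA.pos.1.trans hA.pos.2).le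
    (hA'.pos.1.trans hA'.pos.2).le).1 (by linarith only [k7])
  have hτe : τ = τ' := by
    unfold kk at k8
    unfold ss at k9
    have j1 : (τ.1 : ℤ) + τ.2 = τ'.1 + τ'.2 :=
      (sq_eq_sq₀ (by positivity) (by positivity)).1 (by linear_combination k8 + k9)
    have j2 := hA.1
    have j3 := hA'.2.1
    clear * - j1 j2 j3 k8 k9
    rcases sq_eq_sq_iff_eq_or_eq_neg.1 (show ((τ.1 : ℤ) - τ.2) ^ 2 = ((τ'.1 : ℤ) - τ'.2) ^ 2 by
      linear_combination k9 - k8) with j | j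
    · exact Prod.ext (by omega) (by omega)
    · omega
  subst hτe
  have q4 : uu τ m z 3 = uu τ m' z 3 :=
    xMult_eq d3 d3' (by linarith only [hZ2, e3']) (c := m' 3) ⟨m 3, by rw [← c3', c3, mul_comm]⟩
      (one_pos.trans_le a3').ne'
      (by rw [abs_of_pos (one_pos.trans_le a3')]; linarith only [hZ2, hZ3, b3', e3])
  have q3 : m 3 = m' 3 := by
    rw [c3, q4] at c3'
    exact_mod_cast mul_right_cancel₀ d3'.ne_zero c3'
  refine ⟨rfl, funext fun i => ?_, rfl⟩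
  fin_cases i
  exacts [q0, q1, q2, q3]

/-- If two of the large primes agree, then the first two agree. -/
theorem eq_of_not_inj {C0 : ℝ} {X Y Z U : ℕ} (hX : 100 ≤ X) (hR : Reg 0 X Y Z U) {τ : ℕ × ℕ}
    {m : Fin 4 → ℕ} {z : ℤ × ℤ} (hτ : τ ∈ TT C0 Y) (hm : m ∈ MF Z U τ) (hz : z ∈ box X)
    (hc : Cond τ m z.1 z.2) (hp : ∀ i, (uu τ m z i).toNat.Prime)
    (hi : ¬ Function.Injective (uu τ m z)) : uu τ m z 0 = uu τ m z 1 := by
  obtain ⟨hZ, hs, H⟩ := xMult_facts hR hτ hm hz hc hp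
  obtain ⟨hk, hks⟩ := (mem_TT hτ).1.pos
  have hk2 : kk τ ^ 2 < ss τ ^ 2 := by gcongr
  have hk0 : 0 < kk τ ^ 2 := by positivity
  have key : ∀ u : ℤ, Prime u → 9 * (Z : ℤ) ^ 2 < u → ∀ i j : Fin 4, i < j →
      u ∣ LL τ z.1 z.2 i → u ∣ LL τ z.1 z.2 j → u ∣ z.1 ∧ u ∣ z.2 := by
    intro u hu hb i j hij h1 h2
    have hd : ∀ c x : ℤ, 0 < c → c ≤ 4 * Z → u ∣ c * x → u ∣ x := fun c x c0 c1 h =>
      xMult_dvd hu h c0.ne' (by rw [abs_of_pos c0]; nlinarith)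
    fin_cases i <;> fin_cases j <;> first | exact absurd hij (by decide) | skip
    · exact ⟨h1, h2⟩
    · exact ⟨h1, (dvd_add_right (Dvd.dvd.mul_left h1 4)).1 h2⟩
    · exact ⟨h1, hd _ _ (by linarith) (by linarith)
        ((dvd_add_right (Dvd.dvd.mul_left h1 _)).1 h2)⟩
    · exact ⟨hd 4 _ (by norm_num) (by linarith) ((dvd_add_left h1).1 h2), h1⟩
    · exact ⟨hd _ _ (by linarith) (by linarith)
        ((dvd_add_left (Dvd.dvd.mul_left h1 _)).1 h2), h1⟩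
    · change u ∣ 4 * z.1 + z.2 at h1
      change u ∣ 4 * kk τ ^ 2 * z.1 + ss τ ^ 2 * z.2 at h2
      have h3 : u ∣ z.1 := hd (4 * (ss τ ^ 2 - kk τ ^ 2)) _ (by linarith) (by linarith) (by
        have h4 := dvd_sub (h1.mul_left (ss τ ^ 2)) h2
        rwa [show ss τ ^ 2 * (4 * z.1 + z.2) - (4 * kk τ ^ 2 * z.1 + ss τ ^ 2 * z.2) =
          4 * (ss τ ^ 2 - kk τ ^ 2) * z.1 by ring] at h4)
      exact ⟨h3, (dvd_add_right (h3.mul_left 4)).1 h1⟩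
  have fin : ∀ i j : Fin 4, i < j → uu τ m z i = uu τ m z j → uu τ m z 0 = uu τ m z 1 := by
    intro i j hij h
    obtain ⟨-, -, c, d, e⟩ := H i
    obtain ⟨h1, h2⟩ := key _ d e i j hij (c ▸ dvd_mul_left _ _)
      (by rw [(H j).2.2.1, h]; exact dvd_mul_left _ _)
    have hZ2 : 0 < (Z : ℤ) ^ 2 := by positivity
    have hq : ∀ l, uu τ m z i ∣ LL τ z.1 z.2 l → uu τ m z i = uu τ m z l := fun l hl => by
      obtain ⟨a1, b1, c1, d1, e1⟩ := H l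
      rw [c1] at hl
      exact xMult_eq d d1 (by linarith) hl (by linarith)
        (by rw [abs_of_pos (by linarith)]; nlinarith)
    exact (hq 0 h1).symm.trans (hq 1 h2)
  by_contra hne
  refine hi fun i j h => ?_
  by_contra hij
  rcases lt_or_gt_of_ne hij with h' | h'
  exacts [hne (fin i j h' h), hne (fin j i h' h.symm)]

end Pool.Agent.MP_e23604_nt.P
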