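import Pool.Agent.MP_e23604_nt.P.XDefs
import Pool.Agent.MP_e23604_nt.P.Mult

/-!
A number is found at few scales.
-/

open Finset
open scoped Classical

noncomputable section

namespace Pool.Agent.MP_e23604_nt.P

section

variable {X B : ℕ} {τ τ' : ℕ × ℕ} {m m' : Fin 4 → ℕ} {z z' : ℤ × ℤ}

theorem xCross_facts (hB : B ^ 100 ≤ X ^ 2) (hτ : Adm τ) (hs : Squarefree (MM m))
    (hm : MM m ≤ B) (hz : z ∈ box X) (hc : Cond τ m z.1 z.2)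
    (hp : ∀ i, (uu τ m z i).toNat.Prime) (i : Fin 4) :
    (1 : ℤ) ≤ m i ∧ (m i : ℤ) ≤ B ∧ LL τ z.1 z.2 i = m i * uu τ m z i ∧ Prime (uu τ m z i) ∧
      (B : ℤ) ^ 2 < uu τ m z i := by
  have a1 := MM_pos hs i
  have a2 : m i ≤ B := (Nat.le_of_dvd (Nat.pos_of_ne_zero hs.ne_zero) (dvd_MM m i)).trans hm
  have h1 : (1 : ℤ) ≤ m i := by exact_mod_cast a1
  have h2 : (m i : ℤ) ≤ B := by exact_mod_cast a2
  have h4 : LL τ z.1 z.2 i = m i * uu τ m z i := (Int.mul_ediv_cancel' (hc.2.2 i).1).symm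
  have h5 : 0 < uu τ m z i := Int.pos_iff_toNat_pos.2 (hp i).pos
  refine ⟨h1, h2, h4, ?_, ?_⟩
  · rw [← Int.toNat_of_nonneg h5.le]
    exact Nat.prime_iff_prime_int.1 (hp i)
  · have h6 := LL_gt hτ hz i
    have h7 : B ^ 3 ≤ X := by
      refine (Nat.pow_le_pow_iff_left (n := 2) (by norm_num)).1 (le_trans ?_ hB)
      rw [← pow_mul]
      exact Nat.pow_le_pow_right (a1.trans a2) (by norm_num)
    have h8 : (B : ℤ) ^ 3 ≤ X := by exact_mod_cast h7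
    refine lt_of_mul_lt_mul_left (a := (B : ℤ)) ?_ (by linarith)
    nlinarith

theorem xCross_mem (H : ∀ i, (1 : ℤ) ≤ m i ∧ (m i : ℤ) ≤ B ∧ LL τ z.1 z.2 i = m i * uu τ m z i ∧
      Prime (uu τ m z i) ∧ (B : ℤ) ^ 2 < uu τ m z i)
    (H' : ∀ i, (1 : ℤ) ≤ m' i ∧ (m' i : ℤ) ≤ B ∧ LL τ' z'.1 z'.2 i = m' i * uu τ' m' z' i ∧
      Prime (uu τ' m' z' i) ∧ (B : ℤ) ^ 2 < uu τ' m' z' i)
    (hD : DD τ z.1 z.2 = DD τ' z'.1 z'.2) (i : Fin 4) :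
    uu τ m z i ∈ univ.image (uu τ' m' z') := by
  obtain ⟨-, -, a3, a4, a5⟩ := H i
  have h3 : uu τ m z i ∣ ∏ j, LL τ' z'.1 z'.2 j := by
    refine dvd_trans ?_ (hD ▸ dvd_prod_of_mem _ (mem_univ i) : LL τ z.1 z.2 i ∣ DD τ' z'.1 z'.2)
    rw [a3]
    exact dvd_mul_left _ _
  obtain ⟨j, -, hj⟩ := a4.exists_mem_finset_dvd h3
  obtain ⟨b1, b2, b3, b4, b5⟩ := H' j
  rw [b3] at hj
  refine mem_image.2 ⟨j, mem_univ j, (xMult_eq a4 b4 ((sq_nonneg _).trans_lt b5) hj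
    (by linarith) ?_).symm⟩
  rw [abs_of_pos (by linarith)]
  nlinarith

theorem xCross_fst (hs : Squarefree (MM m)) (hs' : Squarefree (MM m'))
    (H : ∀ i, (1 : ℤ) ≤ m i ∧ (m i : ℤ) ≤ B ∧ LL τ z.1 z.2 i = m i * uu τ m z i ∧
      Prime (uu τ m z i) ∧ (B : ℤ) ^ 2 < uu τ m z i)
    (H' : ∀ i, (1 : ℤ) ≤ m' i ∧ (m' i : ℤ) ≤ B ∧ LL τ' z'.1 z'.2 i = m' i * uu τ' m' z' i ∧
      Prime (uu τ' m' z' i) ∧ (B : ℤ) ^ 2 < uu τ' m' z' i)
    (hi : Function.Injective (uu τ m z))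
    (h0 : uu τ m z 0 = uu τ' m' z' 0) (h1 : uu τ m z 1 = uu τ' m' z' 1)
    (h2 : uu τ m z 2 = uu τ' m' z' 2) : z.1 = z'.1 := by
  obtain ⟨-, -, c0, d0, e0⟩ := H 0
  obtain ⟨-, b1, c1, d1, e1⟩ := H 1
  obtain ⟨-, b2, c2, -, -⟩ := H 2
  obtain ⟨-, -, c0', -, -⟩ := H' 0
  obtain ⟨-, b1', c1', -, -⟩ := H' 1
  obtain ⟨-, b2', c2', -, -⟩ := H' 2
  clear H H'
  rw [← h0] at c0'
  rw [← h1] at c1'
  rw [← h2] at c2'
  have hne : uu τ m z 0 ≠ uu τ m z 1 := fun h => absurd (hi h) (by decide)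
  simp only [LL, Matrix.cons_val_zero, Matrix.cons_val_one,
    Matrix.cons_val] at c0 c1 c2 c0' c1' c2'
  have van : ∀ c d : ℤ, c * uu τ m z 0 = d * uu τ m z 1 → |d| ≤ (B : ℤ) ^ 2 → c = 0 := by
    intro c d h hd
    have h1 : d = 0 := by
      by_contra h1
      exact hne (xMult_eq d0 d1 ((sq_nonneg _).trans_lt e1) ⟨c, by rw [← h, mul_comm]⟩ h1
        (hd.trans_lt e0))
    rw [h1, zero_mul] at h
    exact (mul_eq_zero.1 h).resolve_right d0.ne_zero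
  have k1 := van (4 * (m 0 * m' 2 - m' 0 * m 2)) (m' 1 * m 2 - m 1 * m' 2)
    (by linear_combination (m' 2 : ℤ) * (c2 - 4 * c0 - c1) - (m 2 : ℤ) * (c2' - 4 * c0' - c1'))
    (by
      have t1 := mul_le_mul b1 b2' (Int.natCast_nonneg _) (Int.natCast_nonneg B)
      have t2 := mul_le_mul b1' b2 (Int.natCast_nonneg _) (Int.natCast_nonneg B)
      have t3 : (0 : ℤ) ≤ m' 1 * m 2 := by positivity
      have t4 : (0 : ℤ) ≤ m 1 * m' 2 := by positivity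
      rw [pow_two, abs_le]
      constructor <;> linarith only [t1, t2, t3, t4])
  have k3 : m 0 * m' 2 = m' 0 * m 2 := by
    have : (m 0 : ℤ) * m' 2 = m' 0 * m 2 := by linarith only [k1]
    exact_mod_cast this
  have q0 : m 0 = m' 0 := Nat.dvd_antisymm
    ((MM_cop hs (by decide : (0 : Fin 4) ≠ 2)).dvd_of_dvd_mul_right ⟨_, k3.symm⟩)
    ((MM_cop hs' (by decide : (0 : Fin 4) ≠ 2)).dvd_of_dvd_mul_right ⟨_, k3⟩)
  rw [c0, c0', q0]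

end

theorem cross {ι : Type} (I : Finset ι) (X Y Z : ι → ℕ) (hX : ∀ i ∈ I, 100 ≤ X i)
    (hZ : ∀ i ∈ I, Z i ^ 100 ≤ X i) (hXX : ∀ i ∈ I, ∀ j ∈ I, X i ≤ X j ^ 2)
    (hsep : ∀ i ∈ I, ∀ j ∈ I, i ≠ j → 2 * X i ≤ X j ∨ 2 * X j ≤ X i) (D : ℕ) :
    (I.filter fun i => D ∈ GS (X i) (Y i) (Z i)).card ≤ 64 := by
  rcases (I.filter fun i => D ∈ GS (X i) (Y i) (Z i)).eq_empty_or_nonempty with h | ⟨i0, hi0⟩
  · rw [h]
    simp
  have hex : ∀ i, ∃ (τ : ℕ × ℕ) (m : Fin 4 → ℕ) (z : ℤ × ℤ), D ∈ GS (X i) (Y i) (Z i) →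
      Adm τ ∧ τ.1 ≤ Y i ∧ τ.2 ≤ Y i ∧ Squarefree (MM m) ∧ MM m ≤ Z i ∧ z ∈ box (X i) ∧
      GG τ m z.1 z.2 ≠ 0 ∧ (∀ k, (uu τ m z k).toNat.Prime) ∧ Function.Injective (uu τ m z) ∧
      D = (DD τ z.1 z.2).toNat := by
    intro i
    by_cases h : D ∈ GS (X i) (Y i) (Z i)
    · obtain ⟨τ, m, z, h'⟩ := h
      exact ⟨τ, m, z, fun _ => h'⟩
    · exact ⟨0, 0, 0, fun h' => absurd h' h⟩
  choose τ m z hr using hex
  have hf : ∀ i ∈ I.filter fun i => D ∈ GS (X i) (Y i) (Z i), ∀ j ∈ I, ∀ B, Z i ≤ B →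
      (B = Z i ∨ B = Z j) → ∀ k, (1 : ℤ) ≤ m i k ∧ (m i k : ℤ) ≤ B ∧
      LL (τ i) (z i).1 (z i).2 k = m i k * uu (τ i) (m i) (z i) k ∧
      Prime (uu (τ i) (m i) (z i) k) ∧ (B : ℤ) ^ 2 < uu (τ i) (m i) (z i) k := by
    intro i hi j hj B h1 h2
    obtain ⟨hi1, hi2⟩ := mem_filter.1 hi
    obtain ⟨a1, -, -, a2, a3, a4, a5, a6, -⟩ := hr i hi2
    refine xCross_facts ?_ a1 a2 (a3.trans h1) a4 (GG_cond a5) a6
    rcases h2 with rfl | rfl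
    · exact (hZ i hi1).trans (hXX i hi1 i hi1)
    · exact (hZ j hj).trans (hXX j hj i hi1)
  have hg : ∀ i ∈ I.filter fun i => D ∈ GS (X i) (Y i) (Z i),
      DD (τ i) (z i).1 (z i).2 = D := by
    intro i hi
    obtain ⟨a1, -, -, -, -, a4, -, -, -, a7⟩ := hr i (mem_filter.1 hi).2
    rw [a7]
    exact (Int.toNat_of_nonneg (prod_nonneg fun k _ =>
      (Int.natCast_nonneg _).trans (LL_gt a1 a4 k).le)).symm
  have hT : (univ.image (uu (τ i0) (m i0) (z i0))).card ≤ 4 := card_image_le.trans (by simp)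
  refine (card_le_card_of_injOn (t := univ.image (uu (τ i0) (m i0) (z i0)) ×ˢ
    univ.image (uu (τ i0) (m i0) (z i0)) ×ˢ univ.image (uu (τ i0) (m i0) (z i0)))
    (fun i => (uu (τ i) (m i) (z i) 0, uu (τ i) (m i) (z i) 1, uu (τ i) (m i) (z i) 2))
    (fun i hi => ?_) fun i hi j hj h => ?_).trans ?_
  · have hi := mem_coe.1 hi
    have h4 := xCross_mem
      (hf i hi i0 (mem_filter.1 hi0).1 _ (le_max_left (Z i) (Z i0)) (max_choice _ _))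
      (hf i0 hi0 i (mem_filter.1 hi).1 _ (le_max_right (Z i) (Z i0)) (max_choice _ _).symm)
      ((hg i hi).trans (hg i0 hi0).symm)
    exact mem_coe.2 (mem_product.2 ⟨h4 0, mem_product.2 ⟨h4 1, h4 2⟩⟩)
  · have hi := mem_coe.1 hi
    have hj := mem_coe.1 hj
    obtain ⟨-, -, -, a2, -, a4, -, -, a6, -⟩ := hr i (mem_filter.1 hi).2
    obtain ⟨-, -, -, b2, -, b4, -⟩ := hr j (mem_filter.1 hj).2
    simp only [Prod.mk.injEq] at h
    have e := xCross_fst a2 b2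
      (hf i hi j (mem_filter.1 hj).1 _ (le_max_left (Z i) (Z j)) (max_choice _ _))
      (hf j hj i (mem_filter.1 hi).1 _ (le_max_right (Z i) (Z j)) (max_choice _ _).symm)
      a6 h.1 h.2.1 h.2.2
    by_contra hij
    have c1 := (mem_box.1 a4).1
    have c2 := (mem_box.1 b4).1
    rcases hsep i (mem_filter.1 hi).1 j (mem_filter.1 hj).1 hij with h' | h' <;> omega
  · rw [card_product, card_product]
    exact Nat.mul_le_mul hT (Nat.mul_le_mul hT hT)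

end Pool.Agent.MP_e23604_nt.P
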