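import Mathlib

/-!
Definitions for the positive proportion theorem (arithmetic and analytic side).
-/

open Finset
open scoped Classical

noncomputable section

namespace Pool.Agent.MP_e23604_nt.P

/-! The family. -/

def kk (τ : ℕ × ℕ) : ℤ := 2 * (τ.1 : ℤ) * τ.2
def ss (τ : ℕ × ℕ) : ℤ := (τ.1 : ℤ) ^ 2 + (τ.2 : ℤ) ^ 2
def rr (τ : ℕ × ℕ) : ℤ := (τ.1 : ℤ) ^ 2 - (τ.2 : ℤ) ^ 2

/-- The four linear forms. -/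
def LL (τ : ℕ × ℕ) (a b : ℤ) : Fin 4 → ℤ :=
  ![a, b, 4 * a + b, 4 * kk τ ^ 2 * a + ss τ ^ 2 * b]

def DD (τ : ℕ × ℕ) (a b : ℤ) : ℤ := ∏ i, LL τ a b i

def nn (τ : ℕ × ℕ) : ℕ := (rr τ * ss τ * kk τ).natAbs

def Adm (τ : ℕ × ℕ) : Prop := τ.1 % 2 = 1 ∧ 4 ∣ τ.2 ∧ 0 < τ.2 ∧ Nat.Coprime τ.1 τ.2

def TT (C0 : ℝ) (Y : ℕ) : Finset (ℕ × ℕ) :=
  (Ioc (Y / 2) Y ×ˢ Ioc (Y / 2) Y).filter fun τ =>
    Adm τ ∧ ∑ l ∈ (nn τ).primeFactors, (1 : ℝ) / l ≤ C0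

def MM (m : Fin 4 → ℕ) : ℕ := ∏ i, m i

def MOK (n : ℕ) (m : Fin 4 → ℕ) : Prop :=
  Squarefree (MM m) ∧ 3 ∣ m 0 ∧ Nat.Coprime (MM m / 3) n

def MS (n Z U : ℕ) : Finset (Fin 4 → ℕ) :=
  (Fintype.piFinset fun _ => Icc 1 Z).filter fun m => MOK n m ∧ MM m ≤ Z ∧ U ≤ m 0

/-! The good event. -/

/-- Additive Jacobi symbol. -/
def sy (u : ℤ) (l : ℕ) : ZMod 2 := if jacobiSym u l = -1 then 1 else 0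

def ep (l : ℕ) : ZMod 2 := if l % 4 = 3 then 1 else 0

/-- The bordered matrix with block `A`, column `c`, row `r` is invertible whatever the corner. -/
def GoodM {ι : Type} [Fintype ι] (A : ι → ι → ZMod 2) (c r : ι → ZMod 2) : Prop :=
  (∀ v : ι → ZMod 2, (∀ i, ∑ j, A i j * v j = 0) → ∑ j, r j * v j = 0 → v = 0) ∧
  (∀ u : ι → ZMod 2, (∀ j, ∑ i, u i * A i j = 0) → ∑ i, u i * c i = 0 → u = 0) ∧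
  (∃ v : ι → ZMod 2, (∀ i, ∑ j, A i j * v j = 0) ∧ ∑ j, r j * v j = 1) ∧
  (∃ u : ι → ZMod 2, (∀ j, ∑ i, u i * A i j = 0) ∧ ∑ i, u i * c i = 1)

abbrev PI (m : Fin 4 → ℕ) : Type := ↥(MM m).primeFactors

def mat (m : Fin 4 → ℕ) (δ : PI m → ZMod 2) (i j : PI m) : ZMod 2 :=
  (if i = j then δ i else sy ((j : ℕ) : ℤ) i) +
    (if (i : ℕ) ∣ m 2 * m 3 then ep i else 0) * (if (j : ℕ) ∣ m 1 * m 3 then ep j else 0)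

def GoodB (m : Fin 4 → ℕ) (δ β : PI m → ZMod 2) : Prop :=
  GoodM (mat m δ) β (fun j => β j + if (j : ℕ) ∣ m 0 then ep j else 0)

/-- The proportion of good bit vectors. -/
def pgood (m : Fin 4 → ℕ) : ℝ :=
  ((univ.filter fun z : (PI m → ZMod 2) × (PI m → ZMod 2) => GoodB m z.1 z.2).card : ℝ) /
    4 ^ (MM m).primeFactors.card

def dl (τ : ℕ × ℕ) (m : Fin 4 → ℕ) (a b : ℤ) : PI m → ZMod 2 :=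
  fun l => sy (DD τ a b / ((l : ℕ) : ℤ)) l

def bl (m : Fin 4 → ℕ) (a b : ℤ) : PI m → ZMod 2 :=
  fun l => if (l : ℕ) ∣ m 0 then sy b l else sy a l

def Cond (τ : ℕ × ℕ) (m : Fin 4 → ℕ) (a b : ℤ) : Prop :=
  a % 16 = 1 ∧ b % 16 = 7 ∧
    ∀ i, (m i : ℤ) ∣ LL τ a b i ∧ IsCoprime (LL τ a b i / (m i : ℤ)) (MM m : ℤ)

def GG (τ : ℕ × ℕ) (m : Fin 4 → ℕ) (a b : ℤ) : ℝ :=
  if Cond τ m a b ∧ GoodB m (dl τ m a b) (bl m a b) then 1 else 0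

/-- The local condition at a prime `l` of type `i` with prescribed bits. -/
def loc (τ : ℕ × ℕ) (i : Fin 4) (l : ℕ) (δ β : ZMod 2) (a b : ℤ) : ℝ :=
  if ((l : ℤ) ∣ LL τ a b i ∧ ¬ (l : ℤ) ^ 2 ∣ LL τ a b i ∧ ∀ j, j ≠ i → ¬ (l : ℤ) ∣ LL τ a b j) ∧
    sy (DD τ a b / (l : ℤ)) l = δ ∧ (if i = 0 then sy b l else sy a l) = β then 1 else 0

/-! Primes and their sieve model. -/

def lam (n : ℤ) : ℝ := if n.toNat.Prime then Real.log n else 0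

def PW (W : ℕ) : Finset ℕ := (range (W + 1)).filter Nat.Prime

def cW (W : ℕ) : ℝ := ∏ q ∈ PW W, (1 - 1 / (q : ℝ))⁻¹

def Rough (Q : Finset ℕ) (n : ℤ) : Prop := ∀ q ∈ Q, ¬ (q : ℤ) ∣ n

def shp (W : ℕ) (n : ℤ) : ℝ := if Rough (PW W) n then cW W else 0

def gg (W : ℕ) (n : ℤ) : ℝ := lam n - shp W n

def WW (B X : ℕ) : ℕ := ⌈Real.log X ^ B⌉₊

def ES (Q : Finset ℕ) (k : ℕ) : Finset ℕ :=
  (∏ q ∈ Q, q).divisors.filter fun e => e.primeFactors.card ≤ k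

/-- `μ(e)` if `e ∣ n`, else `0`. -/
def mu (e : ℕ) (n : ℤ) : ℝ := if (e : ℤ) ∣ n then (ArithmeticFunction.moebius e : ℝ) else 0

def flat (Q : Finset ℕ) (k : ℕ) (n : ℤ) : ℝ := ∑ e ∈ ES Q k, mu e n

def Q3 (W : ℕ) : Finset ℕ := (PW W).erase 2

def Q4 (W : ℕ) (τ : ℕ × ℕ) : Finset ℕ := (PW W).filter fun q => ¬ q ∣ nn τ

def box (X : ℕ) : Finset (ℤ × ℤ) := Ioc (X : ℤ) (2 * X) ×ˢ Ioc (X : ℤ) (2 * X)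

/-- The quotient `L i / m i`. -/
def uu (τ : ℕ × ℕ) (m : Fin 4 → ℕ) (z : ℤ × ℤ) (i : Fin 4) : ℤ := LL τ z.1 z.2 i / (m i : ℤ)

/-- The weighted count; the weights may depend on `τ`. -/
def SS (X : ℕ) (T : Finset (ℕ × ℕ)) (Mf : ℕ × ℕ → Finset (Fin 4 → ℕ))
    (g : ℕ × ℕ → Fin 4 → ℤ → ℝ) : ℝ :=
  ∑ τ ∈ T, ∑ m ∈ Mf τ, ∑ z ∈ box X, GG τ m z.1 z.2 * ∏ i, g τ i (uu τ m z i)

def MF (Z U : ℕ) : ℕ × ℕ → Finset (Fin 4 → ℕ) := fun τ => MS (nn τ) Z U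

def MB (Z U M : ℕ) : ℕ × ℕ → Finset (Fin 4 → ℕ) :=
  fun τ => (MS (nn τ) Z U).filter fun m => M ≤ m 0 ∧ m 0 < 2 * M

structure Reg (A X Y Z U : ℕ) : Prop where
  hY : Real.log X ^ A ≤ Y
  hY' : Y ^ 100 ≤ X
  hZ : Z ^ 100 ≤ X
  hU : 4 * Y ^ 4 ≤ U

/-- A weight of size at most `3 log X` that lives on rough numbers. -/
def Wt (W X : ℕ) (g : ℤ → ℝ) : Prop :=
  (∀ u : ℤ, 0 ≤ u → u ≤ (X : ℤ) ^ 3 → |g u| ≤ 3 * Real.log X) ∧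
    ∀ u : ℤ, g u ≠ 0 → (W : ℤ) < u → Rough (PW W) u

/-- The set of squarefree members of the family with the property `R`. -/
def DS (R : ℕ → Prop) (X Y : ℕ) : Set ℕ :=
  {D | Squarefree D ∧ (∃ a ∈ Set.Icc 1 X, ∃ b ∈ Set.Icc 1 X, ∃ p ∈ Set.Icc 1 Y, ∃ q ∈ Set.Icc 1 Y,
    D = a * b * (4 * a + b) * (16 * p ^ 2 * q ^ 2 * a + (p ^ 2 + q ^ 2) ^ 2 * b)) ∧ R D}

/-! Divisor function, spread families, averages. -/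

def tau (n : ℤ) : ℝ := (n.natAbs.divisors.card : ℝ)

def Spread {α : Type} (s : Finset α) (f : α → ℤ) (ρ N : ℝ) : Prop :=
  1 ≤ N ∧ (∀ x ∈ s, f x ≠ 0 ∧ ((f x).natAbs : ℝ) ≤ N) ∧
    ∀ n : ℕ, ((s.filter fun x => (f x).natAbs = n).card : ℝ) ≤ ρ

def Spr {α : Type} (s : Finset α) (f : α → ℤ) (V R : ℝ) : Prop :=
  ∃ ρ N : ℝ, Spread s f ρ N ∧ ρ * N ≤ V ∧ N ≤ R

def Per (K : ℕ) (f : ℤ → ℤ → ℝ) : Prop := ∀ x y, f (x + K) y = f x y ∧ f x (y + K) = f x y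

def avg (K : ℕ) (f : ℤ → ℤ → ℝ) : ℝ :=
  (∑ z ∈ Ico (0 : ℤ) K ×ˢ Ico (0 : ℤ) K, f z.1 z.2) / (K : ℝ) ^ 2

/-! Pairs of linear forms. -/

def psi (g : ℤ → ℝ) (y : ℤ) (w K : ℕ) (c : ℤ) : ℝ :=
  ∑ u ∈ (Ico y (y + w)).filter fun u => u % (K : ℤ) = c, g u

def NN (g : ℤ → ℝ) (y : ℤ) (w K : ℕ) : ℝ := ∑ c ∈ Ico (0 : ℤ) K, |psi g y w K c|

def sq (g : ℤ → ℝ) (y : ℤ) (w d : ℕ) : ℝ :=
  ∑ a ∈ (range d).filter fun a => Nat.Coprime a d,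
    ‖∑ u ∈ Ico y (y + w), (g u : ℂ) * Complex.exp (2 * Real.pi * Complex.I * (u * a / d))‖ ^ 2

structure Datum where
  A1 : ℤ
  A2 : ℤ
  B1 : ℤ
  B2 : ℤ
  α : ℤ
  β : ℤ
  α' : ℤ
  β' : ℤ
  m : ℕ
  m' : ℕ
  K0 : ℕ
  t0 : ℕ
  F : ℤ → ℤ → ℝ

def Datum.bx (d : Datum) : Finset (ℤ × ℤ) := Ioc d.A1 d.A2 ×ˢ Ioc d.B1 d.B2
def Datum.l (d : Datum) (z : ℤ × ℤ) : ℤ := d.α * z.1 + d.β * z.2
def Datum.l' (d : Datum) (z : ℤ × ℤ) : ℤ := d.α' * z.1 + d.β' * z.2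
def Datum.det (d : Datum) : ℤ := d.α * d.β' - d.α' * d.β
def Datum.K (d : Datum) : ℕ := d.K0 * d.det.natAbs

def Datum.T (d : Datum) (g g' : ℤ → ℝ) : ℝ :=
  ∑ z ∈ d.bx, d.F z.1 z.2 * g (d.l z / (d.m : ℤ)) * g' (d.l' z / (d.m' : ℤ))

/-- The points of the box close to its boundary. -/
def Datum.near (d : Datum) (η1 η2 : ℝ) : Finset (ℤ × ℤ) :=
  d.bx.filter fun z => (z.1 : ℝ) ≤ d.A1 + η1 ∨ (d.A2 : ℝ) - η1 < z.1 ∨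
    (z.2 : ℝ) ≤ d.B1 + η2 ∨ (d.B2 : ℝ) - η2 < z.2

def Datum.nr (d : Datum) (U : ℝ) (H : ℕ) : Finset (ℤ × ℤ) :=
  d.near (U * |(d.β' : ℝ)| / (H * |(d.det : ℝ)|)) (U * |(d.α' : ℝ)| / (H * |(d.det : ℝ)|))

/-- The mass of `F` on a set of points. -/
def Datum.mass (d : Datum) (s : Finset (ℤ × ℤ)) : ℝ := ∑ z ∈ s, |d.F z.1 z.2|

structure Datum.OK (d : Datum) (U T0 : ℝ) : Prop where
  cop : IsCoprime d.α d.β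
  det : d.det ≠ 0
  m_pos : 1 ≤ d.m
  m'_pos : 1 ≤ d.m'
  K0_pos : 1 ≤ d.K0
  t0_pos : 1 ≤ d.t0
  bd : ∀ x y, |d.F x y| ≤ 1
  per : Per d.K0 d.F
  dvd : ∀ x y, d.F x y ≠ 0 → (d.m : ℤ) ∣ d.l (x, y) ∧ (d.m' : ℤ) ∣ d.l' (x, y)
  sparse : ∀ x y t, d.F x y ≠ 0 → d.F (x + t * d.β) (y - t * d.α) ≠ 0 → (d.t0 : ℤ) ∣ t
  rng : ∀ z ∈ d.bx, 0 < d.l z ∧ (d.l z : ℝ) ≤ U ∧ 0 < d.l' z ∧ (d.l' z : ℝ) ≤ U
  len : ∀ z ∈ d.bx, ∀ t : ℤ, (z.1 + t * d.β, z.2 - t * d.α) ∈ d.bx → |(t : ℝ)| ≤ T0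

structure CoreHyp {ι κ : Type} (X : ℕ) (P : Finset ι) (Bs : Finset κ) (dat : ι → Datum)
    (bs : ι → κ) (f : Fin 4 → κ → ℤ) (V U T0 : ℝ) : Prop where
  hU : (X : ℝ) ≤ U
  hU' : U ≤ (X : ℝ) ^ 2
  hT : 0 ≤ T0
  spr : ∀ i, Spr Bs (f i) V ((X : ℝ) ^ 2)
  ok : ∀ π ∈ P, (dat π).OK U T0
  mem : ∀ π ∈ P, bs π ∈ Bs
  sz : ∀ π ∈ P, (dat π).m ^ 10 ≤ X ∧ (dat π).K ^ 5 ≤ X ∧ (dat π).t0 ≤ X ∧
    ((dat π).t0 : ℝ) ≤ T0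
  dv : ∀ π ∈ P, ((dat π).K : ℤ) ∣ (2 * (dat π).m * (dat π).t0 * ∏ i, f i (bs π)) ^ 20
  mult : ∀ (b : κ) (m t : ℕ), ((P.filter fun π => bs π = b ∧ (dat π).m = m ∧
    (dat π).t0 = t).card : ℝ) ≤ tau ((∏ i, f i b) * t) ^ 6

/-- `μ / gcd(μ, G)`. -/
def red (μ : ℕ) (G : ℤ) : ℕ := μ / Nat.gcd μ G.natAbs

/-! Step 4: the last form, averaged over `τ`. -/

abbrev I4 : Type := ((ℕ × ℕ) × (ℕ × ℕ)) × ((Fin 4 → ℕ) × (Fin 4 → ℕ))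

def f4 : Fin 4 → (ℕ × ℕ) × (ℕ × ℕ) → ℤ := fun i b =>
  ![(b.1.2 : ℤ) * b.2.1 - b.1.1 * b.2.2, (b.1.2 : ℤ) * b.2.1 + b.1.1 * b.2.2,
    (b.1.1 : ℤ) * b.2.1 - b.1.2 * b.2.2, (b.1.1 : ℤ) * b.2.1 + b.1.2 * b.2.2] i

def P4 (T : Finset (ℕ × ℕ)) (Z U : ℕ) : Finset I4 :=
  ((T ×ˢ T) ×ˢ ((Fintype.piFinset fun _ => Icc 1 Z) ×ˢ (Fintype.piFinset fun _ => Icc 1 Z))).filter
    fun π => π.2.1 ∈ MF Z U π.1.1 ∧ π.2.2 ∈ MF Z U π.1.2 ∧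
      π.2.1 0 = π.2.2 0 ∧ π.2.1 1 = π.2.2 1 ∧ π.2.1 2 = π.2.2 2

def B4 (T : Finset (ℕ × ℕ)) : Finset ((ℕ × ℕ) × (ℕ × ℕ)) :=
  (T ×ˢ T).filter fun b => ∀ i, f4 i b ≠ 0

def dat4 (X : ℕ) (π : I4) : Datum where
  A1 := X
  A2 := 2 * X
  B1 := X
  B2 := 2 * X
  α := 4 * kk π.1.1 ^ 2
  β := ss π.1.1 ^ 2
  α' := 4 * kk π.1.2 ^ 2
  β' := ss π.1.2 ^ 2
  m := π.2.1 3
  m' := π.2.2 3
  K0 := 16 * (MM π.2.1 * MM π.2.2) ^ 2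
  t0 := Nat.lcm (π.2.1 0 * π.2.1 1 * π.2.1 2) (red (π.2.2 3) (∏ i, f4 i π.1))
  F := fun a b => GG π.1.1 π.2.1 a b * GG π.1.2 π.2.2 a b

/-! Step 3: the third form, averaged over `m 0` in a dyadic block. -/

abbrev I3 : Type := (ℕ × ℕ) × (((Fin 4 → ℕ) × ℕ) × ((Fin 4 → ℕ) × ℕ))

def bs3 (π : I3) : (ℕ × ℕ) × (ℕ × ℕ) := (π.1, π.2.1.1 0, π.2.2.1 0)

def f3 : Fin 4 → (ℕ × ℕ) × (ℕ × ℕ) → ℤ := fun i b =>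
  ![(b.2.1 : ℤ), (b.2.2 : ℤ), (b.2.1 : ℤ) - b.2.2, kk b.1 ^ 2 * b.2.2 - ss b.1 ^ 2 * b.2.1] i

def P3 (T : Finset (ℕ × ℕ)) (Z U M W k : ℕ) : Finset I3 :=
  T.biUnion fun τ => (((MB Z U M τ ×ˢ ES (Q4 W τ) k) ×ˢ (MB Z U M τ ×ˢ ES (Q4 W τ) k)).filter
    fun x => x.1.1 1 = x.2.1 1).image fun x => (τ, x)

def B3 (T : Finset (ℕ × ℕ)) (M : ℕ) : Finset ((ℕ × ℕ) × (ℕ × ℕ)) :=
  (T ×ˢ (Ico M (2 * M) ×ˢ Ico M (2 * M))).filter fun b => ∀ i, f3 i b ≠ 0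

/-- One factor of the weight in step 3, in the variables `n = a / m 0` and `b`. -/
def F3 (τ : ℕ × ℕ) (x : (Fin 4 → ℕ) × ℕ) (n b : ℤ) : ℝ :=
  GG τ x.1 (x.1 0 * n) b * mu x.2 (uu τ x.1 (x.1 0 * n, b) 3)

def dat3 (X : ℕ) (π : I3) : Datum where
  A1 := max ((X : ℤ) / π.2.1.1 0) ((X : ℤ) / π.2.2.1 0)
  A2 := min (2 * (X : ℤ) / π.2.1.1 0) (2 * (X : ℤ) / π.2.2.1 0)
  B1 := X
  B2 := 2 * X
  α := 4 * π.2.1.1 0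
  β := 1
  α' := 4 * π.2.2.1 0
  β' := 1
  m := π.2.1.1 2
  m' := π.2.2.1 2
  K0 := 16 * (MM π.2.1.1 * MM π.2.2.1) ^ 2 * (π.2.1.2 * π.2.2.2)
  t0 := Nat.lcm (Nat.lcm (π.2.1.1 1) (red (π.2.2.1 2) (∏ i, f3 i (bs3 π))))
    (Nat.lcm (red (π.2.1.1 3 * π.2.1.2) (∏ i, f3 i (bs3 π)))
      (red (π.2.2.1 3 * π.2.2.2) (∏ i, f3 i (bs3 π))))
  F := fun n b => F3 π.1 π.2.1 n b * F3 π.1 π.2.2 n b

/-! Steps 2 and 1: the first two forms. -/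

abbrev I2 : Type := (ℕ × ℕ) × ((Fin 4 → ℕ) × (ℕ × ℕ))

def f2 : Fin 4 → ℕ × ℕ → ℤ := fun _ _ => 1

def P2 (T : Finset (ℕ × ℕ)) (Z U W k : ℕ) : Finset I2 :=
  T.biUnion fun τ => (MF Z U τ ×ˢ (ES (Q3 W) k ×ˢ ES (Q4 W τ) k)).image fun x => (τ, x)

def F2 (π : I2) (a b : ℤ) : ℝ :=
  GG π.1 π.2.1 a b * mu π.2.2.1 (uu π.1 π.2.1 (a, b) 2) * mu π.2.2.2 (uu π.1 π.2.1 (a, b) 3)

def dat2 (X : ℕ) (π : I2) : Datum where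
  A1 := X
  A2 := 2 * X
  B1 := X
  B2 := 2 * X
  α := 0
  β := 1
  α' := 1
  β' := 0
  m := π.2.1 1
  m' := π.2.1 0
  K0 := 16 * MM π.2.1 ^ 2 * (π.2.2.1 * π.2.2.2)
  t0 := Nat.lcm (π.2.1 0) (Nat.lcm (π.2.1 2 * π.2.2.1) (π.2.1 3 * π.2.2.2))
  F := F2 π

def dat1 (X : ℕ) (π : I2) : Datum where
  A1 := X
  A2 := 2 * X
  B1 := X
  B2 := 2 * X
  α := 1
  β := 0
  α' := 0
  β' := 1
  m := π.2.1 0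
  m' := π.2.1 1
  K0 := 16 * MM π.2.1 ^ 2 * (π.2.2.1 * π.2.2.2)
  t0 := Nat.lcm (π.2.1 1) (Nat.lcm (π.2.1 2 * π.2.2.1) (π.2.1 3 * π.2.2.2))
  F := F2 π

/-! The random model for the small primes. -/

def chi (c : ℤ) (n : ℕ) : ℝ := if n % 2 = 1 then (jacobiSym c n : ℝ) else 0

def NS (c : ℤ) : Prop := ∃ n : ℕ, n % 2 = 1 ∧ jacobiSym c n = -1

def star (e : ℕ) : ℤ := if e % 4 = 1 then e else -e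

def PP (n Q : ℕ) : Finset ℕ := (range (Q + 1)).filter fun l => l.Prime ∧ ¬ l ∣ n

def xx (s : ℝ) (l : ℕ) : ℝ := (l : ℝ) ^ (-(1 + 1 / s))

def al (s : ℝ) (c1 c2 : ℤ) (l : ℕ) : ℝ := xx s l * (chi c1 l + chi c2 l) / (1 + 2 * xx s l)

def EP (s : ℝ) (P : Finset ℕ) (c : ℤ) : ℝ := ∏ l ∈ P, (1 - chi c l * xx s l)⁻¹

/-- The bilinear sum over nonempty subsets, restricted by a condition on the two products. -/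
def FFp (P : Finset ℕ) (α β : ℕ → ℝ) (p : ℕ → ℕ → Prop) : ℝ :=
  ∑ x ∈ P.powerset.erase ∅, ∑ e ∈ P.powerset.erase ∅,
    if p (∏ l ∈ x, l) (∏ l ∈ e, l) then
      (∏ l ∈ x, α l) * (∏ l ∈ e, β l) * (jacobiSym ((∏ l ∈ x, l : ℕ) : ℤ) (∏ l ∈ e, l) : ℝ)
    else 0

def FF (P : Finset ℕ) (α β : ℕ → ℝ) : ℝ := FFp P α β fun _ _ => True

/-- The setting of the model: `n` carries the excluded primes. -/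
structure Mod (C0 s : ℝ) (n Q : ℕ) : Prop where
  six : 6 ∣ n
  ne : n ≠ 0
  sum : ∑ l ∈ n.primeFactors, (1 : ℝ) / l ≤ C0
  big : Real.exp (s ^ 2) ≤ Q

abbrev Cfg (P : Finset ℕ) : Type := ↥P → Option (Fin 4)

def mOf (P : Finset ℕ) (t : Cfg P) (i : Fin 4) : ℕ :=
  (if i = 0 then 3 else 1) * ∏ l : ↥P, if t l = some i then (l : ℕ) else 1

def wt (s : ℝ) (P : Finset ℕ) (t : Cfg P) : ℝ := ∏ l : ↥P, if t l = none then 1 else xx s l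

def bad (P : Finset ℕ) (t : Cfg P) : ℝ :=
  (1 + ∏ l : ↥P, if t l = some 0 then chi (-1) l else 1) *
    (1 + ∏ l : ↥P, if t l = some 1 then chi (-1) l else 1) / 4

def tw (P : Finset ℕ) (t : Cfg P) (x e : Finset ↥P) : ℝ :=
  (1 + (∏ l ∈ e, if t l = some 2 ∨ t l = some 3 then chi (-1) l else 1)
    + (∏ l ∈ x, if t l = some 1 ∨ t l = some 3 then chi (-1) l else 1)
    - (∏ l ∈ e, if t l = some 2 ∨ t l = some 3 then chi (-1) l else 1)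
      * (∏ l ∈ x, if t l = some 1 ∨ t l = some 3 then chi (-1) l else 1)) / 2

/-- The first moment of the kernel, averaged over the diagonal. -/
def NT (P : Finset ℕ) (t : Cfg P) : ℝ :=
  ∑ x : Finset ↥P, ∑ e : Finset ↥P,
    if x ≠ ∅ ∧ Disjoint x e ∧ (∀ l ∈ x, t l ≠ none) ∧ ∀ l ∈ e, t l ≠ none then
      (1 / 2) ^ (univ.filter fun l => t l ≠ none).card *
        (jacobiSym ((∏ l ∈ x, (l : ℕ) : ℕ) : ℤ) (∏ l ∈ e, (l : ℕ)) : ℝ) * tw P t x e *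
        (2 / 3 - (∏ l ∈ x, chi (-3) l) / 3)
    else 0

/-! The zeta function with its pole removed. -/

def zeta1 : ℂ → ℂ := Function.update (fun s => (s - 1) * riemannZeta s) 1 1

def zH : ℂ → ℂ := dslope zeta1 1

end Pool.Agent.MP_e23604_nt.P
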