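import Pool.Agent.MP_e23604_nt.P.Basic

/-!
Local densities.
-/

open Finset
open scoped Classical

noncomputable section

namespace Pool.Agent.MP_e23604_nt.P

theorem xLoc_emod {N x y : ℤ} (hx : x ∈ Ico 0 N) (h : N ∣ x - y) : y % N = x := by
  rw [mem_Ico] at hx
  exact (Int.modEq_iff_dvd.2 h).eq.trans (Int.emod_eq_of_lt hx.1 hx.2)

theorem xLoc_mem {N : ℤ} (hN : 0 < N) (x : ℤ) : x % N ∈ Ico 0 N :=
  mem_Ico.2 ⟨Int.emod_nonneg _ hN.ne', Int.emod_lt_of_pos _ hN⟩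

theorem xLoc_rep {N : ℤ} (hN : 0 < N) (f : ℤ → ℝ) (hf : ∀ x y, N ∣ x - y → f x = f y) {c : ℤ}
    (hc : IsCoprime c N) (e : ℤ) : ∑ x ∈ Ico 0 N, f (c * x + e) = ∑ x ∈ Ico 0 N, f x := by
  obtain ⟨c', d, h⟩ := hc
  refine sum_nbij' (fun x => (c * x + e) % N) (fun y => (c' * (y - e)) % N)
    (fun x _ => xLoc_mem hN _) (fun x _ => xLoc_mem hN _) (fun x hx => xLoc_emod hx ?_)
    (fun x hx => xLoc_emod hx ?_) fun x _ => hf _ _ ?_
  · refine ⟨d * x + c' * ((c * x + e) / N), ?_⟩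
    rw [Int.emod_def]
    linear_combination (-x) * h
  · refine ⟨d * (x - e) + c * (c' * (x - e) / N), ?_⟩
    rw [Int.emod_def]
    linear_combination (-(x - e)) * h
  · exact ⟨(c * x + e) / N, by rw [Int.emod_def]; ring⟩

theorem xLoc_sq {l : ℤ} (hl : 0 < l) (f : ℤ → ℝ) :
    ∑ x ∈ Ico 0 (l ^ 2), f x = ∑ x ∈ Ico 0 l, ∑ y ∈ Ico 0 l, f (x + l * y) := by
  rw [← sum_product']
  refine sum_nbij' (fun w => (w % l, w / l)) (fun z => z.1 + l * z.2) (fun w hw => ?_)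
    (fun z hz => ?_) (fun w _ => Int.emod_add_mul_ediv w l) (fun z hz => ?_)
    fun w _ => by rw [Int.emod_add_mul_ediv]
  · rw [mem_Ico] at hw
    refine mem_product.2 ⟨xLoc_mem hl _, mem_Ico.2 ⟨Int.ediv_nonneg hw.1 hl.le, ?_⟩⟩
    exact Int.ediv_lt_of_lt_mul hl (by rw [← pow_two]; exact hw.2)
  · simp only [mem_product, mem_Ico] at hz ⊢
    obtain ⟨⟨h1, h2⟩, h3, h4⟩ := hz
    constructor <;> nlinarith
  · simp only [mem_product, mem_Ico] at hz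
    refine Prod.ext ?_ ?_
    · exact xLoc_emod (mem_Ico.2 hz.1) ⟨-z.2, by ring⟩
    · change (z.1 + l * z.2) / l = z.2
      rw [Int.add_mul_ediv_left _ _ hl.ne', Int.ediv_eq_zero_of_lt hz.1.1 hz.1.2, zero_add]

theorem xLoc_sy {l : ℕ} {x y : ℤ} (h : (l : ℤ) ∣ x - y) : sy x l = sy y l := by
  rw [sy, sy, jacobiSym.mod_left' (Int.modEq_iff_dvd.2 h).symm.eq]

theorem xLoc_cop {l : ℕ} (hl : l.Prime) {c : ℤ} (hc : ¬ (l : ℤ) ∣ c) : IsCoprime c (l : ℤ) :=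
  ((Nat.prime_iff_prime_int.1 hl).coprime_iff_not_dvd.2 hc).symm

theorem xLoc_scale {l : ℕ} (hl : l.Prime) {c : ℤ} (hc : ¬ (l : ℤ) ∣ c) (d : ZMod 2) :
    ∑ u ∈ Ico (0 : ℤ) l, (if ¬ (l : ℤ) ∣ u ∧ sy (c * u) l = d then (1 : ℝ) else 0) =
      ∑ u ∈ Ico (0 : ℤ) l, (if ¬ (l : ℤ) ∣ u ∧ sy u l = d then (1 : ℝ) else 0) := by
  rw [← xLoc_rep (Int.natCast_pos.2 hl.pos)
    (fun u => if ¬ (l : ℤ) ∣ u ∧ sy u l = d then (1 : ℝ) else 0)
    (fun x y h => by simp only [xLoc_sy h, dvd_iff_dvd_of_dvd_sub h]) (xLoc_cop hl hc) 0]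
  refine sum_congr rfl fun u _ => ?_
  simp only [add_zero, (Nat.prime_iff_prime_int.1 hl).dvd_mul, or_iff_right hc]

theorem xLoc_half {l : ℕ} (hl : l.Prime) (h2 : l ≠ 2) (d : ZMod 2) :
    ∑ u ∈ Ico (0 : ℤ) l, (if ¬ (l : ℤ) ∣ u ∧ sy u l = d then (1 : ℝ) else 0) = (l - 1) / 2 := by
  have := Fact.mk hl
  obtain ⟨a, ha⟩ := FiniteField.exists_nonsquare (F := ZMod l) (by rwa [ZMod.ringChar_zmod_n])
  obtain ⟨c, rfl⟩ := ZMod.intCast_surjective a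
  have h3 : jacobiSym c l = -1 := ZMod.nonsquare_iff_jacobiSym_eq_neg_one.2 ha
  have hc : ¬ (l : ℤ) ∣ c := fun h => ha (by
    rw [(ZMod.intCast_zmod_eq_zero_iff_dvd c l).2 h]
    exact IsSquare.zero)
  have h4 := xLoc_scale hl hc d
  have h5 : ∑ u ∈ Ico (0 : ℤ) l, ((if ¬ (l : ℤ) ∣ u ∧ sy (c * u) l = d then (1 : ℝ) else 0) +
      if ¬ (l : ℤ) ∣ u ∧ sy u l = d then (1 : ℝ) else 0) =
      ∑ u ∈ Ico (0 : ℤ) l, (1 - if u = 0 then (1 : ℝ) else 0) := by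
    refine sum_congr rfl fun u hu => ?_
    rw [mem_Ico] at hu
    by_cases h0 : u = 0
    · simp [h0]
    have h6 : ¬ (l : ℤ) ∣ u := fun h => h0 (Int.eq_zero_of_dvd_of_nonneg_of_lt hu.1 hu.2 h)
    have h7 := jacobiSym.eq_one_or_neg_one (Int.isCoprime_iff_gcd_eq_one.1 (xLoc_cop hl h6))
    have h8 : d = 0 ∨ d = 1 := (by decide : ∀ d : ZMod 2, d = 0 ∨ d = 1) d
    simp only [h6, h0, not_false_eq_true, true_and, sy, jacobiSym.mul_left, h3]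
    rcases h7 with h7 | h7 <;> rcases h8 with rfl | rfl <;> simp [h7]
  rw [sum_add_distrib, h4, sum_sub_distrib, sum_ite_eq', if_pos
    (mem_Ico.2 ⟨le_rfl, Int.natCast_pos.2 hl.pos⟩)] at h5
  simp only [sum_const, Int.card_Ico, sub_zero, Int.toNat_natCast, nsmul_eq_mul, mul_one] at h5
  linarith

/-- The local condition in terms of the values of the forms. -/
def xLoc_c (l : ℕ) (i : Fin 4) (δ : ZMod 2) (L : Fin 4 → ℤ) : Prop :=
  ((l : ℤ) ∣ L i ∧ ¬ (l : ℤ) ^ 2 ∣ L i ∧ ∀ j, j ≠ i → ¬ (l : ℤ) ∣ L j) ∧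
    sy ((∏ j, L j) / (l : ℤ)) l = δ

theorem xLoc_congr {l : ℕ} (i : Fin 4) (δ : ZMod 2) {L L' : Fin 4 → ℤ}
    (h : ∀ j, (l : ℤ) ^ 2 ∣ L j - L' j) : xLoc_c l i δ L ↔ xLoc_c l i δ L' := by
  have h1 : ∀ j, (l : ℤ) ∣ L j ↔ (l : ℤ) ∣ L' j := fun j =>
    dvd_iff_dvd_of_dvd_sub ((dvd_pow_self _ two_ne_zero).trans (h j))
  have h2 : (l : ℤ) ^ 2 ∣ ∏ j, L j - ∏ j, L' j :=
    Int.modEq_iff_dvd.1 (Int.ModEq.prod fun j _ => Int.modEq_iff_dvd.2 (h j))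
  have h3 : sy ((∏ j, L j) / (l : ℤ)) l = sy ((∏ j, L' j) / (l : ℤ)) l := by
    obtain ⟨c, hc⟩ := h2
    rcases eq_or_ne (l : ℤ) 0 with h0 | h0
    · rw [h0, Int.ediv_zero, Int.ediv_zero]
    · have e : ∏ j, L j = ∏ j, L' j + l * (l * c) := by linear_combination hc
      rw [e, Int.add_mul_ediv_left _ _ h0]
      exact xLoc_sy ⟨c, by ring⟩
  simp only [xLoc_c, h1, h3, dvd_iff_dvd_of_dvd_sub (h i)]

theorem xLoc_eq (τ : ℕ × ℕ) (i : Fin 4) (l : ℕ) (δ β : ZMod 2) (a b : ℤ) : loc τ i l δ β a b =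
    if xLoc_c l i δ (LL τ a b) ∧ sy (if i = 0 then b else a) l = β then 1 else 0 := by
  rw [loc, xLoc_c, DD, apply_ite (sy · l)]
  simp only [and_assoc]

theorem xLoc_in {l : ℕ} (hl : l.Prime) (h2 : l ≠ 2) (i : Fin 4) (δ : ZMod 2) (c e : Fin 4 → ℤ)
    (hc : ¬ (l : ℤ) ∣ c i) (R Q : Prop) [Decidable R] [Decidable Q]
    (hR : ∀ w, (l : ℤ) ∣ c i * w + e i →
      ((∀ j, j ≠ i → ¬ (l : ℤ) ∣ c j * w + e j) ↔ R)) :
    ∑ w ∈ Ico (0 : ℤ) (l ^ 2), (if xLoc_c l i δ (fun j => c j * w + e j) ∧ Q then (1 : ℝ) else 0) =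
      if R ∧ Q then ((l : ℝ) - 1) / 2 else 0 := by
  have hp := Nat.prime_iff_prime_int.1 hl
  have l0 : (0 : ℤ) < l := Int.natCast_pos.2 hl.pos
  obtain ⟨c', d, h⟩ := (xLoc_cop hl hc).pow_right (n := 2)
  obtain ⟨w, m, hw⟩ : ∃ w m, c i * w + e i = l ^ 2 * m :=
    ⟨-(c' * e i), d * e i, by linear_combination (-e i) * h⟩
  rw [← xLoc_rep (pow_pos l0 2)
    (fun w => if xLoc_c l i δ (fun j => c j * w + e j) ∧ Q then (1 : ℝ) else 0)
    (fun x y h => by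
      rw [xLoc_congr i δ (L' := fun j => c j * y + e j) fun j => by
        rw [add_sub_add_right_eq_sub, ← mul_sub]
        exact h.mul_left _]) isCoprime_one_left w, xLoc_sq l0,
    sum_eq_single_of_mem 0 (mem_Ico.2 ⟨le_rfl, l0⟩) fun x hx h0 => sum_eq_zero fun y _ =>
      if_neg fun h1 => h0 (Int.eq_zero_of_dvd_of_nonneg_of_lt (mem_Ico.1 hx).1 (mem_Ico.1 hx).2
        ((hp.dvd_or_dvd (a := c i) (b := x) ?_).resolve_left hc))]
  swap
  · have h3 := dvd_sub h1.1.1.1 (Dvd.intro (c i * y + l * m) rfl)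
    have e1 : c i * (1 * (x + l * y) + w) + e i - l * (c i * y + l * m) = c i * x := by
      linear_combination hw
    rwa [e1] at h3
  have key : ∀ y : ℤ, xLoc_c l i δ (fun j => c j * (1 * (0 + l * y) + w) + e j) ↔
      R ∧ ¬ (l : ℤ) ∣ y ∧ sy (c i * (∏ j ∈ univ.erase i, (c j * w + e j)) * y) l = δ := fun y => by
    have e1 : c i * (1 * (0 + l * y) + w) + e i = l * (c i * y + l * m) := by
      linear_combination hw
    have e2 : sy ((∏ j, (c j * (1 * (0 + l * y) + w) + e j)) / (l : ℤ)) l =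
        sy (c i * (∏ j ∈ univ.erase i, (c j * w + e j)) * y) l := by
      rw [← mul_prod_erase univ _ (mem_univ i), e1, mul_assoc, Int.mul_ediv_cancel_left _ l0.ne',
        mul_right_comm]
      refine xLoc_sy (Int.modEq_iff_dvd.1 (Int.ModEq.mul (Int.modEq_iff_dvd.2 ⟨m, by ring⟩)
        (Int.ModEq.prod fun j _ => Int.modEq_iff_dvd.2 ⟨c j * y, by ring⟩)))
    have e3 : (l : ℤ) ^ 2 ∣ l * (c i * y + l * m) ↔ (l : ℤ) ∣ y := by
      rw [pow_two, mul_dvd_mul_iff_left l0.ne', dvd_add_left (dvd_mul_right _ _), hp.dvd_mul,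
        or_iff_right hc]
    rw [xLoc_c, e2, hR _ (e1 ▸ dvd_mul_right _ _), e1, e3]
    simp only [dvd_mul_right, true_and]
    tauto
  simp only [key]
  split_ifs with h1
  · simp only [h1.1, h1.2, true_and, and_true]
    refine (xLoc_scale hl ?_ δ).trans (xLoc_half hl h2 δ)
    rw [hp.dvd_mul, hp.dvd_finsetProd_iff]
    rintro (h3 | ⟨j, hj, h3⟩)
    · exact hc h3
    · exact (hR w ⟨l * m, by rw [hw]; ring⟩).2 h1.1 j (mem_erase.1 hj).1 h3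
  · exact sum_eq_zero fun y _ => if_neg fun h3 => h1 ⟨h3.1.1, h3.2⟩

theorem xLoc_out {l : ℕ} (hl : l.Prime) (h2 : l ≠ 2) (β : ZMod 2) :
    (∑ v ∈ Ico (0 : ℤ) (l ^ 2), if ¬ (l : ℤ) ∣ v ∧ sy v l = β then ((l : ℝ) - 1) / 2 else 0) /
      (((l ^ 2 : ℕ) : ℝ)) ^ 2 = ((l : ℝ) - 1) ^ 2 / (4 * (l : ℝ) ^ 3) := by
  have l0 : (0 : ℝ) < l := Nat.cast_pos.2 hl.pos
  have h1 : ∀ x y : ℤ, (if ¬ (l : ℤ) ∣ x + l * y ∧ sy (x + l * y) l = β then ((l : ℝ) - 1) / 2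
      else 0) = ((l : ℝ) - 1) / 2 * if ¬ (l : ℤ) ∣ x ∧ sy x l = β then (1 : ℝ) else 0 := by
    intro x y
    rw [xLoc_sy (y := x) ⟨y, by ring⟩, mul_ite, mul_one, mul_zero]
    simp only [dvd_add_left (dvd_mul_right (l : ℤ) y)]
  rw [xLoc_sq (Int.natCast_pos.2 hl.pos)]
  simp only [h1, sum_const, Int.card_Ico, sub_zero, Int.toNat_natCast, nsmul_eq_mul, ← mul_sum]
  rw [xLoc_half hl h2]
  push_cast
  field_simp
  norm_num

theorem xLoc_L0 (τ : ℕ × ℕ) (a b : ℤ) : LL τ a b =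
    fun j => ![1, 0, 4, 4 * kk τ ^ 2] j * a + ![0, b, b, ss τ ^ 2 * b] j := by
  funext j
  fin_cases j <;> simp [LL]

theorem xLoc_L1 (τ : ℕ × ℕ) (a b : ℤ) : LL τ a b =
    fun j => ![0, 1, 1, ss τ ^ 2] j * b + ![a, 0, 4 * a, 4 * kk τ ^ 2 * a] j := by
  funext j
  fin_cases j <;> simp [LL, add_comm]

theorem loc_per (τ : ℕ × ℕ) (i : Fin 4) (l : ℕ) (δ β : ZMod 2) : Per (l ^ 2) (loc τ i l δ β) := by
  intro x y
  have h1 : (l : ℤ) ∣ ((l ^ 2 : ℕ) : ℤ) := ⟨l, by push_cast; ring⟩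
  constructor
  · rw [xLoc_eq, xLoc_eq, xLoc_congr i δ (L' := LL τ x y) fun j => by
      rw [xLoc_L0, xLoc_L0, add_sub_add_right_eq_sub, ← mul_sub, add_sub_cancel_left]
      exact Dvd.intro_left _ (by push_cast; rfl), xLoc_sy (y := if i = 0 then y else x) (by
      split_ifs
      · simp
      · rwa [add_sub_cancel_left])]
  · rw [xLoc_eq, xLoc_eq, xLoc_congr i δ (L' := LL τ x y) fun j => by
      rw [xLoc_L1, xLoc_L1, add_sub_add_right_eq_sub, ← mul_sub, add_sub_cancel_left]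
      exact Dvd.intro_left _ (by push_cast; rfl), xLoc_sy (y := if i = 0 then y else x) (by
      split_ifs
      · rwa [add_sub_cancel_left]
      · simp)]

theorem loc_avg {τ : ℕ × ℕ} (hτ : Adm τ) (i : Fin 4) {l : ℕ} (hl : l.Prime)
    (h : ¬ l ∣ nn τ ∨ (l = 3 ∧ i = 0)) (δ β : ZMod 2) :
    avg (l ^ 2) (loc τ i l δ β) = ((l : ℝ) - 1) ^ 2 / (4 * (l : ℝ) ^ 3) := by
  have hp := Nat.prime_iff_prime_int.1 hl
  have h2 : l ≠ 2 := by
    rintro rfl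
    rcases h with h | h
    · exact h ((by norm_num : 2 ∣ 6).trans hτ.six_dvd)
    · omega
  have hn : ∀ x : ℤ, x ∣ (nn τ : ℤ) → ¬ l ∣ nn τ → ¬ (l : ℤ) ∣ x := fun x hx h1 h3 =>
    h1 (Int.natCast_dvd_natCast.1 (h3.trans hx))
  have hs : ¬ (l : ℤ) ∣ ss τ ^ 2 := fun h1 => by
    rcases h with h | ⟨rfl, -⟩
    · exact hn _ (dvd_nn τ).2.1 h (hp.dvd_of_dvd_pow h1)
    · exact hτ.not_three (hp.dvd_of_dvd_pow h1)
  have hone : ¬ (l : ℤ) ∣ 1 := hp.not_dvd_one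
  have hu : ∀ {c x y z : ℤ}, ¬ (l : ℤ) ∣ c → ¬ (l : ℤ) ∣ x → (l : ℤ) ∣ y → z = c * x + y →
      ¬ (l : ℤ) ∣ z := fun hc hx hy e h1 => by
    rw [e, dvd_add_left hy, hp.dvd_mul] at h1
    exact h1.elim hc hx
  rw [← xLoc_out hl h2 β, avg, Nat.cast_pow (α := ℤ)]
  congr 1
  by_cases hi : i = 0
  · subst hi
    rw [sum_product_right' (f := loc τ 0 l δ β)]
    refine sum_congr rfl fun b _ => ?_
    simp only [xLoc_eq, if_true, xLoc_L0]
    refine xLoc_in hl h2 0 δ _ _ (by exact hone) _ _ fun a ha => ⟨fun h1 => ?_, fun h1 j hj => ?_⟩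
    · simpa using h1 1 (by decide)
    · have ha' : (l : ℤ) ∣ a := by simpa using ha
      fin_cases j
      · exact absurd rfl hj
      · simpa using h1
      · exact hu hone h1 (ha'.mul_left 4) (by simp; ring)
      · exact hu hs h1 (ha'.mul_left (4 * kk τ ^ 2)) (by simp; ring)
  have h' := h.resolve_right fun h1 => hi h1.2
  have h4 : ¬ (l : ℤ) ∣ 4 := fun h1 => h2 ((Nat.prime_dvd_prime_iff_eq hl Nat.prime_two).1
    (Int.natCast_dvd_natCast.1 (hp.dvd_of_dvd_pow (n := 2) (a := 2) h1)))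
  have hk : ¬ (l : ℤ) ∣ 4 * kk τ ^ 2 := fun h1 => (hp.dvd_or_dvd h1).elim h4 fun h3 =>
    hn _ (dvd_nn τ).2.2 h' (hp.dvd_of_dvd_pow h3)
  have hr : ¬ (l : ℤ) ∣ 4 * rr τ ^ 2 := fun h1 => (hp.dvd_or_dvd h1).elim h4 fun h3 =>
    hn _ (dvd_nn τ).1 h' (hp.dvd_of_dvd_pow h3)
  have hpy := pyth τ
  rw [sum_product' (f := loc τ i l δ β)]
  refine sum_congr rfl fun a _ => ?_
  simp only [xLoc_eq, if_neg hi, xLoc_L1]
  refine xLoc_in hl h2 i δ _ _ ?_ _ _ fun b hb => ⟨fun h1 => ?_, fun h1 j hj => ?_⟩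
  · fin_cases i
    · exact absurd rfl hi
    · exact hone
    · exact hone
    · exact hs
  · simpa using h1 0 (Ne.symm hi)
  · fin_cases i
    · exact absurd rfl hi
    · have hb' : (l : ℤ) ∣ b := by simpa using hb
      fin_cases j
      · simpa using h1
      · exact absurd rfl hj
      · exact hu h4 h1 hb' (by simp; ring)
      · exact hu hk h1 (hb'.mul_left (ss τ ^ 2)) (by simp; ring)
    · have hb' : (l : ℤ) ∣ b + 4 * a := by simpa using hb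
      fin_cases j
      · simpa using h1
      · exact hu (dvd_neg.not.2 h4) h1 hb' (by simp)
      · exact absurd rfl hj
      · refine hu (dvd_neg.not.2 hr) h1 (hb'.mul_left (ss τ ^ 2)) ?_
        change ss τ ^ 2 * b + 4 * kk τ ^ 2 * a = _
        linear_combination (4 * a) * hpy
    · have hb' : (l : ℤ) ∣ ss τ ^ 2 * b + 4 * kk τ ^ 2 * a := hb
      fin_cases j
      · simpa using h1
      · intro h3
        have h5 : (l : ℤ) ∣ b := by simpa using h3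
        exact hu hk h1 (h5.mul_left (ss τ ^ 2)) (add_comm _ _) hb'
      · intro h3
        have h5 : (l : ℤ) ∣ b + 4 * a := by simpa using h3
        refine hu hr h1 hb' ?_ (h5.mul_left (ss τ ^ 2))
        linear_combination (-4 * a) * hpy
      · exact absurd rfl hj

end Pool.Agent.MP_e23604_nt.P
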