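import Pool.Agent.MP_e23604_nt.P.Avg
import Pool.Agent.MP_e23604_nt.P.Loc

/-!
The density of the good classes.
-/

open Finset
open scoped Classical

noncomputable section

namespace Pool.Agent.MP_e23604_nt.P

theorem xDens_cond {m : Fin 4 → ℕ} (hs : Squarefree (MM m)) (ty : PI m → Fin 4)
    (h1 : ∀ l : PI m, (l : ℕ) ∣ m (ty l)) (h2 : ∀ (l : PI m) j, (l : ℕ) ∣ m j → j = ty l)
    (L : Fin 4 → ℤ) :
    (∀ i, (m i : ℤ) ∣ L i ∧ IsCoprime (L i / (m i : ℤ)) (MM m : ℤ)) ↔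
      ∀ l : PI m, ((l : ℕ) : ℤ) ∣ L (ty l) ∧ ¬ ((l : ℕ) : ℤ) ^ 2 ∣ L (ty l) ∧
        ∀ j, j ≠ ty l → ¬ ((l : ℕ) : ℤ) ∣ L j := by
  constructor
  · intro h l
    have hl : (l : ℕ).Prime := Nat.prime_of_mem_primeFactors l.2
    have hd : (l : ℕ) ∣ MM m := Nat.dvd_of_mem_primeFactors l.2
    have hd' : ((l : ℕ) : ℤ) ∣ (MM m : ℤ) := Int.natCast_dvd_natCast.2 hd
    have hp : Prime ((l : ℕ) : ℤ) := Nat.prime_iff_prime_int.1 hl
    have hc : ∀ j, IsCoprime ((l : ℕ) : ℤ) (L j / (m j : ℤ)) := fun j =>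
      ((h j).2.of_isCoprime_of_dvd_right hd').symm
    have he : ∀ j, L j = (m j : ℤ) * (L j / (m j : ℤ)) := fun j =>
      (Int.mul_ediv_cancel' (h j).1).symm
    refine ⟨(Int.natCast_dvd_natCast.2 (h1 l)).trans (h _).1, fun h3 => ?_, fun j hj h3 => ?_⟩
    · rw [he] at h3
      have h4 : ((l : ℕ) : ℤ) ^ 2 ∣ (m (ty l) : ℤ) :=
        (hc (ty l)).pow_left.dvd_of_dvd_mul_right h3
      have h5 : (l : ℕ) * (l : ℕ) ∣ MM m := by
        refine dvd_trans ?_ (dvd_MM m (ty l))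
        rw [← pow_two]
        exact_mod_cast h4
      exact hl.one_lt.ne' (Nat.isUnit_iff.1 (hs _ h5))
    · rw [he] at h3
      have h4 : ((l : ℕ) : ℤ) ∣ (m j : ℤ) := (hc j).dvd_of_dvd_mul_right h3
      exact hj (h2 l j (Int.natCast_dvd_natCast.1 h4))
  · intro h i
    have hne : MM m ≠ 0 := hs.ne_zero
    have hsi : Squarefree (m i) := hs.squarefree_of_dvd (dvd_MM m i)
    have hdv : (m i : ℤ) ∣ L i := by
      rw [Int.natCast_dvd, ← Nat.prod_primeFactors_of_squarefree hsi]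
      refine Finset.prod_primes_dvd _ (fun p hp => (Nat.prime_of_mem_primeFactors hp).prime)
        fun p hp => ?_
      have hpi : p ∣ m i := Nat.dvd_of_mem_primeFactors hp
      have hpm : p ∈ (MM m).primeFactors :=
        Nat.mem_primeFactors.2 ⟨Nat.prime_of_mem_primeFactors hp, hpi.trans (dvd_MM m i), hne⟩
      have h3 := (h ⟨p, hpm⟩).1
      rw [← h2 ⟨p, hpm⟩ i hpi] at h3
      exact Int.natCast_dvd.1 h3
    refine ⟨hdv, ?_⟩
    have he : L i = (m i : ℤ) * (L i / (m i : ℤ)) := (Int.mul_ediv_cancel' hdv).symm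
    rw [Int.isCoprime_iff_gcd_eq_one, Int.gcd_eq_natAbs, Int.natAbs_natCast]
    refine Nat.eq_one_iff_not_exists_prime_dvd.2 fun p hp hd => ?_
    have hpm : p ∈ (MM m).primeFactors :=
      Nat.mem_primeFactors.2 ⟨hp, hd.trans (Nat.gcd_dvd_right _ _), hne⟩
    have hu : (p : ℤ) ∣ L i / (m i : ℤ) := Int.natCast_dvd.2 (hd.trans (Nat.gcd_dvd_left _ _))
    by_cases hi : i = ty ⟨p, hpm⟩
    · apply (h ⟨p, hpm⟩).2.1
      rw [← hi, he, pow_two]
      refine mul_dvd_mul ?_ hu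
      have := h1 ⟨p, hpm⟩
      rw [← hi] at this
      exact Int.natCast_dvd_natCast.2 this
    · apply (h ⟨p, hpm⟩).2.2 i hi
      rw [he]
      exact Dvd.dvd.mul_left hu _

def xDens_ind (a b : ℤ) : ℝ := if a % 16 = 1 ∧ b % 16 = 7 then 1 else 0

theorem xDens_ind_per : Per 16 xDens_ind := by
  intro x y
  unfold xDens_ind
  constructor
  · have : (x + ((16 : ℕ) : ℤ)) % 16 = x % 16 := by push_cast; omega
    rw [this]
  · have : (y + ((16 : ℕ) : ℤ)) % 16 = y % 16 := by push_cast; omega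
    rw [this]

theorem xDens_ind_avg : avg 16 xDens_ind = 1 / 256 := by
  unfold avg
  rw [Finset.sum_eq_single ((1 : ℤ), (7 : ℤ))]
  · simp only [xDens_ind]
    norm_num
  · intro z hz hne
    simp only [mem_product, mem_Ico, Nat.cast_ofNat] at hz
    unfold xDens_ind
    rw [if_neg]
    rintro ⟨h1, h2⟩
    apply hne
    ext
    · simp only; omega
    · simp only; omega
  · intro h
    exact absurd (by simp) h

theorem xDens_pt {τ : ℕ × ℕ} {m : Fin 4 → ℕ} (hs : Squarefree (MM m)) (ty : PI m → Fin 4)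
    (h1 : ∀ l : PI m, (l : ℕ) ∣ m (ty l)) (h2 : ∀ (l : PI m) j, (l : ℕ) ∣ m j → j = ty l)
    (a b : ℤ) :
    GG τ m a b = ∑ z ∈ univ.filter fun z : (PI m → ZMod 2) × (PI m → ZMod 2) => GoodB m z.1 z.2,
      xDens_ind a b * ∏ l : PI m, loc τ (ty l) l (z.1 l) (z.2 l) a b := by
  have hb : ∀ l : PI m, (if ty l = 0 then sy b l else sy a l) = bl m a b l := by
    intro l
    unfold bl
    by_cases h : ty l = 0
    · rw [if_pos h, if_pos (h ▸ h1 l)]
    · rw [if_neg h, if_neg fun h3 => h (h2 l 0 h3).symm]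
  have hc := xDens_cond hs ty h1 h2 (LL τ a b)
  have hz : ∀ z : (PI m → ZMod 2) × (PI m → ZMod 2),
      xDens_ind a b * ∏ l : PI m, loc τ (ty l) l (z.1 l) (z.2 l) a b =
        if z = (dl τ m a b, bl m a b) then (if Cond τ m a b then 1 else 0) else 0 := by
    intro z
    unfold loc xDens_ind
    rw [Finset.prod_boole, ite_zero_mul_ite_zero, one_mul, ← ite_and]
    congr 1
    apply propext
    unfold Cond
    rw [hc]
    constructor
    · rintro ⟨⟨h3, h4⟩, h5⟩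
      refine ⟨?_, h3, h4, fun l => (h5 l (mem_univ _)).1⟩
      ext l
      · exact ((h5 l (mem_univ _)).2.1).symm
      · exact ((hb l).symm.trans (h5 l (mem_univ _)).2.2).symm
    · rintro ⟨rfl, h3, h4, h5⟩
      exact ⟨⟨h3, h4⟩, fun l _ => ⟨h5 l, rfl, hb l⟩⟩
  rw [Finset.sum_congr rfl fun z _ => hz z, Finset.sum_ite_eq']
  unfold GG
  simp only [mem_filter, mem_univ, true_and]
  rw [← ite_and]
  congr 1
  exact propext and_comm

theorem GG_avg {τ : ℕ × ℕ} (hτ : Adm τ) {m : Fin 4 → ℕ} (hm : MOK (nn τ) m) :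
    avg (16 * MM m ^ 2) (GG τ m) =
      pgood m / 256 * ∏ l ∈ (MM m).primeFactors, ((l : ℝ) - 1) ^ 2 / (l : ℝ) ^ 3 := by
  have hs : Squarefree (MM m) := hm.1
  choose ty h1 h2 h3 using fun l : PI m =>
    hm.type (Nat.prime_of_mem_primeFactors l.2) (Nat.dvd_of_mem_primeFactors l.2)
  have hG : GG τ m = fun a b =>
      ∑ z ∈ univ.filter fun z : (PI m → ZMod 2) × (PI m → ZMod 2) => GoodB m z.1 z.2,
        xDens_ind a b * ∏ l : PI m, loc τ (ty l) l (z.1 l) (z.2 l) a b := by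
    funext a b
    exact xDens_pt hs ty h1 h2 a b
  have hK : ∏ l : PI m, (l : ℕ) ^ 2 = MM m ^ 2 := by
    rw [Finset.prod_pow, Finset.prod_coe_sort (MM m).primeFactors fun l => l,
      Nat.prod_primeFactors_of_squarefree hs]
  have hodd : Nat.Coprime 16 (MM m ^ 2) := by
    have h4 : IsCoprime (MM m : ℤ) ((2 : ℕ) : ℤ) := (hm.cop_ss hτ).of_mul_right_left
    have h5 : Nat.Coprime 2 (MM m) := (Nat.isCoprime_iff_coprime.1 h4).symm
    exact Nat.Coprime.pow 4 2 h5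
  have hpos : 1 ≤ MM m ^ 2 := Nat.one_le_pow _ _ (Nat.pos_of_ne_zero hs.ne_zero)
  have hz : ∀ z : (PI m → ZMod 2) × (PI m → ZMod 2),
      avg (16 * MM m ^ 2)
        (fun a b => xDens_ind a b * ∏ l : PI m, loc τ (ty l) l (z.1 l) (z.2 l) a b) =
      1 / 256 * ∏ l ∈ (MM m).primeFactors, ((l : ℝ) - 1) ^ 2 / (4 * (l : ℝ) ^ 3) := by
    intro z
    obtain ⟨h4, h5⟩ := avg_prod (univ : Finset (PI m)) (fun l => (l : ℕ) ^ 2)
      (fun l => loc τ (ty l) l (z.1 l) (z.2 l))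
      (fun l _ => ⟨Nat.one_le_pow _ _ (Nat.prime_of_mem_primeFactors l.2).pos, loc_per _ _ _ _ _⟩)
      (fun l _ l' _ hne => Nat.Coprime.pow 2 2
        ((Nat.coprime_primes (Nat.prime_of_mem_primeFactors l.2)
          (Nat.prime_of_mem_primeFactors l'.2)).2 fun h => hne (Subtype.ext h)))
    rw [hK] at h4 h5
    rw [avg_mul xDens_ind_per h4 (by norm_num) hpos hodd, xDens_ind_avg, h5,
      Finset.prod_congr rfl fun (l : PI m) _ =>
        loc_avg hτ (ty l) (Nat.prime_of_mem_primeFactors l.2) (h3 l) (z.1 l) (z.2 l),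
      Finset.prod_coe_sort (MM m).primeFactors
        fun l => ((l : ℝ) - 1) ^ 2 / (4 * (l : ℝ) ^ 3)]
  rw [hG, avg_sum, Finset.sum_congr rfl fun z _ => hz z, Finset.sum_const, nsmul_eq_mul]
  unfold pgood
  have h6 : ∏ l ∈ (MM m).primeFactors, ((l : ℝ) - 1) ^ 2 / (4 * (l : ℝ) ^ 3) =
      (∏ l ∈ (MM m).primeFactors, ((l : ℝ) - 1) ^ 2 / (l : ℝ) ^ 3) /
        4 ^ (MM m).primeFactors.card := by
    rw [← Finset.prod_const, ← Finset.prod_div_distrib]
    refine Finset.prod_congr rfl fun l _ => ?_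
    rw [div_div, mul_comm]
  rw [h6]
  ring

end Pool.Agent.MP_e23604_nt.P
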