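import Pool.Agent.MP_e23604_nt.P.Defs

/-!
Moments of the divisor function.
-/

open Finset
open scoped Classical

noncomputable section

namespace Pool.Agent.MP_e23604_nt.P

theorem tau_nonneg (n : ℤ) : 0 ≤ tau n := Nat.cast_nonneg _

theorem one_le_tau {n : ℤ} (hn : n ≠ 0) : 1 ≤ tau n := by
  unfold tau
  have : 0 < n.natAbs.divisors.card :=
    card_pos.2 ⟨1, Nat.one_mem_divisors.2 (Int.natAbs_ne_zero.2 hn)⟩
  exact_mod_cast this

theorem tau_mul_le (a b : ℤ) : tau (a * b) ≤ tau a * tau b := by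
  unfold tau
  rw [Int.natAbs_mul, Nat.divisors_mul]
  exact_mod_cast Finset.card_mul_le

theorem tau_le_of_dvd {a b : ℤ} (h : a ∣ b) (hb : b ≠ 0) : tau a ≤ tau b := by
  unfold tau
  exact_mod_cast card_le_card
    (Nat.divisors_subset_of_dvd (Int.natAbs_ne_zero.2 hb) (Int.natAbs_dvd_natAbs.2 h))

/-- A finite set of natural divisors of `n`. -/
theorem card_le_tau {n : ℤ} (hn : n ≠ 0) (s : Finset ℕ) (h : ∀ d ∈ s, (d : ℤ) ∣ n) :
    (s.card : ℝ) ≤ tau n := by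
  unfold tau
  exact_mod_cast card_le_card fun d hd =>
    Nat.mem_divisors.2 ⟨Int.natCast_dvd.1 (h d hd), Int.natAbs_ne_zero.2 hn⟩

theorem xDiv_log (N : ℕ) : 0 ≤ Real.log N := Real.log_natCast_nonneg N

theorem xDiv_step (c N : ℕ) : ∑ n ∈ Icc 1 N, tau n ^ (c + 1) / n ≤
    (∑ n ∈ Icc 1 N, tau n ^ c / n) ^ 2 := by
  have h1 : ∀ n ∈ Icc 1 N, tau (n : ℕ) ^ (c + 1) / n ≤
      ∑ p ∈ n.divisorsAntidiagonal, tau p.1 ^ c / p.1 * (tau p.2 ^ c / p.2) := by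
    intro n _
    have e : tau (n : ℕ) ^ (c + 1) / n = ∑ p ∈ n.divisorsAntidiagonal, tau (n : ℕ) ^ c / n := by
      rw [Nat.sum_divisorsAntidiagonal (fun _ _ => tau (n : ℕ) ^ c / n), sum_const, nsmul_eq_mul,
        pow_succ]
      simp only [tau, Int.natAbs_natCast]
      ring
    rw [e]
    refine sum_le_sum fun p hp => ?_
    obtain ⟨hp1, -⟩ := Nat.mem_divisorsAntidiagonal.1 hp
    rw [← hp1, div_mul_div_comm, ← mul_pow]
    push_cast
    gcongr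
    · exact tau_nonneg _
    · exact tau_mul_le _ _
  refine (sum_le_sum h1).trans ?_
  rw [← sum_biUnion, pow_two, sum_mul_sum, ← sum_product']
  · refine sum_le_sum_of_subset_of_nonneg (fun p hp => ?_) fun p _ _ => ?_
    · obtain ⟨n, hn, hp⟩ := mem_biUnion.1 hp
      obtain ⟨hp1, hn0⟩ := Nat.mem_divisorsAntidiagonal.1 hp
      rw [mem_Icc] at hn
      have ha : 0 < p.1 := Nat.pos_of_ne_zero fun h => hn0 (by rw [← hp1, h, zero_mul])
      have hb : 0 < p.2 := Nat.pos_of_ne_zero fun h => hn0 (by rw [← hp1, h, mul_zero])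
      simp only [mem_product, mem_Icc]
      refine ⟨⟨ha, ?_⟩, hb, ?_⟩ <;> nlinarith [hn.2]
    · have := tau_nonneg p.1
      have := tau_nonneg p.2
      positivity
  · intro n _ n' _ hne
    refine disjoint_left.2 fun p hp hp' => hne ?_
    rw [← (Nat.mem_divisorsAntidiagonal.1 hp).1, (Nat.mem_divisorsAntidiagonal.1 hp').1]

theorem sum_tau_pow_div (c N : ℕ) :
    ∑ n ∈ Icc 1 N, tau n ^ c / n ≤ (1 + Real.log N) ^ 2 ^ c := by
  induction c with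
  | zero =>
    have := harmonic_le_one_add_log N
    rw [harmonic_eq_sum_Icc] at this
    simpa using this
  | succ c ih =>
    refine (xDiv_step c N).trans ?_
    rw [pow_succ 2 c, pow_mul]
    refine pow_le_pow_left₀ (sum_nonneg fun n _ => ?_) ih 2
    have := tau_nonneg n
    positivity

theorem sum_tau_pow (c N : ℕ) :
    ∑ n ∈ Icc 1 N, tau n ^ c ≤ N * (1 + Real.log N) ^ 2 ^ c := by
  refine le_trans ?_ (mul_le_mul_of_nonneg_left (sum_tau_pow_div c N) (Nat.cast_nonneg N))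
  rw [mul_sum]
  refine sum_le_sum fun n hn => ?_
  rw [mem_Icc] at hn
  have h0 : (0 : ℝ) < n := by exact_mod_cast hn.1
  have h1 : (n : ℝ) ≤ N := by exact_mod_cast hn.2
  have h2 : 0 ≤ tau n ^ c := pow_nonneg (tau_nonneg _) _
  rw [← mul_div_assoc, le_div_iff₀ h0]
  nlinarith

variable {α : Type} {s : Finset α} {f : α → ℤ} {ρ N V R : ℝ}

theorem Spread.rho_nonneg (h : Spread s f ρ N) : 0 ≤ ρ := (Nat.cast_nonneg _).trans (h.2.2 0)

theorem Spread.mono {s' : Finset α} {ρ' N' : ℝ} (h : Spread s f ρ N) (hs : s' ⊆ s) (hρ : ρ ≤ ρ')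
    (hN : N ≤ N') : Spread s' f ρ' N' := by
  refine ⟨h.1.trans hN, fun x hx => ⟨(h.2.1 x (hs hx)).1, (h.2.1 x (hs hx)).2.trans hN⟩,
    fun n => le_trans ?_ ((h.2.2 n).trans hρ)⟩
  exact_mod_cast card_le_card (filter_subset_filter _ hs)

theorem Spread.prod {κ : Type} (B : Finset κ) (g : κ × α → ℤ) (hN : 1 ≤ N) (hρ : 0 ≤ ρ)
    (h : ∀ b ∈ B, Spread s (fun x => g (b, x)) ρ N) : Spread (B ×ˢ s) g (B.card * ρ) N := by
  have _ := hρ
  refine ⟨hN, fun x hx => (h x.1 (mem_product.1 hx).1).2.1 x.2 (mem_product.1 hx).2, fun n => ?_⟩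
  rw [card_filter, sum_product]
  push_cast
  rw [← nsmul_eq_mul, ← sum_const]
  refine sum_le_sum fun b hb => ?_
  have := (h b hb).2.2 n
  rw [card_filter] at this
  push_cast at this
  exact this

theorem Spr.mono {s' : Finset α} {V' R' : ℝ} (h : Spr s f V R) (hs : s' ⊆ s) (hV : V ≤ V')
    (hR : R ≤ R') : Spr s' f V' R' := by
  obtain ⟨ρ, N, h1, h2, h3⟩ := h
  exact ⟨ρ, N, h1.mono hs le_rfl le_rfl, h2.trans hV, h3.trans hR⟩

theorem Spr.nonneg (h : Spr s f V R) : 0 ≤ V ∧ 1 ≤ R := by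
  obtain ⟨ρ, N, h1, h2, h3⟩ := h
  exact ⟨(mul_nonneg h1.rho_nonneg (zero_le_one.trans h1.1)).trans h2, h1.1.trans h3⟩

theorem xDiv_sum (h : Spread s f ρ N) (φ : ℕ → ℝ) (hφ : ∀ n, 0 ≤ φ n) :
    ∑ x ∈ s, φ (f x).natAbs ≤ ρ * ∑ n ∈ Icc 1 ⌊N⌋₊, φ n := by
  rw [← sum_fiberwise_of_maps_to (s := s) (t := Icc 1 ⌊N⌋₊) (g := fun x => (f x).natAbs), mul_sum]
  · refine sum_le_sum fun n _ => ?_
    rw [sum_congr rfl (g := fun _ => φ n) fun x hx => by rw [(mem_filter.1 hx).2], sum_const,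
      nsmul_eq_mul]
    exact mul_le_mul_of_nonneg_right (h.2.2 n) (hφ n)
  · intro x hx
    exact mem_Icc.2 ⟨Int.natAbs_pos.2 (h.2.1 x hx).1, Nat.le_floor (h.2.1 x hx).2⟩

theorem Spr.card_le (h : Spr s f V R) : (s.card : ℝ) ≤ V := by
  obtain ⟨ρ, N, h1, h2, -⟩ := h
  have := xDiv_sum h1 (fun _ => 1) fun _ => zero_le_one
  simp only [sum_const, nsmul_eq_mul, mul_one, Nat.card_Icc, add_tsub_cancel_right] at this
  refine this.trans (le_trans ?_ h2)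
  exact mul_le_mul_of_nonneg_left (Nat.floor_le (zero_le_one.trans h1.1)) h1.rho_nonneg

theorem Spr.sum_tau_pow (h : Spr s f V R) (c : ℕ) :
    ∑ x ∈ s, tau (f x) ^ c ≤ V * (1 + Real.log R) ^ 2 ^ c := by
  obtain ⟨ρ, N, h1, h2, h3⟩ := h
  have h4 := xDiv_sum h1 (fun n => tau n ^ c) fun n => pow_nonneg (tau_nonneg _) _
  have e : ∀ x, tau ((f x).natAbs : ℕ) = tau (f x) := fun x => by
    simp only [tau, Int.natAbs_natCast]
  simp only [e] at h4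
  have hN : (⌊N⌋₊ : ℝ) ≤ N := Nat.floor_le (zero_le_one.trans h1.1)
  have hN1 : (0 : ℝ) < ⌊N⌋₊ := by exact_mod_cast Nat.floor_pos.2 h1.1
  have hl := xDiv_log ⌊N⌋₊
  have hl' : Real.log ⌊N⌋₊ ≤ Real.log R := Real.log_le_log hN1 (hN.trans h3)
  have hρ := h1.rho_nonneg
  have hN0 : 0 ≤ N := zero_le_one.trans h1.1
  calc _ ≤ ρ * (⌊N⌋₊ * (1 + Real.log ⌊N⌋₊) ^ 2 ^ c) :=
        h4.trans (mul_le_mul_of_nonneg_left (P.sum_tau_pow c _) hρ)
    _ ≤ ρ * (N * (1 + Real.log R) ^ 2 ^ c) := by gcongr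
    _ ≤ _ := by
      rw [← mul_assoc]
      exact mul_le_mul_of_nonneg_right h2 (pow_nonneg (by linarith) _)

theorem Spr.card_dvd (h : Spr s f V R) {d : ℕ} (hd : 0 < d) :
    ((s.filter fun x => (d : ℤ) ∣ f x).card : ℝ) ≤ V / d := by
  obtain ⟨ρ, N, h1, h2, -⟩ := h
  have h4 := xDiv_sum h1 (fun n => if d ∣ n then 1 else 0) fun n => by split_ifs <;> norm_num
  simp only [← Int.natCast_dvd, sum_boole] at h4
  have hN : (⌊N⌋₊ : ℝ) ≤ N := Nat.floor_le (zero_le_one.trans h1.1)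
  have hρ := h1.rho_nonneg
  have hd' : (0 : ℝ) < d := by exact_mod_cast hd
  have h5 : (((Icc 1 ⌊N⌋₊).filter fun n => d ∣ n).card : ℝ) ≤ N / d := by
    have : (Icc 1 ⌊N⌋₊).filter (fun n => d ∣ n) = (Ioc 0 ⌊N⌋₊).filter fun n => d ∣ n := by
      ext n
      simp [Nat.one_le_iff_ne_zero, Nat.pos_iff_ne_zero]
    rw [this, Nat.Ioc_filter_dvd_card_eq_div]
    exact Nat.cast_div_le.trans (by gcongr)
  calc _ ≤ ρ * (N / d) := h4.trans (mul_le_mul_of_nonneg_left h5 hρ)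
    _ ≤ V / d := by rw [← mul_div_assoc]; gcongr

theorem xDiv_prod (x : Fin 5 → ℝ) (hx : ∀ i, 0 ≤ x i) : (∏ i, x i ^ 3) ^ 2 ≤ ∑ i, x i ^ 30 := by
  obtain ⟨j, -, hj⟩ := exists_max_image univ x ⟨0, mem_univ _⟩
  calc (∏ i, x i ^ 3) ^ 2 ≤ (∏ _i : Fin 5, x j ^ 3) ^ 2 := by
        refine pow_le_pow_left₀ (prod_nonneg fun i _ => pow_nonneg (hx i) _) ?_ 2
        exact prod_le_prod (fun i _ => pow_nonneg (hx i) _) fun i _ =>
          pow_le_pow_left₀ (hx i) (hj i (mem_univ _)) 3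
    _ = x j ^ 30 := by simp [← pow_mul]
    _ ≤ _ := single_le_sum (f := fun i => x i ^ 30) (fun i _ => pow_nonneg (hx i) _) (mem_univ j)

theorem xDiv_ex : ∃ C : ℕ, ∀ {α : Type} (X : Finset α) (f : α → ℤ) (V R : ℝ), Spr X f V R →
    ∑ x ∈ X, tau (f x) ^ 30 ≤ V * (1 + Real.log R) ^ C :=
  ⟨_, fun _ _ _ _ h => h.sum_tau_pow 30⟩

/-- The trivial bound on a small subset. -/
theorem triv : ∃ C : ℕ, ∀ {α : Type} (X S : Finset α) (f : Fin 5 → α → ℤ) (V R : ℝ), S ⊆ X →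
    (∀ i, Spr X (f i) V R) →
      ∑ x ∈ S, ∏ i, tau (f i x) ^ 3 ≤ 3 * √(S.card * V) * (1 + Real.log R) ^ C := by
  obtain ⟨C, hC⟩ := xDiv_ex
  refine ⟨C, fun X S f V R hS h => ?_⟩
  obtain ⟨hV, hR⟩ := (h 0).nonneg
  have hL : 1 ≤ (1 + Real.log R) ^ C := one_le_pow₀ (by linarith [Real.log_nonneg hR])
  generalize hM : (1 + Real.log R) ^ C = M at hL
  have h1 : ∑ x ∈ S, (∏ i, tau (f i x) ^ 3) ^ 2 ≤ 5 * (V * M) := by
    calc _ ≤ ∑ x ∈ S, ∑ i, tau (f i x) ^ 30 :=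
          sum_le_sum fun x _ => xDiv_prod (fun i => tau (f i x)) fun i => tau_nonneg _
      _ = ∑ i, ∑ x ∈ S, tau (f i x) ^ 30 := sum_comm
      _ ≤ ∑ _i : Fin 5, V * M := sum_le_sum fun i _ => by
          rw [← hM]; exact hC S (f i) V R ((h i).mono hS le_rfl le_rfl)
      _ = _ := by simp
  have h2 := sq_sum_le_card_mul_sum_sq (s := S) (f := fun x => ∏ i, tau (f i x) ^ 3)
  have hc : (0 : ℝ) ≤ S.card := Nat.cast_nonneg _
  have hcV : 0 ≤ S.card * V := mul_nonneg hc hV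
  have hM0 : 0 ≤ M := zero_le_one.trans hL
  refine le_of_sq_le_sq ?_ (by positivity)
  rw [mul_pow, mul_pow, Real.sq_sqrt hcV]
  calc _ ≤ S.card * (5 * (V * M)) := h2.trans (mul_le_mul_of_nonneg_left h1 hc)
    _ = 5 * (S.card * V) * M := by ring
    _ ≤ _ := by
      have : M ≤ M ^ 2 := by nlinarith
      gcongr
      norm_num

end Pool.Agent.MP_e23604_nt.P
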