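import Mathlib

/-!
The number of parameters with bounded product.
-/

open Finset

namespace Pool.Agent.MP_e23604_nt.P

theorem xUp_card (T C : ℕ) {τ c : ℝ} (hτ : 0 ≤ τ) (hc : 0 < c) (h1 : τ ^ 4 = T) (h2 : c ^ 4 = C) :
    (((Icc 1 T).filter fun u => u ^ 4 * C ≤ T).card : ℝ) ≤ τ / c := by
  refine le_trans ?_ (Nat.floor_le (div_nonneg hτ hc.le))
  refine Nat.cast_le.2 ((card_le_card (t := Icc 1 ⌊τ / c⌋₊) fun u hu => ?_).trans (by simp))
  rw [mem_filter, mem_Icc] at hu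
  refine mem_Icc.2 ⟨hu.1.1, Nat.le_floor ((le_div_iff₀ hc).2
    (le_of_pow_le_pow_left₀ four_ne_zero hτ ?_))⟩
  rw [mul_pow, h1, h2]
  exact_mod_cast hu.2

theorem xUp_sum {w : ℕ → ℝ} (h0 : ∀ n, 0 ≤ w n) (h4 : ∀ n, w n ^ 4 = n) (x : ℕ) :
    ∑ y ∈ Icc 1 x, 1 / w y ^ 3 ≤ 4 * w x := by
  induction x with
  | zero => simpa using h0 0
  | succ n ih =>
    have h1 : w (n + 1) ^ 4 = w n ^ 4 + 1 := by rw [h4, h4, Nat.cast_succ]
    have h2 := h0 n
    have h3 : w n < w (n + 1) := lt_of_pow_lt_pow_left₀ 4 (h0 _) (by linarith)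
    rw [sum_Icc_succ_top (by omega)]
    generalize w (n + 1) = s at *
    generalize w n = r at *
    have h5 : 0 < s := h2.trans_lt h3
    have h6 : 1 / s ^ 3 ≤ 4 * (s - r) := by
      rw [div_le_iff₀ (by positivity)]
      have : 0 ≤ (s - r) ^ 2 * (3 * s ^ 2 + 2 * s * r + r ^ 2) := by positivity
      nlinarith
    linarith

theorem xUp_key {T a b p q : ℕ}
    (h : a * b * (4 * a + b) * (16 * p ^ 2 * q ^ 2 * a + (p ^ 2 + q ^ 2) ^ 2 * b) ≤ T) :
    min p q ^ 4 * (max a b ^ 3 * min a b) ≤ T ∧ max p q ^ 4 * (max a b ^ 2 * min a b ^ 2) ≤ T := by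
  have h1 : min p q ^ 4 ≤ 16 * p ^ 2 * q ^ 2 := by
    have := Nat.mul_le_mul (Nat.pow_le_pow_left (min_le_left p q) 2)
      (Nat.pow_le_pow_left (min_le_right p q) 2)
    nlinarith
  have h2 : max p q ^ 4 ≤ (p ^ 2 + q ^ 2) ^ 2 := by
    rw [show 4 = 2 * 2 from rfl, pow_mul]
    refine Nat.pow_le_pow_left ?_ 2
    rcases max_choice p q with e | e <;> rw [e] <;> omega
  have h3 : min p q ^ 4 ≤ max p q ^ 4 := Nat.pow_le_pow_left min_le_max 4
  generalize min p q ^ 4 = u at *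
  generalize max p q ^ 4 = M at *
  generalize 16 * p ^ 2 * q ^ 2 = A at *
  generalize (p ^ 2 + q ^ 2) ^ 2 = B at *
  have h4 : max a b ≤ 4 * a + b := by omega
  have h5 : u * max a b ≤ A * a + B * b := by
    rcases max_choice a b with e | e <;> rw [e]
    · exact (Nat.mul_le_mul_right a h1).trans (Nat.le_add_right _ _)
    · exact (Nat.mul_le_mul_right b (h3.trans h2)).trans (Nat.le_add_left _ _)
  have h6 : M * min a b ≤ A * a + B * b :=
    (Nat.mul_le_mul h2 (min_le_right a b)).trans (Nat.le_add_left _ _)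
  rw [← max_mul_min a b] at h
  exact ⟨le_trans (le_of_eq (by ring)) ((Nat.mul_le_mul (Nat.mul_le_mul_left _ h4) h5).trans h),
    le_trans (le_of_eq (by ring)) ((Nat.mul_le_mul (Nat.mul_le_mul_left _ h4) h6).trans h)⟩

theorem fam_le (T : ℕ) :
    (((Icc 1 T ×ˢ Icc 1 T ×ˢ Icc 1 T ×ˢ Icc 1 T).filter fun x : ℕ × ℕ × ℕ × ℕ =>
      x.1 * x.2.1 * (4 * x.1 + x.2.1) * (16 * x.2.2.1 ^ 2 * x.2.2.2 ^ 2 * x.1 +
        (x.2.2.1 ^ 2 + x.2.2.2 ^ 2) ^ 2 * x.2.1) ≤ T).card : ℝ) ≤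
      16 * √T * (1 + Real.log T) := by
  obtain ⟨w, h0, h2, h4⟩ : ∃ w : ℕ → ℝ, (∀ n, 0 ≤ w n) ∧ (∀ n, w n ^ 2 = √n) ∧
      ∀ n, w n ^ 4 = n := ⟨fun n => √√n, fun n => Real.sqrt_nonneg _,
    fun n => Real.sq_sqrt (Real.sqrt_nonneg _), fun n => by
      rw [show 4 = 2 * 2 from rfl, pow_mul, Real.sq_sqrt (Real.sqrt_nonneg _),
        Real.sq_sqrt n.cast_nonneg]⟩
  have hp : ∀ n, 1 ≤ n → 0 < w n := fun n hn => (h0 n).lt_of_ne fun e => by
    have := h4 n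
    rw [← e, zero_pow four_ne_zero, eq_comm, Nat.cast_eq_zero] at this
    omega
  refine le_trans (Nat.cast_le.2 (card_le_mul_card_image_of_maps_to
    (f := fun x => (⟨max x.1 x.2.1, min x.1 x.2.1, min x.2.2.1 x.2.2.2, max x.2.2.1 x.2.2.2⟩ :
      Σ _ : ℕ, Σ _ : ℕ, ℕ × ℕ))
    (t := (Icc 1 T).sigma fun x => (Icc 1 x).sigma fun y =>
      ((Icc 1 T).filter fun u => u ^ 4 * (x ^ 3 * y) ≤ T) ×ˢ
        (Icc 1 T).filter fun u => u ^ 4 * (x ^ 2 * y ^ 2) ≤ T) ?_ 4 ?_)) ?_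
  · rintro ⟨a, b, p, q⟩ h
    simp only [mem_filter, mem_product, mem_Icc, mem_sigma] at h ⊢
    exact ⟨by omega, by omega, ⟨by omega, (xUp_key h.2).1⟩, by omega, (xUp_key h.2).2⟩
  · rintro ⟨x, y, u, M⟩ -
    refine (card_le_card (t := {(x, y, u, M), (x, y, M, u), (y, x, u, M), (y, x, M, u)}) ?_).trans
      card_le_four
    rintro ⟨a, b, p, q⟩ h
    have h1 := (mem_filter.1 h).2
    simp only [Sigma.mk.injEq, heq_eq_eq, Prod.mk.injEq, mem_insert, mem_singleton] at h1 ⊢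
    omega
  have key : ∀ x ∈ Icc 1 T, ∑ y ∈ Icc 1 x,
      (((Icc 1 T).filter fun u => u ^ 4 * (x ^ 3 * y) ≤ T).card : ℝ) *
        (((Icc 1 T).filter fun u => u ^ 4 * (x ^ 2 * y ^ 2) ≤ T).card : ℝ) ≤
      4 * √T * (x : ℝ)⁻¹ := fun x hx => by
    have h1 := hp x (mem_Icc.1 hx).1
    refine (sum_le_sum (g := fun y => √T / w x ^ 5 * (1 / w y ^ 3)) fun y hy => ?_).trans ?_
    · have h3 := hp y (mem_Icc.1 hy).1
      refine (mul_le_mul (xUp_card T _ (c := w x ^ 3 * w y) (h0 T) (by positivity) (h4 T) ?_)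
        (xUp_card T _ (c := w x ^ 2 * w y ^ 2) (h0 T) (by positivity) (h4 T) ?_)
        (Nat.cast_nonneg _) (div_nonneg (h0 T) (by positivity))).trans (le_of_eq ?_)
      · push_cast
        rw [← h4 x, ← h4 y]
        ring
      · push_cast
        rw [← h4 x, ← h4 y]
        ring
      · rw [← h2]
        field_simp
    · rw [← mul_sum]
      refine (mul_le_mul_of_nonneg_left (xUp_sum h0 h4 x) (by positivity)).trans (le_of_eq ?_)
      rw [← h4 x]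
      field_simp
  have h5 := harmonic_le_one_add_log T
  simp only [harmonic_eq_sum_Icc, Rat.cast_sum, Rat.cast_inv, Rat.cast_natCast] at h5
  simp only [card_sigma, card_product, Nat.cast_mul, Nat.cast_sum, Nat.cast_ofNat]
  have h6 := sum_le_sum key
  rw [← mul_sum] at h6
  have h7 := mul_le_mul_of_nonneg_left h5 (Real.sqrt_nonneg T)
  linarith

end Pool.Agent.MP_e23604_nt.P
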