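import Pool.Agent.MP_e23604_nt.P.Main
import Pool.Agent.MP_e23604_nt.P.CMain
import Pool.Agent.MP_e23604_nt.P.Cross
import Pool.Agent.MP_e23604_nt.P.Up

/-!
Summation over the scales.
-/

open Finset
open scoped Classical

noncomputable section

namespace Pool.Agent.MP_e23604_nt.P

/-- The good members of the family up to `T`. -/
def NS2 (T : ℕ) : Set ℕ :=
  {D | D ≤ T ∧ Squarefree D ∧ (∃ a b p q : ℕ, 0 < a ∧ 0 < b ∧ 0 < p ∧ 0 < q ∧
    D = a * b * (4 * a + b) * (16 * p ^ 2 * q ^ 2 * a + (p ^ 2 + q ^ 2) ^ 2 * b)) ∧ RankTwo D}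

theorem NS2_finite (T : ℕ) : (NS2 T).Finite := (Set.finite_Iic _).subset fun _ h => h.1

theorem GS_sub {X Y Z T : ℕ} (h : 1600 * X ^ 4 * Y ^ 4 ≤ T) : GS X Y Z ⊆ NS2 T := by
  intro D hD
  obtain ⟨h1, h2⟩ := GS_fam hD
  obtain ⟨τ, m, z, hτ, -, -, hm, -, hz, hG, hp, hi, rfl⟩ := hD
  obtain ⟨⟨k1, -⟩, k2, -⟩ := mem_box.1 hz
  obtain ⟨a1, a2⟩ := desc_main τ m z hτ hm (by omega) (by omega) hG hp hi
  exact ⟨h1.trans h, a1, h2, a2⟩

theorem sum_GS {ι : Type} (I : Finset ι) (X Y Z : ι → ℕ) (hX : ∀ i ∈ I, 100 ≤ X i)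
    (hZ : ∀ i ∈ I, Z i ^ 100 ≤ X i) (hXX : ∀ i ∈ I, ∀ j ∈ I, X i ≤ X j ^ 2)
    (hsep : ∀ i ∈ I, ∀ j ∈ I, i ≠ j → 2 * X i ≤ X j ∨ 2 * X j ≤ X i) {T : ℕ}
    (hT : ∀ i ∈ I, 1600 * X i ^ 4 * Y i ^ 4 ≤ T) :
    ∑ i ∈ I, (GS (X i) (Y i) (Z i)).ncard ≤ 64 * (NS2 T).ncard := by
  have e1 : ∀ i ∈ I, (GS (X i) (Y i) (Z i)).ncard =
      ∑ D ∈ (NS2_finite T).toFinset, if D ∈ GS (X i) (Y i) (Z i) then 1 else 0 := by
    intro i hi
    rw [← Finset.card_filter, ← Set.ncard_coe_finset]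
    congr 1
    ext D
    simp only [coe_filter, Set.Finite.mem_toFinset, Set.mem_ofPred_eq]
    exact ⟨fun h => ⟨GS_sub (hT i hi) h, h⟩, fun h => h.2⟩
  rw [Finset.sum_congr rfl e1, Finset.sum_comm, Set.ncard_eq_toFinset_card _ (NS2_finite T),
    mul_comm, ← smul_eq_mul]
  refine Finset.sum_le_card_nsmul _ _ _ fun D _ => ?_
  rw [← Finset.card_filter]
  exact cross I X Y Z hX hZ hXX hsep D

theorem xFin_pow (A k : ℕ) (hk : 1 ≤ k) : ∃ n0 : ℕ, ∀ n ≥ n0, n ^ A ≤ 2 ^ (n / k) := by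
  have h := (isLittleO_pow_const_const_pow_of_one_lt (R := ℝ) A (r := 2) (by norm_num)).bound
    (c := 1 / (2 * k) ^ A) (by positivity)
  obtain ⟨j0, hj⟩ := Filter.eventually_atTop.1 h
  refine ⟨k * (j0 + 1), fun n hn => ?_⟩
  have h1 : j0 + 1 ≤ n / k := (Nat.le_div_iff_mul_le hk).2 (by linarith)
  have h2 := hj (n / k) (by omega)
  have h3 : n ≤ 2 * k * (n / k) := by
    have := Nat.lt_mul_div_succ n hk
    nlinarith
  rw [Real.norm_of_nonneg (by positivity), Real.norm_of_nonneg (by positivity), one_div,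
    ← div_eq_inv_mul, le_div_iff₀ (by positivity)] at h2
  have h4 : (n : ℝ) ^ A ≤ 2 ^ (n / k) := by
    refine le_trans ?_ h2
    rw [← mul_pow]
    gcongr
    exact_mod_cast h3.trans (le_of_eq (by ring))
  exact_mod_cast h4

theorem count_pow : ∃ c : ℝ, 0 < c ∧ ∃ n0 : ℕ, ∀ n ≥ n0, ∀ T : ℕ, 1600 * 16 ^ n ≤ T →
    c * n * 4 ^ n ≤ (NS2 T).ncard := by
  obtain ⟨A, δ, c, hδ, hc, X0, h⟩ := count_box
  obtain ⟨k, hk, hkδ⟩ : ∃ k : ℕ, 101 ≤ k ∧ 2 ≤ δ * k := by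
    refine ⟨⌈2 / δ⌉₊ + 101, by omega, ?_⟩
    rw [mul_comm, ← div_le_iff₀ hδ]
    push_cast
    exact (Nat.le_ceil _).trans (by linarith)
  obtain ⟨n1, hn1⟩ := xFin_pow A (2 * k) (by omega)
  refine ⟨c / (64 * (4 * k)), by positivity, n1 + 2 * X0 + 8 * k + 14, fun n hn T hT => ?_⟩
  have hI : ∀ i ∈ Ioc (n / (2 * k)) (n / k), k * i ≤ n ∧ 101 * i ≤ n := by
    intro i hi
    have a1 : i * k ≤ n := (Nat.le_div_iff_mul_le (by omega)).1 (mem_Ioc.1 hi).2
    exact ⟨by linarith, by nlinarith⟩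
  have hl2 : 0 < Real.log 2 := Real.log_pos (by norm_num)
  have key : ∀ i, ∃ Z : ℕ, i ∈ Ioc (n / (2 * k)) (n / k) → Z ^ 100 ≤ 2 ^ (n - i) ∧
      c * 4 ^ n ≤ (GS (2 ^ (n - i)) (2 ^ i) Z).ncard := by
    intro i
    by_cases hi : i ∈ Ioc (n / (2 * k)) (n / k)
    swap
    · exact ⟨0, fun h => absurd h hi⟩
    obtain ⟨a1, a2⟩ := hI i hi
    have hcast : ((n - i : ℕ) : ℝ) = n - i := Nat.cast_sub (by omega)
    obtain ⟨Z, z1, z2⟩ := h (2 ^ (n - i)) (2 ^ i) (le_trans (by omega) Nat.lt_two_pow_self.le)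
      (by
        have b1 : Real.log ((2 ^ (n - i) : ℕ) : ℝ) ≤ n := by
          push_cast
          rw [Real.log_pow]
          have := Real.log_two_lt_d9
          have b2 : ((n - i : ℕ) : ℝ) ≤ n := by exact_mod_cast Nat.sub_le n i
          have b3 : (0 : ℝ) ≤ ((n - i : ℕ) : ℝ) := by positivity
          nlinarith
        have b2 : n ^ A ≤ 2 ^ i := (hn1 n (by omega)).trans
          (Nat.pow_le_pow_right (by norm_num) (mem_Ioc.1 hi).1.le)
        exact (pow_le_pow_left₀ (Real.log_natCast_nonneg _) b1 A).trans (by exact_mod_cast b2))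
      (by rw [← pow_mul]; exact Nat.pow_le_pow_right (by norm_num) (by omega))
      (by
        push_cast
        rw [Real.log_pow, Real.log_pow, ← mul_assoc, hcast]
        gcongr
        have b1 : (k : ℝ) * i ≤ n := by exact_mod_cast a1
        have b2 : (101 : ℝ) * i ≤ n := by exact_mod_cast a2
        have b3 : (0 : ℝ) ≤ i := by positivity
        have b4 : δ * (k * i) ≤ δ * n := by gcongr
        have b5 : δ * (101 * i) ≤ δ * n := by gcongr
        have b6 : 2 * (i : ℝ) ≤ δ * k * i := by gcongr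
        have b7 : 0 ≤ δ * i := by positivity
        nlinarith)
    refine ⟨Z, fun _ => ⟨z1, le_trans (le_of_eq ?_) z2⟩⟩
    push_cast
    rw [mul_assoc, ← mul_pow, ← pow_add, Nat.sub_add_cancel (by omega), ← pow_mul, mul_comm n,
      pow_mul]
    norm_num
  choose Z hZ using key
  have s1 := sum_GS (Ioc (n / (2 * k)) (n / k)) (fun i => 2 ^ (n - i)) (fun i => 2 ^ i) Z
    (fun i hi => by
      have := (hI i hi).2
      calc 100 ≤ 2 ^ 7 := by norm_num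
        _ ≤ 2 ^ (n - i) := Nat.pow_le_pow_right (by norm_num) (by omega))
    (fun i hi => (hZ i hi).1)
    (fun i hi j hj => by
      have := (hI j hj).2
      rw [← pow_mul]
      exact Nat.pow_le_pow_right (by norm_num) (by omega))
    (fun i hi j hj hij => by
      have := (hI i hi).2
      have := (hI j hj).2
      rw [← pow_succ', ← pow_succ']
      rcases Nat.lt_or_gt_of_ne hij with h | h
      · exact Or.inr (Nat.pow_le_pow_right (by norm_num) (by omega))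
      · exact Or.inl (Nat.pow_le_pow_right (by norm_num) (by omega))) (T := T)
    (fun i hi => by
      have := (hI i hi).2
      refine le_trans (le_of_eq ?_) hT
      rw [mul_assoc, ← mul_pow, ← pow_add, Nat.sub_add_cancel (by omega), ← pow_mul, mul_comm n,
        pow_mul]
      norm_num)
  have s2 : ∑ i ∈ Ioc (n / (2 * k)) (n / k), c * 4 ^ n ≤ 64 * ((NS2 T).ncard : ℝ) := by
    refine (Finset.sum_le_sum fun i hi => (hZ i hi).2).trans ?_
    exact_mod_cast s1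
  rw [Finset.sum_const, Nat.card_Ioc, nsmul_eq_mul] at s2
  have s3 : n ≤ 4 * k * (n / k - n / (2 * k)) := by
    have b1 : n / (2 * k) = n / k / 2 := by rw [Nat.div_div_eq_div_mul, mul_comm]
    have b2 := Nat.lt_mul_div_succ n (show 0 < k by omega)
    have b3 : 8 ≤ n / k := (Nat.le_div_iff_mul_le (by omega)).2 (by omega)
    have b4 : n / k + 1 ≤ 4 * (n / k - n / (2 * k)) := by omega
    nlinarith
  have s4 : (n : ℝ) ≤ 4 * k * ((n / k - n / (2 * k) : ℕ) : ℝ) := by exact_mod_cast s3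
  have hk0 : (0 : ℝ) < k := by exact_mod_cast (show 0 < k by omega)
  calc c / (64 * (4 * k)) * n * 4 ^ n
      ≤ c / (64 * (4 * k)) * (4 * k * ((n / k - n / (2 * k) : ℕ) : ℝ)) * 4 ^ n := by gcongr
    _ = ((n / k - n / (2 * k) : ℕ) : ℝ) * (c * 4 ^ n) / 64 := by field_simp
    _ ≤ _ := by linarith

theorem count_T : ∃ c : ℝ, 0 < c ∧ ∃ T0 : ℕ, ∀ T ≥ T0,
    c * (√T * Real.log T) ≤ (NS2 T).ncard := by
  obtain ⟨c, hc, n0, h⟩ := count_pow
  refine ⟨c / 640, by positivity, 1600 * 16 ^ (n0 + 11), fun T hT => ?_⟩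
  obtain ⟨n, hn⟩ : ∃ n, n = Nat.log 16 (T / 1600) := ⟨_, rfl⟩
  have a0 : 16 ^ (n0 + 11) ≤ T / 1600 := (Nat.le_div_iff_mul_le (by norm_num)).2 (by linarith)
  have a1 : n0 + 11 ≤ n := hn ▸ Nat.le_log_of_pow_le (by norm_num) a0
  have a2 : 16 ^ n ≤ T / 1600 := hn ▸ Nat.pow_log_le_self 16 (by
    have : 0 < 16 ^ (n0 + 11) := by positivity
    omega)
  have a3 : T / 1600 < 16 ^ (n + 1) := hn ▸ Nat.lt_pow_succ_log_self (by norm_num) _
  have a4 : T ≤ 1600 * 16 ^ (n + 1) := by omega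
  have a5 : (T : ℝ) ≤ (160 * 4 ^ n) ^ 2 := by
    calc (T : ℝ) ≤ 1600 * 16 ^ (n + 1) := by exact_mod_cast a4
      _ = _ := by rw [mul_pow, ← pow_mul, mul_comm n, pow_mul, pow_succ]; ring
  have a6 : √T ≤ 160 * 4 ^ n := Real.sqrt_le_iff.2 ⟨by positivity, a5⟩
  have a7 : Real.log T ≤ 4 * n := by
    have hT0 : (0 : ℝ) < T := by
      have : 0 < 1600 * 16 ^ (n0 + 11) := by positivity
      exact_mod_cast (show 0 < T by omega)
    have b1 : (T : ℝ) ≤ 2 ^ (4 * n + 15) := by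
      calc (T : ℝ) ≤ 1600 * 16 ^ (n + 1) := by exact_mod_cast a4
        _ ≤ 2048 * 16 ^ (n + 1) := by gcongr; norm_num
        _ = _ := by rw [pow_add, pow_add, pow_mul]; ring
    have b2 := Real.log_le_log hT0 b1
    rw [Real.log_pow] at b2
    have b3 := Real.log_two_lt_d9
    have b4 : (11 : ℝ) ≤ n := by exact_mod_cast (show 11 ≤ n by omega)
    push_cast at b2
    nlinarith
  refine le_trans ?_ (h n (by omega) T (by omega))
  have a8 := Real.log_natCast_nonneg T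
  calc c / 640 * (√T * Real.log T) ≤ c / 640 * (160 * 4 ^ n * (4 * n)) := by gcongr
    _ = _ := by ring

theorem pos_rank_two : ∃ c : ℝ, 0 < c ∧ ∃ T₀ : ℕ, ∀ T : ℕ, T₀ ≤ T →
    c * max (((Icc 1 T ×ˢ Icc 1 T ×ˢ Icc 1 T ×ˢ Icc 1 T).filter fun x : ℕ × ℕ × ℕ × ℕ =>
      x.1 * x.2.1 * (4 * x.1 + x.2.1) * (16 * x.2.2.1 ^ 2 * x.2.2.2 ^ 2 * x.1 +
        (x.2.2.1 ^ 2 + x.2.2.2 ^ 2) ^ 2 * x.2.1) ≤ T).card : ℝ) (√T * Real.log T) ≤
      (NS2 T).ncard := by
  obtain ⟨c, hc, T0, h⟩ := count_T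
  refine ⟨c / 32, by positivity, T0 + 3, fun T hT => le_trans ?_ (h T (by omega))⟩
  have a1 : 1 ≤ Real.log T := by
    rw [Real.le_log_iff_exp_le (by exact_mod_cast (show 0 < T by omega))]
    exact Real.exp_one_lt_three.le.trans (by exact_mod_cast (show 3 ≤ T by omega))
  have a2 := fam_le T
  have a3 : 0 ≤ √(T : ℝ) := Real.sqrt_nonneg _
  have a4 : 0 ≤ √(T : ℝ) * (Real.log T - 1) := mul_nonneg a3 (by linarith)
  have a5 : 0 ≤ √(T : ℝ) * Real.log T := by positivity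
  calc _ ≤ c / 32 * (32 * (√T * Real.log T)) := by
        gcongr
        exact max_le (by linarith) (by linarith)
    _ = _ := by ring

end Pool.Agent.MP_e23604_nt.P
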