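import Pool.Agent.MP_e23604_nt.P.Geo

/-!
Spread families in step 3.
-/

open Finset
open scoped Classical

noncomputable section

namespace Pool.Agent.MP_e23604_nt.P

theorem xG3_fib {ι κ : Type} (s : Finset ι) (B : Finset κ) (p : ι → κ) (e : ι → ℤ × ℤ)
    (α β : κ → ℤ) (g : ι → ℤ) {T0 N : ℝ} (h0 : 0 ≤ T0) (hN : 1 ≤ N) (hp : ∀ x ∈ s, p x ∈ B)
    (hi : ∀ x y, p x = p y → e x = e y → x = y) (hc : ∀ x ∈ s, IsCoprime (α (p x)) (β (p x)))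
    (hg : ∀ x, g x = α (p x) * (e x).1 + β (p x) * (e x).2)
    (hb : ∀ x ∈ s, g x ≠ 0 ∧ |(g x : ℝ)| ≤ N)
    (hT : ∀ x ∈ s, ∀ y ∈ s, ∀ t : ℤ, p y = p x → (e y).1 = (e x).1 + t * β (p x) →
      (e y).2 = (e x).2 - t * α (p x) → |(t : ℝ)| ≤ T0) :
    Spread s g (B.card * (2 * (T0 + 1))) N := by
  refine ⟨hN, fun x hx => ⟨(hb x hx).1, ?_⟩, fun n => ?_⟩
  · rw [Nat.cast_natAbs, Int.cast_abs]
    exact (hb x hx).2
  rw [card_eq_sum_card_fiberwise (f := p) (t := B) fun x hx => hp x (mem_filter.1 hx).1,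
    Nat.cast_sum, ← nsmul_eq_mul]
  refine sum_le_card_nsmul _ _ _ fun b _ => ?_
  rcases (s.filter fun x => p x = b).eq_empty_or_nonempty with h | ⟨x0, h⟩
  · rw [filter_comm, h, filter_empty, card_empty, Nat.cast_zero]
    positivity
  obtain ⟨h1, rfl⟩ := mem_filter.1 h
  have h2 := spread_form ((s.filter fun x => p x = p x0).image e) (hc x0 h1) h0 hN
    (fun z hz => by
      obtain ⟨x, hx, rfl⟩ := mem_image.1 hz
      rw [← (mem_filter.1 hx).2, ← hg]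
      exact hb x (mem_filter.1 hx).1)
    (fun z hz t ht => by
      obtain ⟨x, hx, rfl⟩ := mem_image.1 hz
      obtain ⟨y, hy, hy'⟩ := mem_image.1 ht
      obtain ⟨a1, a2⟩ := mem_filter.1 hx
      obtain ⟨a3, a4⟩ := mem_filter.1 hy
      exact hT x a1 y a3 t (a4.trans a2.symm) (by rw [hy', a2]) (by rw [hy', a2]))
  refine le_trans (Nat.cast_le.2 ?_) (h2.2.2 n)
  refine card_le_card_of_injOn e (fun x hx => ?_) fun x hx y hy hxy => ?_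
  · simp only [coe_filter, mem_filter, Set.mem_ofPred_eq] at hx ⊢
    refine ⟨mem_image_of_mem _ (mem_filter.2 ⟨hx.1.1, hx.2⟩), ?_⟩
    rw [← hx.2, ← hg]
    exact hx.1.2
  · simp only [coe_filter, mem_filter, Set.mem_ofPred_eq] at hx hy
    exact hi x y (hx.2.trans hy.2.symm) hxy

theorem xG3_abs {t : ℤ} {c d : ℝ} (hc : 0 < c) (h : |(t : ℝ)| * c ≤ d) : |(t : ℝ)| ≤ d / c :=
  (le_div_iff₀ hc).2 h

theorem xG3_TT {C0 : ℝ} {Y : ℕ} {τ : ℕ × ℕ} (h : τ ∈ TT C0 Y) :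
    (Y : ℝ) ^ 4 ≤ 4 * (kk τ : ℝ) ^ 2 ∧ 4 * (kk τ : ℝ) ^ 2 ≤ 16 * (Y : ℝ) ^ 4 ∧
      (Y : ℝ) ^ 4 ≤ 4 * (ss τ : ℝ) ^ 2 ∧ (ss τ : ℝ) ^ 2 ≤ 4 * (Y : ℝ) ^ 4 := by
  exact_mod_cast TT_bounds h

theorem xG3_B3 {C0 : ℝ} {Y M : ℕ} {x : (ℕ × ℕ) × (ℕ × ℕ)} (h : x ∈ B3 (TT C0 Y) M) :
    x.1 ∈ TT C0 Y ∧ ((M : ℝ) ≤ x.2.1 ∧ (x.2.1 : ℝ) ≤ 2 * M) ∧
      ((M : ℝ) ≤ x.2.2 ∧ (x.2.2 : ℝ) ≤ 2 * M) ∧ ∀ i, f3 i x ≠ 0 := by
  simp only [B3, mem_filter, mem_product, mem_Ico] at h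
  obtain ⟨⟨h1, ⟨h2, h3⟩, h4, h5⟩, h6⟩ := h
  exact ⟨h1, ⟨by exact_mod_cast h2, by exact_mod_cast h3.le⟩,
    ⟨by exact_mod_cast h4, by exact_mod_cast h5.le⟩, h6⟩

theorem spr_f3 {C0 : ℝ} {X Y M : ℕ} (hX : 100 ≤ X) (hY1 : 1 ≤ Y) (hY : Y ^ 100 ≤ X)
    (hM : 4 * Y ^ 4 ≤ M) (hM' : M ^ 100 ≤ X) (i : Fin 4) :
    Spr (B3 (TT C0 Y) M) (f3 i) (128 * (Y : ℝ) ^ 2 * (M : ℝ) ^ 2) ((X : ℝ) ^ 2) := by
  have a1 : (100 : ℝ) ≤ X := by exact_mod_cast hX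
  have a2 : (1 : ℝ) ≤ (Y : ℝ) ^ 4 := one_le_pow₀ (by exact_mod_cast hY1)
  have a3 : 4 * (Y : ℝ) ^ 4 ≤ M := by exact_mod_cast hM
  have a4 : (M : ℝ) ^ 2 ≤ X := by
    have h1 : 1 ≤ M := by
      have : (1 : ℝ) ≤ M := by linarith
      exact_mod_cast this
    exact_mod_cast (Nat.pow_le_pow_right h1 (by norm_num)).trans hM'
  have a5 := card_TT C0 Y
  have hi : ∀ x y : (ℕ × ℕ) × (ℕ × ℕ), x.1 = y.1 →
      ((x.2.1 : ℤ), (x.2.2 : ℤ)) = ((y.2.1 : ℤ), (y.2.2 : ℤ)) → x = y := fun x y h1 h2 => by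
    simp only [Prod.mk.injEq, Nat.cast_inj] at h2
    exact Prod.ext h1 (Prod.ext h2.1 h2.2)
  have key : ∀ (j : Fin 4) (α β : ℤ), IsCoprime α β → (|α| = 1 ∨ |β| = 1) →
      (∀ x, f3 j x = α * x.2.1 + β * x.2.2) →
      (∀ x ∈ B3 (TT C0 Y) M, |(f3 j x : ℝ)| ≤ 2 * M) →
      Spr (B3 (TT C0 Y) M) (f3 j) (128 * (Y : ℝ) ^ 2 * (M : ℝ) ^ 2) ((X : ℝ) ^ 2) := by
    intro j α β hc h1 hg hb
    refine ⟨_, _, xG3_fib _ (TT C0 Y) Prod.fst (fun x => ((x.2.1 : ℤ), (x.2.2 : ℤ))) (fun _ => α)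
      (fun _ => β) (f3 j) (T0 := M) (N := 2 * M) (by positivity) (by linarith)
      (fun x hx => (xG3_B3 hx).1) hi (fun _ _ => hc) hg
      (fun x hx => ⟨(xG3_B3 hx).2.2.2 j, hb x hx⟩) fun x hx y hy t _ e1 e2 => ?_, ?_,
      by nlinarith⟩
    · obtain ⟨-, b1, b2, -⟩ := xG3_B3 hx
      obtain ⟨-, b3, b4, -⟩ := xG3_B3 hy
      have e3 : (y.2.1 : ℝ) = x.2.1 + t * β := by exact_mod_cast e1
      have e4 : (y.2.2 : ℝ) = x.2.2 - t * α := by exact_mod_cast e2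
      rcases h1 with h1 | h1
      · have h2 : |(α : ℝ)| = 1 := by exact_mod_cast h1
        rw [← mul_one |(t : ℝ)|, ← h2, ← abs_mul, abs_le]
        constructor <;> linarith
      · have h2 : |(β : ℝ)| = 1 := by exact_mod_cast h1
        rw [← mul_one |(t : ℝ)|, ← h2, ← abs_mul, abs_le]
        constructor <;> linarith
    · calc _ ≤ (Y : ℝ) ^ 2 * (2 * (M + M)) * (2 * M) := by gcongr; linarith
        _ = 8 * ((Y : ℝ) ^ 2 * (M : ℝ) ^ 2) := by ring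
        _ ≤ 128 * ((Y : ℝ) ^ 2 * (M : ℝ) ^ 2) := by gcongr; norm_num
        _ = _ := by ring
  fin_cases i
  · refine key 0 1 0 isCoprime_one_left (by simp) (fun x => by simp [f3]) fun x hx => ?_
    obtain ⟨-, b1, b2, -⟩ := xG3_B3 hx
    simpa [f3] using b1.2
  · refine key 1 0 1 isCoprime_one_right (by simp) (fun x => by simp [f3]) fun x hx => ?_
    obtain ⟨-, b1, b2, -⟩ := xG3_B3 hx
    simpa [f3] using b2.2
  · refine key 2 1 (-1) isCoprime_one_left (by simp) (fun x => by simp [f3, sub_eq_add_neg])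
      fun x hx => ?_
    obtain ⟨-, b1, b2, -⟩ := xG3_B3 hx
    have : (f3 2 x : ℝ) = x.2.1 - x.2.2 := by simp [f3]
    rw [this, abs_le]
    constructor <;> linarith
  · refine ⟨_, _, xG3_fib _ (TT C0 Y) Prod.fst (fun x => ((x.2.1 : ℤ), (x.2.2 : ℤ)))
      (fun τ => -ss τ ^ 2) (fun τ => kk τ ^ 2) (f3 3) (T0 := 4 * M / (Y : ℝ) ^ 4)
      (N := 8 * (Y : ℝ) ^ 4 * M) (by positivity) (by nlinarith)
      (fun x hx => (xG3_B3 hx).1) hi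
      (fun x hx => (mem_TT (xG3_B3 hx).1).1.cop_ks.of_mul_left_right.symm.pow.neg_left)
      (fun x => by simp [f3]; ring) (fun x hx => ⟨(xG3_B3 hx).2.2.2 3, ?_⟩)
      fun x hx y hy t _ _ e2 => ?_, ?_, by nlinarith⟩
    · obtain ⟨b0, b1, b2, -⟩ := xG3_B3 hx
      obtain ⟨c1, c2, c3, c4⟩ := xG3_TT b0
      have : (f3 3 x : ℝ) = (kk x.1 : ℝ) ^ 2 * x.2.2 - (ss x.1 : ℝ) ^ 2 * x.2.1 := by simp [f3]
      have d1 := mul_le_mul c2 b2.2 (by positivity) (by positivity)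
      have d2 := mul_le_mul c4 b1.2 (by positivity) (by positivity)
      have d3 : 0 ≤ (kk x.1 : ℝ) ^ 2 * x.2.2 := by positivity
      have d4 : 0 ≤ (ss x.1 : ℝ) ^ 2 * x.2.1 := by positivity
      rw [this, abs_le]
      constructor <;> linarith
    · obtain ⟨b0, -, b2, -⟩ := xG3_B3 hx
      obtain ⟨-, -, b4, -⟩ := xG3_B3 hy
      obtain ⟨-, -, c3, -⟩ := xG3_TT b0
      have e4 : (y.2.2 : ℝ) = x.2.2 - t * -(ss x.1 : ℝ) ^ 2 := by exact_mod_cast e2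
      have d1 : |(t : ℝ)| * (ss x.1 : ℝ) ^ 2 ≤ M := by
        rw [← abs_of_nonneg (sq_nonneg (ss x.1 : ℝ)), ← abs_mul, abs_le]
        constructor <;> linarith
      have d2 := mul_le_mul_of_nonneg_left c3 (abs_nonneg (t : ℝ))
      exact xG3_abs (by linarith) (by linarith)
    · have d1 : 1 ≤ 4 * M / (Y : ℝ) ^ 4 := by
        rw [le_div_iff₀ (by linarith)]
        linarith
      calc _ ≤ (Y : ℝ) ^ 2 * (2 * (4 * M / (Y : ℝ) ^ 4 + 4 * M / (Y : ℝ) ^ 4)) *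
            (8 * (Y : ℝ) ^ 4 * M) := by gcongr
        _ = _ := by
          have : (Y : ℝ) ^ 4 ≠ 0 := by linarith
          generalize (Y : ℝ) ^ 4 = y at *
          field_simp
          ring

/-- Few triples are degenerate or have close moduli. -/
theorem card_bad3 {C0 : ℝ} {Y M : ℕ} {V : ℝ} (hV : 1 ≤ V) (hM : V ≤ M) :
    (((TT C0 Y ×ˢ (Ico M (2 * M) ×ˢ Ico M (2 * M))).filter fun b =>
      b ∉ B3 (TT C0 Y) M ∨ |(b.2.1 : ℝ) - b.2.2| < M / V).card : ℝ) ≤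
      5 * (Y : ℝ) ^ 2 * (M : ℝ) ^ 2 / V := by
  have h1 : 1 ≤ M / V := by
    rw [le_div_iff₀ (by linarith)]
    linarith
  have hM1 : 0 < M := Nat.cast_pos.1 (by linarith : (0 : ℝ) < M)
  have h2 : 5 * (Y : ℝ) ^ 2 * (M : ℝ) ^ 2 / V = (Y : ℝ) ^ 2 * (M * (5 * (M / V))) := by ring
  rw [h2]
  generalize M / V = r at *
  rw [card_filter, sum_product, Nat.cast_sum]
  refine (sum_le_card_nsmul _ _ (M * (5 * r)) fun τ hτ => ?_).trans ?_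
  swap
  · rw [nsmul_eq_mul]
    exact mul_le_mul_of_nonneg_right (card_TT C0 Y) (by positivity)
  rw [sum_product, Nat.cast_sum]
  refine (sum_le_card_nsmul _ _ (5 * r) fun a ha => ?_).trans
    (by rw [nsmul_eq_mul, Nat.card_Ico, show 2 * M - M = M by omega])
  rw [← card_filter]
  have h3 : (((Ico M (2 * M)).filter fun b : ℕ => f3 3 (τ, a, b) = 0).card : ℝ) ≤ 1 := by
    refine Nat.cast_le_one.2 (card_le_one.2 fun b hb c hc => ?_)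
    have e1 : kk τ ^ 2 * b - ss τ ^ 2 * a = 0 := (mem_filter.1 hb).2
    have e2 : kk τ ^ 2 * c - ss τ ^ 2 * a = 0 := (mem_filter.1 hc).2
    have e3 : kk τ ^ 2 * b = kk τ ^ 2 * c := by linarith
    exact_mod_cast mul_left_cancel₀ (pow_pos (mem_TT hτ).1.pos.1 2).ne' e3
  have h4 : ((Icc (a - ⌊r⌋₊) (a + ⌊r⌋₊)).card : ℝ) ≤ 2 * r + 1 := by
    have e1 : (Icc (a - ⌊r⌋₊) (a + ⌊r⌋₊)).card ≤ 2 * ⌊r⌋₊ + 1 := by
      rw [Nat.card_Icc]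
      omega
    have e2 : ((Icc (a - ⌊r⌋₊) (a + ⌊r⌋₊)).card : ℝ) ≤ 2 * ⌊r⌋₊ + 1 := by exact_mod_cast e1
    linarith [Nat.floor_le (show 0 ≤ r by linarith)]
  refine le_trans (Nat.cast_le.2 ((card_le_card (t := ((Ico M (2 * M)).filter
    fun b : ℕ => f3 3 (τ, a, b) = 0) ∪ Icc (a - ⌊r⌋₊) (a + ⌊r⌋₊)) fun b hb => ?_).trans
    (card_union_le _ _))) (by rw [Nat.cast_add]; linarith)
  obtain ⟨hb, h5⟩ := mem_filter.1 hb
  rw [mem_union, mem_filter, mem_Icc]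
  rcases h5 with h5 | h5
  · by_contra h6
    refine h5 (mem_filter.2 ⟨mem_product.2 ⟨hτ, mem_product.2 ⟨ha, hb⟩⟩, fun i => ?_⟩)
    rw [mem_Ico] at ha
    have hb' := mem_Ico.1 hb
    fin_cases i
    · exact Nat.cast_ne_zero.2 (show a ≠ 0 by omega)
    · exact Nat.cast_ne_zero.2 (show b ≠ 0 by omega)
    · exact fun h : (a : ℤ) - b = 0 => h6 (Or.inr (by omega))
    · exact fun h => h6 (Or.inl ⟨hb, h⟩)
  · have h6 : ((a : ℤ) - b).natAbs ≤ ⌊r⌋₊ := by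
      refine Nat.le_floor ?_
      rw [Nat.cast_natAbs]
      push_cast
      exact h5.le
    exact Or.inr (by omega)

theorem xG3_form {C0 : ℝ} {X Y M : ℕ} (hM : 1 ≤ M) (S : Finset (((ℕ × ℕ) × (ℕ × ℕ)) × (ℤ × ℤ)))
    (hS : ∀ x ∈ S, x.1 ∈ TT C0 Y ×ˢ (Ico M (2 * M) ×ˢ Ico M (2 * M)))
    (α β : (ℕ × ℕ) × (ℕ × ℕ) → ℤ) (g : ((ℕ × ℕ) × (ℕ × ℕ)) × (ℤ × ℤ) → ℤ) {c D : ℝ} (hD : 1 ≤ D)
    (hc : 1 ≤ c) (hX : 1 ≤ X) (h1 : D * M ≤ X) (h2 : 72 * D ≤ X)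
    (hcop : ∀ x ∈ S, IsCoprime (α x.1) (β x.1)) (hg : ∀ x, g x = α x.1 * x.2.1 + β x.1 * x.2.2)
    (hb : ∀ x ∈ S, 0 < g x ∧ c * g x ≤ 72 * D * X)
    (hT : ∀ x ∈ S, ∀ y ∈ S, ∀ t : ℤ, y.2.1 = x.2.1 + t * β x.1 →
      y.2.2 = x.2.2 - t * α x.1 → |(t : ℝ)| * (D * M) ≤ c * X) :
    Spr S g (288 * (X : ℝ) ^ 2 * (Y : ℝ) ^ 2 * M) ((X : ℝ) ^ 2) := by
  have a1 : (1 : ℝ) ≤ M := by exact_mod_cast hM
  have a2 : (1 : ℝ) ≤ X := by exact_mod_cast hX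
  have a3 : 0 < D * M := by positivity
  have a4 : ((TT C0 Y ×ˢ (Ico M (2 * M) ×ˢ Ico M (2 * M))).card : ℝ) ≤ (Y : ℝ) ^ 2 * (M * M) := by
    rw [card_product, card_product, Nat.card_Ico, show 2 * M - M = M by omega]
    push_cast
    exact mul_le_mul_of_nonneg_right (card_TT C0 Y) (by positivity)
  rcases S.eq_empty_or_nonempty with rfl | ⟨x0, hx0⟩
  · exact ⟨0, 1, ⟨le_rfl, by simp, by simp⟩, by rw [zero_mul]; positivity, one_le_pow₀ a2⟩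
  have a5 : ∀ x ∈ S, (g x : ℝ) ≤ 72 * D * X / c := fun x hx => by
    rw [le_div_iff₀' (by linarith)]
    exact (hb x hx).2
  have a6 : (1 : ℝ) ≤ g x0 := by exact_mod_cast (hb x0 hx0).1
  refine ⟨_, _, xG3_fib S _ Prod.fst Prod.snd α β g (T0 := c * X / (D * M)) (N := 72 * D * X / c)
    (by positivity) (a6.trans (a5 x0 hx0)) hS (fun x y => Prod.ext) hcop hg
    (fun x hx => ⟨(hb x hx).1.ne', ?_⟩) fun x hx y hy t _ e1 e2 => xG3_abs a3 (hT x hx y hy t e1 e2),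
    ?_, ?_⟩
  · rw [abs_of_pos (by exact_mod_cast (hb x hx).1)]
    exact a5 x hx
  · have d1 : 1 ≤ c * X / (D * M) := by
      rw [le_div_iff₀ a3]
      nlinarith
    calc _ ≤ (Y : ℝ) ^ 2 * (M * M) * (2 * (c * X / (D * M) + c * X / (D * M))) *
          (72 * D * X / c) := by gcongr
      _ = _ := by
        field_simp
        ring
  · rw [div_le_iff₀ (by linarith)]
    nlinarith [mul_le_mul_of_nonneg_right h2 (show (0 : ℝ) ≤ X by linarith),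
      mul_le_mul_of_nonneg_left hc (sq_nonneg (X : ℝ))]

theorem xG3_num {X Y M : ℕ} (hX : 100 ≤ X) (hY1 : 1 ≤ Y) (hY : Y ^ 100 ≤ X) (hM : 1 ≤ M)
    (hM' : M ^ 100 ≤ X) : Y ^ 4 * M ≤ X ∧ 72 * Y ^ 4 ≤ X := by
  constructor
  · rcases le_total Y M with h | h
    · calc Y ^ 4 * M ≤ M ^ 4 * M := by gcongr
        _ = M ^ 5 := by ring
        _ ≤ M ^ 100 := Nat.pow_le_pow_right hM (by norm_num)
        _ ≤ X := hM'
    · calc Y ^ 4 * M ≤ Y ^ 4 * Y := by gcongr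
        _ = Y ^ 5 := by ring
        _ ≤ Y ^ 100 := Nat.pow_le_pow_right hY1 (by norm_num)
        _ ≤ X := hY
  · rcases hY1.eq_or_lt with rfl | h
    · omega
    · calc 72 * Y ^ 4 ≤ 2 ^ 7 * Y ^ 4 := by gcongr; norm_num
        _ ≤ Y ^ 7 * Y ^ 4 := by gcongr; exact h
        _ = Y ^ 11 := by ring
        _ ≤ Y ^ 100 := Nat.pow_le_pow_right hY1 (by norm_num)
        _ ≤ X := hY

theorem xG3_two {C0 : ℝ} {X Y M : ℕ} (hX : 100 ≤ X) (hY1 : 1 ≤ Y) (hY : Y ^ 100 ≤ X) (hM : 1 ≤ M)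
    (hM' : M ^ 100 ≤ X) (S : Finset (((ℕ × ℕ) × (ℕ × ℕ)) × (ℤ × ℤ)))
    (hS : ∀ x ∈ S, x.1 ∈ TT C0 Y ×ˢ (Ico M (2 * M) ×ˢ Ico M (2 * M)))
    (m : (ℕ × ℕ) × (ℕ × ℕ) → ℕ)
    (h : ∀ x ∈ S, m x.1 ∈ Ico M (2 * M) ∧ IsCoprime (m x.1 : ℤ) (ss x.1.1) ∧
      0 < x.2.1 ∧ M * x.2.1 ≤ 2 * X ∧ x.2.2 ∈ Ioc (X : ℤ) (2 * X)) :
    Spr S (fun x => x.2.2) (288 * (X : ℝ) ^ 2 * (Y : ℝ) ^ 2 * M) ((X : ℝ) ^ 2) ∧
    Spr S (fun x => LL x.1.1 (m x.1 * x.2.1) x.2.2 2) (288 * (X : ℝ) ^ 2 * (Y : ℝ) ^ 2 * M)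
      ((X : ℝ) ^ 2) ∧
    Spr S (fun x => LL x.1.1 (m x.1 * x.2.1) x.2.2 3) (288 * (X : ℝ) ^ 2 * (Y : ℝ) ^ 2 * M)
      ((X : ℝ) ^ 2) := by
  obtain ⟨n1, n2⟩ := xG3_num hX hY1 hY hM hM'
  have a1 : (Y : ℝ) ^ 4 * M ≤ X := by exact_mod_cast n1
  have a2 : 72 * (Y : ℝ) ^ 4 ≤ X := by exact_mod_cast n2
  have a3 : (1 : ℝ) ≤ (Y : ℝ) ^ 4 := one_le_pow₀ (by exact_mod_cast hY1)
  have a4 : (1 : ℝ) ≤ M := by exact_mod_cast hM
  have a5 : (1 : ℝ) * M ≤ X := by nlinarith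
  have a6 : (72 : ℝ) * 1 ≤ X := by linarith
  have hX1 : 1 ≤ X := by omega
  have hr : ∀ x ∈ S, (M : ℝ) ≤ m x.1 ∧ (0 : ℝ) < x.2.1 ∧ (M : ℝ) * x.2.1 ≤ 2 * X ∧
      (X : ℝ) < x.2.2 ∧ (x.2.2 : ℝ) ≤ 2 * X ∧ 0 < (m x.1 : ℝ) * x.2.1 ∧
      (m x.1 : ℝ) * x.2.1 ≤ 4 * X := fun x hx => by
    obtain ⟨b1, -, b2, b3, b4⟩ := h x hx
    rw [mem_Ico] at b1
    rw [mem_Ioc] at b4
    have c1 : (M : ℝ) ≤ m x.1 := by exact_mod_cast b1.1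
    have c2 : (m x.1 : ℝ) ≤ 2 * M := by exact_mod_cast b1.2.le
    have c3 : (0 : ℝ) < x.2.1 := by exact_mod_cast b2
    have c4 : (M : ℝ) * x.2.1 ≤ 2 * X := by exact_mod_cast b3
    exact ⟨c1, c3, c4, by exact_mod_cast b4.1, by exact_mod_cast b4.2,
      mul_pos (by linarith) c3, by nlinarith⟩
  have hs : ∀ x ∈ S, ∀ y ∈ S, ∀ t a : ℤ, y.2.2 = x.2.2 - t * a → ∀ d : ℝ, d ≤ a → 0 ≤ d →
      |(t : ℝ)| * d ≤ 1 * X := fun x hx y hy t a e d hd h0 => by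
    obtain ⟨-, -, -, b4, b5, -⟩ := hr x hx
    obtain ⟨-, -, -, c4, c5, -⟩ := hr y hy
    have e' : (y.2.2 : ℝ) = x.2.2 - t * a := by exact_mod_cast e
    refine (mul_le_mul_of_nonneg_left hd (abs_nonneg _)).trans ?_
    rw [← abs_of_nonneg (h0.trans hd), ← abs_mul, abs_le]
    constructor <;> linarith
  refine ⟨xG3_form hM S hS (fun _ => 0) (fun _ => 1) _ (c := 2) le_rfl (by norm_num) hX1 a5 a6
    (fun _ _ => isCoprime_one_right) (fun x => by simp) (fun x hx => ?_) fun x hx y hy t e _ => ?_,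
    xG3_form hM S hS (fun b => 4 * m b) (fun _ => 1) _ (c := 1) le_rfl le_rfl hX1 a5 a6
    (fun _ _ => isCoprime_one_right) (fun x => by simp [LL, mul_assoc]) (fun x hx => ?_)
      fun x hx y hy t _ e => hs x hx y hy t _ e _ ?_ (by positivity),
    xG3_form hM S hS (fun b => 4 * kk b.1 ^ 2 * m b) (fun b => ss b.1 ^ 2) _ (c := 1) a3 le_rfl hX1
      a1 a2 (fun x hx => ?_) (fun x => by simp [LL, mul_assoc]) (fun x hx => ?_)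
      fun x hx y hy t _ e => hs x hx y hy t _ e _ ?_ (by positivity)⟩
  · obtain ⟨-, -, -, b4, b5, -⟩ := hr x hx
    exact ⟨by exact_mod_cast (show (0 : ℝ) < x.2.2 by linarith), by linarith⟩
  · obtain ⟨-, b2, b3, -⟩ := hr x hx
    obtain ⟨-, c2, c3, -⟩ := hr y hy
    have e' : (y.2.1 : ℝ) = x.2.1 + t * 1 := by exact_mod_cast e
    rw [e'] at c2 c3
    rw [one_mul, ← abs_of_nonneg (show (0 : ℝ) ≤ M by linarith), ← abs_mul, abs_le]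
    constructor <;> nlinarith
  · obtain ⟨-, -, -, b4, b5, b6, b7⟩ := hr x hx
    have e : ((LL x.1.1 (m x.1 * x.2.1) x.2.2 2 : ℤ) : ℝ) = 4 * (m x.1 * x.2.1) + x.2.2 := by
      simp [LL]
    refine ⟨Int.cast_pos (R := ℝ).1 ?_, ?_⟩ <;> rw [e] <;> linarith
  · push_cast
    linarith [(hr x hx).1]
  · have b1 := (mem_TT (mem_product.1 (hS x hx)).1).1.cop_ks.pow (m := 2) (n := 2)
    rw [mul_pow] at b1
    exact IsCoprime.mul_left b1 (h x hx).2.1.pow_right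
  · obtain ⟨-, -, -, b4, b5, b6, b7⟩ := hr x hx
    obtain ⟨c1, c2, c3, c4⟩ := xG3_TT (mem_product.1 (hS x hx)).1
    have e : ((LL x.1.1 (m x.1 * x.2.1) x.2.2 3 : ℤ) : ℝ) =
        4 * (kk x.1.1 : ℝ) ^ 2 * (m x.1 * x.2.1) + (ss x.1.1 : ℝ) ^ 2 * x.2.2 := by
      simp [LL]
    have d1 := mul_le_mul c2 b7 b6.le (by positivity)
    have d2 := mul_le_mul c4 b5 (by linarith) (by positivity)
    have d3 : 0 < 4 * (kk x.1.1 : ℝ) ^ 2 * (m x.1 * x.2.1) := mul_pos (by linarith) b6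
    have d4 : 0 ≤ (ss x.1.1 : ℝ) ^ 2 * x.2.2 := mul_nonneg (sq_nonneg _) (by linarith)
    refine ⟨Int.cast_pos (R := ℝ).1 ?_, ?_⟩ <;> rw [e] <;> linarith
  · push_cast
    exact mul_le_mul (xG3_TT (mem_product.1 (hS x hx)).1).1 (hr x hx).1 (by positivity)
      (by positivity)

/-- The trivial bound on a small set of points. -/
theorem triv_L3 : ∃ C : ℕ, ∀ (C0 : ℝ) (X Y M : ℕ), 100 ≤ X → 1 ≤ Y → Y ^ 100 ≤ X → 1 ≤ M →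
    M ^ 100 ≤ X → ∀ S : Finset (((ℕ × ℕ) × (ℕ × ℕ)) × (ℤ × ℤ)),
    (∀ x ∈ S, x.1.1 ∈ TT C0 Y ∧ x.1.2.1 ∈ Ico M (2 * M) ∧ x.1.2.2 ∈ Ico M (2 * M) ∧
      IsCoprime (x.1.2.1 : ℤ) (ss x.1.1) ∧ IsCoprime (x.1.2.2 : ℤ) (ss x.1.1) ∧
      0 < x.2.1 ∧ M * x.2.1 ≤ 2 * X ∧ x.2.2 ∈ Ioc (X : ℤ) (2 * X)) →
    ∑ x ∈ S, tau x.2.2 ^ 3 * tau (LL x.1.1 (x.1.2.1 * x.2.1) x.2.2 2) ^ 3 *
        tau (LL x.1.1 (x.1.2.2 * x.2.1) x.2.2 2) ^ 3 *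
        tau (LL x.1.1 (x.1.2.1 * x.2.1) x.2.2 3) ^ 3 *
        tau (LL x.1.1 (x.1.2.2 * x.2.1) x.2.2 3) ^ 3 ≤
      √(S.card * M) * X * Y * Real.log X ^ C := by
  obtain ⟨C, hC⟩ := triv
  refine ⟨2 * C + 3, fun C0 X Y M hX hY1 hY hM hM' S h => ?_⟩
  have hS : ∀ x ∈ S, x.1 ∈ TT C0 Y ×ˢ (Ico M (2 * M) ×ˢ Ico M (2 * M)) := fun x hx =>
    mem_product.2 ⟨(h x hx).1, mem_product.2 ⟨(h x hx).2.1, (h x hx).2.2.1⟩⟩
  obtain ⟨s0, s1, s3⟩ := xG3_two hX hY1 hY hM hM' S hS (fun b => b.2.1) fun x hx =>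
    ⟨(h x hx).2.1, (h x hx).2.2.2.1, (h x hx).2.2.2.2.2⟩
  obtain ⟨-, s2, s4⟩ := xG3_two hX hY1 hY hM hM' S hS (fun b => b.2.2) fun x hx =>
    ⟨(h x hx).2.2.1, (h x hx).2.2.2.2.1, (h x hx).2.2.2.2.2⟩
  have h1 := hC S S ![fun x => x.2.2, fun x => LL x.1.1 (x.1.2.1 * x.2.1) x.2.2 2,
    fun x => LL x.1.1 (x.1.2.2 * x.2.1) x.2.2 2, fun x => LL x.1.1 (x.1.2.1 * x.2.1) x.2.2 3,
    fun x => LL x.1.1 (x.1.2.2 * x.2.1) x.2.2 3] _ _ Subset.rfl fun i => by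
      fin_cases i
      exacts [s0, s1, s2, s3, s4]
  refine (le_of_eq (sum_congr rfl fun x _ => ?_)).trans (h1.trans ?_)
  · rw [Fin.prod_univ_five]
    rfl
  have a1 : (100 : ℝ) ≤ X := by exact_mod_cast hX
  have a2 : 4 ≤ Real.log X := by
    rw [Real.le_log_iff_exp_le (by linarith), show (4 : ℝ) = (4 : ℕ) * 1 by norm_num,
      Real.exp_nat_mul]
    have := pow_le_pow_left₀ (Real.exp_pos 1).le Real.exp_one_lt_three.le 4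
    linarith
  have a3 : √(S.card * (288 * (X : ℝ) ^ 2 * (Y : ℝ) ^ 2 * M)) ≤ 17 * (√(S.card * M) * X * Y) := by
    refine Real.sqrt_le_iff.2 ⟨by positivity, ?_⟩
    rw [mul_pow, mul_pow, mul_pow, Real.sq_sqrt (by positivity)]
    have : 0 ≤ (S.card * M : ℝ) * (X : ℝ) ^ 2 * (Y : ℝ) ^ 2 := by positivity
    linarith
  rw [Real.log_pow, pow_add, pow_mul]
  generalize Real.log X = L at *
  have a4 : (1 + (2 : ℕ) * L) ^ C ≤ (L ^ 2) ^ C :=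
    pow_le_pow_left₀ (by positivity) (by push_cast; nlinarith) C
  have a5 : (3 * 17 : ℝ) ≤ L ^ 3 := by
    have := pow_le_pow_left₀ (by norm_num) a2 3
    linarith
  calc _ ≤ 3 * (17 * (√(S.card * M) * X * Y)) * (L ^ 2) ^ C := by gcongr
    _ = √(S.card * M) * X * Y * ((L ^ 2) ^ C * (3 * 17)) := by ring
    _ ≤ _ := by gcongr

end Pool.Agent.MP_e23604_nt.P
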