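import Pool.Agent.MP_e23604_nt.P.Geo

/-!
Spread families in step 4.
-/

open Finset
open scoped Classical

noncomputable section

namespace Pool.Agent.MP_e23604_nt.P

theorem det4 (X : ℕ) (π : I4) : (dat4 X π).det = 16 * ∏ i, f4 i π.1 := by
  simp only [Datum.det, dat4, f4, kk, ss, Fin.prod_univ_four, Matrix.cons_val_zero,
    Matrix.cons_val_one, Matrix.cons_val]
  ring

theorem xG4_prod {α β : Type} (A : Finset (α × β)) (T : Finset β) (c : ℝ) (hT : ∀ a ∈ A, a.2 ∈ T)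
    (h : ∀ y ∈ T, ∀ S : Finset α, (∀ x ∈ S, (x, y) ∈ A) → (S.card : ℝ) ≤ c) :
    (A.card : ℝ) ≤ T.card * c := by
  rw [← nsmul_eq_mul, card_eq_sum_card_fiberwise (f := Prod.snd) (t := T) hT, Nat.cast_sum]
  refine sum_le_card_nsmul _ _ _ fun y hy => ?_
  rw [← card_image_of_injOn (f := Prod.fst) fun a ha b hb hab =>
    Prod.ext hab ((mem_filter.1 ha).2.trans (mem_filter.1 hb).2.symm)]
  refine h y hy _ fun x hx => ?_
  obtain ⟨a, ha, rfl⟩ := mem_image.1 hx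
  rw [← (mem_filter.1 ha).2]
  exact (mem_filter.1 ha).1

theorem xG4_line {C0 : ℝ} {Y : ℕ} (hY : 1 ≤ Y) {α β : ℤ} (h : IsCoprime α β)
    (hβ : (Y : ℤ) ≤ 2 * |β|) (n : ℕ) (S : Finset (ℕ × ℕ))
    (hS : ∀ τ ∈ S, τ ∈ TT C0 Y ∧ (α * τ.1 + β * τ.2).natAbs = n) : (S.card : ℝ) ≤ 6 := by
  set B := (TT C0 Y).image fun τ => ((τ.1 : ℤ), (τ.2 : ℤ)) with hB
  have hb : ∀ z ∈ B, 0 ≤ z.1 ∧ z.1 ≤ Y := fun z hz => by
    obtain ⟨τ, hτ, rfl⟩ := mem_image.1 hz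
    exact ⟨Int.natCast_nonneg _, Int.ofNat_le.2 (mem_TT hτ).2.2.1⟩
  have key : ∀ m : ℤ, ((B.filter fun z => α * z.1 + β * z.2 = m).card : ℝ) ≤ 2 / (1 : ℕ) + 1 :=
    fun m => card_line B h m (by norm_num) le_rfl fun z hz t ht => ⟨by
      have h1 := hb z hz
      have h2 := hb _ ht
      have h3 : |t| * |β| ≤ Y := by
        rw [← abs_mul]
        exact abs_le.2 ⟨by linarith [h1.2, h2.1], by linarith [h1.1, h2.2]⟩
      have h4 : |t| ≤ 2 := by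
        by_contra h5
        have : (1 : ℤ) ≤ Y := by exact_mod_cast hY
        nlinarith [abs_nonneg β]
      exact_mod_cast h4, by simp⟩
  have h5 := card_le_card_of_injOn (s := S)
    (t := (B.filter fun z => α * z.1 + β * z.2 = n) ∪ B.filter fun z => α * z.1 + β * z.2 = -n)
    (fun τ => ((τ.1 : ℤ), (τ.2 : ℤ))) (fun τ hτ => by
      obtain ⟨h1, h2⟩ := hS τ (mem_coe.1 hτ)
      have h3 : ((τ.1 : ℤ), (τ.2 : ℤ)) ∈ B := mem_image_of_mem _ h1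
      rcases Int.natAbs_eq_iff.1 h2 with h4 | h4
      · exact mem_coe.2 (mem_union_left _ (mem_filter.2 ⟨h3, h4⟩))
      · exact mem_coe.2 (mem_union_right _ (mem_filter.2 ⟨h3, h4⟩)))
    (fun x _ y _ hxy => Prod.ext (Int.ofNat_inj.1 (congrArg Prod.fst hxy))
      (Int.ofNat_inj.1 (congrArg Prod.snd hxy)))
  have h6 : _ ≤ (_ : ℝ) := Nat.cast_le.2 (h5.trans (card_union_le _ _))
  rw [Nat.cast_add] at h6
  have k1 := key n
  have k2 := key (-n)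
  rw [Nat.cast_one] at k1 k2
  linarith

theorem xG4_40 {X Y : ℕ} (hX : 100 ≤ X) (hY1 : 1 ≤ Y) (hY : Y ^ 100 ≤ X) : 40 * Y ^ 4 ≤ X := by
  rcases hY1.eq_or_lt with h | h
  · subst h
    omega
  · refine le_trans ?_ hY
    rw [show Y ^ 100 = Y ^ 96 * Y ^ 4 by ring]
    exact Nat.mul_le_mul_right _ (le_trans (by norm_num) (Nat.pow_le_pow_left h 96))

theorem spr_f4 {C0 : ℝ} {X Y : ℕ} (hX : 100 ≤ X) (hY1 : 1 ≤ Y) (hY : Y ^ 100 ≤ X) (i : Fin 4) :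
    Spr (B4 (TT C0 Y)) (f4 i) (12 * (Y : ℝ) ^ 4) ((X : ℝ) ^ 2) := by
  have hY' : (1 : ℝ) ≤ Y := by exact_mod_cast hY1
  have h40 : 40 * (Y : ℝ) ^ 4 ≤ X := by exact_mod_cast xG4_40 hX hY1 hY
  have h2 : (1 : ℝ) ≤ (Y : ℝ) ^ 2 := one_le_pow₀ hY'
  clear hY hX
  refine ⟨(Y : ℝ) ^ 2 * 6, 2 * (Y : ℝ) ^ 2, ⟨by linarith, fun b hb => ?_, fun n => ?_⟩,
    le_of_eq (by ring), ?_⟩
  · obtain ⟨h1, h3⟩ := mem_filter.1 hb
    obtain ⟨a1, a2⟩ := mem_product.1 h1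
    obtain ⟨-, -, p1, -, q1, -⟩ := mem_TT a1
    obtain ⟨-, -, p2, -, q2, -⟩ := mem_TT a2
    refine ⟨h3 i, ?_⟩
    have : (f4 i b).natAbs ≤ 2 * Y ^ 2 := by
      have b1 := Nat.mul_le_mul q1 p2
      have b2 := Nat.mul_le_mul p1 q2
      have b3 := Nat.mul_le_mul p1 p2
      have b4 := Nat.mul_le_mul q1 q2
      rw [pow_two]
      fin_cases i <;> simp only [f4, Fin.zero_eta, Fin.mk_one, Fin.reduceFinMk, Matrix.cons_val_zero,
        Matrix.cons_val_one, Matrix.cons_val, ← Nat.cast_mul] <;> omega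
    exact_mod_cast this
  · refine (xG4_prod _ (TT C0 Y) 6 (fun a ha => (mem_product.1 (mem_filter.1 (mem_filter.1 ha).1).1).2)
      fun y hy S hS => ?_).trans (mul_le_mul_of_nonneg_right (card_TT C0 Y) (by norm_num))
    have hS' : ∀ x ∈ S, x ∈ TT C0 Y ∧ (f4 i (x, y)).natAbs = n := fun x hx =>
      ⟨(mem_product.1 (mem_filter.1 (mem_filter.1 (hS x hx)).1).1).1, (mem_filter.1 (hS x hx)).2⟩
    obtain ⟨⟨-, -, -, hc⟩, p1, -, q1, -⟩ := mem_TT hy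
    have hc' : IsCoprime (y.1 : ℤ) (y.2 : ℤ) := Nat.isCoprime_iff_coprime.2 hc
    have p2 : (Y : ℤ) ≤ 2 * |(y.1 : ℤ)| := by
      rw [Nat.abs_cast]
      exact_mod_cast p1
    have q2 : (Y : ℤ) ≤ 2 * |(y.2 : ℤ)| := by
      rw [Nat.abs_cast]
      exact_mod_cast q1
    fin_cases i
    · refine xG4_line hY1 hc'.symm.neg_left p2 n S fun x hx => ⟨(hS' x hx).1, ?_⟩
      rw [← (hS' x hx).2]
      exact congrArg _ (show _ = (x.2 : ℤ) * y.1 - x.1 * y.2 by ring)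
    · refine xG4_line hY1 hc'.symm p2 n S fun x hx => ⟨(hS' x hx).1, ?_⟩
      rw [← (hS' x hx).2]
      exact congrArg _ (show _ = (x.2 : ℤ) * y.1 + x.1 * y.2 by ring)
    · refine xG4_line hY1 hc'.neg_right (by rwa [abs_neg]) n S fun x hx => ⟨(hS' x hx).1, ?_⟩
      rw [← (hS' x hx).2]
      exact congrArg _ (show _ = (x.1 : ℤ) * y.1 - x.2 * y.2 by ring)
    · refine xG4_line hY1 hc' q2 n S fun x hx => ⟨(hS' x hx).1, ?_⟩
      rw [← (hS' x hx).2]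
      exact congrArg _ (show _ = (x.1 : ℤ) * y.1 + x.2 * y.2 by ring)
  · have h3 : (1 : ℝ) ≤ X := by nlinarith
    nlinarith

theorem xG4_diam (S : Finset ℕ) {L : ℝ} (hL : 0 ≤ L) (h : ∀ p ∈ S, ∀ q ∈ S, (p : ℝ) - q ≤ L) :
    (S.card : ℝ) ≤ L + 1 := by
  rcases S.eq_empty_or_nonempty with rfl | hS
  · rw [card_empty, Nat.cast_zero]
    linarith
  · have h1 : S ⊆ Icc (S.min' hS) (S.min' hS + ⌊L⌋₊) := fun p hp => by
      have h2 := S.min'_le p hp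
      have h3 : p - S.min' hS ≤ ⌊L⌋₊ := Nat.le_floor (by
        rw [Nat.cast_sub h2]
        exact h p hp _ (S.min'_mem hS))
      exact mem_Icc.2 ⟨h2, by omega⟩
    have h4 := card_le_card h1
    rw [Nat.card_Icc, show S.min' hS + ⌊L⌋₊ + 1 - S.min' hS = ⌊L⌋₊ + 1 by omega] at h4
    have h5 : (S.card : ℝ) ≤ ⌊L⌋₊ + 1 := by exact_mod_cast h4
    linarith [Nat.floor_le hL]

theorem xG4_strip {C0 : ℝ} {Y : ℕ} {V : ℝ} (hV : 1 ≤ V) (hY : V ≤ Y) {a c : ℝ}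
    (ha : (Y : ℝ) ≤ 2 * a) (S : Finset (ℕ × ℕ))
    (hS : ∀ τ ∈ S, τ ∈ TT C0 Y ∧ |τ.1 * a - τ.2 * c| < (Y : ℝ) ^ 2 / V) :
    (S.card : ℝ) ≤ 5 * (Y : ℝ) ^ 2 / V := by
  have hV0 : 0 < V := by linarith
  have hY0 : (0 : ℝ) < Y := by linarith
  refine (xG4_prod S (Icc 1 Y) (5 * Y / V) (fun τ hτ => ?_) fun q _ S' hS' => ?_).trans (le_of_eq ?_)
  · obtain ⟨-, h1, h2, h3, h4, h5, -⟩ := mem_TT (hS τ hτ).1
    exact mem_Icc.2 ⟨by omega, h4⟩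
  · refine (xG4_diam _ (L := 4 * Y / V) (by positivity) fun p hp p' hp' => ?_).trans ?_
    · have h1 := (abs_lt.1 (hS _ (hS' p hp)).2).2
      have h2 := (abs_lt.1 (hS _ (hS' p' hp')).2).1
      dsimp only at h1 h2
      by_contra h3
      push Not at h3
      have h4 : 0 < 4 * Y / V := by positivity
      have h5 : (Y : ℝ) ^ 2 / V * 4 = 4 * Y / V * Y := by ring
      nlinarith
    · have : 1 ≤ Y / V := (one_le_div hV0).2 hY
      rw [mul_div_assoc, mul_div_assoc]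
      linarith
  · rw [Nat.card_Icc, Nat.add_sub_cancel]
    ring

/-- Few pairs of parameters have a small determinant. -/
theorem card_bad4 {C0 : ℝ} {Y : ℕ} {V : ℝ} (hV : 1 ≤ V) (hY : V ≤ Y) :
    (((TT C0 Y ×ˢ TT C0 Y).filter fun b =>
      |((∏ i, f4 i b : ℤ) : ℝ)| < (Y : ℝ) ^ 8 / (4 * V ^ 2)).card : ℝ) ≤ 10 * (Y : ℝ) ^ 4 / V := by
  have hV0 : 0 < V := by linarith
  have hY0 : (0 : ℝ) < Y := by linarith
  have hs : ((TT C0 Y ×ˢ TT C0 Y).filter fun b =>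
      |((∏ i, f4 i b : ℤ) : ℝ)| < (Y : ℝ) ^ 8 / (4 * V ^ 2)) ⊆
      ((TT C0 Y ×ˢ TT C0 Y).filter fun b =>
        |(b.1.1 : ℝ) * b.2.2 - b.1.2 * b.2.1| < (Y : ℝ) ^ 2 / V) ∪
      ((TT C0 Y ×ˢ TT C0 Y).filter fun b =>
        |(b.1.1 : ℝ) * b.2.1 - b.1.2 * b.2.2| < (Y : ℝ) ^ 2 / V) := fun b hb => by
    obtain ⟨h1, h2⟩ := mem_filter.1 hb
    obtain ⟨a1, a2⟩ := mem_product.1 h1
    obtain ⟨-, p1, -, q1, -⟩ := mem_TT a1
    obtain ⟨-, p2, -, q2, -⟩ := mem_TT a2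
    rw [mem_union, mem_filter, mem_filter, ← and_or_left]
    refine ⟨h1, ?_⟩
    by_contra h3
    push Not at h3
    simp only [f4, Fin.prod_univ_four, Matrix.cons_val_zero, Matrix.cons_val_one,
      Matrix.cons_val] at h2
    push_cast at h2
    have P1 : (Y : ℝ) ≤ 2 * b.1.1 := by exact_mod_cast p1
    have Q1 : (Y : ℝ) ≤ 2 * b.1.2 := by exact_mod_cast q1
    have P2 : (Y : ℝ) ≤ 2 * b.2.1 := by exact_mod_cast p2
    have Q2 : (Y : ℝ) ≤ 2 * b.2.2 := by exact_mod_cast q2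
    generalize (b.1.1 : ℝ) = p at *
    generalize (b.1.2 : ℝ) = q at *
    generalize (b.2.1 : ℝ) = r at *
    generalize (b.2.2 : ℝ) = s at *
    have m1 := mul_le_mul Q1 P2 hY0.le (by linarith)
    have m2 := mul_le_mul P1 Q2 hY0.le (by linarith)
    have m3 := mul_le_mul P1 P2 hY0.le (by linarith)
    have m4 := mul_le_mul Q1 Q2 hY0.le (by linarith)
    have f1 : (Y : ℝ) ^ 2 / 2 ≤ |q * r + p * s| := le_trans (by linarith) (le_abs_self _)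
    have f3 : (Y : ℝ) ^ 2 / 2 ≤ |p * r + q * s| := le_trans (by linarith) (le_abs_self _)
    rw [abs_mul, abs_mul, abs_mul, abs_sub_comm (q * r)] at h2
    refine absurd h2 (not_lt.2 (le_trans (le_of_eq ?_) (mul_le_mul (mul_le_mul (mul_le_mul h3.1 f1
      (by positivity) (abs_nonneg _)) h3.2 (by positivity) (by positivity)) f3 (by positivity)
      (by positivity))))
    ring
  have h6 : _ ≤ (_ : ℝ) := Nat.cast_le.2 ((card_le_card hs).trans (card_union_le _ _))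
  rw [Nat.cast_add] at h6
  have k1 := xG4_prod ((TT C0 Y ×ˢ TT C0 Y).filter fun b =>
    |(b.1.1 : ℝ) * b.2.2 - b.1.2 * b.2.1| < (Y : ℝ) ^ 2 / V) (TT C0 Y) _
    (fun a ha => (mem_product.1 (mem_filter.1 ha).1).2) fun y hy S hS =>
      xG4_strip (a := y.2) (c := y.1) hV hY (by exact_mod_cast (mem_TT hy).2.2.2.1) S fun x hx =>
        ⟨(mem_product.1 (mem_filter.1 (hS x hx)).1).1, (mem_filter.1 (hS x hx)).2⟩
  have k2 := xG4_prod ((TT C0 Y ×ˢ TT C0 Y).filter fun b =>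
    |(b.1.1 : ℝ) * b.2.1 - b.1.2 * b.2.2| < (Y : ℝ) ^ 2 / V) (TT C0 Y) _
    (fun a ha => (mem_product.1 (mem_filter.1 ha).1).2) fun y hy S hS =>
      xG4_strip (a := y.1) (c := y.2) hV hY (by exact_mod_cast (mem_TT hy).2.1) S fun x hx =>
        ⟨(mem_product.1 (mem_filter.1 (hS x hx)).1).1, (mem_filter.1 (hS x hx)).2⟩
  have k3 := mul_le_mul_of_nonneg_right (card_TT C0 Y) (show 0 ≤ 5 * (Y : ℝ) ^ 2 / V by positivity)
  have k4 : 10 * (Y : ℝ) ^ 4 / V = 2 * ((Y : ℝ) ^ 2 * (5 * (Y : ℝ) ^ 2 / V)) := by ring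
  linarith

theorem xG4_spr {C0 : ℝ} {X Y : ℕ} (hX : 100 ≤ X) (hY1 : 1 ≤ Y) (hY : Y ^ 100 ≤ X)
    (sel : (ℕ × ℕ) × (ℕ × ℕ) → ℕ × ℕ) (hsel : ∀ b ∈ TT C0 Y ×ˢ TT C0 Y, sel b ∈ TT C0 Y)
    (i : Fin 4) : Spr ((TT C0 Y ×ˢ TT C0 Y) ×ˢ box X) (fun x => LL (sel x.1) x.2.1 x.2.2 i)
      (160 * (X : ℝ) ^ 2 * (Y : ℝ) ^ 4) ((X : ℝ) ^ 2) := by
  have hY' : (1 : ℝ) ≤ Y := by exact_mod_cast hY1
  have hX' : (100 : ℝ) ≤ X := by exact_mod_cast hX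
  have h40 : 40 * (Y : ℝ) ^ 4 ≤ X := by exact_mod_cast xG4_40 hX hY1 hY
  have h4 : (1 : ℝ) ≤ (Y : ℝ) ^ 4 := one_le_pow₀ hY'
  have hc : ((TT C0 Y ×ˢ TT C0 Y).card : ℝ) ≤ (Y : ℝ) ^ 4 := by
    rw [card_product, Nat.cast_mul, show (Y : ℝ) ^ 4 = Y ^ 2 * Y ^ 2 by ring]
    exact mul_le_mul (card_TT _ _) (card_TT _ _) (Nat.cast_nonneg _) (by positivity)
  have key : ∀ ρ N : ℝ, 1 ≤ N → 0 ≤ ρ → ρ * N ≤ 160 * (X : ℝ) ^ 2 → N ≤ (X : ℝ) ^ 2 →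
      (∀ τ ∈ TT C0 Y, Spread (box X) (fun z => LL τ z.1 z.2 i) ρ N) →
      Spr ((TT C0 Y ×ˢ TT C0 Y) ×ˢ box X) (fun x => LL (sel x.1) x.2.1 x.2.2 i)
        (160 * (X : ℝ) ^ 2 * (Y : ℝ) ^ 4) ((X : ℝ) ^ 2) := fun ρ N h1 h2 h3 h5 h6 => by
    have h7 := Spread.prod (s := box X) (TT C0 Y ×ˢ TT C0 Y)
      (fun x => LL (sel x.1) x.2.1 x.2.2 i) h1 h2 fun b hb => h6 (sel b) (hsel b hb)
    refine ⟨_, N, h7, ?_, h5⟩
    rw [mul_assoc, mul_comm]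
    exact mul_le_mul h3 hc (Nat.cast_nonneg _) (by positivity)
  have h5 := fun τ (hτ : τ ∈ TT C0 Y) => spread_LL hτ hY i
  clear hY hX
  fin_cases i
  · exact key (4 * X) (2 * X) (by linarith) (by linarith) (by nlinarith) (by nlinarith) h5
  · exact key (4 * X) (2 * X) (by linarith) (by linarith) (by nlinarith) (by nlinarith) h5
  · exact key (4 * X) (10 * X) (by linarith) (by linarith) (by nlinarith) (by nlinarith) h5
  · exact key (4 * X / (Y : ℝ) ^ 4) (40 * X * (Y : ℝ) ^ 4) (by nlinarith) (by positivity)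
      (le_of_eq (by field_simp; ring)) (by nlinarith) h5

/-- The trivial bound on a small set of points. -/
theorem triv_L4 : ∃ C : ℕ, ∀ (C0 : ℝ) (X Y : ℕ), 100 ≤ X → 1 ≤ Y → Y ^ 100 ≤ X →
    ∀ S ⊆ (TT C0 Y ×ˢ TT C0 Y) ×ˢ box X,
    ∑ x ∈ S, (∏ i, tau (LL x.1.1 x.2.1 x.2.2 i) ^ 3) * tau (LL x.1.2 x.2.1 x.2.2 3) ^ 3 ≤
      √(S.card) * X * (Y : ℝ) ^ 2 * Real.log X ^ C := by
  obtain ⟨C, hC⟩ := triv
  refine ⟨2 * C + 3, fun C0 X Y hX hY1 hY S hS => ?_⟩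
  have h := hC _ S ![fun x => LL x.1.1 x.2.1 x.2.2 0, fun x => LL x.1.1 x.2.1 x.2.2 1,
    fun x => LL x.1.1 x.2.1 x.2.2 2, fun x => LL x.1.1 x.2.1 x.2.2 3,
    fun x => LL x.1.2 x.2.1 x.2.2 3] (160 * (X : ℝ) ^ 2 * (Y : ℝ) ^ 4) ((X : ℝ) ^ 2) hS fun i => by
      fin_cases i
      · exact xG4_spr hX hY1 hY Prod.fst (fun b hb => (mem_product.1 hb).1) 0
      · exact xG4_spr hX hY1 hY Prod.fst (fun b hb => (mem_product.1 hb).1) 1
      · exact xG4_spr hX hY1 hY Prod.fst (fun b hb => (mem_product.1 hb).1) 2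
      · exact xG4_spr hX hY1 hY Prod.fst (fun b hb => (mem_product.1 hb).1) 3
      · exact xG4_spr hX hY1 hY Prod.snd (fun b hb => (mem_product.1 hb).2) 3
  refine le_trans (le_of_eq (sum_congr rfl fun x _ => ?_)) (h.trans ?_)
  · rw [Fin.prod_univ_four, Fin.prod_univ_five]
    rfl
  have hX' : (100 : ℝ) ≤ X := by exact_mod_cast hX
  have hL : 4 ≤ Real.log X := by
    rw [Real.le_log_iff_exp_le (by linarith)]
    have h1 := Real.exp_one_lt_d9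
    have h2 : Real.exp 4 = Real.exp 1 ^ 4 := by rw [← Real.exp_nat_mul]; norm_num
    have h3 : Real.exp 1 ^ 4 ≤ 3 ^ 4 := pow_le_pow_left₀ (Real.exp_pos 1).le (by linarith) 4
    linarith
  have h1 : √(S.card * (160 * (X : ℝ) ^ 2 * (Y : ℝ) ^ 4)) ≤ √(S.card) * (13 * X * (Y : ℝ) ^ 2) := by
    rw [Real.sqrt_mul (Nat.cast_nonneg _)]
    refine mul_le_mul_of_nonneg_left (Real.sqrt_le_iff.2 ⟨by positivity, ?_⟩) (Real.sqrt_nonneg _)
    have : 0 ≤ (X : ℝ) ^ 2 * (Y : ℝ) ^ 4 := by positivity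
    nlinarith
  have h2 : (1 + Real.log ((X : ℝ) ^ 2)) ^ C ≤ (Real.log X ^ 2) ^ C := by
    rw [Real.log_pow]
    push_cast
    exact pow_le_pow_left₀ (by linarith) (by nlinarith) C
  have h3 : 39 ≤ Real.log X ^ 3 := le_trans (by norm_num) (pow_le_pow_left₀ (by norm_num) hL 3)
  calc _ ≤ 3 * (√(S.card) * (13 * X * (Y : ℝ) ^ 2)) * (Real.log X ^ 2) ^ C := by
        refine mul_le_mul (by linarith) h2 (pow_nonneg ?_ _) (by positivity)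
        rw [Real.log_pow]
        push_cast
        linarith
    _ = √(S.card) * X * (Y : ℝ) ^ 2 * ((Real.log X ^ 2) ^ C * 39) := by ring
    _ ≤ _ := by
        rw [pow_add, pow_mul]
        gcongr

end Pool.Agent.MP_e23604_nt.P
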