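import Pool.Agent.MP_e23604_nt.P.Geo
import Pool.Agent.MP_e23604_nt.P.Bonf

/-!
The data of steps 1 and 2.
-/

open Finset
open scoped Classical

noncomputable section

namespace Pool.Agent.MP_e23604_nt.P

theorem xH2_mem {T : Finset (ℕ × ℕ)} {Z U W k : ℕ} {π : I2} : π ∈ P2 T Z U W k ↔
    π.1 ∈ T ∧ π.2 ∈ MF Z U π.1 ×ˢ (ES (Q3 W) k ×ˢ ES (Q4 W π.1) k) := by
  simp only [P2, mem_biUnion, mem_image]
  constructor
  · rintro ⟨τ, h, x, hx, rfl⟩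
    exact ⟨h, hx⟩
  · exact fun h => ⟨π.1, h.1, π.2, h.2, rfl⟩

theorem xH2_sum (T : Finset (ℕ × ℕ)) (Z U W k : ℕ) (f : I2 → ℝ) :
    ∑ π ∈ P2 T Z U W k, f π = ∑ τ ∈ T, ∑ m ∈ MF Z U τ, ∑ e ∈ ES (Q3 W) k,
      ∑ e' ∈ ES (Q4 W τ) k, f (τ, m, e, e') := by
  rw [sum_finset_product _ T (fun τ => MF Z U τ ×ˢ (ES (Q3 W) k ×ˢ ES (Q4 W τ) k))
    fun _ => xH2_mem]
  simp only [sum_product]

theorem xH2_exp (X : ℕ) (T : Finset (ℕ × ℕ)) (Z U W k : ℕ) (g0 g1 : ℤ → ℝ) :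
    SS X T (MF Z U) (fun τ => ![g0, g1, flat (Q3 W) k, flat (Q4 W τ) k]) =
      ∑ π ∈ P2 T Z U W k, ∑ z ∈ box X,
        F2 π z.1 z.2 * g0 (z.1 / (π.2.1 0 : ℤ)) * g1 (z.2 / (π.2.1 1 : ℤ)) := by
  rw [xH2_sum]
  refine sum_congr rfl fun τ _ => sum_congr rfl fun m _ => ?_
  simp only [sum_comm (t := box X)]
  refine sum_congr rfl fun z _ => ?_
  rw [Fin.prod_univ_four]
  change GG τ m z.1 z.2 * (g0 (z.1 / (m 0 : ℤ)) * g1 (z.2 / (m 1 : ℤ)) *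
    (∑ e ∈ ES (Q3 W) k, mu e (uu τ m z 2)) * ∑ e ∈ ES (Q4 W τ) k, mu e (uu τ m z 3)) = _
  rw [mul_assoc, sum_mul_sum]
  simp only [mul_sum, F2]
  exact sum_congr rfl fun e _ => sum_congr rfl fun e' _ => by ring

theorem exp2 (X : ℕ) (T : Finset (ℕ × ℕ)) (Z U W k : ℕ) (g0 g1 : ℤ → ℝ) :
    SS X T (MF Z U) (fun τ => ![g0, g1, flat (Q3 W) k, flat (Q4 W τ) k]) =
      ∑ π ∈ P2 T Z U W k, (dat2 X π).T g1 g0 := by
  rw [xH2_exp]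
  refine sum_congr rfl fun π _ => sum_congr rfl fun z _ => ?_
  simp only [Datum.l, Datum.l', dat2, zero_mul, one_mul, zero_add, add_zero]
  ring

theorem exp1 (X : ℕ) (T : Finset (ℕ × ℕ)) (Z U W k : ℕ) (g0 g1 : ℤ → ℝ) :
    SS X T (MF Z U) (fun τ => ![g0, g1, flat (Q3 W) k, flat (Q4 W τ) k]) =
      ∑ π ∈ P2 T Z U W k, (dat1 X π).T g0 g1 := by
  rw [xH2_exp]
  refine sum_congr rfl fun π _ => sum_congr rfl fun z _ => ?_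
  simp only [Datum.l, Datum.l', dat1, zero_mul, one_mul, zero_add, add_zero]

theorem xH2_F {π : I2} {a b : ℤ} (h : F2 π a b ≠ 0) : (π.2.1 0 : ℤ) ∣ a ∧ (π.2.1 1 : ℤ) ∣ b ∧
    ((π.2.1 2 * π.2.2.1 : ℕ) : ℤ) ∣ 4 * a + b ∧
    ((π.2.1 3 * π.2.2.2 : ℕ) : ℤ) ∣ 4 * kk π.1 ^ 2 * a + ss π.1 ^ 2 * b := by
  have h1 := (GG_cond (left_ne_zero_of_mul (left_ne_zero_of_mul h))).2.2
  have h2 := mu_dvd (right_ne_zero_of_mul (left_ne_zero_of_mul h))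
  have h3 := mu_dvd (right_ne_zero_of_mul h)
  push_cast
  exact ⟨(h1 0).1, (h1 1).1,
    (mul_dvd_mul_left _ h2).trans (Int.mul_ediv_cancel' (h1 2).1).dvd,
    (mul_dvd_mul_left _ h3).trans (Int.mul_ediv_cancel' (h1 3).1).dvd⟩

theorem xH2_bd (π : I2) (a b : ℤ) : |F2 π a b| ≤ 1 := by
  rw [F2, abs_mul, abs_mul]
  exact mul_le_one₀ (mul_le_one₀ (abs_GG_le ..) (abs_nonneg _) (abs_mu_le ..)) (abs_nonneg _)
    (abs_mu_le ..)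

theorem xH2_per (π : I2) (h : ∀ i, 1 ≤ π.2.1 i) :
    Per (16 * MM π.2.1 ^ 2 * (π.2.2.1 * π.2.2.2)) (F2 π) := by
  have h0 : ∀ i, π.2.1 i ∣ 16 * MM π.2.1 ^ 2 := fun i =>
    ((dvd_MM _ i).trans (dvd_pow_self _ two_ne_zero)).mul_left _
  have h1 := (GG_per π.1 π.2.1).of_dvd (dvd_mul_right _ (π.2.2.1 * π.2.2.2))
  have h2 := (mu_per π.1 π.2.1 π.2.2.1 2 (h 2)).of_dvd
    (mul_dvd_mul (h0 2) (dvd_mul_right _ π.2.2.2))
  have h3 := (mu_per π.1 π.2.1 π.2.2.2 3 (h 3)).of_dvd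
    (mul_dvd_mul (h0 3) (dvd_mul_left _ π.2.2.1))
  intro x y
  exact ⟨congrArg₂ (· * ·) (congrArg₂ (· * ·) (h1 x y).1 (h2 x y).1) (h3 x y).1,
    congrArg₂ (· * ·) (congrArg₂ (· * ·) (h1 x y).2 (h2 x y).2) (h3 x y).2⟩

theorem xH2_lcm {a b c : ℕ} {t : ℤ} (ha : (a : ℤ) ∣ t) (hb : (b : ℤ) ∣ t) (hc : (c : ℤ) ∣ t) :
    (Nat.lcm a (Nat.lcm b c) : ℤ) ∣ t := by
  rw [Int.natCast_dvd] at *
  exact Nat.lcm_dvd ha (Nat.lcm_dvd hb hc)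

/-- What is known on an index. -/
structure xH2_Ix (R : ℕ) (π : I2) : Prop where
  m : ∀ i, 1 ≤ π.2.1 i ∧ π.2.1 i ≤ R
  M : 1 ≤ MM π.2.1 ∧ MM π.2.1 ≤ R
  e : 1 ≤ π.2.2.1 ∧ π.2.2.1 ≤ R
  e' : 1 ≤ π.2.2.2 ∧ π.2.2.2 ≤ R
  c2 : IsCoprime ((π.2.1 2 * π.2.2.1 : ℕ) : ℤ) 4
  c3 : IsCoprime ((π.2.1 3 * π.2.2.2 : ℕ) : ℤ) (4 * kk π.1 ^ 2)
  c4 : IsCoprime ((π.2.1 3 * π.2.2.2 : ℕ) : ℤ) (ss π.1 ^ 2)

theorem xH2_ix {C0 : ℝ} {Y Z U W k R : ℕ} {π : I2} (h : π ∈ P2 (TT C0 Y) Z U W k) (hZ : Z ≤ R)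
    (hW : (W + 1) ^ (k + 1) ≤ R) : xH2_Ix R π := by
  obtain ⟨hτ, h1⟩ := xH2_mem.1 h
  simp only [mem_product] at h1
  obtain ⟨hm, he, he'⟩ := h1
  obtain ⟨hok, hM, -⟩ := mem_MS.1 hm
  obtain ⟨e1, e2, e3⟩ := ES_spec (erase_subset _ _) he
  obtain ⟨e1', e2', e3'⟩ := ES_spec (filter_subset _ _) he'
  have hk : (W + 1) ^ k ≤ R := (Nat.pow_le_pow_right W.succ_pos k.le_succ).trans hW
  have h2 : 2 ∣ nn π.1 := Dvd.dvd.trans (by norm_num) (mem_TT hτ).1.six_dvd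
  have h3 : IsCoprime ((π.2.1 3 * π.2.2.2 : ℕ) : ℤ) (nn π.1) := Nat.isCoprime_iff_coprime.2
    (Nat.Coprime.mul_left (hok.cop_n (by decide)) (e3' _ fun q hq => (mem_filter.1 hq).2))
  have h4 : IsCoprime ((π.2.1 2 * π.2.2.1 : ℕ) : ℤ) (2 : ℕ) := Nat.isCoprime_iff_coprime.2
    (Nat.Coprime.mul_left ((hok.cop_n (by decide)).coprime_dvd_right h2) (e3 _ fun q hq hd =>
      (mem_erase.1 hq).1 ((Nat.prime_dvd_prime_iff_eq (mem_filter.1 (mem_erase.1 hq).2).2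
        Nat.prime_two).1 hd)))
  exact ⟨fun i => ⟨(MS_le hm i).1, (MS_le hm i).2.trans hZ⟩,
    ⟨Nat.pos_of_ne_zero hok.1.ne_zero, hM.trans hZ⟩, ⟨e1, e2.trans hk⟩, ⟨e1', e2'.trans hk⟩,
    h4.pow_right (n := 2),
    ((h3.of_isCoprime_of_dvd_right (Int.natCast_dvd_natCast.2 h2)).pow_right (n := 2)).mul_right
      (h3.of_isCoprime_of_dvd_right (dvd_nn _).2.2).pow_right,
    (h3.of_isCoprime_of_dvd_right (dvd_nn _).2.1).pow_right⟩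

theorem xH2_Ix.t0 {R : ℕ} {π : I2} (h : xH2_Ix R π) (i : Fin 4) :
    1 ≤ Nat.lcm (π.2.1 i) (Nat.lcm (π.2.1 2 * π.2.2.1) (π.2.1 3 * π.2.2.2)) ∧
      Nat.lcm (π.2.1 i) (Nat.lcm (π.2.1 2 * π.2.2.1) (π.2.1 3 * π.2.2.2)) ≤ R ^ 5 := by
  have h2 := Nat.mul_pos (h.m 2).1 h.e.1
  have h3 := Nat.mul_pos (h.m 3).1 h.e'.1
  refine ⟨Nat.lcm_pos (h.m i).1 (Nat.lcm_pos h2 h3), (Nat.le_of_dvd
    (Nat.mul_pos (h.m i).1 (Nat.mul_pos h2 h3)) ((Nat.lcm_dvd_mul _ _).trans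
      (mul_dvd_mul_left _ (Nat.lcm_dvd_mul _ _)))).trans ?_⟩
  calc _ ≤ R * (R * R * (R * R)) := by
        gcongr
        exacts [(h.m i).2, (h.m 2).2, h.e.2, (h.m 3).2, h.e'.2]
    _ = _ := by ring

theorem xH2_Ix.K0 {R : ℕ} {π : I2} (h : xH2_Ix R π) :
    1 ≤ 16 * MM π.2.1 ^ 2 * (π.2.2.1 * π.2.2.2) :=
  Nat.mul_pos (Nat.mul_pos (by norm_num) (pow_pos h.M.1 2)) (Nat.mul_pos h.e.1 h.e'.1)

theorem xH2_Ix.sz {R X : ℕ} {π : I2} (h : xH2_Ix R π) (h2 : 2 ≤ R) (hX : R ^ 100 ≤ X)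
    (i j : Fin 4) : π.2.1 i ^ 10 ≤ X ∧ (16 * MM π.2.1 ^ 2 * (π.2.2.1 * π.2.2.2) * 1) ^ 5 ≤ X ∧
      Nat.lcm (π.2.1 j) (Nat.lcm (π.2.1 2 * π.2.2.1) (π.2.1 3 * π.2.2.2)) ≤ X ∧
      (Nat.lcm (π.2.1 j) (Nat.lcm (π.2.1 2 * π.2.2.1) (π.2.1 3 * π.2.2.2)) : ℝ) ≤ X := by
  have h0 : ∀ n ≤ 100, R ^ n ≤ X := fun n hn => (Nat.pow_le_pow_right (by omega) hn).trans hX
  have h1 := (h.t0 j).2.trans (h0 5 (by norm_num))
  refine ⟨(Nat.pow_le_pow_left (h.m i).2 10).trans (h0 10 (by norm_num)),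
    le_trans ?_ (h0 40 (by norm_num)), h1, Nat.cast_le.2 h1⟩
  calc _ ≤ (R ^ 4 * R ^ 2 * (R * R) * 1) ^ 5 := by
        gcongr
        exacts [Nat.pow_le_pow_left h2 4, h.M.2, h.e.2, h.e'.2]
    _ = _ := by ring

theorem xH2_t0 (π : I2) (j : Fin 4) {t : ℕ}
    (ht : Nat.lcm (π.2.1 j) (Nat.lcm (π.2.1 2 * π.2.2.1) (π.2.1 3 * π.2.2.2)) = t) :
    π.2.1 j ∣ t ∧ π.2.1 2 ∣ t ∧ π.2.1 3 ∣ t ∧ π.2.2.1 ∣ t ∧ π.2.2.2 ∣ t := by
  subst ht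
  have h2 := (Nat.dvd_lcm_left (π.2.1 2 * π.2.2.1) (π.2.1 3 * π.2.2.2)).trans
    (Nat.dvd_lcm_right (π.2.1 j) _)
  have h3 := (Nat.dvd_lcm_right (π.2.1 2 * π.2.2.1) (π.2.1 3 * π.2.2.2)).trans
    (Nat.dvd_lcm_right (π.2.1 j) _)
  exact ⟨Nat.dvd_lcm_left _ _, (dvd_mul_right _ _).trans h2, (dvd_mul_right _ _).trans h3,
    (dvd_mul_left _ _).trans h2, (dvd_mul_left _ _).trans h3⟩

theorem xH2_dv (π : I2) {m t : ℕ} (h : ∀ i, π.2.1 i ∣ m * t) (h2 : π.2.2.1 ∣ t)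
    (h3 : π.2.2.2 ∣ t) : ((16 * MM π.2.1 ^ 2 * (π.2.2.1 * π.2.2.2) * 1 : ℕ) : ℤ) ∣
      (2 * m * t * ∏ i, f2 i π.1) ^ 20 := by
  have h4 : MM π.2.1 ∣ (m * t) ^ 4 := by
    simpa [MM] using prod_dvd_prod_of_dvd (s := univ) _ _ fun i _ => h i
  have h5 := mul_dvd_mul (mul_dvd_mul_left 16 (pow_dvd_pow_of_dvd h4 2))
    (mul_dvd_mul (h2.mul_left m) (h3.mul_left m))
  rw [mul_one, show ∏ i, f2 i π.1 = 1 by simp [f2]]
  refine (Int.natCast_dvd_natCast.2 h5).trans ⟨2 ^ 16 * (m * t) ^ 10, ?_⟩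
  push_cast
  ring

theorem xH2_mult (i : Fin 4) (S : Finset I2) (b : ℕ × ℕ) (m t : ℕ)
    (h : ∀ π ∈ S, t ≠ 0 ∧ π.1 = b ∧ π.2.1 i = m ∧ (∀ j, j ≠ i → π.2.1 j ∣ t) ∧ π.2.2.1 ∣ t ∧
      π.2.2.2 ∣ t) : (S.card : ℝ) ≤ tau ((∏ i, f2 i b) * t) ^ 6 := by
  have h1 := card_le_card_of_injOn (s := S)
    (t := (Fintype.piFinset fun _ : Fin 4 => t.divisors) ×ˢ (t.divisors ×ˢ t.divisors))
    (fun π => (Function.update π.2.1 i 1, π.2.2)) (fun π hπ => by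
      obtain ⟨h0, -, -, h2, h3, h4⟩ := h π hπ
      simp only [coe_product, Set.mem_prod, mem_coe, Fintype.mem_piFinset, Nat.mem_divisors]
      refine ⟨fun j => ⟨?_, h0⟩, ⟨h3, h0⟩, h4, h0⟩
      rcases eq_or_ne j i with rfl | hj
      · simp
      · rw [Function.update_of_ne hj]
        exact h2 j hj) fun π hπ π' hπ' he => by
      obtain ⟨h2, h3⟩ := Prod.ext_iff.1 he
      refine Prod.ext ((h π hπ).2.1.trans (h π' hπ').2.1.symm) (Prod.ext (funext fun j => ?_) h3)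
      rcases eq_or_ne j i with rfl | hj
      · exact (h π hπ).2.2.1.trans (h π' hπ').2.2.1.symm
      · simpa [Function.update_of_ne hj] using congrFun h2 j
  simp only [card_product, Fintype.card_piFinset, prod_const, card_univ, Fintype.card_fin] at h1
  rw [show ∏ i, f2 i b = 1 by simp [f2], one_mul, tau, Int.natAbs_natCast]
  exact_mod_cast h1.trans_eq (by ring)

theorem xH2_rng {X : ℕ} {a : ℤ} (h : (X : ℤ) < a ∧ a ≤ 2 * X) : 0 < a ∧ (a : ℝ) ≤ 2 * X :=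
  ⟨by omega, by exact_mod_cast h.2⟩

theorem xH2_len {X : ℕ} {t : ℤ} (h : -(X : ℤ) ≤ t ∧ t ≤ X) : |(t : ℝ)| ≤ X := by
  exact_mod_cast abs_le.2 h

theorem xH2_Ix.ok2 {R : ℕ} {π : I2} (h : xH2_Ix R π) (X : ℕ) : (dat2 X π).OK (2 * X) X where
  cop := isCoprime_one_right
  det := by simp [Datum.det, dat2]
  m_pos := (h.m 1).1
  m'_pos := (h.m 0).1
  K0_pos := h.K0
  t0_pos := (h.t0 0).1
  bd := xH2_bd π
  per := xH2_per π fun i => (h.m i).1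
  dvd x y hF := by simpa [Datum.l, Datum.l', dat2] using ⟨(xH2_F hF).2.1, (xH2_F hF).1⟩
  sparse x y t hF hF' := by
    obtain ⟨a0, -, a2, a3⟩ := xH2_F hF
    obtain ⟨b0, -, b2, b3⟩ := xH2_F hF'
    refine xH2_lcm ?_ (h.c2.dvd_of_dvd_mul_left ?_) (h.c3.dvd_of_dvd_mul_left ?_)
    · exact (dvd_sub b0 a0).trans (dvd_of_eq (by simp only [dat2]; ring))
    · exact (dvd_sub b2 a2).trans (dvd_of_eq (by simp only [dat2]; ring))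
    · exact (dvd_sub b3 a3).trans (dvd_of_eq (by simp only [dat2]; ring))
  rng z hz := by
    obtain ⟨h1, h2⟩ := mem_box.1 hz
    simpa [Datum.l, Datum.l', dat2, and_assoc] using And.intro (xH2_rng h2) (xH2_rng h1)
  len z hz t ht := by
    have h1 := (mem_box.1 hz).1
    have h2 := (mem_box.1 ht).1
    simp only [dat2] at h2
    exact xH2_len (by omega)

theorem xH2_Ix.ok1 {R : ℕ} {π : I2} (h : xH2_Ix R π) (X : ℕ) : (dat1 X π).OK (2 * X) X where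
  cop := isCoprime_one_left
  det := by simp [Datum.det, dat1]
  m_pos := (h.m 0).1
  m'_pos := (h.m 1).1
  K0_pos := h.K0
  t0_pos := (h.t0 1).1
  bd := xH2_bd π
  per := xH2_per π fun i => (h.m i).1
  dvd x y hF := by simpa [Datum.l, Datum.l', dat1] using ⟨(xH2_F hF).1, (xH2_F hF).2.1⟩
  sparse x y t hF hF' := by
    obtain ⟨-, a1, a2, a3⟩ := xH2_F hF
    obtain ⟨-, b1, b2, b3⟩ := xH2_F hF'
    refine xH2_lcm ?_ ?_ (h.c4.dvd_of_dvd_mul_left ?_)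
    · exact (dvd_sub a1 b1).trans (dvd_of_eq (by simp only [dat1]; ring))
    · exact (dvd_sub a2 b2).trans (dvd_of_eq (by simp only [dat1]; ring))
    · exact (dvd_sub a3 b3).trans (dvd_of_eq (by simp only [dat1]; ring))
  rng z hz := by
    obtain ⟨h1, h2⟩ := mem_box.1 hz
    simpa [Datum.l, Datum.l', dat1, and_assoc] using And.intro (xH2_rng h1) (xH2_rng h2)
  len z hz t ht := by
    have h1 := (mem_box.1 hz).2
    have h2 := (mem_box.1 ht).2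
    simp only [dat1] at h2
    exact xH2_len (by omega)

theorem hyp2 : ∃ X1 : ℕ, ∀ X ≥ X1, ∀ (Y Z U W k : ℕ) (C0 : ℝ), Reg 0 X Y Z U →
    ((W + 1) ^ (k + 1)) ^ 100 ≤ X →
    CoreHyp X (P2 (TT C0 Y) Z U W k) (TT C0 Y) (dat2 X) Prod.fst f2 ((Y : ℝ) ^ 2) (2 * X) X ∧
    CoreHyp X (P2 (TT C0 Y) Z U W k) (TT C0 Y) (dat1 X) Prod.fst f2 ((Y : ℝ) ^ 2) (2 * X) X :=
  by
  refine ⟨2 ^ 100, fun X hX Y Z U W k C0 hR hW => ?_⟩
  obtain ⟨R, h2, hZ, hE, hRX⟩ : ∃ R : ℕ, 2 ≤ R ∧ Z ≤ R ∧ (W + 1) ^ (k + 1) ≤ R ∧ R ^ 100 ≤ X := by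
    refine ⟨max 2 (max Z ((W + 1) ^ (k + 1))), le_max_left _ _,
      (le_max_left _ _).trans (le_max_right _ _), (le_max_right _ _).trans (le_max_right _ _), ?_⟩
    exact max_rec' (fun R => R ^ 100 ≤ X) hX (max_rec' (fun R => R ^ 100 ≤ X) hR.hZ hW)
  have hX2 : (2 : ℝ) ≤ X := by exact_mod_cast le_trans (by norm_num) hX
  have hs : ∀ i, Spr (TT C0 Y) (f2 i) ((Y : ℝ) ^ 2) ((X : ℝ) ^ 2) := fun i =>
    ⟨_, 1, ⟨le_rfl, fun x _ => by simp [f2], fun n =>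
      (Nat.cast_le.2 (card_filter_le _ _)).trans (card_TT C0 Y)⟩, (mul_one _).le, by nlinarith⟩
  have hi : ∀ π ∈ P2 (TT C0 Y) Z U W k, xH2_Ix R π := fun π hπ => xH2_ix hπ hZ hE
  refine ⟨⟨by linarith, by nlinarith, by linarith, hs, fun π hπ => (hi π hπ).ok2 X,
    fun π hπ => (xH2_mem.1 hπ).1, fun π hπ => (hi π hπ).sz h2 hRX 1 0, fun π _ => ?_,
    fun b m t => xH2_mult 1 _ b m t fun π hπ => ?_⟩,
    ⟨by linarith, by nlinarith, by linarith, hs, fun π hπ => (hi π hπ).ok1 X,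
    fun π hπ => (xH2_mem.1 hπ).1, fun π hπ => (hi π hπ).sz h2 hRX 0 1, fun π _ => ?_,
    fun b m t => xH2_mult 0 _ b m t fun π hπ => ?_⟩⟩
  · obtain ⟨a0, a2, a3, a4, a5⟩ := xH2_t0 π 0 rfl
    refine xH2_dv π (fun i => ?_) a4 a5
    fin_cases i
    exacts [a0.mul_left _, dvd_mul_right _ _, a2.mul_left _, a3.mul_left _]
  · obtain ⟨h0, hb, hm, ht⟩ := (@mem_filter _ _ (_) _ _).1 hπ
    obtain ⟨a0, a2, a3, a4, a5⟩ := xH2_t0 π 0 ht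
    refine ⟨ht ▸ Nat.ne_of_gt ((hi π h0).t0 0).1, hb, hm, fun i hi => ?_, a4, a5⟩
    fin_cases i
    exacts [a0, absurd rfl hi, a2, a3]
  · obtain ⟨a0, a2, a3, a4, a5⟩ := xH2_t0 π 1 rfl
    refine xH2_dv π (fun i => ?_) a4 a5
    fin_cases i
    exacts [dvd_mul_right _ _, a0.mul_left _, a2.mul_left _, a3.mul_left _]
  · obtain ⟨h0, hb, hm, ht⟩ := (@mem_filter _ _ (_) _ _).1 hπ
    obtain ⟨a0, a2, a3, a4, a5⟩ := xH2_t0 π 1 ht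
    refine ⟨ht ▸ Nat.ne_of_gt ((hi π h0).t0 1).1, hb, hm, fun i hi => ?_, a4, a5⟩
    fin_cases i
    exacts [absurd rfl hi, a0, a2, a3]

theorem xH2_pt {τ : ℕ × ℕ} {z : ℤ × ℤ} (h : ∀ i, LL τ z.1 z.2 i ≠ 0) (M : Finset (Fin 4 → ℕ))
    (E E' : Finset ℕ) : ∑ m ∈ M, ∑ e ∈ E, ∑ e' ∈ E', |F2 (τ, m, e, e') z.1 z.2| ≤
      ∏ i, tau (LL τ z.1 z.2 i) ^ 3 := by
  have h1 : ∀ m, ∑ e ∈ E, ∑ e' ∈ E', |F2 (τ, m, e, e') z.1 z.2| ≤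
      |GG τ m z.1 z.2| * (tau (LL τ z.1 z.2 2) * tau (LL τ z.1 z.2 3)) := by
    intro m
    simp only [F2, abs_mul, mul_assoc, ← mul_sum, ← sum_mul]
    by_cases hG : GG τ m z.1 z.2 = 0
    · simp [hG]
    have h2 : ∀ i (E : Finset ℕ), ∑ e ∈ E, |mu e (uu τ m z i)| ≤ tau (LL τ z.1 z.2 i) := by
      intro i E
      have h3 : uu τ m z i ∣ LL τ z.1 z.2 i := Int.ediv_dvd_of_dvd ((GG_cond hG).2.2 i).1
      exact (sum_mu_le (ne_zero_of_dvd_ne_zero (h i) h3) E).trans (tau_le_of_dvd h3 (h i))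
    exact mul_le_mul_of_nonneg_left (mul_le_mul (h2 2 E) (h2 3 E')
      (sum_nonneg fun _ _ => abs_nonneg _) (tau_nonneg _)) (abs_nonneg _)
  refine (sum_le_sum fun m _ => h1 m).trans ?_
  have h2 := fun i => one_le_tau (h i)
  have h3 : tau (LL τ z.1 z.2 2) * tau (LL τ z.1 z.2 3) ≤ ∏ i, tau (LL τ z.1 z.2 i) := by
    rw [Fin.prod_univ_four, mul_assoc]
    exact le_mul_of_one_le_left (mul_nonneg (tau_nonneg _) (tau_nonneg _))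
      (one_le_mul_of_one_le_of_one_le (h2 0) (h2 1))
  have h4 : 1 ≤ ∏ i, tau (LL τ z.1 z.2 i) :=
    (one_le_mul_of_one_le_of_one_le (h2 2) (h2 3)).trans h3
  rw [← sum_mul, prod_pow]
  refine (mul_le_mul (sum_GG_le h M) h3 (mul_nonneg (tau_nonneg _) (tau_nonneg _))
    (zero_le_one.trans h4)).trans ?_
  rw [← pow_two]
  exact pow_le_pow_right₀ h4 (by norm_num)

theorem xH2_triv : ∃ C : ℕ, ∀ (X Y Z U W k H : ℕ) (C0 : ℝ), 100 ≤ X → Reg 0 X Y Z U → 1 ≤ H →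
    H ≤ X → ∀ (d : Datum) (η1 η2 : ℝ), d.A1 = X → d.A2 = 2 * X → d.B1 = X → d.B2 = 2 * X →
      0 ≤ η1 → 0 ≤ η2 → η1 + η2 = 2 * X / H →
      ∑ π ∈ P2 (TT C0 Y) Z U W k, ∑ z ∈ d.near η1 η2, |F2 π z.1 z.2| ≤
        (X : ℝ) ^ 2 * (Y : ℝ) ^ 2 * Real.log X ^ C / √H := by
  obtain ⟨C, hC⟩ := triv_LL
  refine ⟨C + 1, fun X Y Z U W k H C0 hX hR hH hHX d η1 η2 a1 a2 b1 b2 h1 h2 h3 => ?_⟩
  have hX' : (100 : ℝ) ≤ X := by exact_mod_cast hX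
  have hH' : (0 : ℝ) < H := by exact_mod_cast hH
  have hsub : d.near η1 η2 ⊆ box X := (filter_subset _ _).trans (by
    rw [Datum.bx, a1, a2, b1, b2, box])
  have hc : ((d.near η1 η2).card : ℝ) ≤ 9 * X ^ 2 / H := by
    refine (card_near d (S1 := X) (S2 := X) h1 h2 (by linarith) (by linarith)
      (by rw [a1, a2]; push_cast; linarith) (by rw [b1, b2]; push_cast; linarith)).trans ?_
    have h4 : (1 : ℝ) ≤ X / H := (one_le_div hH').2 (by exact_mod_cast hHX)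
    rw [mul_div_assoc] at h3
    rw [pow_two, mul_div_assoc, mul_div_assoc]
    have h5 : 2 * (η1 + 1) * X + 2 * (η2 + 1) * X = 2 * X * (2 * (X / H) + 2) := by
      rw [← h3]
      ring
    rw [h5]
    nlinarith
  have hL : 3 ≤ Real.log X := by
    have h4 := Real.log_le_log (by norm_num) (show (2 : ℝ) ^ 6 ≤ X by linarith)
    rw [Real.log_pow] at h4
    have h5 := Real.log_two_gt_d9
    push_cast at h4
    linarith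
  have hs : √((TT C0 Y ×ˢ d.near η1 η2).card : ℝ) ≤ 3 * X * Y / √H := by
    refine Real.sqrt_le_iff.2 ⟨by positivity, ?_⟩
    rw [card_product, Nat.cast_mul, div_pow, Real.sq_sqrt hH'.le]
    refine (mul_le_mul (card_TT C0 Y) hc (Nat.cast_nonneg _) (by positivity)).trans_eq ?_
    ring
  calc _ ≤ ∑ x ∈ TT C0 Y ×ˢ d.near η1 η2, ∏ i, tau (LL x.1 x.2.1 x.2.2 i) ^ 3 := by
        rw [xH2_sum, sum_product]
        refine sum_le_sum fun τ hτ => ?_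
        simp only [sum_comm (t := d.near η1 η2)]
        refine sum_le_sum fun z hz => xH2_pt (fun i => ?_) _ _ _
        have := LL_gt (mem_TT hτ).1 (hsub hz) i
        omega
    _ ≤ _ := hC C0 X Y hX hR.one_le.1 hR.hY' _ (product_subset_product_right hsub)
    _ ≤ 3 * X * Y / √H * X * Y * Real.log X ^ C := by gcongr
    _ = X ^ 2 * Y ^ 2 * (Real.log X ^ C * 3) / √H := by ring
    _ ≤ _ := by
        rw [pow_succ (Real.log X)]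
        gcongr

theorem triv2 : ∃ C : ℕ, ∀ (X Y Z U W k H : ℕ) (C0 : ℝ), 100 ≤ X → Reg 0 X Y Z U → 1 ≤ H → H ≤ X →
    ∑ π ∈ P2 (TT C0 Y) Z U W k, (dat2 X π).mass ((dat2 X π).nr (2 * X) H) ≤
      (X : ℝ) ^ 2 * (Y : ℝ) ^ 2 * Real.log X ^ C / √H ∧
    ∑ π ∈ P2 (TT C0 Y) Z U W k, (dat1 X π).mass ((dat1 X π).nr (2 * X) H) ≤
      (X : ℝ) ^ 2 * (Y : ℝ) ^ 2 * Real.log X ^ C / √H := by
  obtain ⟨C, hC⟩ := xH2_triv
  refine ⟨C, fun X Y Z U W k H C0 hX hR hH hHX => ⟨?_, ?_⟩⟩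
  · refine le_of_eq_of_le (sum_congr rfl fun π _ => ?_) (hC X Y Z U W k H C0 hX hR hH hHX
      (dat2 X default) 0 (2 * X / H) rfl rfl rfl rfl le_rfl (by positivity) (zero_add _))
    simp [Datum.mass, Datum.nr, Datum.near, Datum.bx, Datum.det, dat2]
  · refine le_of_eq_of_le (sum_congr rfl fun π _ => ?_) (hC X Y Z U W k H C0 hX hR hH hHX
      (dat1 X default) (2 * X / H) 0 rfl rfl rfl rfl (by positivity) le_rfl (add_zero _))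
    simp [Datum.mass, Datum.nr, Datum.near, Datum.bx, Datum.det, dat1]

end Pool.Agent.MP_e23604_nt.P
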