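import Pool.Agent.MP_e23604_nt.P.G3
import Pool.Agent.MP_e23604_nt.P.Bonf

/-!
The data of step 3.
-/

open Finset
open scoped Classical

noncomputable section

namespace Pool.Agent.MP_e23604_nt.P

theorem mem_P3 {T : Finset (ℕ × ℕ)} {Z U M W k : ℕ} {π : I3} : π ∈ P3 T Z U M W k ↔
    π.1 ∈ T ∧ π.2.1.1 ∈ MB Z U M π.1 ∧ π.2.2.1 ∈ MB Z U M π.1 ∧ π.2.1.2 ∈ ES (Q4 W π.1) k ∧
      π.2.2.2 ∈ ES (Q4 W π.1) k ∧ π.2.1.1 1 = π.2.2.1 1 := by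
  obtain ⟨τ, x⟩ := π
  simp only [P3, mem_biUnion, mem_image, mem_filter, mem_product, Prod.mk.injEq]
  constructor
  · rintro ⟨a, ha, y, ⟨⟨⟨h1, h2⟩, h3, h4⟩, h5⟩, rfl, rfl⟩
    exact ⟨ha, h1, h3, h2, h4, h5⟩
  · rintro ⟨ha, h1, h3, h2, h4, h5⟩
    exact ⟨τ, ha, x, ⟨⟨⟨h1, h2⟩, h3, h4⟩, h5⟩, rfl, rfl⟩

/-- The facts on one half of an index. -/
structure xH3_Hf (τ : ℕ × ℕ) (R M : ℕ) (x : (Fin 4 → ℕ) × ℕ) : Prop where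
  pos : ∀ i, 1 ≤ x.1 i
  le : ∀ i, x.1 i ≤ R
  mm : MM x.1 ≤ R
  epos : 1 ≤ x.2
  ele : x.2 ≤ R
  lo : M ≤ x.1 0
  c1 : IsCoprime (x.1 1 : ℤ) (4 * x.1 0)
  c2 : IsCoprime (x.1 2 : ℤ) 4
  c3 : IsCoprime ((x.1 3 * x.2 : ℕ) : ℤ) (4 * rr τ ^ 2)

theorem xH3_hf {τ : ℕ × ℕ} {R Z U M W k : ℕ} {x : (Fin 4 → ℕ) × ℕ} (hτ : Adm τ)
    (h1 : x.1 ∈ MB Z U M τ) (h2 : x.2 ∈ ES (Q4 W τ) k) (hZ : Z ≤ R) (hE : (W + 1) ^ (k + 1) ≤ R) :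
    xH3_Hf τ R M x := by
  obtain ⟨h3, h4, -⟩ := mem_filter.1 h1
  obtain ⟨h5, h6, -⟩ := mem_MS.1 h3
  obtain ⟨e1, e2, e3⟩ := ES_spec (W := W) (filter_subset _ _) h2
  have e4 := e3 (nn τ) fun q hq => (mem_filter.1 hq).2
  have n2 : (2 : ℤ) ∣ nn τ := by
    have : 2 ∣ nn τ := Dvd.dvd.trans (by norm_num) hτ.six_dvd
    exact_mod_cast this
  have k4 : ∀ a : ℕ, a.Coprime (nn τ) → IsCoprime (a : ℤ) 4 := fun a ha => by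
    have := ((Nat.isCoprime_iff_coprime.2 ha).of_isCoprime_of_dvd_right n2).pow_right (n := 2)
    norm_num at this
    exact this
  have e5 : (x.1 3 * x.2).Coprime (nn τ) := Nat.Coprime.mul_left (h5.cop_n (by decide)) e4
  exact ⟨fun i => (MS_le h3 i).1, fun i => (MS_le h3 i).2.trans hZ, h6.trans hZ, e1,
    e2.trans ((Nat.pow_le_pow_right (by omega) (by omega)).trans hE), h4,
    (k4 _ (h5.cop_n (by decide))).mul_right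
      (Nat.isCoprime_iff_coprime.2 (MM_cop h5.1 (by decide))),
    k4 _ (h5.cop_n (by decide)),
    (k4 _ e5).mul_right
      ((Nat.isCoprime_iff_coprime.2 e5).of_isCoprime_of_dvd_right (dvd_nn τ).1).pow_right⟩

theorem xH3_F3 {τ : ℕ × ℕ} {x : (Fin 4 → ℕ) × ℕ} {n b : ℤ} (h : F3 τ x n b ≠ 0) :
    (x.1 1 : ℤ) ∣ b ∧ (x.1 2 : ℤ) ∣ 4 * (x.1 0 * n) + b ∧
      ((x.1 3 * x.2 : ℕ) : ℤ) ∣ 4 * kk τ ^ 2 * (x.1 0 * n) + ss τ ^ 2 * b := by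
  obtain ⟨h1, h2⟩ := mul_ne_zero_iff.1 h
  have h3 := (GG_cond h1).2.2
  refine ⟨(h3 1).1, (h3 2).1, ?_⟩
  have h4 := mul_dvd_mul_left (x.1 3 : ℤ) (mu_dvd h2)
  rw [uu, Int.mul_ediv_cancel' (h3 3).1] at h4
  rw [Nat.cast_mul]
  exact h4

theorem xH3_per (τ : ℕ × ℕ) (x : (Fin 4 → ℕ) × ℕ) (h : 1 ≤ x.1 3) {K : ℕ}
    (hK : 16 * MM x.1 ^ 2 * x.2 ∣ K) : Per K (F3 τ x) := by
  have h1 := (GG_per τ x.1).of_dvd ((dvd_mul_right _ _).trans hK)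
  have h2 := (mu_per τ x.1 x.2 3 h).of_dvd (Dvd.dvd.trans (mul_dvd_mul_right
    (((dvd_MM x.1 3).trans (dvd_pow_self _ two_ne_zero)).mul_left 16) _) hK)
  intro n b
  have h3 := h1.mul (x.1 0 * n) b (x.1 0) 0
  have h4 := h2.mul (x.1 0 * n) b (x.1 0) 0
  simp only [mul_zero, add_zero] at h3 h4
  constructor
  · unfold F3
    rw [mul_add, mul_comm (x.1 0 : ℤ) K, h3, h4]
  · unfold F3
    rw [(h1 _ _).2]
    exact congrArg _ (h2 _ _).2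

theorem xH3_bd (τ : ℕ × ℕ) (x : (Fin 4 → ℕ) × ℕ) (n b : ℤ) : |F3 τ x n b| ≤ 1 := by
  unfold F3
  rw [abs_mul]
  exact mul_le_one₀ (abs_GG_le _ _ _ _) (abs_nonneg _) (abs_mu_le _ _)

theorem xH3_G (π : I3) : ∏ i, f3 i (bs3 π) = (π.2.1.1 0 : ℤ) * π.2.2.1 0 *
    ((π.2.1.1 0 : ℤ) - π.2.2.1 0) * (kk π.1 ^ 2 * π.2.2.1 0 - ss π.1 ^ 2 * π.2.1.1 0) := by
  rw [Fin.prod_univ_four]
  rfl

theorem xH3_lcm {a b c d : ℕ} {t : ℤ} (ha : (a : ℤ) ∣ t) (hb : (b : ℤ) ∣ t) (hc : (c : ℤ) ∣ t)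
    (hd : (d : ℤ) ∣ t) : ((Nat.lcm (Nat.lcm a b) (Nat.lcm c d) : ℕ) : ℤ) ∣ t := by
  rw [Int.natCast_dvd] at *
  exact Nat.lcm_dvd (Nat.lcm_dvd ha hb) (Nat.lcm_dvd hc hd)

theorem xH3_bx {X : ℕ} {π : I3} {z : ℤ × ℤ} (h : z ∈ (dat3 X π).bx) (h1 : 1 ≤ π.2.1.1 0)
    (h2 : 1 ≤ π.2.2.1 0) : 0 < z.1 ∧ π.2.1.1 0 * z.1 ≤ 2 * X ∧ π.2.2.1 0 * z.1 ≤ 2 * X ∧
      (X : ℤ) < z.2 ∧ z.2 ≤ 2 * X := by
  obtain ⟨h3, h4⟩ := mem_product.1 h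
  obtain ⟨h5, h6⟩ := mem_Ioc.1 h3
  obtain ⟨h7, h8⟩ := mem_Ioc.1 h4
  have a1 : (X : ℤ) / π.2.1.1 0 < z.1 := (le_max_left _ _).trans_lt h5
  have a2 : z.1 ≤ 2 * (X : ℤ) / π.2.1.1 0 := h6.trans (min_le_left _ _)
  have a3 : z.1 ≤ 2 * (X : ℤ) / π.2.2.1 0 := h6.trans (min_le_right _ _)
  refine ⟨(Int.ediv_nonneg (Int.natCast_nonneg _) (Int.natCast_nonneg _)).trans_lt a1, ?_, ?_,
    h7, h8⟩
  · rw [mul_comm]
    exact (Int.le_ediv_iff_mul_le (by exact_mod_cast h1)).1 a2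
  · rw [mul_comm]
    exact (Int.le_ediv_iff_mul_le (by exact_mod_cast h2)).1 a3

theorem xH3_ok {X R M : ℕ} {π : I3} (h : xH3_Hf π.1 R M π.2.1) (h' : xH3_Hf π.1 R M π.2.2)
    (hM : 1 ≤ M) (hG : ∀ i, f3 i (bs3 π) ≠ 0) : (dat3 X π).OK (10 * X) (X / (4 * M)) := by
  have p3 : 1 ≤ π.2.1.1 3 * π.2.1.2 := Nat.mul_pos (h.pos 3) h.epos
  have p3' : 1 ≤ π.2.2.1 3 * π.2.2.2 := Nat.mul_pos (h'.pos 3) h'.epos
  refine ⟨isCoprime_one_right, ?_, h.pos 2, h'.pos 2, ?_, ?_, fun x y => ?_, ?_, fun x y hF => ?_,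
    fun x y t hF hF' => ?_, fun z hz => ?_, fun z hz t hz' => ?_⟩
  · have h1 : (π.2.1.1 0 : ℤ) - π.2.2.1 0 ≠ 0 := hG 2
    change 4 * (π.2.1.1 0 : ℤ) * 1 - 4 * (π.2.2.1 0 : ℤ) * 1 ≠ 0
    omega
  · have h1 : 0 < MM π.2.1.1 := prod_pos fun i _ => h.pos i
    have h2 : 0 < MM π.2.2.1 := prod_pos fun i _ => h'.pos i
    exact Nat.mul_pos (Nat.mul_pos (by norm_num) (pow_pos (Nat.mul_pos h1 h2) 2))
      (Nat.mul_pos h.epos h'.epos)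
  · exact Nat.lcm_pos (Nat.lcm_pos (h.pos 1) (red_le _ (h'.pos 2)).1)
      (Nat.lcm_pos (red_le _ p3).1 (red_le _ p3').1)
  · change |F3 _ _ _ _ * F3 _ _ _ _| ≤ 1
    rw [abs_mul]
    exact mul_le_one₀ (xH3_bd _ _ _ _) (abs_nonneg _) (xH3_bd _ _ _ _)
  · have h1 := xH3_per π.1 π.2.1 (h.pos 3) (K := (dat3 X π).K0)
      ⟨MM π.2.2.1 ^ 2 * π.2.2.2, by simp only [dat3]; ring⟩
    have h2 := xH3_per π.1 π.2.2 (h'.pos 3) (K := (dat3 X π).K0)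
      ⟨MM π.2.1.1 ^ 2 * π.2.1.2, by simp only [dat3]; ring⟩
    intro x y
    exact ⟨congrArg₂ (· * ·) (h1 x y).1 (h2 x y).1, congrArg₂ (· * ·) (h1 x y).2 (h2 x y).2⟩
  · obtain ⟨h1, h2⟩ := mul_ne_zero_iff.1 hF
    have h3 := (xH3_F3 h1).2.1
    have h4 := (xH3_F3 h2).2.1
    have e1 : (dat3 X π).l (x, y) = 4 * ((π.2.1.1 0 : ℤ) * x) + y := by
      simp only [dat3, Datum.l]
      ring
    have e2 : (dat3 X π).l' (x, y) = 4 * ((π.2.2.1 0 : ℤ) * x) + y := by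
      simp only [dat3, Datum.l']
      ring
    rw [e1, e2]
    exact ⟨h3, h4⟩
  · obtain ⟨h1, h2⟩ := mul_ne_zero_iff.1 hF
    obtain ⟨h3, h4⟩ := mul_ne_zero_iff.1 hF'
    obtain ⟨a1, -, a3⟩ := xH3_F3 h1
    obtain ⟨-, b2, b3⟩ := xH3_F3 h2
    obtain ⟨c1, -, c3⟩ := xH3_F3 h3
    obtain ⟨-, d2, d3⟩ := xH3_F3 h4
    simp only [dat3] at c1 c3 d2 d3
    refine xH3_lcm (h.c1.dvd_of_dvd_mul_left ?_) (red_dvd (h'.pos 2) ?_) (red_dvd p3 ?_)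
      (red_dvd p3' ?_)
    · convert dvd_sub a1 c1 using 1
      ring
    · have e1 : (π.2.2.1 2 : ℤ) ∣ ((π.2.1.1 0 : ℤ) - π.2.2.1 0) * t := by
        refine h'.c2.dvd_of_dvd_mul_left ?_
        convert dvd_sub b2 d2 using 1
        ring
      rw [xH3_G]
      exact e1.trans (mul_dvd_mul_right ((dvd_mul_left _ _).mul_right _) _)
    · have e1 : ((π.2.1.1 3 * π.2.1.2 : ℕ) : ℤ) ∣ (π.2.1.1 0 : ℤ) * t := by
        refine h.c3.dvd_of_dvd_mul_left ?_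
        convert dvd_sub a3 c3 using 1
        linear_combination 4 * (π.2.1.1 0 : ℤ) * t * pyth π.1
      rw [xH3_G]
      exact e1.trans (mul_dvd_mul_right (((dvd_mul_right _ _).mul_right _).mul_right _) _)
    · have e1 : ((π.2.2.1 3 * π.2.2.2 : ℕ) : ℤ) ∣
          (kk π.1 ^ 2 * π.2.2.1 0 - ss π.1 ^ 2 * π.2.1.1 0) * t := by
        refine h'.c3.of_mul_right_left.dvd_of_dvd_mul_left ?_
        convert dvd_sub d3 b3 using 1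
        ring
      rw [xH3_G]
      exact e1.trans (mul_dvd_mul_right (dvd_mul_left _ _) _)
  · obtain ⟨a1, a2, a3, a4, a5⟩ := xH3_bx hz (h.pos 0) (h'.pos 0)
    have b1 : 0 ≤ (π.2.1.1 0 : ℤ) * z.1 := mul_nonneg (Int.natCast_nonneg _) a1.le
    have b2 : 0 ≤ (π.2.2.1 0 : ℤ) * z.1 := mul_nonneg (Int.natCast_nonneg _) a1.le
    have e1 : (dat3 X π).l z = 4 * ((π.2.1.1 0 : ℤ) * z.1) + z.2 := by
      simp only [dat3, Datum.l]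
      ring
    have e2 : (dat3 X π).l' z = 4 * ((π.2.2.1 0 : ℤ) * z.1) + z.2 := by
      simp only [dat3, Datum.l']
      ring
    have c1 : (dat3 X π).l z ≤ 10 * X := by omega
    have c2 : (dat3 X π).l' z ≤ 10 * X := by omega
    exact ⟨by omega, by exact_mod_cast c1, by omega, by exact_mod_cast c2⟩
  · obtain ⟨-, -, -, a4, a5⟩ := xH3_bx hz (h.pos 0) (h'.pos 0)
    obtain ⟨-, -, -, b4, b5⟩ := xH3_bx hz' (h.pos 0) (h'.pos 0)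
    simp only [dat3] at b4 b5
    have c1 : |t * (4 * (π.2.1.1 0 : ℤ))| ≤ X := by
      rw [abs_le]
      constructor <;> omega
    have c2 : |t| * (4 * (M : ℤ)) ≤ X := by
      refine le_trans ?_ c1
      rw [abs_mul, abs_of_nonneg (by positivity : (0 : ℤ) ≤ 4 * (π.2.1.1 0 : ℤ))]
      have := h.lo
      gcongr
    rw [le_div_iff₀ (by positivity)]
    exact_mod_cast c2

theorem xH3_K (X : ℕ) (π : I3) : ((dat3 X π).K : ℤ) = 64 * (MM π.2.1.1 * MM π.2.2.1) ^ 2 *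
    (π.2.1.2 * π.2.2.2) * |(π.2.1.1 0 : ℤ) - π.2.2.1 0| := by
  have e : (dat3 X π).det = 4 * ((π.2.1.1 0 : ℤ) - π.2.2.1 0) := by
    simp only [dat3, Datum.det]
    ring
  rw [Datum.K, Nat.cast_mul, Int.natCast_natAbs, e, abs_mul]
  simp only [dat3]
  push_cast
  norm_num
  ring

theorem xH3_sz {X R M : ℕ} {π : I3} (h : xH3_Hf π.1 R M π.2.1) (h' : xH3_Hf π.1 R M π.2.2)
    (hM : 1 ≤ M) (hR : 64 ≤ R) (hX : R ^ 100 ≤ X) :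
    (dat3 X π).m ^ 10 ≤ X ∧ (dat3 X π).K ^ 5 ≤ X ∧ (dat3 X π).t0 ≤ X ∧
      ((dat3 X π).t0 : ℝ) ≤ X / (4 * M) := by
  have hp : ∀ j, j ≤ 100 → R ^ j ≤ X := fun j hj =>
    (Nat.pow_le_pow_right (by omega) hj).trans hX
  have p3 : 1 ≤ π.2.1.1 3 * π.2.1.2 := Nat.mul_pos (h.pos 3) h.epos
  have p3' : 1 ≤ π.2.2.1 3 * π.2.2.2 := Nat.mul_pos (h'.pos 3) h'.epos
  have hl : ∀ a b c d : ℕ, 0 < a → 0 < b → a ≤ c → b ≤ d → Nat.lcm a b ≤ c * d :=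
    fun a b c d ha hb hc hd =>
      (Nat.le_of_dvd (Nat.mul_pos ha hb) (Nat.lcm_dvd_mul a b)).trans (Nat.mul_le_mul hc hd)
  have ht : (dat3 X π).t0 ≤ R * R * (R * R * (R * R)) :=
    hl _ _ _ _ (Nat.lcm_pos (h.pos 1) (red_le _ (h'.pos 2)).1)
      (Nat.lcm_pos (red_le _ p3).1 (red_le _ p3').1)
      (hl _ _ _ _ (h.pos 1) (red_le _ (h'.pos 2)).1 (h.le 1) ((red_le _ (h'.pos 2)).2.trans (h'.le 2)))
      (hl _ _ _ _ (red_le _ p3).1 (red_le _ p3').1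
        ((red_le _ p3).2.trans (Nat.mul_le_mul (h.le 3) h.ele))
        ((red_le _ p3').2.trans (Nat.mul_le_mul (h'.le 3) h'.ele)))
  have hK : (dat3 X π).K ≤ R ^ 8 := by
    have a1 := h.le 0
    have a2 := h'.le 0
    have a3 : |(π.2.1.1 0 : ℤ) - π.2.2.1 0| ≤ R := by
      rw [abs_le]
      constructor <;> omega
    have a4 : ((dat3 X π).K : ℤ) ≤ R * (R * R) ^ 2 * (R * R) * R := by
      rw [xH3_K]
      have := h.mm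
      have := h'.mm
      have := h.ele
      have := h'.ele
      have : (64 : ℤ) ≤ R := by exact_mod_cast hR
      gcongr
    have a5 : (R : ℤ) * (R * R) ^ 2 * (R * R) * R = R ^ 8 := by ring
    rw [a5] at a4
    exact_mod_cast a4
  refine ⟨(Nat.pow_le_pow_left (h.le 2) 10).trans (hp 10 (by norm_num)),
    (Nat.pow_le_pow_left hK 5).trans ?_, ht.trans ?_, ?_⟩
  · rw [← pow_mul]
    exact hp _ (by norm_num)
  · refine le_of_eq_of_le ?_ (hp 6 (by norm_num))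
    ring
  · rw [le_div_iff₀ (by positivity)]
    have a1 : (dat3 X π).t0 * (4 * M) ≤ R * R * (R * R * (R * R)) * (R * R) :=
      Nat.mul_le_mul ht (Nat.mul_le_mul (by omega) (h.lo.trans (h.le 0)))
    have a2 : (dat3 X π).t0 * (4 * M) ≤ X := by
      refine a1.trans (le_of_eq_of_le ?_ (hp 8 (by norm_num)))
      ring
    exact_mod_cast a2

theorem xH3_div (X : ℕ) (π : I3) :
    (π.2.1.1 1 : ℤ) ∣ (∏ i, f3 i (bs3 π)) * (dat3 X π).t0 ∧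
    (π.2.2.1 2 : ℤ) ∣ (∏ i, f3 i (bs3 π)) * (dat3 X π).t0 ∧
    ((π.2.1.1 3 * π.2.1.2 : ℕ) : ℤ) ∣ (∏ i, f3 i (bs3 π)) * (dat3 X π).t0 ∧
    ((π.2.2.1 3 * π.2.2.2 : ℕ) : ℤ) ∣ (∏ i, f3 i (bs3 π)) * (dat3 X π).t0 :=
  ⟨(Int.natCast_dvd_natCast.2 ((Nat.dvd_lcm_left _ _).trans (Nat.dvd_lcm_left _ _))).mul_left _,
    (dvd_red _ _).trans (mul_dvd_mul_left _ (Int.natCast_dvd_natCast.2
      ((Nat.dvd_lcm_right _ _).trans (Nat.dvd_lcm_left _ _)))),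
    (dvd_red _ _).trans (mul_dvd_mul_left _ (Int.natCast_dvd_natCast.2
      ((Nat.dvd_lcm_left _ _).trans (Nat.dvd_lcm_right _ _)))),
    (dvd_red _ _).trans (mul_dvd_mul_left _ (Int.natCast_dvd_natCast.2
      ((Nat.dvd_lcm_right _ _).trans (Nat.dvd_lcm_right _ _))))⟩

theorem xH3_dv (X : ℕ) (π : I3) (h1 : π.2.1.1 1 = π.2.2.1 1) : ((dat3 X π).K : ℤ) ∣
    (2 * (dat3 X π).m * (dat3 X π).t0 * ∏ i, f3 i (bs3 π)) ^ 20 := by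
  obtain ⟨a1, a2, a3, a4⟩ := xH3_div X π
  have b0 : (π.2.1.1 0 : ℤ) ∣ ∏ i, f3 i (bs3 π) := dvd_prod_of_mem (fun i => f3 i (bs3 π)) (mem_univ 0)
  have b1 : (π.2.2.1 0 : ℤ) ∣ ∏ i, f3 i (bs3 π) := dvd_prod_of_mem (fun i => f3 i (bs3 π)) (mem_univ 1)
  have b2 : |(π.2.1.1 0 : ℤ) - π.2.2.1 0| ∣ ∏ i, f3 i (bs3 π) :=
    (abs_dvd _ _).2 (dvd_prod_of_mem (fun i => f3 i (bs3 π)) (mem_univ 2))
  have hm : (dat3 X π).m = π.2.1.1 2 := rfl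
  rw [xH3_K, hm]
  generalize ∏ i, f3 i (bs3 π) = G at *
  generalize ((dat3 X π).t0 : ℤ) = t at *
  generalize |(π.2.1.1 0 : ℤ) - π.2.2.1 0| = d at *
  have c : ∀ {a : ℤ}, a ∣ G * t → a ∣ π.2.1.1 2 * (G * t) := fun h => h.mul_left _
  have c' : ∀ {a : ℤ}, a ∣ G → a ∣ π.2.1.1 2 * (G * t) := fun h => c (h.mul_right _)
  have e := mul_dvd_mul (pow_dvd_pow_of_dvd (mul_dvd_mul
    (mul_dvd_mul (mul_dvd_mul (c' b0) (c a1)) (mul_dvd_mul (dvd_mul_right (π.2.1.1 2 : ℤ) (G * t)) (c a3)))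
    (mul_dvd_mul (mul_dvd_mul (c' b1) (c a1)) (mul_dvd_mul (c a2) (c a4)))) 2) (c' b2)
  simp only [MM, Fin.prod_univ_four, ← h1]
  refine Dvd.dvd.trans ⟨π.2.1.2 * π.2.2.2, ?_⟩ ((mul_dvd_mul_left 64 e).trans
    ⟨2 ^ 14 * (π.2.1.1 2 * (G * t)) ^ 3, ?_⟩)
  · push_cast
    ring
  · ring

theorem xH3_mult (X : ℕ) (S : Finset I3) (b : (ℕ × ℕ) × (ℕ × ℕ)) (m t : ℕ)
    (hS : ∀ π ∈ S, π.2.1.1 1 = π.2.2.1 1 ∧ (∀ i, f3 i (bs3 π) ≠ 0) ∧ 1 ≤ (dat3 X π).t0) :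
    ((S.filter fun π => bs3 π = b ∧ (dat3 X π).m = m ∧ (dat3 X π).t0 = t).card : ℝ) ≤
      tau ((∏ i, f3 i b) * t) ^ 6 := by
  unfold tau
  generalize hD : ((∏ i, f3 i b) * t).natAbs.divisors = D
  have hc : (D ×ˢ D ×ˢ D ×ˢ D ×ˢ D ×ˢ D).card = D.card ^ 6 := by
    simp only [card_product]
    ring
  rw [← Nat.cast_pow, Nat.cast_le, ← hc]
  refine card_le_card_of_injOn
    (fun π => (π.2.1.1 1, π.2.2.1 2, π.2.1.1 3, π.2.1.2, π.2.2.1 3, π.2.2.2)) ?_ ?_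
  · intro π hπ
    obtain ⟨h1, h2, -, h4⟩ := mem_filter.1 (mem_coe.1 hπ)
    obtain ⟨-, h5, h6⟩ := hS π h1
    obtain ⟨a1, a2, a3, a4⟩ := xH3_div X π
    rw [h2, h4] at *
    have hd : ∀ a : ℕ, (a : ℤ) ∣ (∏ i, f3 i b) * t → a ∈ D := fun a ha => by
      rw [← hD, Nat.mem_divisors]
      refine ⟨Int.natCast_dvd.1 ha, Int.natAbs_ne_zero.2 (mul_ne_zero
        (prod_ne_zero_iff.2 fun i _ => h5 i) ?_)⟩
      omega
    rw [Nat.cast_mul] at a3 a4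
    simp only [coe_product, Set.mem_prod, mem_coe]
    exact ⟨hd _ a1, hd _ a2, hd _ (dvd_of_mul_right_dvd a3), hd _ (dvd_of_mul_left_dvd a3),
      hd _ (dvd_of_mul_right_dvd a4), hd _ (dvd_of_mul_left_dvd a4)⟩
  · rintro ⟨τ, ⟨u, e⟩, u', e'⟩ hπ ⟨σ, ⟨v, g⟩, v', g'⟩ hρ h
    obtain ⟨h1, h2, h3, -⟩ := mem_filter.1 (mem_coe.1 hπ)
    obtain ⟨k1, k2, k3, -⟩ := mem_filter.1 (mem_coe.1 hρ)
    have a1 : u 1 = u' 1 := (hS _ h1).1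
    have a2 : v 1 = v' 1 := (hS _ k1).1
    have a3 : u 2 = v 2 := h3.trans k3.symm
    have a4 := h2.trans k2.symm
    simp only [bs3, Prod.mk.injEq] at h a4 ⊢
    obtain ⟨b1, b2, b3, b4, b5, b6⟩ := h
    obtain ⟨c1, c2, c3⟩ := a4
    refine ⟨c1, ⟨funext fun i => ?_, b4⟩, funext fun i => ?_, b6⟩
    · fin_cases i
      exacts [c2, b1, a3, b3]
    · fin_cases i
      exacts [c3, a1.symm.trans (b1.trans a2), b2, b5]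

theorem xH3_max (a b c n X : ℕ) (ha : a ^ n ≤ X) (hb : b ^ n ≤ X) (hc : c ^ n ≤ X) :
    ∃ R, a ≤ R ∧ b ≤ R ∧ c ≤ R ∧ R ^ n ≤ X :=
  ⟨max a (max b c), le_max_left _ _, (le_max_left _ _).trans (le_max_right _ _),
    (le_max_right _ _).trans (le_max_right _ _),
    max_rec' (fun r => r ^ n ≤ X) ha (max_rec' (fun r => r ^ n ≤ X) hb hc)⟩

theorem xH3_core {X Y Z U M W k R : ℕ} (C0 : ℝ) (hR : Reg 0 X Y Z U) (hU : U ≤ M) (hM : M ≤ Z)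
    (r1 : Z ≤ R) (r2 : (W + 1) ^ (k + 1) ≤ R) (r3 : 64 ≤ R) (r4 : R ^ 100 ≤ X) :
    CoreHyp X ((P3 (TT C0 Y) Z U M W k).filter fun π => bs3 π ∈ B3 (TT C0 Y) M) (B3 (TT C0 Y) M)
      (dat3 X) bs3 f3 (128 * (Y : ℝ) ^ 2 * (M : ℝ) ^ 2) (10 * X) (X / (4 * M)) := by
  have h100 : 100 ≤ X :=
    (show 100 ≤ 64 ^ 2 by norm_num).trans ((Nat.pow_le_pow_left r3 2).trans
      ((Nat.pow_le_pow_right (lt_of_lt_of_le (by norm_num) r3) (by norm_num)).trans r4))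
  have hM1 : 1 ≤ M := hR.one_le.2.trans hU
  have key : ∀ π ∈ (P3 (TT C0 Y) Z U M W k).filter fun π => bs3 π ∈ B3 (TT C0 Y) M,
      xH3_Hf π.1 R M π.2.1 ∧ xH3_Hf π.1 R M π.2.2 ∧ π.2.1.1 1 = π.2.2.1 1 ∧
        ∀ i, f3 i (bs3 π) ≠ 0 := fun π hπ => by
    obtain ⟨h1, h2⟩ := mem_filter.1 hπ
    obtain ⟨a1, a2, a3, a4, a5, a6⟩ := mem_P3.1 h1
    exact ⟨xH3_hf (mem_TT a1).1 a2 a4 r1 r2, xH3_hf (mem_TT a1).1 a3 a5 r1 r2, a6,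
      (mem_filter.1 h2).2⟩
  have hX' : (100 : ℝ) ≤ X := by exact_mod_cast h100
  have b1 : (X : ℝ) ≤ 10 * X := by linarith only [hX']
  have b2 : 10 * (X : ℝ) ≤ X ^ 2 := by nlinarith only [hX']
  have b3 : ∀ π ∈ (P3 (TT C0 Y) Z U M W k).filter fun π => bs3 π ∈ B3 (TT C0 Y) M,
      bs3 π ∈ B3 (TT C0 Y) M := fun π hπ => (mem_filter.1 hπ).2
  generalize ((P3 (TT C0 Y) Z U M W k).filter fun π => bs3 π ∈ B3 (TT C0 Y) M) = S at key b3 ⊢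
  have b4 := fun π hπ => xH3_ok (X := X) (key π hπ).1 (key π hπ).2.1 hM1 (key π hπ).2.2.2
  exact
    { hU := b1
      hU' := b2
      hT := div_nonneg (Nat.cast_nonneg _) (mul_nonneg (by norm_num) (Nat.cast_nonneg _))
      spr := spr_f3 h100 hR.one_le.1 hR.hY' (hR.hU.trans hU)
        ((Nat.pow_le_pow_left hM 100).trans hR.hZ)
      ok := b4
      mem := b3
      sz := fun π hπ => xH3_sz (key π hπ).1 (key π hπ).2.1 hM1 r3 r4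
      dv := fun π hπ => xH3_dv X π (key π hπ).2.2.1
      mult := fun b m t => by
        convert xH3_mult X S b m t fun π hπ =>
          ⟨(key π hπ).2.2.1, (key π hπ).2.2.2, (b4 π hπ).t0_pos⟩ }

theorem hyp3 : ∃ X1 : ℕ, ∀ X ≥ X1, ∀ (Y Z U M W k : ℕ) (C0 : ℝ), Reg 0 X Y Z U → U ≤ M → M ≤ Z →
    ((W + 1) ^ (k + 1)) ^ 100 ≤ X →
    CoreHyp X ((P3 (TT C0 Y) Z U M W k).filter fun π => bs3 π ∈ B3 (TT C0 Y) M) (B3 (TT C0 Y) M)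
      (dat3 X) bs3 f3 (128 * (Y : ℝ) ^ 2 * (M : ℝ) ^ 2) (10 * X) (X / (4 * M)) := by
  refine ⟨64 ^ 100, fun X hX Y Z U M W k C0 hR hU hM hE => ?_⟩
  obtain ⟨R, r1, r2, r3, r4⟩ := xH3_max _ _ _ _ _ hR.hZ hE hX.le
  exact xH3_core C0 hR hU hM r1 r2 r3 r4

end Pool.Agent.MP_e23604_nt.P
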