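import Pool.Agent.MP_e23604_nt.P.G4

/-!
The data of step 4.
-/

open Finset
open scoped Classical

noncomputable section

namespace Pool.Agent.MP_e23604_nt.P

theorem mem_P4 {T : Finset (ℕ × ℕ)} {Z U : ℕ} {π : I4} : π ∈ P4 T Z U ↔
    π.1.1 ∈ T ∧ π.1.2 ∈ T ∧ π.2.1 ∈ MF Z U π.1.1 ∧ π.2.2 ∈ MF Z U π.1.2 ∧
      π.2.1 0 = π.2.2 0 ∧ π.2.1 1 = π.2.2 1 ∧ π.2.1 2 = π.2.2 2 := by
  rw [P4, mem_filter, mem_product, mem_product, mem_product]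
  exact ⟨fun h => ⟨h.1.1.1, h.1.1.2, h.2⟩, fun h => ⟨⟨⟨h.1, h.2.1⟩, (mem_filter.1 h.2.2.1).1,
    (mem_filter.1 h.2.2.2.1).1⟩, h.2.2⟩⟩

/-- The facts on an index of step 4. -/
structure xH4_In (C0 : ℝ) (Y Z U : ℕ) (π : I4) : Prop where
  t1 : π.1.1 ∈ TT C0 Y
  t2 : π.1.2 ∈ TT C0 Y
  m1 : π.2.1 ∈ MS (nn π.1.1) Z U
  m2 : π.2.2 ∈ MS (nn π.1.2) Z U
  e0 : π.2.1 0 = π.2.2 0
  e1 : π.2.1 1 = π.2.2 1
  e2 : π.2.1 2 = π.2.2 2
  ne : ∏ i, f4 i π.1 ≠ 0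

variable {C0 : ℝ} {X Y Z U : ℕ} {π : I4}

theorem xH4_in (h : π ∈ (P4 (TT C0 Y) Z U).filter fun π => π.1 ∈ B4 (TT C0 Y)) :
    xH4_In C0 Y Z U π := by
  obtain ⟨h1, h2⟩ := mem_filter.1 h
  obtain ⟨a, b, c, d, e, f, g⟩ := mem_P4.1 h1
  exact ⟨a, b, c, d, e, f, g, prod_ne_zero_iff.2 fun i _ => (mem_filter.1 h2).2 i⟩

theorem xH4_t0 (h : xH4_In C0 Y Z U π) : 1 ≤ (dat4 X π).t0 ∧ (dat4 X π).t0 ≤ Z * Z := by
  have h1 := MS_le h.m1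
  have h2 := red_le (∏ i, f4 i π.1) (MS_le h.m2 3).1
  have h3 : 0 < π.2.1 0 * π.2.1 1 * π.2.1 2 :=
    Nat.mul_pos (Nat.mul_pos (h1 0).1 (h1 1).1) (h1 2).1
  refine ⟨Nat.lcm_pos h3 h2.1, (Nat.le_of_dvd (Nat.mul_pos h3 h2.1) (Nat.lcm_dvd_mul _ _)).trans
    (Nat.mul_le_mul (le_trans ?_ (mem_MS.1 h.m1).2.1) (h2.2.trans (MS_le h.m2 3).2))⟩
  rw [MM, Fin.prod_univ_four]
  exact Nat.le_mul_of_pos_right _ (h1 3).1

theorem xH4_two {τ : ℕ × ℕ} {m : Fin 4 → ℕ} (hτ : Adm τ) (h : MOK (nn τ) m) (i : Fin 4) :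
    IsCoprime (m i : ℤ) 2 ∧ IsCoprime (m i : ℤ) (ss τ) := by
  have := (h.cop_ss hτ).of_isCoprime_of_dvd_left (Int.natCast_dvd_natCast.2 (dvd_MM m i))
  exact ⟨this.of_mul_right_left, this.of_mul_right_right⟩

theorem xH4_sparse (h : xH4_In C0 Y Z U π) (x y t : ℤ) (h1 : (dat4 X π).F x y ≠ 0)
    (h2 : (dat4 X π).F (x + t * (dat4 X π).β) (y - t * (dat4 X π).α) ≠ 0) :
    ((dat4 X π).t0 : ℤ) ∣ t := by
  have hd := det4 X π
  obtain ⟨⟨τ, τ'⟩, m, m'⟩ := π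
  have a1 := (mem_TT h.t1).1
  have a2 := (mem_TT h.t2).1
  have k1 := (mem_MS.1 h.m1).1
  have k2 := (mem_MS.1 h.m2).1
  simp only [dat4, Datum.det] at h1 h2 hd ⊢ a1 a2 k1 k2
  have c1 := fun i => ((GG_cond (left_ne_zero_of_mul h1)).2.2 i).1
  have c2 := fun i => ((GG_cond (left_ne_zero_of_mul h2)).2.2 i).1
  have c3 := ((GG_cond (right_ne_zero_of_mul h1)).2.2 3).1
  have c4 := ((GG_cond (right_ne_zero_of_mul h2)).2.2 3).1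
  have d0 : (m 0 : ℤ) ∣ t := by
    have := dvd_sub (c2 0) (c1 0)
    rw [show LL τ (x + t * ss τ ^ 2) (y - t * (4 * kk τ ^ 2)) 0 - LL τ x y 0 = t * ss τ ^ 2 by
      simp [LL]] at this
    exact (xH4_two a1 k1 0).2.pow_right.dvd_of_dvd_mul_right this
  have d1 : (m 1 : ℤ) ∣ t := by
    have := dvd_sub (c1 1) (c2 1)
    rw [show LL τ x y 1 - LL τ (x + t * ss τ ^ 2) (y - t * (4 * kk τ ^ 2)) 1 =
      t * (2 * kk τ) ^ 2 by
        simp only [LL, Matrix.cons_val]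
        ring] at this
    exact ((xH4_two a1 k1 1).1.mul_right ((Nat.isCoprime_iff_coprime.2
      (k1.cop_n (by decide))).of_isCoprime_of_dvd_right
        (dvd_nn τ).2.2)).pow_right.dvd_of_dvd_mul_right this
  have d2 : (m 2 : ℤ) ∣ t := by
    have := dvd_sub (c2 2) (c1 2)
    rw [show LL τ (x + t * ss τ ^ 2) (y - t * (4 * kk τ ^ 2)) 2 - LL τ x y 2 =
      t * (2 * rr τ) ^ 2 by
        simp only [LL, Matrix.cons_val]
        linear_combination (-4 * t) * pyth τ] at this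
    exact ((xH4_two a1 k1 2).1.mul_right ((Nat.isCoprime_iff_coprime.2
      (k1.cop_n (by decide))).of_isCoprime_of_dvd_right
        (dvd_nn τ).1)).pow_right.dvd_of_dvd_mul_right this
  have d3 : (m' 3 : ℤ) ∣ (∏ i, f4 i (τ, τ')) * t := by
    have := dvd_sub c3 c4
    rw [show LL τ' x y 3 - LL τ' (x + t * ss τ ^ 2) (y - t * (4 * kk τ ^ 2)) 3 =
      (∏ i, f4 i (τ, τ')) * t * 2 ^ 4 by
        simp only [LL, Matrix.cons_val]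
        linear_combination t * hd] at this
    exact (xH4_two a2 k2 3).1.pow_right.dvd_of_dvd_mul_right this
  rw [Int.natCast_dvd] at d0 d1 d2 ⊢
  refine Nat.lcm_dvd ?_ (Int.natCast_dvd.1 (red_dvd (MM_pos k2.1 3) d3))
  exact (Nat.Coprime.mul_left (MM_cop k1.1 (by decide))
    (MM_cop k1.1 (by decide))).mul_dvd_of_dvd_of_dvd ((MM_cop k1.1 (by decide)).mul_dvd_of_dvd_of_dvd d0 d1) d2

theorem xH4_ok (h : xH4_In C0 Y Z U π) :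
    (dat4 X π).OK (40 * X * (Y : ℝ) ^ 4) (X / (Y : ℝ) ^ 4) := by
  have a1 := (mem_TT h.t1).1
  have a2 := (mem_TT h.t2).1
  have hM : ∀ {m : Fin 4 → ℕ} {n : ℕ}, m ∈ MS n Z U → 0 < MM m := fun hm =>
    prod_pos fun i _ => (MS_le hm i).1
  refine ⟨?_, ?_, (MS_le h.m1 3).1, (MS_le h.m2 3).1, ?_, (xH4_t0 h).1, fun x y => ?_, ?_,
    fun x y hF => ?_, xH4_sparse h, fun z hz => ?_, fun z hz t ht => ?_⟩
  · have := a1.cop_ks.pow (m := 2) (n := 2)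
    rwa [mul_pow, show (2 : ℤ) ^ 2 = 4 from rfl] at this
  · rw [det4]
    exact mul_ne_zero (by norm_num) h.ne
  · exact Nat.mul_pos (by norm_num) (pow_pos (Nat.mul_pos (hM h.m1) (hM h.m2)) 2)
  · change |GG _ _ x y * GG _ _ x y| ≤ 1
    rw [abs_mul]
    exact mul_le_one₀ (abs_GG_le _ _ _ _) (abs_nonneg _) (abs_GG_le _ _ _ _)
  · have p1 : Per (dat4 X π).K0 (GG π.1.1 π.2.1) := (GG_per _ _).of_dvd
      (Nat.mul_dvd_mul_left _ (pow_dvd_pow_of_dvd (Nat.dvd_mul_right _ _) 2))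
    have p2 : Per (dat4 X π).K0 (GG π.1.2 π.2.2) := (GG_per _ _).of_dvd
      (Nat.mul_dvd_mul_left _ (pow_dvd_pow_of_dvd (Nat.dvd_mul_left _ _) 2))
    exact fun x y => ⟨congrArg₂ (· * ·) (p1 x y).1 (p2 x y).1,
      congrArg₂ (· * ·) (p1 x y).2 (p2 x y).2⟩
  · exact ⟨((GG_cond (left_ne_zero_of_mul hF)).2.2 3).1,
      ((GG_cond (right_ne_zero_of_mul hF)).2.2 3).1⟩
  · have h0 : (0 : ℤ) ≤ X := Int.natCast_nonneg X
    have b1 : (dat4 X π).l z ≤ 40 * X * (Y : ℤ) ^ 4 := LL_le h.t1 hz 3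
    have b2 : (dat4 X π).l' z ≤ 40 * X * (Y : ℤ) ^ 4 := LL_le h.t2 hz 3
    exact ⟨h0.trans_lt (LL_gt a1 hz 3), by exact_mod_cast b1, h0.trans_lt (LL_gt a2 hz 3),
      by exact_mod_cast b2⟩
  · have b1 := (mem_box.1 hz).2
    have b2 := (mem_box.1 ht).2
    have hY : (0 : ℝ) < Y := by exact_mod_cast (mem_TT h.t1).2.2.2.2.2.1
    have b3 : (Y : ℤ) ^ 4 ≤ (dat4 X π).α := (TT_bounds h.t1).1
    have b4 : |t * (dat4 X π).α| ≤ X := abs_le.2 ⟨by linarith [b1.1, b2.2], by linarith [b1.2, b2.1]⟩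
    rw [abs_mul] at b4
    have b5 : |t| * (Y : ℤ) ^ 4 ≤ X :=
      (mul_le_mul_of_nonneg_left (b3.trans (le_abs_self _)) (abs_nonneg t)).trans b4
    rw [le_div_iff₀ (by positivity)]
    exact_mod_cast b5

theorem xH4_K (h : xH4_In C0 Y Z U π) : (dat4 X π).K ≤ 16 * (Z * Z) ^ 2 * (64 * Y ^ 8) := by
  refine Nat.mul_le_mul (Nat.mul_le_mul_left _ (Nat.pow_le_pow_left
    (Nat.mul_le_mul (mem_MS.1 h.m1).2.1 (mem_MS.1 h.m2).2.1) 2)) ?_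
  obtain ⟨-, a1, -, a2⟩ := TT_bounds h.t1
  obtain ⟨-, b1, -, b2⟩ := TT_bounds h.t2
  have c1 : 4 * kk π.1.1 ^ 2 * ss π.1.2 ^ 2 ≤ 16 * (Y : ℤ) ^ 4 * (4 * (Y : ℤ) ^ 4) := by gcongr
  have c2 : 4 * kk π.1.2 ^ 2 * ss π.1.1 ^ 2 ≤ 16 * (Y : ℤ) ^ 4 * (4 * (Y : ℤ) ^ 4) := by gcongr
  have c3 : 0 ≤ 4 * kk π.1.1 ^ 2 * ss π.1.2 ^ 2 := by positivity
  have c4 : 0 ≤ 4 * kk π.1.2 ^ 2 * ss π.1.1 ^ 2 := by positivity
  have : |(dat4 X π).det| ≤ 64 * (Y : ℤ) ^ 8 := by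
    change |4 * kk π.1.1 ^ 2 * ss π.1.2 ^ 2 - 4 * kk π.1.2 ^ 2 * ss π.1.1 ^ 2| ≤ _
    exact abs_le.2 ⟨by linarith, by linarith⟩
  rw [← Int.natCast_natAbs] at this
  exact_mod_cast this

theorem xH4_dvd (h : xH4_In C0 Y Z U π) (i : Fin 4) :
    (π.2.2 i : ℤ) ∣ (∏ i, f4 i π.1) * (dat4 X π).t0 := by
  have h1 : ((π.2.1 0 * π.2.1 1 * π.2.1 2 : ℕ) : ℤ) ∣ (∏ i, f4 i π.1) * (dat4 X π).t0 :=
    Dvd.dvd.mul_left (Int.natCast_dvd_natCast.2 (Nat.dvd_lcm_left _ _)) _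
  rw [h.e0, h.e1, h.e2, Nat.cast_mul, Nat.cast_mul] at h1
  fin_cases i
  · exact ((Dvd.intro _ rfl).mul_right _).trans h1
  · exact ((Dvd.intro_left _ rfl).mul_right _).trans h1
  · exact (Dvd.intro_left _ rfl).trans h1
  · exact (dvd_red _ _).trans
      (mul_dvd_mul_left _ (Int.natCast_dvd_natCast.2 (Nat.dvd_lcm_right _ _)))

theorem xH4_dv (h : xH4_In C0 Y Z U π) :
    ((dat4 X π).K : ℤ) ∣ (2 * (dat4 X π).m * (dat4 X π).t0 * ∏ i, f4 i π.1) ^ 20 := by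
  have h0 := xH4_dvd (X := X) h
  set G := ∏ i, f4 i π.1 with hG
  set W : ℤ := (dat4 X π).m * (G * (dat4 X π).t0) with hW
  have h1 : (MM π.2.2 : ℤ) ∣ W ^ 4 := by
    have := prod_dvd_prod_of_dvd (s := (univ : Finset (Fin 4))) (fun i => (π.2.2 i : ℤ))
      (fun _ => W) fun i _ => (h0 i).mul_left _
    simpa [MM] using this
  have h2 : (MM π.2.1 : ℤ) ∣ W ^ 4 := by
    have := prod_dvd_prod_of_dvd (s := (univ : Finset (Fin 4))) (fun i => (π.2.1 i : ℤ))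
      (fun _ => W) fun i _ => by
        fin_cases i
        · exact h.e0 ▸ (h0 0).mul_left _
        · exact h.e1 ▸ (h0 1).mul_left _
        · exact h.e2 ▸ (h0 2).mul_left _
        · exact Dvd.intro _ rfl
    simpa [MM] using this
  have h3 : G ∣ W := (Dvd.intro _ rfl).mul_left _
  have h4 : ((dat4 X π).K : ℤ) ∣ 16 * (W ^ 4 * W ^ 4) ^ 2 * (16 * W) := by
    rw [Datum.K, Nat.cast_mul, det4]
    refine mul_dvd_mul ?_ (Int.natAbs_dvd.2 (mul_dvd_mul_left _ h3))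
    change ((16 * (MM π.2.1 * MM π.2.2) ^ 2 : ℕ) : ℤ) ∣ _
    push_cast
    exact mul_dvd_mul_left _ (pow_dvd_pow_of_dvd (mul_dvd_mul h2 h1) 2)
  refine h4.trans ⟨2 ^ 12 * W ^ 3, ?_⟩
  rw [show (2 * (dat4 X π).m * (dat4 X π).t0 * G : ℤ) = 2 * W by rw [hW]; ring]
  ring

theorem xH4_mult {b : (ℕ × ℕ) × (ℕ × ℕ)} {m t : ℕ} (S : Finset I4)
    (hS : ∀ π ∈ S, xH4_In C0 Y Z U π ∧ π.1 = b ∧ (dat4 X π).m = m ∧ (dat4 X π).t0 = t) :
    (S.card : ℝ) ≤ tau ((∏ i, f4 i b) * t) ^ 6 := by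
  by_cases h0 : (∏ i, f4 i b) * (t : ℤ) = 0
  · rw [eq_empty_of_forall_notMem (s := S), card_empty, Nat.cast_zero]
    · exact pow_nonneg (tau_nonneg _) 6
    · intro π hπ
      obtain ⟨h, rfl, -, rfl⟩ := hS π hπ
      exact mul_ne_zero h.ne (Int.natCast_ne_zero.2 (Nat.one_le_iff_ne_zero.1 (xH4_t0 h).1)) h0
  refine le_trans ?_ (pow_le_pow_right₀ (one_le_tau h0) (by norm_num : 4 ≤ 6))
  have := card_le_card_of_injOn (s := S) (t := Fintype.piFinset fun _ : Fin 4 =>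
      ((∏ i, f4 i b) * (t : ℤ)).natAbs.divisors) (fun π => π.2.2) (fun π hπ => ?_)
    fun π hπ π' hπ' e => ?_
  · rw [Fintype.card_piFinset, prod_const, card_univ, Fintype.card_fin] at this
    rw [tau]
    exact_mod_cast this
  · obtain ⟨h1, rfl, -, rfl⟩ := hS π hπ
    exact Fintype.mem_piFinset.2 fun i => Nat.mem_divisors.2
      ⟨Int.natCast_dvd.1 (xH4_dvd h1 i), Int.natAbs_ne_zero.2 h0⟩
  · obtain ⟨a, h2, h3, -⟩ := hS π hπ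
    obtain ⟨a', h2', h3', -⟩ := hS π' hπ'
    have e' : π.2.2 = π'.2.2 := e
    refine Prod.ext (h2.trans h2'.symm) (Prod.ext (funext fun i => ?_) e')
    fin_cases i
    · exact a.e0.trans ((congrFun e' 0).trans a'.e0.symm)
    · exact a.e1.trans ((congrFun e' 1).trans a'.e1.symm)
    · exact a.e2.trans ((congrFun e' 2).trans a'.e2.symm)
    · exact h3.trans h3'.symm

theorem hyp4 : ∃ X1 : ℕ, ∀ X ≥ X1, ∀ (Y Z U : ℕ) (C0 : ℝ), Reg 0 X Y Z U →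
    CoreHyp X ((P4 (TT C0 Y) Z U).filter fun π => π.1 ∈ B4 (TT C0 Y)) (B4 (TT C0 Y))
      (dat4 X) Prod.fst f4 (12 * (Y : ℝ) ^ 4) (40 * X * (Y : ℝ) ^ 4) (X / (Y : ℝ) ^ 4) := by
  refine ⟨4 ^ 100, fun X hX Y Z U C0 hR => ?_⟩
  have hY1 := hR.one_le.1
  obtain ⟨R, r1, r2, r3, r4⟩ : ∃ R : ℕ, Y ≤ R ∧ Z ≤ R ∧ 4 ≤ R ∧ R ^ 100 ≤ X := by
    refine ⟨max Y (max Z 4), le_max_left _ _, le_max_of_le_right (le_max_left _ _),
      le_max_of_le_right (le_max_right _ _), ?_⟩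
    rcases max_choice Y (max Z 4) with e | e
    · rw [e]
      exact hR.hY'
    · rcases max_choice Z 4 with e' | e'
      · rw [e, e']
        exact hR.hZ
      · rw [e, e']
        exact hX
  have r5 : ∀ n ≤ 100, R ^ n ≤ X := fun n hn => (Nat.pow_le_pow_right (by omega) hn).trans r4
  have hY : (1 : ℝ) ≤ Y := by exact_mod_cast hY1
  have hX0 : (0 : ℝ) ≤ X := Nat.cast_nonneg X
  refine ⟨?_, ?_, by positivity, spr_f4 (le_trans (by norm_num) hX) hY1 hR.hY',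
    fun π hπ => xH4_ok (xH4_in hπ), fun π hπ => (mem_filter.1 hπ).2, fun π hπ => ?_,
    fun π hπ => xH4_dv (xH4_in hπ), fun b m t => ?_⟩
  · have := one_le_pow₀ (n := 4) hY
    nlinarith
  · have h1 : 40 * Y ^ 4 ≤ X := le_trans (by
      calc 40 * Y ^ 4 ≤ 4 ^ 3 * Y ^ 4 := by gcongr; norm_num
        _ ≤ R ^ 3 * R ^ 4 := by gcongr
        _ = R ^ 7 := by ring) (r5 7 (by norm_num))
    have h2 : 40 * (Y : ℝ) ^ 4 ≤ X := by exact_mod_cast h1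
    nlinarith
  · have h := xH4_in hπ
    have h1 : (dat4 X π).t0 * Y ^ 4 ≤ X := le_trans (by
      calc (dat4 X π).t0 * Y ^ 4 ≤ Z * Z * Y ^ 4 := Nat.mul_le_mul_right _ (xH4_t0 h).2
        _ ≤ R * R * R ^ 4 := by gcongr
        _ = R ^ 6 := by ring) (r5 6 (by norm_num))
    refine ⟨(Nat.pow_le_pow_left ((MS_le h.m1 3).2.trans r2) 10).trans (r5 10 (by norm_num)),
      le_trans ?_ (r5 85 (by norm_num)),
      (Nat.le_mul_of_pos_right _ (pow_pos hY1 4)).trans h1, ?_⟩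
    · calc (dat4 X π).K ^ 5 ≤ (4 ^ 2 * (Z * Z) ^ 2 * (4 ^ 3 * Y ^ 8)) ^ 5 :=
          Nat.pow_le_pow_left (xH4_K h) 5
        _ ≤ (R ^ 2 * (R * R) ^ 2 * (R ^ 3 * R ^ 8)) ^ 5 := by gcongr
        _ = R ^ 85 := by ring
    · rw [le_div_iff₀ (by positivity)]
      exact_mod_cast h1
  · refine xH4_mult (C0 := C0) (X := X) (Y := Y) (Z := Z) (U := U) (m := m) _ fun π hπ => ?_
    simp only [mem_filter (a := π)] at hπ
    exact ⟨xH4_in (mem_filter.2 hπ.1), hπ.2⟩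

end Pool.Agent.MP_e23604_nt.P
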