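import Pool.Agent.MP_e23604_nt.P.Dens
import Pool.Agent.MP_e23604_nt.P.Nu
import Pool.Agent.MP_e23604_nt.P.Bonf
import Pool.Agent.MP_e23604_nt.P.CW

/-!
The main term.
-/

open Finset
open scoped Classical

noncomputable section

namespace Pool.Agent.MP_e23604_nt.P

theorem xMT_rough {τ : ℕ × ℕ} {m : Fin 4 → ℕ} (hτ : Adm τ) {z : ℤ × ℤ} (h : Cond τ m z.1 z.2)
    (W : ℕ) : (∀ i, Rough (PW W) (uu τ m z i)) ↔
      ∀ l ∈ (PW W).filter fun l => ¬ l ∣ 2 * MM m, ¬ (l : ℤ) ∣ DD τ z.1 z.2 := by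
  have e : ∀ i, (m i : ℤ) * uu τ m z i = LL τ z.1 z.2 i := fun i =>
    Int.mul_ediv_cancel' (h.2.2 i).1
  constructor
  · intro H l hl hd
    obtain ⟨h1, h2⟩ := mem_filter.1 hl
    have hp := Nat.prime_iff_prime_int.1 (mem_filter.1 h1).2
    obtain ⟨i, -, hi⟩ := hp.exists_mem_finset_dvd hd
    rw [← e] at hi
    rcases hp.dvd_or_dvd hi with h3 | h3
    · exact h2 (((Int.natCast_dvd_natCast.1 h3).trans (dvd_MM m i)).mul_left 2)
    · exact H i l h1 h3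
  · intro H i q hq hd
    have hp := (mem_filter.1 hq).2
    have h1 : (q : ℤ) ∣ LL τ z.1 z.2 i := e i ▸ hd.mul_left _
    refine H q (mem_filter.2 ⟨hq, fun h2 => ?_⟩) (h1.trans (dvd_prod_of_mem _ (mem_univ i)))
    rcases hp.dvd_mul.1 h2 with h3 | h3
    · have h4 := h.odd hτ i
      rw [(Nat.prime_dvd_prime_iff_eq hp Nat.prime_two).1 h3] at h1
      omega
    · exact (Nat.prime_iff_prime_int.1 hp).not_isUnit
        ((h.2.2 i).2.isUnit_of_dvd' hd (Int.natCast_dvd_natCast.2 h3))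

theorem xMT_pt {τ : ℕ × ℕ} (m : Fin 4 → ℕ) (hτ : Adm τ) (z : ℤ × ℤ) (W : ℕ) :
    GG τ m z.1 z.2 * ∏ i, shp W (uu τ m z i) = cW W ^ 4 *
      if ∀ l ∈ (PW W).filter fun l => ¬ l ∣ 2 * MM m, ¬ (l : ℤ) ∣ DD τ z.1 z.2 then
        GG τ m z.1 z.2 else 0 := by
  by_cases h0 : GG τ m z.1 z.2 = 0
  · rw [h0, ite_self, zero_mul, mul_zero]
  have h := xMT_rough hτ (GG_cond h0) W
  split_ifs with H
  · have h1 : ∀ i, shp W (uu τ m z i) = cW W := fun i => if_pos (h.2 H i)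
    simp only [h1, prod_const, card_univ, Fintype.card_fin, mul_comm]
  · obtain ⟨i, hi⟩ := not_forall.1 fun h1 => H (h.1 h1)
    rw [prod_eq_zero (mem_univ i) (if_neg hi), mul_zero, mul_zero]

theorem xMT_E {τ : ℕ × ℕ} {m : Fin 4 → ℕ} (hM : 1 ≤ MM m) (X W k : ℕ) {E : Finset ℕ}
    (hE : E ⊆ (PW W).filter fun l => ¬ l ∣ 2 * MM m) (hk : E.card ≤ k + 1) :
    |∑ z ∈ (box X).filter fun z => ∀ l ∈ E, (l : ℤ) ∣ DD τ z.1 z.2, GG τ m z.1 z.2 -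
      (X : ℝ) ^ 2 * avg (16 * MM m ^ 2) (GG τ m) *
        ∏ l ∈ E, avg l fun a b => if (l : ℤ) ∣ DD τ a b then (1 : ℝ) else 0| ≤
      64 * (MM m : ℝ) ^ 2 * ((W : ℝ) + 1) ^ (k + 1) * X := by
  have hp : ∀ l ∈ E, l.Prime := fun l hl => (mem_filter.1 (mem_filter.1 (hE hl)).1).2
  obtain ⟨h1, h2⟩ := avg_prod E (fun l => l)
    (fun l a b => if (l : ℤ) ∣ DD τ a b then (1 : ℝ) else 0)
    (fun l hl => ⟨(hp l hl).one_le, nu_per τ l⟩)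
    fun l hl l' hl' hne => (Nat.coprime_primes (hp l hl) (hp l' hl')).2 hne
  have hK1 : 1 ≤ 16 * MM m ^ 2 := Nat.mul_pos (by norm_num) (Nat.pow_pos hM)
  have hK2 : 1 ≤ ∏ l ∈ E, l := prod_pos fun l hl => (hp l hl).pos
  have hc : Nat.Coprime (16 * MM m ^ 2) (∏ l ∈ E, l) := Nat.Coprime.prod_right fun l hl =>
    Nat.Coprime.coprime_dvd_left (⟨MM m ^ 2, by ring⟩ : 16 * MM m ^ 2 ∣ (2 * MM m) ^ 4)
      (((hp l hl).coprime_iff_not_dvd.2 (mem_filter.1 (hE hl)).2).symm.pow_left 4)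
  have h3 := avg_mul (GG_per τ m) h1 hK1 hK2 hc
  have p1 := (GG_per τ m).of_dvd (dvd_mul_right _ (∏ l ∈ E, l))
  have p2 := h1.of_dvd (dvd_mul_left _ (16 * MM m ^ 2))
  have h4 := box_sum (K := 16 * MM m ^ 2 * ∏ l ∈ E, l)
    (f := fun a b => GG τ m a b * ∏ l ∈ E, if (l : ℤ) ∣ DD τ a b then (1 : ℝ) else 0)
    (fun a b => ⟨congrArg₂ (· * ·) (p1 a b).1 (p2 a b).1, congrArg₂ (· * ·) (p1 a b).2 (p2 a b).2⟩)
    (Nat.mul_pos hK1 hK2) (fun a b => by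
      rw [prod_boole, mul_boole]
      split_ifs
      · exact abs_GG_le τ m a b
      · simp) X
  rw [h3, h2, ← mul_assoc] at h4
  simp only [prod_boole, mul_boole] at h4
  rw [sum_filter]
  refine le_trans (le_of_eq (by congr!)) (h4.trans ?_)
  have h5 : ∏ l ∈ E, l ≤ (W + 1) ^ (k + 1) :=
    (prod_le_pow_card E _ (W + 1) fun l hl =>
      (mem_range.1 (mem_filter.1 (mem_filter.1 (hE hl)).1).1).le).trans
      (Nat.pow_le_pow_right W.succ_pos hk)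
  have h6 : ((∏ l ∈ E, l : ℕ) : ℝ) ≤ ((W : ℝ) + 1) ^ (k + 1) := by exact_mod_cast h5
  generalize ∏ l ∈ E, l = P at h6 ⊢
  push_cast
  calc 4 * (16 * (MM m : ℝ) ^ 2 * P) * X = 64 * (MM m : ℝ) ^ 2 * P * X := by ring
    _ ≤ _ := by gcongr

theorem xMT_P {M : ℕ} (h : Squarefree M) :
    ∏ l ∈ M.primeFactors, ((l : ℝ) - 1) ^ 2 / (l : ℝ) ^ 3 ≤ 1 / (M : ℝ) := by
  conv_rhs => rw [← Nat.prod_primeFactors_of_squarefree h, Nat.cast_prod, one_div,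
    ← prod_inv_distrib]
  refine prod_le_prod (fun l _ => by positivity) fun l hl => ?_
  have h1 : (1 : ℝ) ≤ l := by exact_mod_cast (Nat.prime_of_mem_primeFactors hl).one_le
  rw [← one_div, div_le_div_iff₀ (by positivity) (by positivity)]
  nlinarith [mul_nonneg (sub_nonneg.2 h1) (by linarith : (0 : ℝ) ≤ l)]

theorem xMT_om {M X : ℕ} (h : Squarefree M) (hX : M ^ 100 ≤ X) :
    (4 * M.primeFactors.card : ℝ) ≤ Real.log X := by
  have h1 : 2 ^ M.primeFactors.card ≤ M := by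
    conv_rhs => rw [← Nat.prod_primeFactors_of_squarefree h]
    exact pow_card_le_prod _ _ 2 fun l hl => (Nat.prime_of_mem_primeFactors hl).two_le
  have h2 : ((2 : ℝ) ^ M.primeFactors.card) ^ 100 ≤ X := by
    exact_mod_cast (Nat.pow_le_pow_left h1 100).trans hX
  have h3 := Real.log_le_log (by positivity) h2
  rw [Real.log_pow, Real.log_pow] at h3
  have h4 := Real.log_two_gt_d9
  have h5 : (0 : ℝ) ≤ M.primeFactors.card := Nat.cast_nonneg _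
  push_cast at h3
  nlinarith

theorem xMT_sqrt {a b c X : ℝ} (hX : 1 ≤ X) (ha : a ^ 100 ≤ X) (hb : b ^ 100 ≤ X)
    (hc : c ^ 100 ≤ X) : a * b ^ 2 * c ^ 2 ≤ √X := by
  refine Real.le_sqrt_of_sq_le ((pow_le_pow_iff_left₀ (sq_nonneg _) (by linarith)
    (by norm_num : 50 ≠ 0)).1 ?_)
  calc ((a * b ^ 2 * c ^ 2) ^ 2) ^ 50 = a ^ 100 * (b ^ 100) ^ 2 * (c ^ 100) ^ 2 := by ring
    _ ≤ X * X ^ 2 * X ^ 2 := by gcongr
    _ = X ^ 5 := by ring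
    _ ≤ X ^ 50 := pow_le_pow_right₀ hX (by norm_num)

theorem main_term (B : ℕ) (hB : 2 ≤ B) : ∃ X1 : ℕ, ∀ X ≥ X1, ∀ (τ : ℕ × ℕ) (m : Fin 4 → ℕ),
    Adm τ → MOK (nn τ) m → MM m ^ 100 ≤ X →
    (X : ℝ) ^ 2 * pgood m / (2048 * MM m) - (X : ℝ) ^ 2 / (MM m * Real.log X ^ 5) - X * √X ≤
      ∑ z ∈ box X, GG τ m z.1 z.2 * ∏ i, shp (WW B X) (uu τ m z i) := by
  obtain ⟨X1, H1⟩ := exists_level B 17 100
  obtain ⟨X2, H2⟩ := cW_le B
  obtain ⟨X3, H3⟩ := log_pow_le 4 100 128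
  refine ⟨max (max X1 X2) (max X3 3), fun X hX τ m hτ hm hMX => ?_⟩
  simp only [ge_iff_le, max_le_iff] at hX
  obtain ⟨k, hk1, hk2⟩ := H1 X hX.1.1
  have hc := H2 X hX.1.2
  obtain ⟨hL, hL2⟩ := H3 X hX.2.1
  have hW := (WW_bounds B hX.2.2).1
  generalize WW B X = W at hk2 hc hW ⊢
  have hM : MM m ≠ 0 := hm.1.ne_zero
  have hM' : (0 : ℝ) < MM m := by exact_mod_cast Nat.pos_of_ne_zero hM
  have hX1 : (1 : ℝ) ≤ X := by exact_mod_cast (by omega : 1 ≤ X)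
  obtain ⟨I, hI⟩ : ∃ I, I = (PW W).filter fun l => ¬ l ∣ 2 * MM m := ⟨_, rfl⟩
  obtain ⟨ν, hν⟩ : ∃ ν : ℕ → ℝ,
      ν = fun l => avg l fun a b => if (l : ℤ) ∣ DD τ a b then (1 : ℝ) else 0 := ⟨_, rfl⟩
  have hmem : ∀ l, l ∈ I ↔ l ∈ PW W ∧ ¬ l ∣ 2 * MM m := fun l => by rw [hI, mem_filter]
  have hIW : I ⊆ PW W := fun l hl => ((hmem l).1 hl).1
  have hp : ∀ l ∈ I, l.Prime := fun l hl => (mem_filter.1 (hIW hl)).2
  have n0 : ∀ l, 0 ≤ ν l := fun l => by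
    rw [hν]
    exact avg_nonneg l fun a b => by positivity
  have n1 : ∀ l ∈ I, ν l ≤ (4 * (l : ℝ) - 3) / (l : ℝ) ^ 2 := fun l hl => by
    rw [hν]
    exact nu_le hτ (hp l hl)
  have h3 : ∀ l ∈ I, (3 : ℝ) ≤ l := fun l hl => by
    have h1 := (hp l hl).two_le
    have h2 : l ≠ 2 := fun e => ((hmem l).1 hl).2 (e ▸ dvd_mul_right _ _)
    exact_mod_cast (by omega : 3 ≤ l)
  have n2 : ∀ l ∈ I, 0 ≤ ν l ∧ ν l ≤ 1 := fun l hl => ⟨n0 l, (n1 l hl).trans (by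
    have := h3 l hl
    rw [div_le_one (by positivity)]
    nlinarith)⟩
  have n3 : ∏ l ∈ I, (1 + 2 * ν l) ≤ cW W ^ 8 := by
    refine le_trans (prod_le_prod (fun l _ => by linarith [n0 l]) fun l hl => ?_)
      (prod_le_cW hIW 8)
    have h1 := h3 l hl
    have h2 : (4 * (l : ℝ) - 3) / (l : ℝ) ^ 2 ≤ 4 / l := by
      rw [div_le_div_iff₀ (by positivity) (by positivity)]
      nlinarith
    have h4 : ((8 : ℕ) : ℝ) / l = 2 * (4 / l) := by push_cast; ring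
    linarith [n1 l hl]
  have ha0 := avg_nonneg (16 * MM m ^ 2) (GG_nonneg τ m)
  have hF := fund (box X) (fun z => GG τ m z.1 z.2) (fun z _ => GG_nonneg τ m _ _) I
    (fun l z => (l : ℤ) ∣ DD τ z.1 z.2) ν n2 (mul_nonneg (sq_nonneg (X : ℝ)) ha0) k
    (R := 64 * (MM m : ℝ) ^ 2 * ((W : ℝ) + 1) ^ (k + 1) * X) fun E hE hk => by
      rw [hν]
      convert xMT_E (τ := τ) (Nat.pos_of_ne_zero hM) X W k (hI ▸ hE) hk
  have hE := euler_low I ν hM hmem (hm.2.1.trans (dvd_MM m 0)) n1 (by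
    have h1 := xMT_om hm.1 hMX
    have h2 : Real.log X ≤ Real.log X ^ B := le_self_pow₀ (by linarith) (by omega)
    exact_mod_cast h1.trans (h2.trans hW)) hm.1
  have hP := xMT_P hm.1
  have hA := GG_avg hτ hm
  have hp0 := pgood_nonneg m
  have hp1 := pgood_le m
  have hc0 : 0 ≤ cW W := zero_le_one.trans (one_le_cW W)
  have hN : (I.card : ℝ) ≤ W := by exact_mod_cast (card_le_card hIW).trans (card_PW W)
  have hs := xMT_sqrt (b := MM m) (c := ((W : ℝ) + 1) ^ (k + 1)) hX1 hL2 (by exact_mod_cast hMX)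
    (by exact_mod_cast hk2)
  simp only [xMT_pt m hτ, ← hI]
  rw [← mul_sum, ← sum_filter]
  have hF' : (X : ℝ) ^ 2 * avg (16 * MM m ^ 2) (GG τ m) * ∏ l ∈ I, (1 - ν l) -
      ((X : ℝ) ^ 2 * avg (16 * MM m ^ 2) (GG τ m) * (∏ l ∈ I, (1 + 2 * ν l)) / 2 ^ k +
        2 * ((I.card : ℝ) + 1) ^ (k + 1) * (64 * (MM m : ℝ) ^ 2 * ((W : ℝ) + 1) ^ (k + 1) * X)) ≤
      ∑ z ∈ (box X).filter fun z => ∀ l ∈ I, ¬ (l : ℤ) ∣ DD τ z.1 z.2, GG τ m z.1 z.2 := by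
    have h1 := (abs_le.1 hF).1
    rw [neg_le_sub_iff_le_add, ← sub_le_iff_le_add] at h1
    exact h1.trans (le_of_eq (by congr!))
  refine le_trans ?_ (mul_le_mul_of_nonneg_left hF' (pow_nonneg hc0 4))
  have hP0 : 0 ≤ ∏ l ∈ (MM m).primeFactors, ((l : ℝ) - 1) ^ 2 / (l : ℝ) ^ 3 :=
    prod_nonneg fun l _ => by positivity
  generalize ∏ l ∈ (MM m).primeFactors, ((l : ℝ) - 1) ^ 2 / (l : ℝ) ^ 3 = P at hE hP hA hP0
  have hQ0 : 0 ≤ ∏ l ∈ I, (1 + 2 * ν l) := prod_nonneg fun l _ => by linarith [n0 l]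
  generalize ∏ l ∈ I, (1 + 2 * ν l) = Q at n3 hQ0
  generalize ∏ l ∈ I, (1 - ν l) = S at hE
  generalize avg (16 * MM m ^ 2) (GG τ m) = a at hA ha0
  generalize Real.log X = L at hk1 hc hL hs
  generalize cW W = c at n3 hE hc hc0
  have hL0 : 0 < L := by linarith
  have e1 : (X : ℝ) ^ 2 * pgood m / (2048 * MM m) ≤ c ^ 4 * ((X : ℝ) ^ 2 * a * S) :=
    calc (X : ℝ) ^ 2 * pgood m / (2048 * MM m) =
          (X : ℝ) ^ 2 * (pgood m / 256) * (1 / (8 * MM m)) := by field_simp; ring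
      _ ≤ (X : ℝ) ^ 2 * (pgood m / 256) * (c ^ 4 * P * S) := by gcongr
      _ = _ := by rw [hA]; ring
  have ha1 : a ≤ 1 / MM m := by
    rw [hA]
    exact (mul_le_of_le_one_left hP0 (by linarith)).trans hP
  have e2 : c ^ 4 * ((X : ℝ) ^ 2 * a * Q / 2 ^ k) ≤ (X : ℝ) ^ 2 / (MM m * L ^ 5) :=
    calc c ^ 4 * ((X : ℝ) ^ 2 * a * Q / 2 ^ k)
        ≤ L ^ 4 * ((X : ℝ) ^ 2 * (1 / MM m) * L ^ 8 / L ^ 17) := by
          gcongr
          exact n3.trans (pow_le_pow_left₀ hc0 hc 8)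
      _ = _ := by field_simp
  have e3 : c ^ 4 * (2 * ((I.card : ℝ) + 1) ^ (k + 1) *
      (64 * (MM m : ℝ) ^ 2 * ((W : ℝ) + 1) ^ (k + 1) * X)) ≤ X * √X :=
    calc _ ≤ L ^ 4 * (2 * ((W : ℝ) + 1) ^ (k + 1) *
          (64 * (MM m : ℝ) ^ 2 * ((W : ℝ) + 1) ^ (k + 1) * X)) := by gcongr
      _ = X * (128 * L ^ 4 * (MM m : ℝ) ^ 2 * (((W : ℝ) + 1) ^ (k + 1)) ^ 2) := by ring
      _ ≤ _ := by gcongr
  rw [mul_sub, mul_add]
  linarith

end Pool.Agent.MP_e23604_nt.P
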