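import Pool.Agent.MP_e23604_nt.P.Geo
import Pool.Agent.MP_e23604_nt.P.Bonf
import Pool.Agent.MP_e23604_nt.P.CW

/-!
Replacing the model by its truncation.
-/

open Finset
open scoped Classical

noncomputable section

namespace Pool.Agent.MP_e23604_nt.P

theorem xRepl_mul {τ : ℕ × ℕ} {m : Fin 4 → ℕ} {z : ℤ × ℤ} (h : Cond τ m z.1 z.2) (i : Fin 4) :
    LL τ z.1 z.2 i = (m i : ℤ) * uu τ m z i :=
  (Int.mul_ediv_cancel' (h.2.2 i).1).symm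

theorem xRepl_dvd {τ : ℕ × ℕ} {m : Fin 4 → ℕ} {z : ℤ × ℤ} (h : Cond τ m z.1 z.2) (i : Fin 4) :
    uu τ m z i ∣ LL τ z.1 z.2 i := by
  rw [xRepl_mul h i]; exact dvd_mul_left _ _

theorem xRepl_two {τ : ℕ × ℕ} (hτ : Adm τ) {m : Fin 4 → ℕ} {z : ℤ × ℤ} (h : Cond τ m z.1 z.2)
    (i : Fin 4) : ¬ (2 : ℤ) ∣ LL τ z.1 z.2 i := by
  have := h.odd hτ i
  omega

theorem xRepl_PW {W q : ℕ} (h : q ∈ PW W) : q.Prime := (mem_filter.1 h).2

/-- For the last form the primes dividing `nn τ` need not be sieved. -/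
theorem rough_last {τ : ℕ × ℕ} (hτ : Adm τ) {m : Fin 4 → ℕ} {z : ℤ × ℤ} {W : ℕ}
    (h : Cond τ m z.1 z.2) (h0 : Rough (PW W) (uu τ m z 0)) (h1 : Rough (PW W) (uu τ m z 1))
    (h2 : Rough (Q3 W) (uu τ m z 2)) :
    Rough (PW W) (uu τ m z 3) ↔ Rough (Q4 W τ) (uu τ m z 3) := by
  refine ⟨fun hr q hq => hr q (mem_filter.1 hq).1, fun hr q hq hd => ?_⟩
  by_cases hn : q ∣ nn τ
  swap
  · exact hr q (mem_filter.2 ⟨hq, hn⟩) hd
  have hp : Prime (q : ℤ) := Nat.prime_iff_prime_int.1 (xRepl_PW hq)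
  have hM : ¬ (q : ℤ) ∣ (MM m : ℤ) := fun hM =>
    hp.not_isUnit ((h.2.2 3).2.isUnit_of_dvd' hd hM)
  have hu : ∀ i, (q : ℤ) ∣ LL τ z.1 z.2 i → (q : ℤ) ∣ uu τ m z i := by
    intro i hi
    rw [xRepl_mul h i] at hi
    rcases hp.dvd_or_dvd hi with h3 | h3
    · exact absurd (h3.trans (Int.natCast_dvd_natCast.2 (dvd_MM m i))) hM
    · exact h3
  have h3 : (q : ℤ) ∣ 4 * kk τ ^ 2 * z.1 + ss τ ^ 2 * z.2 := hd.trans (xRepl_dvd h 3)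
  have hn' : (q : ℤ) ∣ rr τ * ss τ * kk τ := Int.natCast_dvd.2 hn
  rcases hp.dvd_or_dvd hn' with h4 | hk
  · rcases hp.dvd_or_dvd h4 with hrr | hs
    · have e : ss τ ^ 2 * (4 * z.1 + z.2) =
          (4 * kk τ ^ 2 * z.1 + ss τ ^ 2 * z.2) + rr τ * (4 * rr τ * z.1) := by
        linear_combination (-4 * z.1) * pyth τ
      have h5 : (q : ℤ) ∣ ss τ ^ 2 * (4 * z.1 + z.2) := by
        rw [e]; exact dvd_add h3 (hrr.mul_right _)
      rcases hp.dvd_or_dvd h5 with h6 | h6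
      · exact hp.not_isUnit (hτ.cop_rs.isUnit_of_dvd' hrr (hp.dvd_of_dvd_pow h6))
      · have h7 : (q : ℤ) ∣ LL τ z.1 z.2 2 := h6
        have h8 : q ≠ 2 := by
          rintro rfl
          exact xRepl_two hτ h 2 h7
        exact h2 q (mem_erase.2 ⟨h8, hq⟩) (hu 2 h7)
    · have h5 : (q : ℤ) ∣ (2 * kk τ) ^ 2 * z.1 := by
        have e : (2 * kk τ) ^ 2 * z.1 =
            (4 * kk τ ^ 2 * z.1 + ss τ ^ 2 * z.2) - ss τ * (ss τ * z.2) := by ring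
        rw [e]; exact dvd_sub h3 (hs.mul_right _)
      rcases hp.dvd_or_dvd h5 with h6 | h6
      · exact hp.not_isUnit (hτ.cop_ks.isUnit_of_dvd' (hp.dvd_of_dvd_pow h6) hs)
      · exact h0 q hq (hu 0 h6)
  · have h5 : (q : ℤ) ∣ ss τ ^ 2 * z.2 := by
      have e : ss τ ^ 2 * z.2 =
          (4 * kk τ ^ 2 * z.1 + ss τ ^ 2 * z.2) - kk τ * (4 * kk τ * z.1) := by ring
      rw [e]; exact dvd_sub h3 (hk.mul_right _)
    rcases hp.dvd_or_dvd h5 with h6 | h6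
    · exact hp.not_isUnit (hτ.cop_ks.isUnit_of_dvd' (hk.mul_left 2) (hp.dvd_of_dvd_pow h6))
    · exact h1 q hq (hu 1 h6)

theorem rough_third {τ : ℕ × ℕ} (hτ : Adm τ) {m : Fin 4 → ℕ} {z : ℤ × ℤ} {W : ℕ}
    (h : Cond τ m z.1 z.2) : Rough (PW W) (uu τ m z 2) ↔ Rough (Q3 W) (uu τ m z 2) := by
  refine ⟨fun hr q hq => hr q (mem_erase.1 hq).2, fun hr q hq hd => ?_⟩
  by_cases h2 : q = 2
  · subst h2
    exact xRepl_two hτ h 2 (hd.trans (xRepl_dvd h 2))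
  · exact hr q (mem_erase.2 ⟨h2, hq⟩) hd

theorem xRepl_Y {X Y : ℕ} (hX : 1600 ≤ X) (hY : Y ^ 100 ≤ X) : 40 * Y ^ 4 ≤ X := by
  rcases le_or_gt (Y ^ 4) 40 with h | h
  · omega
  · have h1 : 1 ≤ Y := by
      rcases Nat.eq_zero_or_pos Y with rfl | h0
      · simp at h
      · exact h0
    have h2 : Y ^ 8 ≤ Y ^ 100 := Nat.pow_le_pow_right h1 (by norm_num)
    have h3 : Y ^ 8 = Y ^ 4 * Y ^ 4 := by ring
    have h4 : 40 * Y ^ 4 ≤ Y ^ 4 * Y ^ 4 := Nat.mul_le_mul_right _ h.le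
    omega

theorem xRepl_Z {X Z : ℕ} (hX : 4 ≤ X) (hZ : Z ^ 100 ≤ X) : (Z + 1) ^ 2 ≤ X := by
  rcases le_or_gt Z 1 with h | h
  · calc (Z + 1) ^ 2 ≤ (1 + 1) ^ 2 := Nat.pow_le_pow_left (by omega) 2
      _ ≤ X := hX
  · have h2 : Z ^ 4 ≤ Z ^ 100 := Nat.pow_le_pow_right (by omega) (by norm_num)
    have h3 : Z + 1 ≤ Z ^ 2 := by nlinarith
    calc (Z + 1) ^ 2 ≤ (Z ^ 2) ^ 2 := Nat.pow_le_pow_left h3 2
      _ = Z ^ 4 := by ring
      _ ≤ X := h2.trans hZ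

theorem xRepl_lt {X c m : ℕ} {L : ℤ} (hc : (c + 1) ^ 2 ≤ X) (hm : m ^ 2 ≤ X) (hm1 : 1 ≤ m)
    (hL : (X : ℤ) < L) : (c : ℤ) < L / m := by
  have h1 : (c + 1) * m ≤ X := by nlinarith [sq_nonneg ((c + 1 : ℤ) - m)]
  have h2 : ((c : ℤ) + 1) * m ≤ L := by
    have : (((c + 1) * m : ℕ) : ℤ) ≤ X := by exact_mod_cast h1
    push_cast at this
    linarith
  have h3 := Int.le_ediv_of_mul_le (by exact_mod_cast hm1 : (0 : ℤ) < m) h2
  omega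

theorem uu_range (B : ℕ) : ∃ X1 : ℕ, ∀ X ≥ X1, ∀ (Y Z U : ℕ) (C0 : ℝ), Reg 0 X Y Z U →
    ∀ τ ∈ TT C0 Y, ∀ m ∈ MF Z U τ, ∀ z ∈ box X, ∀ i,
      (WW B X : ℤ) < uu τ m z i ∧ (Z : ℤ) < uu τ m z i ∧ uu τ m z i ≤ (X : ℤ) ^ 2 := by
  obtain ⟨X1, hX1⟩ := exists_level B 0 2
  refine ⟨max X1 1600, fun X hX Y Z U C0 hR τ hτ m hm z hz i => ?_⟩
  have hXa : X1 ≤ X := (le_max_left _ _).trans hX
  have hXb : 1600 ≤ X := (le_max_right _ _).trans hX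
  obtain ⟨k, -, hk⟩ := hX1 X hXa
  have hW : (WW B X + 1) ^ 2 ≤ X :=
    (Nat.pow_le_pow_left (Nat.le_self_pow (by omega) _) 2).trans hk
  have hZ := xRepl_Z (by omega) hR.hZ
  obtain ⟨hm1, hm2⟩ := MS_le hm i
  have hm3 : m i ^ 2 ≤ X := (Nat.pow_le_pow_left (by omega) 2).trans hZ
  have hL := LL_gt (mem_TT hτ).1 hz i
  refine ⟨xRepl_lt hW hm3 hm1 hL, xRepl_lt hZ hm3 hm1 hL, ?_⟩
  have hX0 : (0 : ℤ) ≤ X := Int.natCast_nonneg X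
  have h1 : uu τ m z i ≤ LL τ z.1 z.2 i := Int.ediv_le_self _ (by linarith)
  have h2 := LL_le hτ hz i
  have h3 : 40 * (Y : ℤ) ^ 4 ≤ X := by exact_mod_cast xRepl_Y hXb hR.hY'
  nlinarith

theorem xRepl_core : ∃ C : ℕ, ∀ (C0 : ℝ) (X Y Z U : ℕ) (Γ : ℝ), 100 ≤ X → Reg 0 X Y Z U → 0 ≤ Γ →
    ∀ Δ : ℕ × ℕ → (Fin 4 → ℕ) → ℤ × ℤ → ℝ,
      (∀ τ ∈ TT C0 Y, ∀ m ∈ MF Z U τ, ∀ z ∈ box X, GG τ m z.1 z.2 ≠ 0 →
        |Δ τ m z| ≤ Γ * (tau (LL τ z.1 z.2 2) ^ 2 * tau (LL τ z.1 z.2 3) ^ 2)) →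
      |∑ τ ∈ TT C0 Y, ∑ m ∈ MF Z U τ, ∑ z ∈ box X, GG τ m z.1 z.2 * Δ τ m z| ≤
        Γ * ((X : ℝ) ^ 2 * (Y : ℝ) ^ 2 * Real.log X ^ C) := by
  obtain ⟨C, hC⟩ := triv_LL
  refine ⟨C, fun C0 X Y Z U Γ hX hR hΓ Δ hΔ => ?_⟩
  have h1 : ∀ τ ∈ TT C0 Y, |∑ m ∈ MF Z U τ, ∑ z ∈ box X, GG τ m z.1 z.2 * Δ τ m z| ≤
      ∑ z ∈ box X, Γ * ∏ i, tau (LL τ z.1 z.2 i) ^ 3 := by
    intro τ hτ
    rw [sum_comm]
    refine (abs_sum_le_sum_abs _ _).trans (sum_le_sum fun z hz => ?_)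
    have hne : ∀ i, LL τ z.1 z.2 i ≠ 0 := fun i => by
      have := LL_gt (mem_TT hτ).1 hz i
      omega
    have ht : ∀ i, 1 ≤ tau (LL τ z.1 z.2 i) := fun i => one_le_tau (hne i)
    have h2 : |∑ m ∈ MF Z U τ, GG τ m z.1 z.2 * Δ τ m z| ≤ ∑ m ∈ MF Z U τ,
        |GG τ m z.1 z.2| * (Γ * (tau (LL τ z.1 z.2 2) ^ 2 * tau (LL τ z.1 z.2 3) ^ 2)) := by
      refine (abs_sum_le_sum_abs _ _).trans (sum_le_sum fun m hm => ?_)
      rw [abs_mul]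
      by_cases hG : GG τ m z.1 z.2 = 0
      · simp [hG]
      · exact mul_le_mul_of_nonneg_left (hΔ τ hτ m hm z hz hG) (abs_nonneg _)
    rw [← sum_mul] at h2
    refine h2.trans ?_
    refine (mul_le_mul_of_nonneg_right (sum_GG_le hne _) (by positivity)).trans ?_
    rw [Fin.prod_univ_four, Fin.prod_univ_four]
    have h0 := ht 0
    have h1 := ht 1
    have h2 := ht 2
    have h3 := ht 3
    generalize tau (LL τ z.1 z.2 0) = t0 at *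
    generalize tau (LL τ z.1 z.2 1) = t1 at *
    generalize tau (LL τ z.1 z.2 2) = t2 at *
    generalize tau (LL τ z.1 z.2 3) = t3 at *
    have h4 : t0 ≤ t0 ^ 3 := le_self_pow₀ h0 (by norm_num)
    have h5 : t1 ≤ t1 ^ 3 := le_self_pow₀ h1 (by norm_num)
    calc t0 * t1 * t2 * t3 * (Γ * (t2 ^ 2 * t3 ^ 2)) = Γ * (t0 * t1 * t2 ^ 3 * t3 ^ 3) := by ring
      _ ≤ Γ * (t0 ^ 3 * t1 ^ 3 * t2 ^ 3 * t3 ^ 3) := by gcongr
  refine (abs_sum_le_sum_abs _ _).trans ((sum_le_sum h1).trans ?_)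
  have h2 := hC C0 X Y hX hR.one_le.1 hR.hY' _ (Subset.refl _)
  rw [sum_product] at h2
  simp only [← mul_sum]
  refine mul_le_mul_of_nonneg_left (h2.trans ?_) hΓ
  have h3 : √((TT C0 Y ×ˢ box X).card : ℝ) ≤ X * Y := by
    rw [Real.sqrt_le_left (by positivity), card_product, Nat.cast_mul, card_box]
    have := mul_le_mul_of_nonneg_right (card_TT C0 Y) (sq_nonneg (X : ℝ))
    nlinarith
  have h4 : 0 ≤ Real.log X ^ C := pow_nonneg (Real.log_natCast_nonneg X) _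
  calc √((TT C0 Y ×ˢ box X).card : ℝ) * X * Y * Real.log X ^ C ≤
      X * Y * X * Y * Real.log X ^ C := by gcongr
    _ = _ := by ring

theorem xRepl_wt {W X : ℕ} {g : ℤ → ℝ} (hg : Wt W X g) (hX : 1 ≤ X) {u : ℤ} (h1 : (W : ℤ) < u)
    (h2 : u ≤ (X : ℤ) ^ 2) : |g u| ≤ 3 * Real.log X := by
  refine hg.1 u (by omega) (h2.trans ?_)
  exact pow_le_pow_right₀ (by exact_mod_cast hX) (by norm_num)

theorem xRepl_fin {x y L : ℝ} {c : ℝ} {C k : ℕ} (hc : c ≤ L) (hL : 0 ≤ L) :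
    c * L ^ 4 / 2 ^ k * (x ^ 2 * y ^ 2 * L ^ C) ≤ x ^ 2 * y ^ 2 * L ^ (C + 5) / 2 ^ k := by
  calc c * L ^ 4 / 2 ^ k * (x ^ 2 * y ^ 2 * L ^ C) ≤
      L * L ^ 4 / 2 ^ k * (x ^ 2 * y ^ 2 * L ^ C) := by gcongr
    _ = _ := by ring

theorem repl3 : ∃ C : ℕ, ∀ B : ℕ, ∃ X1 : ℕ, ∀ X ≥ X1, ∀ (Y Z U k : ℕ) (C0 : ℝ)
    (g0 g1 g2 : ℤ → ℝ), Reg 0 X Y Z U → Wt (WW B X) X g0 → Wt (WW B X) X g1 → Wt (WW B X) X g2 →
    |SS X (TT C0 Y) (MF Z U) (fun _ => ![g0, g1, g2, shp (WW B X)]) - cW (WW B X) *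
      SS X (TT C0 Y) (MF Z U) (fun τ => ![g0, g1, g2, flat (Q4 (WW B X) τ) k])| ≤
      (X : ℝ) ^ 2 * (Y : ℝ) ^ 2 * Real.log X ^ C / 2 ^ k := by
  obtain ⟨C, hC⟩ := xRepl_core
  refine ⟨C + 5, fun B => ?_⟩
  obtain ⟨X1, hX1⟩ := uu_range B
  obtain ⟨X2, hX2⟩ := cW_le B
  obtain ⟨X3, hX3⟩ := log_pow_le 0 0 27
  refine ⟨max (max X1 X2) (max X3 100), fun X hX Y Z U k C0 g0 g1 g2 hR w0 w1 w2 => ?_⟩
  simp only [ge_iff_le, max_le_iff] at hX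
  obtain ⟨⟨hXa, hXb⟩, hXc, hXd⟩ := hX
  have hc := hX2 X hXb
  have hL := (hX3 X hXc).1
  have hc0 : 0 ≤ cW (WW B X) := zero_le_one.trans (one_le_cW _)
  have hL0 : 0 ≤ Real.log X := by linarith
  have key := hC C0 X Y Z U (27 * Real.log X ^ 4 / 2 ^ k) hXd hR (by positivity)
    (fun τ m z => g0 (uu τ m z 0) * g1 (uu τ m z 1) * g2 (uu τ m z 2) *
      (shp (WW B X) (uu τ m z 3) - cW (WW B X) * flat (Q4 (WW B X) τ) k (uu τ m z 3))) ?_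
  · refine le_trans (le_of_eq ?_) (key.trans (xRepl_fin hL hL0))
    congr 1
    simp only [SS, mul_sum, ← sum_sub_distrib, Fin.prod_univ_four]
    refine sum_congr rfl fun τ _ => sum_congr rfl fun m _ => sum_congr rfl fun z _ => ?_
    simp only [Matrix.cons_val_zero, Matrix.cons_val_one, Matrix.cons_val]
    ring
  intro τ hτ m hm z hz hG
  have hA := (mem_TT hτ).1
  have hCo := GG_cond hG
  have hu := hX1 X hXa Y Z U C0 hR τ hτ m hm z hz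
  have hne : ∀ i, LL τ z.1 z.2 i ≠ 0 := fun i => by
    have := LL_gt hA hz i
    omega
  by_cases e0 : g0 (uu τ m z 0) = 0
  · simp only [e0, zero_mul, abs_zero]; positivity
  by_cases e1 : g1 (uu τ m z 1) = 0
  · simp only [e1, zero_mul, mul_zero, abs_zero]; positivity
  by_cases e2 : g2 (uu τ m z 2) = 0
  · simp only [e2, zero_mul, mul_zero, abs_zero]; positivity
  have r3 := rough_last hA hCo (w0.2 _ e0 (hu 0).1) (w1.2 _ e1 (hu 1).1)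
    ((rough_third hA hCo).1 (w2.2 _ e2 (hu 2).1))
  have hu3 : uu τ m z 3 ≠ 0 := by
    have := (hu 3).1
    omega
  have f3 := flat_approx (Q := Q4 (WW B X) τ) (fun q hq => xRepl_PW (mem_filter.1 hq).1) k hu3
  have s3 : shp (WW B X) (uu τ m z 3) - cW (WW B X) * flat (Q4 (WW B X) τ) k (uu τ m z 3) =
      cW (WW B X) * ((if Rough (Q4 (WW B X) τ) (uu τ m z 3) then (1 : ℝ) else 0) -
        flat (Q4 (WW B X) τ) k (uu τ m z 3)) := by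
    rw [shp, r3]
    split_ifs <;> ring
  have b0 := xRepl_wt w0 (by omega) (hu 0).1 (hu 0).2.2
  have b1 := xRepl_wt w1 (by omega) (hu 1).1 (hu 1).2.2
  have b2 := xRepl_wt w2 (by omega) (hu 2).1 (hu 2).2.2
  have t3 := tau_le_of_dvd (xRepl_dvd hCo 3) (hne 3)
  have t3' := tau_nonneg (uu τ m z 3)
  have t2 : 1 ≤ tau (LL τ z.1 z.2 2) ^ 2 := one_le_pow₀ (one_le_tau (hne 2))
  simp only [s3, abs_mul, abs_of_nonneg hc0]
  calc _ ≤ 3 * Real.log X * (3 * Real.log X) * (3 * Real.log X) *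
        (Real.log X * (tau (uu τ m z 3) ^ 2 / 2 ^ k)) := by gcongr
    _ = 27 * Real.log X ^ 4 / 2 ^ k * (1 * tau (uu τ m z 3) ^ 2) := by ring
    _ ≤ _ := by gcongr

theorem repl2 : ∃ C : ℕ, ∀ B : ℕ, ∃ X1 : ℕ, ∀ X ≥ X1, ∀ (Y Z U k : ℕ) (C0 : ℝ)
    (g0 g1 : ℤ → ℝ), Reg 0 X Y Z U → Wt (WW B X) X g0 → Wt (WW B X) X g1 →
    |SS X (TT C0 Y) (MF Z U) (fun _ => ![g0, g1, shp (WW B X), shp (WW B X)]) - cW (WW B X) ^ 2 *
      SS X (TT C0 Y) (MF Z U)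
        (fun τ => ![g0, g1, flat (Q3 (WW B X)) k, flat (Q4 (WW B X) τ) k])| ≤
      (X : ℝ) ^ 2 * (Y : ℝ) ^ 2 * Real.log X ^ C / 2 ^ k := by
  obtain ⟨C, hC⟩ := xRepl_core
  refine ⟨C + 5, fun B => ?_⟩
  obtain ⟨X1, hX1⟩ := uu_range B
  obtain ⟨X2, hX2⟩ := cW_le B
  obtain ⟨X3, hX3⟩ := log_pow_le 0 0 18
  refine ⟨max (max X1 X2) (max X3 100), fun X hX Y Z U k C0 g0 g1 hR w0 w1 => ?_⟩
  simp only [ge_iff_le, max_le_iff] at hX
  obtain ⟨⟨hXa, hXb⟩, hXc, hXd⟩ := hX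
  have hc := hX2 X hXb
  have hL := (hX3 X hXc).1
  have hc0 : 0 ≤ cW (WW B X) := zero_le_one.trans (one_le_cW _)
  have hL0 : 0 ≤ Real.log X := by linarith
  have key := hC C0 X Y Z U (18 * Real.log X ^ 4 / 2 ^ k) hXd hR (by positivity)
    (fun τ m z => g0 (uu τ m z 0) * g1 (uu τ m z 1) *
      (shp (WW B X) (uu τ m z 2) * shp (WW B X) (uu τ m z 3) - cW (WW B X) ^ 2 *
        (flat (Q3 (WW B X)) k (uu τ m z 2) * flat (Q4 (WW B X) τ) k (uu τ m z 3)))) ?_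
  · refine le_trans (le_of_eq ?_) (key.trans (xRepl_fin hL hL0))
    congr 1
    simp only [SS, mul_sum, ← sum_sub_distrib, Fin.prod_univ_four]
    refine sum_congr rfl fun τ _ => sum_congr rfl fun m _ => sum_congr rfl fun z _ => ?_
    simp only [Matrix.cons_val_zero, Matrix.cons_val_one, Matrix.cons_val]
    ring
  intro τ hτ m hm z hz hG
  have hA := (mem_TT hτ).1
  have hCo := GG_cond hG
  have hu := hX1 X hXa Y Z U C0 hR τ hτ m hm z hz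
  have hne : ∀ i, LL τ z.1 z.2 i ≠ 0 := fun i => by
    have := LL_gt hA hz i
    omega
  by_cases e0 : g0 (uu τ m z 0) = 0
  · simp only [e0, zero_mul, abs_zero]; positivity
  by_cases e1 : g1 (uu τ m z 1) = 0
  · simp only [e1, zero_mul, mul_zero, abs_zero]; positivity
  have r2 := rough_third (W := WW B X) hA hCo
  have r3 := rough_last hA hCo (w0.2 _ e0 (hu 0).1) (w1.2 _ e1 (hu 1).1)
  have hu2 : uu τ m z 2 ≠ 0 := by
    have := (hu 2).1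
    omega
  have hu3 : uu τ m z 3 ≠ 0 := by
    have := (hu 3).1
    omega
  have f2 := flat_approx (Q := Q3 (WW B X)) (fun q hq => xRepl_PW (mem_erase.1 hq).2) k hu2
  have f3 := flat_approx (Q := Q4 (WW B X) τ) (fun q hq => xRepl_PW (mem_filter.1 hq).1) k hu3
  have a3 := abs_flat_le (Q4 (WW B X) τ) k hu3
  have s3 : shp (WW B X) (uu τ m z 2) * shp (WW B X) (uu τ m z 3) =
      cW (WW B X) ^ 2 * ((if Rough (Q3 (WW B X)) (uu τ m z 2) then (1 : ℝ) else 0) *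
        (if Rough (Q4 (WW B X) τ) (uu τ m z 3) then (1 : ℝ) else 0)) := by
    rw [shp, shp, r2]
    by_cases h2 : Rough (Q3 (WW B X)) (uu τ m z 2)
    · rw [r3 h2, if_pos h2, if_pos h2]
      split_ifs <;> ring
    · rw [if_neg h2, if_neg h2]; ring
  have i2 : |(if Rough (Q3 (WW B X)) (uu τ m z 2) then (1 : ℝ) else 0)| ≤ 1 := by
    split_ifs <;> simp
  have b0 := xRepl_wt w0 (by omega) (hu 0).1 (hu 0).2.2
  have b1 := xRepl_wt w1 (by omega) (hu 1).1 (hu 1).2.2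
  have t2 := tau_le_of_dvd (xRepl_dvd hCo 2) (hne 2)
  have t3 := tau_le_of_dvd (xRepl_dvd hCo 3) (hne 3)
  have t2' := one_le_tau hu2
  have t3' := one_le_tau hu3
  rw [s3]
  generalize (if Rough (Q3 (WW B X)) (uu τ m z 2) then (1 : ℝ) else 0) = p at *
  generalize (if Rough (Q4 (WW B X) τ) (uu τ m z 3) then (1 : ℝ) else 0) = p' at *
  generalize flat (Q3 (WW B X)) k (uu τ m z 2) = f at *
  generalize flat (Q4 (WW B X) τ) k (uu τ m z 3) = f' at *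
  generalize tau (uu τ m z 2) = a at *
  generalize tau (uu τ m z 3) = a' at *
  have hd : |p * p' - f * f'| ≤ 2 * (a ^ 2 * a' ^ 2) / 2 ^ k := by
    have e : p * p' - f * f' = (p - f) * f' + p * (p' - f') := by ring
    have u1 : a' ≤ a' ^ 2 := le_self_pow₀ t3' (by norm_num)
    have u2 : 1 ≤ a ^ 2 := one_le_pow₀ t2'
    rw [e]
    refine (abs_add_le _ _).trans ?_
    rw [abs_mul, abs_mul]
    calc _ ≤ a ^ 2 / 2 ^ k * a' ^ 2 + a ^ 2 * (a' ^ 2 / 2 ^ k) := by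
          gcongr
          · exact a3.trans u1
          · exact i2.trans u2
      _ = _ := by ring
  rw [← mul_sub]
  simp only [abs_mul, abs_pow, abs_of_nonneg hc0]
  calc _ ≤ 3 * Real.log X * (3 * Real.log X) *
        (Real.log X ^ 2 * (2 * (a ^ 2 * a' ^ 2) / 2 ^ k)) := by gcongr
    _ = 18 * Real.log X ^ 4 / 2 ^ k * (a ^ 2 * a' ^ 2) := by ring
    _ ≤ _ := by gcongr

end Pool.Agent.MP_e23604_nt.P
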