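import Pool.Agent.MP_e23604_nt.P.H3
import Pool.Agent.MP_e23604_nt.P.CW

/-!
The trivial terms of step 3.
-/

open Finset
open scoped Classical

noncomputable section

namespace Pool.Agent.MP_e23604_nt.P

/-- The box of step 3 depends only on the two moduli. -/
def xT3_d (X : ℕ) (p : ℕ × ℕ) : Datum where
  A1 := max ((X : ℤ) / p.1) ((X : ℤ) / p.2)
  A2 := min (2 * (X : ℤ) / p.1) (2 * (X : ℤ) / p.2)
  B1 := X
  B2 := 2 * X
  α := 4 * p.1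
  β := 1
  α' := 4 * p.2
  β' := 1
  m := 1
  m' := 1
  K0 := 1
  t0 := 1
  F := fun _ _ => 0

def xT3_w (x : ((ℕ × ℕ) × (ℕ × ℕ)) × (ℤ × ℤ)) : ℝ :=
  tau x.2.2 ^ 3 * tau (LL x.1.1 (x.1.2.1 * x.2.1) x.2.2 2) ^ 3 *
    tau (LL x.1.1 (x.1.2.2 * x.2.1) x.2.2 2) ^ 3 *
    tau (LL x.1.1 (x.1.2.1 * x.2.1) x.2.2 3) ^ 3 *
    tau (LL x.1.1 (x.1.2.2 * x.2.1) x.2.2 3) ^ 3

theorem xT3_div {n : ℤ} (hn : n ≠ 0) {d : ℕ} (h : (d : ℤ) ∣ n) : d ∈ n.natAbs.divisors :=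
  Nat.mem_divisors.2 ⟨Int.natCast_dvd.1 h, Int.natAbs_ne_zero.2 hn⟩

theorem xT3_F3 {τ : ℕ × ℕ} {x : (Fin 4 → ℕ) × ℕ} {n b : ℤ} (h : F3 τ x n b ≠ 0) :
    (x.1 1 : ℤ) ∣ b ∧ (x.1 2 : ℤ) ∣ LL τ (x.1 0 * n) b 2 ∧ (x.1 3 : ℤ) ∣ LL τ (x.1 0 * n) b 3 ∧
      (x.2 : ℤ) ∣ LL τ (x.1 0 * n) b 3 := by
  unfold F3 at h
  have h1 := GG_cond (left_ne_zero_of_mul h)
  have h2 := mu_dvd (right_ne_zero_of_mul h)
  refine ⟨(h1.2.2 1).1, (h1.2.2 2).1, (h1.2.2 3).1, h2.trans ?_⟩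
  exact Dvd.intro_left _ (Int.mul_ediv_cancel' (h1.2.2 3).1)

theorem xT3_abs_F3 (τ : ℕ × ℕ) (x : (Fin 4 → ℕ) × ℕ) (n b : ℤ) : |F3 τ x n b| ≤ 1 := by
  unfold F3
  rw [abs_mul]
  exact mul_le_one₀ (abs_GG_le _ _ _ _) (abs_nonneg _) (abs_mu_le _ _)

theorem xT3_fib (T : Finset (ℕ × ℕ)) (Z U M W k X : ℕ) (x : ((ℕ × ℕ) × (ℕ × ℕ)) × (ℤ × ℤ))
    (h1 : x.2.2 ≠ 0) (h2 : LL x.1.1 (x.1.2.1 * x.2.1) x.2.2 2 ≠ 0)
    (h2' : LL x.1.1 (x.1.2.2 * x.2.1) x.2.2 2 ≠ 0) (h3 : LL x.1.1 (x.1.2.1 * x.2.1) x.2.2 3 ≠ 0)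
    (h3' : LL x.1.1 (x.1.2.2 * x.2.1) x.2.2 3 ≠ 0) :
    ∑ π ∈ (P3 T Z U M W k).filter (fun π => bs3 π = x.1), |(dat3 X π).F x.2.1 x.2.2| ≤
      xT3_w x := by
  obtain ⟨⟨τ, m0, m0'⟩, n, b⟩ := x
  simp only at h1 h2 h2' h3 h3'
  set Q := ((P3 T Z U M W k).filter (fun π => bs3 π = (τ, m0, m0'))).filter
    (fun π => (dat3 X π).F n b ≠ 0) with hQ
  have e1 : ∑ π ∈ (P3 T Z U M W k).filter (fun π => bs3 π = (τ, m0, m0')), |(dat3 X π).F n b| ≤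
      (Q.card : ℝ) := by
    rw [hQ, card_filter]
    push_cast
    refine sum_le_sum fun π _ => ?_
    split_ifs with h
    · show |F3 π.1 π.2.1 n b * F3 π.1 π.2.2 n b| ≤ 1
      rw [abs_mul]
      exact mul_le_one₀ (xT3_abs_F3 _ _ _ _) (abs_nonneg _) (xT3_abs_F3 _ _ _ _)
    · rw [not_not.1 h, abs_zero]
  have e2 : Q.card ≤ (b.natAbs.divisors ×ˢ
      ((LL τ (m0 * n) b 2).natAbs.divisors ×ˢ ((LL τ (m0' * n) b 2).natAbs.divisors ×ˢ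
      (((LL τ (m0 * n) b 3).natAbs.divisors ×ˢ (LL τ (m0 * n) b 3).natAbs.divisors) ×ˢ
      ((LL τ (m0' * n) b 3).natAbs.divisors ×ˢ (LL τ (m0' * n) b 3).natAbs.divisors))))).card := by
    refine card_le_card_of_injOn (fun π : I3 => (π.2.1.1 1, (π.2.1.1 2, (π.2.2.1 2,
      ((π.2.1.1 3, π.2.1.2), (π.2.2.1 3, π.2.2.2)))))) ?_ ?_
    · intro π hπ
      rw [hQ, coe_filter] at hπ
      obtain ⟨hπ, hF⟩ := hπ
      have hb := (mem_filter.1 hπ).2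
      simp only [bs3, Prod.mk.injEq] at hb
      obtain ⟨hb1, hb2, hb3⟩ := hb
      have hF' : F3 π.1 π.2.1 n b * F3 π.1 π.2.2 n b ≠ 0 := hF
      have f1 := xT3_F3 (left_ne_zero_of_mul hF')
      have f2 := xT3_F3 (right_ne_zero_of_mul hF')
      rw [hb1, hb2] at f1
      rw [hb1, hb3] at f2
      simp only [coe_product, Set.mem_prod, mem_coe]
      exact ⟨xT3_div h1 f1.1, xT3_div h2 f1.2.1, xT3_div h2' f2.2.1,
        ⟨xT3_div h3 f1.2.2.1, xT3_div h3 f1.2.2.2⟩, xT3_div h3' f2.2.2.1, xT3_div h3' f2.2.2.2⟩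
    · intro π hπ π' hπ' he
      rw [hQ, coe_filter] at hπ hπ'
      have hb := (mem_filter.1 hπ.1).2
      have hb' := (mem_filter.1 hπ'.1).2
      have hp := (mem_P3.1 (mem_filter.1 hπ.1).1).2.2.2.2.2
      have hp' := (mem_P3.1 (mem_filter.1 hπ'.1).1).2.2.2.2.2
      obtain ⟨σ, ⟨m, e⟩, m', e'⟩ := π
      obtain ⟨σ2, ⟨m2, e2⟩, m2', e2'⟩ := π'
      simp only [bs3, Prod.mk.injEq] at hb hb' he hp hp' ⊢
      obtain ⟨a1, a2, a3, ⟨a4, a5⟩, a6, a7⟩ := he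
      refine ⟨hb.1.trans hb'.1.symm, ⟨?_, a5⟩, ?_, a7⟩
      · funext i
        fin_cases i
        · exact hb.2.1.trans hb'.2.1.symm
        · exact a1
        · exact a2
        · exact a4
      · funext i
        fin_cases i
        · exact hb.2.2.trans hb'.2.2.symm
        · exact hp.symm.trans (a1.trans hp')
        · exact a3
        · exact a6
  refine e1.trans ?_
  have e3 : (Q.card : ℝ) ≤ tau b * (tau (LL τ (m0 * n) b 2) * (tau (LL τ (m0' * n) b 2) *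
      ((tau (LL τ (m0 * n) b 3) * tau (LL τ (m0 * n) b 3)) *
      (tau (LL τ (m0' * n) b 3) * tau (LL τ (m0' * n) b 3))))) := by
    simp only [card_product] at e2
    unfold tau
    exact_mod_cast e2
  refine e3.trans ?_
  unfold xT3_w
  simp only
  have t1 := one_le_tau h1
  have t2 := one_le_tau h2
  have t2' := one_le_tau h2'
  have t3 := one_le_tau h3
  have t3' := one_le_tau h3'
  generalize tau b = u1 at *
  generalize tau (LL τ (m0 * n) b 2) = u2 at *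
  generalize tau (LL τ (m0' * n) b 2) = u3 at *
  generalize tau (LL τ (m0 * n) b 3) = u4 at *
  generalize tau (LL τ (m0' * n) b 3) = u5 at *
  have c1 : ∀ u : ℝ, 1 ≤ u → u ≤ u ^ 3 := fun u hu => le_self_pow₀ hu (by norm_num)
  have c2 : ∀ u : ℝ, 1 ≤ u → u * u ≤ u ^ 3 := fun u hu => by
    rw [← pow_two]
    exact pow_le_pow_right₀ hu (by norm_num)
  calc u1 * (u2 * (u3 * (u4 * u4 * (u5 * u5))))
      ≤ u1 ^ 3 * (u2 ^ 3 * (u3 ^ 3 * (u4 ^ 3 * u5 ^ 3))) := by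
        gcongr
        · exact c1 _ t1
        · exact c1 _ t2
        · exact c1 _ t2'
        · exact c2 _ t3
        · exact c2 _ t3'
    _ = _ := by ring

/-- Exchange of summation. -/
theorem xT3_swap (T : Finset (ℕ × ℕ)) (Z U M W k X : ℕ)
    (s : (ℕ × ℕ) × (ℕ × ℕ) → Finset (ℤ × ℤ)) (S : Finset (((ℕ × ℕ) × (ℕ × ℕ)) × (ℤ × ℤ)))
    (hs : ∀ π ∈ P3 T Z U M W k, ∀ z ∈ s (bs3 π), (bs3 π, z) ∈ S)
    (hS : ∀ x ∈ S, x.2.2 ≠ 0 ∧ LL x.1.1 (x.1.2.1 * x.2.1) x.2.2 2 ≠ 0 ∧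
      LL x.1.1 (x.1.2.2 * x.2.1) x.2.2 2 ≠ 0 ∧ LL x.1.1 (x.1.2.1 * x.2.1) x.2.2 3 ≠ 0 ∧
      LL x.1.1 (x.1.2.2 * x.2.1) x.2.2 3 ≠ 0) :
    ∑ π ∈ P3 T Z U M W k, (dat3 X π).mass (s (bs3 π)) ≤ ∑ x ∈ S, xT3_w x := by
  calc ∑ π ∈ P3 T Z U M W k, (dat3 X π).mass (s (bs3 π))
      ≤ ∑ π ∈ P3 T Z U M W k, ∑ x ∈ S,
          if bs3 π = x.1 then |(dat3 X π).F x.2.1 x.2.2| else 0 := by
        refine sum_le_sum fun π hπ => ?_
        have e : (dat3 X π).mass (s (bs3 π)) = ∑ x ∈ (s (bs3 π)).image (fun z => (bs3 π, z)),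
            if bs3 π = x.1 then |(dat3 X π).F x.2.1 x.2.2| else 0 := by
          rw [sum_image (fun _ _ _ _ h => (Prod.mk.inj h).2)]
          simp only [Datum.mass, if_true]
        rw [e]
        refine sum_le_sum_of_subset_of_nonneg ?_ fun x _ _ => ?_
        · intro x hx
          obtain ⟨z, hz, rfl⟩ := mem_image.1 hx
          exact hs π hπ z hz
        · split_ifs
          · exact abs_nonneg _
          · exact le_rfl
    _ = ∑ x ∈ S, ∑ π ∈ (P3 T Z U M W k).filter (fun π => bs3 π = x.1),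
          |(dat3 X π).F x.2.1 x.2.2| := by
        rw [sum_comm]
        exact sum_congr rfl fun x _ => (sum_filter _ _).symm
    _ ≤ _ := sum_le_sum fun x hx => by
        obtain ⟨a1, a2, a3, a4, a5⟩ := hS x hx
        exact xT3_fib T Z U M W k X x a1 a2 a3 a4 a5

theorem xT3_side {X M : ℕ} (hM : 1 ≤ M) {p : ℕ × ℕ} (h1 : M ≤ p.1) :
    ((xT3_d X p).A2 : ℝ) - (xT3_d X p).A1 ≤ 2 * X / M := by
  have a1 : (0 : ℤ) ≤ (xT3_d X p).A1 :=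
    le_max_of_le_left (Int.ediv_nonneg (by positivity) (by positivity))
  have a2 : (xT3_d X p).A2 ≤ 2 * (X : ℤ) / p.1 := min_le_left _ _
  have hp : (0 : ℤ) < p.1 := by exact_mod_cast (show 0 < p.1 by omega)
  have a3 : (2 * (X : ℤ) / p.1) * p.1 ≤ 2 * X := Int.ediv_mul_le _ hp.ne'
  have a4 : (0 : ℤ) ≤ 2 * (X : ℤ) / p.1 := Int.ediv_nonneg (by positivity) (by positivity)
  have a5 : (2 * (X : ℤ) / p.1) * M ≤ 2 * X :=
    (mul_le_mul_of_nonneg_left (by exact_mod_cast h1) a4).trans a3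
  have hM' : (0 : ℝ) < M := by exact_mod_cast (show 0 < M by omega)
  rw [le_div_iff₀ hM']
  have a6 : ((xT3_d X p).A2 - (xT3_d X p).A1) * M ≤ 2 * X :=
    (mul_le_mul_of_nonneg_right (by linarith) (by positivity)).trans a5
  exact_mod_cast a6

theorem xT3_card_bx {X M : ℕ} (hM : 1 ≤ M) {p : ℕ × ℕ} (h1 : M ≤ p.1) :
    (((xT3_d X p).bx).card : ℝ) ≤ 2 * (X : ℝ) ^ 2 / M := by
  have h := xT3_side (X := X) hM h1
  have e : ((xT3_d X p).B2 - (xT3_d X p).B1).toNat = X := by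
    show (2 * (X : ℤ) - X).toNat = X
    omega
  unfold Datum.bx
  rw [card_product, Int.card_Ioc, Int.card_Ioc, e]
  have h2 : ((((xT3_d X p).A2 - (xT3_d X p).A1).toNat : ℕ) : ℝ) ≤ 2 * X / M := by
    rcases le_total 0 ((xT3_d X p).A2 - (xT3_d X p).A1) with h0 | h0
    · have := Int.toNat_of_nonneg h0
      have h3 : ((((xT3_d X p).A2 - (xT3_d X p).A1).toNat : ℕ) : ℝ) =
          ((xT3_d X p).A2 : ℝ) - (xT3_d X p).A1 := by exact_mod_cast this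
      rw [h3]
      exact h
    · rw [Int.toNat_eq_zero.2 h0]
      simp only [Nat.cast_zero]
      positivity
  push_cast
  calc _ ≤ (2 * X / M : ℝ) * X := mul_le_mul_of_nonneg_right h2 (by positivity)
    _ = _ := by ring

theorem xT3_card_nr {X M H : ℕ} {V : ℝ} (hM : 1 ≤ M) (hH : 1 ≤ H) (hV : 1 ≤ V)
    (hHM : H * M ≤ X) {p : ℕ × ℕ} (h1 : M ≤ p.1) (h2 : p.2 < 2 * M)
    (hf : (M : ℝ) / V ≤ |(p.1 : ℝ) - p.2|) :
    (((xT3_d X p).nr (10 * X) H).card : ℝ) ≤ 100 * (X : ℝ) ^ 2 * V / (H * M) := by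
  have hM' : (0 : ℝ) < M := by exact_mod_cast (show 0 < M by omega)
  have hH' : (0 : ℝ) < H := by exact_mod_cast (show 0 < H by omega)
  have hM1 : (1 : ℝ) ≤ M := by exact_mod_cast hM
  have hV' : (0 : ℝ) < V := by linarith
  have hHM' : (H : ℝ) * M ≤ X := by exact_mod_cast hHM
  have h2' : (p.2 : ℝ) ≤ 2 * M := by exact_mod_cast h2.le
  have hX : (0 : ℝ) ≤ X := by positivity
  set D : ℝ := |(p.1 : ℝ) - p.2| with hD
  have hD0 : 0 < D := lt_of_lt_of_le (by positivity) hf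
  have hD1 : (M : ℝ) ≤ D * V := by rwa [div_le_iff₀ hV'] at hf
  have e1 : |(((xT3_d X p).det : ℤ) : ℝ)| = 4 * D := by
    have : (((xT3_d X p).det : ℤ) : ℝ) = 4 * ((p.1 : ℝ) - p.2) := by
      simp only [Datum.det, xT3_d]
      push_cast
      ring
    rw [this, abs_mul, hD]
    norm_num
  have e2 : |(((xT3_d X p).β' : ℤ) : ℝ)| = 1 := by simp [xT3_d]
  have e3 : |(((xT3_d X p).α' : ℤ) : ℝ)| = 4 * p.2 := by
    have : (((xT3_d X p).α' : ℤ) : ℝ) = 4 * (p.2 : ℝ) := by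
      simp only [xT3_d]
      push_cast
      ring
    rw [this]
    exact abs_of_nonneg (by positivity)
  have hB : (((xT3_d X p).B2 : ℤ) : ℝ) - (xT3_d X p).B1 ≤ X := by
    simp only [xT3_d]
    push_cast
    linarith
  unfold Datum.nr
  rw [e1, e2, e3]
  refine (card_near _ (by positivity) (by positivity) (by positivity) hX (xT3_side hM h1)
    hB).trans ?_
  set R : ℝ := X * V / (H * M) with hR
  have r1 : 1 ≤ R := by
    rw [hR, le_div_iff₀ (by positivity)]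
    nlinarith
  have r2 : 10 * (X : ℝ) * 1 / (H * (4 * D)) ≤ 3 * R := by
    rw [hR, div_le_iff₀ (by positivity)]
    have : 3 * (X * V / (H * M)) * (H * (4 * D)) = 12 * X * (D * V / M) := by
      field_simp
      ring
    rw [this]
    have : 1 ≤ D * V / M := by rwa [le_div_iff₀ hM', one_mul]
    nlinarith
  have r3 : 10 * (X : ℝ) * (4 * p.2) / (H * (4 * D)) ≤ 20 * (R * M) := by
    rw [hR, div_le_iff₀ (by positivity)]
    have : 20 * (X * V / (H * M) * M) * (H * (4 * D)) = 80 * X * (D * V) := by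
      field_simp
      ring
    rw [this]
    have : (p.2 : ℝ) ≤ 2 * (D * V) := by linarith
    nlinarith
  have r4 : 1 ≤ R * M := by nlinarith
  calc _ ≤ 2 * (3 * R + R) * X + 2 * (20 * (R * M) + R * M) * (2 * X / M) := by gcongr
    _ = 92 * (R * X) := by
        field_simp
        ring
    _ ≤ 100 * (R * X) := by
        have : 0 ≤ R * X := by positivity
        linarith
    _ = _ := by
        rw [hR]
        ring

/-- The set of points attached to a triple. -/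
def xT3_s (X M H : ℕ) (T : Finset (ℕ × ℕ)) (b : (ℕ × ℕ) × (ℕ × ℕ)) : Finset (ℤ × ℤ) :=
  if b ∈ B3 T M then (xT3_d X b.2).nr (10 * X) H else (xT3_d X b.2).bx

theorem xT3_s_sub (X M H : ℕ) (T : Finset (ℕ × ℕ)) (b : (ℕ × ℕ) × (ℕ × ℕ)) :
    xT3_s X M H T b ⊆ (xT3_d X b.2).bx := by
  unfold xT3_s
  split_ifs
  · exact filter_subset _ _
  · exact Subset.rfl

theorem xT3_sum_s {C0 V : ℝ} {X Y M H : ℕ} (hH : 1 ≤ H) (hV : 1 ≤ V) (hVM : V ≤ M)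
    (hHM : H * M ≤ X) (hVH : V ^ 2 ≤ 2 * H) :
    ∑ b ∈ TT C0 Y ×ˢ (Ico M (2 * M) ×ˢ Ico M (2 * M)), ((xT3_s X M H (TT C0 Y) b).card : ℝ) ≤
      210 * ((Y : ℝ) ^ 2 * M * (X : ℝ) ^ 2 / V) := by
  have hM1 : (1 : ℝ) ≤ M := hV.trans hVM
  have hM : 1 ≤ M := by exact_mod_cast hM1
  have hM' : (0 : ℝ) < M := by linarith
  have hH' : (0 : ℝ) < H := by exact_mod_cast (show 0 < H by omega)
  have hV' : (0 : ℝ) < V := by linarith
  have hb := card_bad3 (C0 := C0) (Y := Y) hV hVM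
  have hc : ((TT C0 Y ×ˢ (Ico M (2 * M) ×ˢ Ico M (2 * M))).card : ℝ) ≤
      (Y : ℝ) ^ 2 * (M : ℝ) ^ 2 := by
    rw [card_product, card_product, Nat.card_Ico, show 2 * M - M = M by omega]
    push_cast
    rw [← pow_two]
    exact mul_le_mul_of_nonneg_right (card_TT C0 Y) (by positivity)
  have hN : 100 * (X : ℝ) ^ 2 * V / (H * M) ≤ 200 * (X : ℝ) ^ 2 / (V * M) := by
    rw [div_le_div_iff₀ (by positivity) (by positivity)]
    have : 0 ≤ (X : ℝ) ^ 2 * M := by positivity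
    nlinarith
  calc _ ≤ ∑ b ∈ TT C0 Y ×ˢ (Ico M (2 * M) ×ˢ Ico M (2 * M)),
        ((if b ∉ B3 (TT C0 Y) M ∨ |(b.2.1 : ℝ) - b.2.2| < M / V then 2 * (X : ℝ) ^ 2 / M else 0) +
          200 * (X : ℝ) ^ 2 / (V * M)) := by
        refine sum_le_sum fun b hb => ?_
        simp only [mem_product, mem_Ico] at hb
        split_ifs with h
        · have : ((xT3_s X M H (TT C0 Y) b).card : ℝ) ≤ ((xT3_d X b.2).bx).card := by
            exact_mod_cast card_le_card (xT3_s_sub X M H _ b)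
          have h2 := xT3_card_bx (X := X) hM hb.2.1.1
          have : 0 ≤ 200 * (X : ℝ) ^ 2 / (V * M) := by positivity
          linarith
        · push Not at h
          unfold xT3_s
          rw [if_pos h.1, zero_add]
          exact (xT3_card_nr hM hH hV hHM hb.2.1.1 hb.2.2.2 h.2).trans hN
    _ ≤ 5 * (Y : ℝ) ^ 2 * (M : ℝ) ^ 2 / V * (2 * (X : ℝ) ^ 2 / M) +
          (Y : ℝ) ^ 2 * (M : ℝ) ^ 2 * (200 * (X : ℝ) ^ 2 / (V * M)) := by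
        rw [sum_add_distrib, ← sum_filter, sum_const, sum_const, nsmul_eq_mul, nsmul_eq_mul]
        gcongr
    _ = _ := by
        field_simp
        ring

theorem xT3_core {C : ℕ} (hC : ∀ (C0 : ℝ) (X Y M : ℕ), 100 ≤ X → 1 ≤ Y → Y ^ 100 ≤ X → 1 ≤ M →
    M ^ 100 ≤ X → ∀ S : Finset (((ℕ × ℕ) × (ℕ × ℕ)) × (ℤ × ℤ)),
    (∀ x ∈ S, x.1.1 ∈ TT C0 Y ∧ x.1.2.1 ∈ Ico M (2 * M) ∧ x.1.2.2 ∈ Ico M (2 * M) ∧
      IsCoprime (x.1.2.1 : ℤ) (ss x.1.1) ∧ IsCoprime (x.1.2.2 : ℤ) (ss x.1.1) ∧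
      0 < x.2.1 ∧ M * x.2.1 ≤ 2 * X ∧ x.2.2 ∈ Ioc (X : ℤ) (2 * X)) →
    ∑ x ∈ S, xT3_w x ≤ √(S.card * M) * X * Y * Real.log X ^ C)
    {C0 V : ℝ} {X Y M H : ℕ} (Z U W k : ℕ) (hX : 100 ≤ X) (hY : 1 ≤ Y) (hY' : Y ^ 100 ≤ X)
    (hM' : M ^ 100 ≤ X) (hH : 1 ≤ H) (hV : 1 ≤ V) (hVM : V ≤ M)
    (hHM : H * M ≤ X) (hVH : V ^ 2 ≤ 2 * H) :
    ∑ π ∈ P3 (TT C0 Y) Z U M W k, (dat3 X π).mass (xT3_s X M H (TT C0 Y) (bs3 π)) ≤
      √(210 * ((Y : ℝ) ^ 2 * M * (X : ℝ) ^ 2 / V) * M) * X * Y * Real.log X ^ C := by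
  have hM1 : (1 : ℝ) ≤ M := hV.trans hVM
  have hM : 1 ≤ M := by exact_mod_cast hM1
  set Tr := (TT C0 Y ×ˢ (Ico M (2 * M) ×ˢ Ico M (2 * M))).filter
    fun b => IsCoprime (b.2.1 : ℤ) (ss b.1) ∧ IsCoprime (b.2.2 : ℤ) (ss b.1) with hTr
  set S := Tr.biUnion fun b => (xT3_s X M H (TT C0 Y) b).image fun z => (b, z) with hS
  have hmem : ∀ x ∈ S, x.1.1 ∈ TT C0 Y ∧ x.1.2.1 ∈ Ico M (2 * M) ∧ x.1.2.2 ∈ Ico M (2 * M) ∧
      IsCoprime (x.1.2.1 : ℤ) (ss x.1.1) ∧ IsCoprime (x.1.2.2 : ℤ) (ss x.1.1) ∧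
      0 < x.2.1 ∧ M * x.2.1 ≤ 2 * X ∧ x.2.2 ∈ Ioc (X : ℤ) (2 * X) := by
    intro x hx
    obtain ⟨b, hb, hx⟩ := mem_biUnion.1 hx
    obtain ⟨z, hz, rfl⟩ := mem_image.1 hx
    have hz' := xT3_s_sub X M H _ b hz
    obtain ⟨hb1, hb2⟩ := mem_filter.1 hb
    obtain ⟨hb3, hb4⟩ := mem_product.1 hb1
    obtain ⟨hb5, hb6⟩ := mem_product.1 hb4
    obtain ⟨hz1, hz2⟩ := mem_product.1 hz'
    obtain ⟨hz3, hz4⟩ := mem_Ioc.1 hz1
    have a1 : (0 : ℤ) ≤ (xT3_d X b.2).A1 :=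
      le_max_of_le_left (Int.ediv_nonneg (by positivity) (by positivity))
    have a2 : z.1 ≤ 2 * (X : ℤ) / b.2.1 := hz4.trans (min_le_left _ _)
    have a3 : M ≤ b.2.1 := (mem_Ico.1 hb5).1
    have hp : (0 : ℤ) < b.2.1 := by exact_mod_cast (show 0 < b.2.1 by omega)
    have a4 : z.1 * b.2.1 ≤ 2 * X := (Int.le_ediv_iff_mul_le hp).1 a2
    have a5 : 0 < z.1 := lt_of_le_of_lt a1 hz3
    have a6 : (M : ℤ) ≤ b.2.1 := by exact_mod_cast a3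
    refine ⟨hb3, hb5, hb6, hb2.1, hb2.2, a5, ?_, hz2⟩
    show (M : ℤ) * z.1 ≤ 2 * X
    nlinarith
  have hcard : (S.card : ℝ) ≤ 210 * ((Y : ℝ) ^ 2 * M * (X : ℝ) ^ 2 / V) := by
    refine le_trans ?_ (xT3_sum_s (C0 := C0) (Y := Y) hH hV hVM hHM hVH)
    have h1 : S.card ≤ ∑ b ∈ TT C0 Y ×ˢ (Ico M (2 * M) ×ˢ Ico M (2 * M)),
        (xT3_s X M H (TT C0 Y) b).card :=
      card_biUnion_le.trans ((sum_le_sum fun b _ => card_image_le).trans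
        (sum_le_sum_of_subset (filter_subset _ _)))
    exact_mod_cast h1
  refine (xT3_swap _ Z U M W k X _ S ?_ ?_).trans ((hC C0 X Y M hX hY hY' hM hM' S hmem).trans ?_)
  · intro π hπ z hz
    obtain ⟨p1, p2, p3, -⟩ := mem_P3.1 hπ
    have hτ := (mem_TT p1).1
    obtain ⟨q1, q2⟩ := mem_filter.1 p2
    obtain ⟨q3, q4⟩ := mem_filter.1 p3
    have c : ∀ m : Fin 4 → ℕ, m ∈ MS (nn π.1) Z U → IsCoprime (m 0 : ℤ) (ss π.1) := fun m hm =>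
      (((mem_MS.1 hm).1.cop_ss hτ).of_isCoprime_of_dvd_left
        (Int.natCast_dvd_natCast.2 (dvd_MM m 0))).of_isCoprime_of_dvd_right (Dvd.intro_left 2 rfl)
    refine mem_biUnion.2 ⟨bs3 π, mem_filter.2 ⟨?_, c _ q1, c _ q3⟩, mem_image.2 ⟨z, hz, rfl⟩⟩
    exact mem_product.2 ⟨p1, mem_product.2 ⟨mem_Ico.2 q2, mem_Ico.2 q4⟩⟩
  · intro x hx
    obtain ⟨p1, -, -, -, -, p2, -, p3⟩ := hmem x hx
    have hτ := (mem_TT p1).1.pos
    have hs : 0 < ss x.1.1 := hτ.1.trans hτ.2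
    have hb : 0 < x.2.2 := lt_of_le_of_lt (by positivity) (mem_Ioc.1 p3).1
    have c2 : ∀ m : ℕ, LL x.1.1 (m * x.2.1) x.2.2 2 ≠ 0 := fun m => by
      show 4 * ((m : ℤ) * x.2.1) + x.2.2 ≠ 0
      positivity
    have c3 : ∀ m : ℕ, LL x.1.1 (m * x.2.1) x.2.2 3 ≠ 0 := fun m => by
      show 4 * kk x.1.1 ^ 2 * ((m : ℤ) * x.2.1) + ss x.1.1 ^ 2 * x.2.2 ≠ 0
      positivity
    exact ⟨hb.ne', c2 _, c2 _, c3 _, c3 _⟩
  · have : 0 ≤ Real.log X := Real.log_natCast_nonneg X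
    gcongr

theorem triv3 (A : ℕ) : ∃ h A1 X1 : ℕ, ∀ X ≥ X1, ∀ (Y Z U M W k : ℕ) (C0 : ℝ), Reg A1 X Y Z U →
    U ≤ M → M ≤ Z →
    ∑ π ∈ (P3 (TT C0 Y) Z U M W k).filter fun π => bs3 π ∈ B3 (TT C0 Y) M,
        (dat3 X π).mass ((dat3 X π).nr (10 * X) ⌊Real.log X ^ h⌋₊) +
      ∑ π ∈ (P3 (TT C0 Y) Z U M W k).filter fun π => bs3 π ∉ B3 (TT C0 Y) M,
        (dat3 X π).mass (dat3 X π).bx ≤
      (X : ℝ) ^ 2 * (Y : ℝ) ^ 2 * M / Real.log X ^ A := by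
  obtain ⟨C, hC⟩ := triv_L3
  obtain ⟨X1, hX1⟩ := log_pow_le (2 * (2 * (A + C + 4))) 2 2
  refine ⟨2 * (2 * (A + C + 4)), 2 * (A + C + 4), max 100 X1, ?_⟩
  intro X hX Y Z U M W k C0 hR hUM hMZ
  have hX' : 100 ≤ X := le_of_max_le_left hX
  obtain ⟨hL, hL2⟩ := hX1 X (le_of_max_le_right hX)
  set L := Real.log X with hLd
  set H := ⌊L ^ (2 * (2 * (A + C + 4)))⌋₊ with hHd
  set V := L ^ (2 * (A + C + 4)) with hVd
  have hL1 : 1 ≤ L := by linarith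
  have hV : 1 ≤ V := one_le_pow₀ hL1
  have hVY : V ≤ Y := hR.hY
  have hY1 : (1 : ℝ) ≤ Y := hV.trans hVY
  have hY : 1 ≤ Y := by exact_mod_cast hY1
  have hYM : Y ≤ M := by
    have h1 := hR.hU
    have h2 : Y ≤ Y ^ 4 := Nat.le_self_pow (by norm_num) Y
    omega
  have hM : 1 ≤ M := hY.trans hYM
  have hVM : V ≤ M := hVY.trans (by exact_mod_cast hYM)
  have hM' : M ^ 100 ≤ X := (Nat.pow_le_pow_left hMZ 100).trans hR.hZ
  have eV : L ^ (2 * (2 * (A + C + 4))) = V ^ 2 := by rw [hVd, ← pow_mul, mul_comm]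
  have hV2 : 1 ≤ V ^ 2 := one_le_pow₀ hV
  have hH : 1 ≤ H := by
    rw [hHd, eV]
    exact Nat.le_floor (by exact_mod_cast hV2)
  have hH1 : (1 : ℝ) ≤ H := by exact_mod_cast hH
  have hVH : V ^ 2 ≤ 2 * H := by
    have := Nat.lt_floor_add_one (V ^ 2)
    rw [← eV, ← hHd, eV] at this
    linarith
  have hHV : (H : ℝ) ≤ V ^ 2 := by
    rw [hHd, eV]
    exact Nat.floor_le (by positivity)
  have hHM : H * M ≤ X := by
    have h1 : H ^ 2 ≤ X := by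
      have : (H : ℝ) ^ 2 ≤ X := by
        refine le_trans ?_ hL2
        rw [eV]
        gcongr
        linarith
      exact_mod_cast this
    have h2 : M ^ 2 ≤ X := (Nat.pow_le_pow_right hM (by norm_num)).trans hM'
    have h3 : (H * M) ^ 2 ≤ X ^ 2 := by
      rw [mul_pow, pow_two X]
      exact Nat.mul_le_mul h1 h2
    exact (Nat.pow_le_pow_iff_left (by norm_num)).1 h3
  have hcore := xT3_core hC (C0 := C0) Z U W k hX' hY hR.hY' hM' hH hV hVM hHM hVH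
  have e : ∑ π ∈ (P3 (TT C0 Y) Z U M W k).filter fun π => bs3 π ∈ B3 (TT C0 Y) M,
        (dat3 X π).mass ((dat3 X π).nr (10 * X) H) +
      ∑ π ∈ (P3 (TT C0 Y) Z U M W k).filter fun π => bs3 π ∉ B3 (TT C0 Y) M,
        (dat3 X π).mass (dat3 X π).bx =
      ∑ π ∈ P3 (TT C0 Y) Z U M W k, (dat3 X π).mass (xT3_s X M H (TT C0 Y) (bs3 π)) := by
    rw [← sum_filter_add_sum_filter_not (P3 (TT C0 Y) Z U M W k)
      (fun π => bs3 π ∈ B3 (TT C0 Y) M)]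
    congr 1
    · refine sum_congr rfl fun π hπ => ?_
      unfold xT3_s
      rw [if_pos (mem_filter.1 hπ).2]
      rfl
    · refine sum_congr rfl fun π hπ => ?_
      unfold xT3_s
      rw [if_neg (mem_filter.1 hπ).2]
      rfl
  rw [e]
  refine hcore.trans ?_
  have hL0 : 0 < L := by linarith
  have s1 : √(210 * ((Y : ℝ) ^ 2 * M * (X : ℝ) ^ 2 / V) * M) ≤
      16 * (Y * M * X) / L ^ (A + C + 4) := by
    refine Real.sqrt_le_iff.2 ⟨by positivity, ?_⟩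
    have : (16 * ((Y : ℝ) * M * X) / L ^ (A + C + 4)) ^ 2 =
        256 * ((Y : ℝ) ^ 2 * M * (X : ℝ) ^ 2 / V) * M := by
      rw [hVd, mul_comm 2 (A + C + 4), pow_mul]
      field_simp
      ring
    rw [this]
    gcongr
    norm_num
  have s2 : (16 : ℝ) ≤ L ^ 4 := by
    calc (16 : ℝ) = 2 ^ 4 := by norm_num
      _ ≤ L ^ 4 := by gcongr
  calc _ ≤ L ^ 4 * (Y * M * X) / L ^ (A + C + 4) * X * Y * L ^ C := by
        gcongr
        refine s1.trans ?_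
        gcongr
    _ = _ := by
        rw [pow_add, pow_add]
        field_simp

end Pool.Agent.MP_e23604_nt.P
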