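import Pool.Agent.MP_e23604_nt.P.Core
import Pool.Agent.MP_e23604_nt.P.Repl
import Pool.Agent.MP_e23604_nt.P.C3
import Pool.Agent.MP_e23604_nt.P.T3

/-!
Step 3.
-/

open Finset
open scoped Classical

noncomputable section

namespace Pool.Agent.MP_e23604_nt.P

theorem xStep3_one {X n b : ℤ} {m0 m : ℕ} (hX : 4 ≤ X) (h1 : X / m0 < n) (h2 : n ≤ 2 * X / m0)
    (h3 : X < b) (h4 : b ≤ 2 * X) :
    0 ≤ (4 * m0 * n + 1 * b) / (m : ℤ) ∧ (4 * m0 * n + 1 * b) / (m : ℤ) ≤ X ^ 3 := by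
  have h5 : 0 ≤ X / m0 := Int.ediv_nonneg (by omega) (Int.natCast_nonneg _)
  have h6 : 0 ≤ (m0 : ℤ) * n := mul_nonneg (Int.natCast_nonneg _) (by omega)
  have h7 : (m0 : ℤ) * n ≤ 2 * X := by
    rcases Nat.eq_zero_or_pos m0 with h | h
    · subst h
      simp only [Nat.cast_zero, zero_mul]
      omega
    · rw [mul_comm]
      exact (Int.le_ediv_iff_mul_le (by exact_mod_cast h)).1 h2
  have h8 : 0 ≤ 4 * m0 * n + 1 * b := by linarith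
  refine ⟨Int.ediv_nonneg h8 (Int.natCast_nonneg _), (Int.ediv_le_self _ h8).trans ?_⟩
  have h9 : 10 * X ≤ X ^ 3 := by nlinarith [mul_le_mul hX hX (by norm_num) (by omega)]
  linarith

theorem xStep3_blk : ∃ A B0 : ℕ, ∀ B ≥ B0, ∃ X1 : ℕ, ∀ X ≥ X1, ∀ (Y Z U M k : ℕ) (C0 : ℝ),
    Reg A X Y Z U → U ≤ M → M ≤ Z → ((WW B X + 1) ^ (k + 1)) ^ 100 ≤ X →
    |SS X (TT C0 Y) (MB Z U M) (fun τ => ![lam, lam, gg (WW B X), flat (Q4 (WW B X) τ) k])| ≤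
      19 * ((X : ℝ) ^ 2 * (Y : ℝ) ^ 2) / Real.log X ^ 5 := by
  obtain ⟨h, A, X1, h1⟩ := triv3 18
  obtain ⟨B0, h2⟩ := core 16 h
  refine ⟨A, B0, fun B hB => ?_⟩
  obtain ⟨X2, h2⟩ := h2 B hB
  obtain ⟨X3, h3⟩ := cs3
  obtain ⟨X4, h4⟩ := hyp3
  obtain ⟨X5, h5⟩ := wt_all B
  obtain ⟨X6, h6⟩ := log_pow_le 0 0 1
  refine ⟨X1 + X2 + X3 + X4 + X5 + X6 + 4, fun X hX Y Z U M k C0 hR hU hM hk => ?_⟩
  have hR0 := hR.mono (Nat.zero_le _) (by omega)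
  have hM1 : 1 ≤ M := hR0.one_le.2.trans hU
  have hL := (h6 X (by omega)).1
  have hW := (h5 X (by omega)).2.2
  have a1 := h1 X (by omega) Y Z U M (WW B X) k C0 hR hU hM
  have a2 := h2 X (by omega) _ _ _ _ _ _ _ _ ⌊Real.log X ^ h⌋₊ _
    (h4 X (by omega) Y Z U M (WW B X) k C0 hR0 hU hM hk)
    (Nat.le_floor (by simpa using one_le_pow₀ hL)) (Nat.floor_le (by positivity)) hW
  have a3 := h3 X (by omega) Y Z U M (WW B X) k C0 (gg (WW B X)) hM1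
  have a4 : ∀ π : I3, (dat3 X π).T (gg (WW B X)) (gg (WW B X)) ≤
      9 * Real.log X ^ 2 * (dat3 X π).mass (dat3 X π).bx := by
    intro π
    refine (le_abs_self _).trans ((T_le_mass _ _ _ (Γ := 3 * Real.log X) ?_).trans_eq (by ring))
    intro z hz
    simp only [Datum.bx, dat3, mem_product, mem_Ioc, max_lt_iff, le_min_iff] at hz
    have hX4 : (4 : ℤ) ≤ X := by omega
    have b1 := xStep3_one (m := π.2.1.1 2) hX4 hz.1.1.1 hz.1.2.1 hz.2.1 hz.2.2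
    have b2 := xStep3_one (m := π.2.2.1 2) hX4 hz.1.1.2 hz.1.2.2 hz.2.1 hz.2.2
    exact ⟨hW.1 _ b1.1 b1.2, hW.1 _ b2.1 b2.2⟩
  rw [← sum_filter_add_sum_filter_not _ (fun π => bs3 π ∈ B3 (TT C0 Y) M)] at a3
  have a5 := (sum_le_sum fun π _ => le_abs_self _).trans a2
  have a6 := sum_le_sum fun π (_ : π ∈ (P3 (TT C0 Y) Z U M (WW B X) k).filter
    fun π => bs3 π ∉ B3 (TT C0 Y) M) => a4 π
  rw [← mul_sum] at a6
  have a7 := mul_le_mul_of_nonneg_left a1 (show 0 ≤ 9 * Real.log X ^ 2 by positivity)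
  have hM' : (0 : ℝ) < M := by exact_mod_cast hM1
  have hL' : 0 < Real.log X := by linarith
  refine abs_le_of_sq_le_sq' ?_ (by positivity) |> abs_le.2
  refine a3.trans ((mul_le_mul_of_nonneg_left (show _ ≤ 10 * (X : ℝ) * (X / (4 * M)) *
    (128 * (Y : ℝ) ^ 2 * (M : ℝ) ^ 2) / Real.log X ^ 16 + 9 * Real.log X ^ 2 *
      ((X : ℝ) ^ 2 * (Y : ℝ) ^ 2 * M / Real.log X ^ 18) by linarith) (by positivity)).trans ?_)
  have e : (X : ℝ) ^ 2 * (Y : ℝ) ^ 2 / M * Real.log X ^ 6 * (10 * (X : ℝ) * (X / (4 * M)) *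
      (128 * (Y : ℝ) ^ 2 * (M : ℝ) ^ 2) / Real.log X ^ 16 + 9 * Real.log X ^ 2 *
      ((X : ℝ) ^ 2 * (Y : ℝ) ^ 2 * M / Real.log X ^ 18)) =
      329 * ((X : ℝ) ^ 2 * (Y : ℝ) ^ 2 / Real.log X ^ 5) ^ 2 := by
    field_simp
    ring
  rw [e, mul_div_assoc 19, mul_pow]
  exact mul_le_mul_of_nonneg_right (by norm_num) (sq_nonneg _)

theorem step3 : ∃ A B0 : ℕ, ∀ B ≥ B0, ∃ X1 : ℕ, ∀ X ≥ X1, ∀ (Y Z U : ℕ) (C0 : ℝ),
    Reg A X Y Z U →
    |SS X (TT C0 Y) (MF Z U) (fun _ => ![lam, lam, gg (WW B X), shp (WW B X)])| ≤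
      (X : ℝ) ^ 2 * (Y : ℝ) ^ 2 := by
  obtain ⟨A, B0, h1⟩ := xStep3_blk
  obtain ⟨C, h2⟩ := repl3
  refine ⟨A, B0, fun B hB => ?_⟩
  obtain ⟨X1, h1⟩ := h1 B hB
  obtain ⟨X2, h2⟩ := h2 B
  obtain ⟨X3, h3⟩ := exists_level B (C + 1) 100
  obtain ⟨X4, h4⟩ := cW_le B
  obtain ⟨X5, h5⟩ := wt_all B
  obtain ⟨X6, h6⟩ := log_pow_le 0 0 10
  refine ⟨X1 + X2 + X3 + X4 + X5 + X6 + 4, fun X hX Y Z U C0 hR => ?_⟩
  have hR0 := hR.mono (Nat.zero_le _) (by omega)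
  have hL := (h6 X (by omega)).1
  obtain ⟨hW1, -, hW3⟩ := h5 X (by omega)
  obtain ⟨k, hk1, hk2⟩ := h3 X (by omega)
  have a1 := h2 X (by omega) Y Z U k C0 _ _ _ hR0 hW1 hW1 hW3
  have a2 := h4 X (by omega)
  have a3 : ((Nat.log 2 Z + 1 : ℕ) : ℝ) ≤ 3 * Real.log X := by
    have b1 : Z ≤ X := (Nat.le_self_pow (by norm_num) Z).trans hR.hZ
    have b2 : 2 ^ Nat.log 2 Z ≤ X :=
      (Nat.pow_le_pow_right (by norm_num) (Nat.log_mono_right b1)).trans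
        (Nat.pow_log_le_self 2 (by omega))
    have b3 : ((2 : ℝ) ^ Nat.log 2 Z) ≤ X := by exact_mod_cast b2
    have b4 := Real.log_le_log (by positivity) b3
    rw [Real.log_pow] at b4
    have b5 := mul_le_mul_of_nonneg_left Real.log_two_gt_d9.le
      (Nat.cast_nonneg (α := ℝ) (Nat.log 2 Z))
    have b6 := Nat.cast_nonneg (α := ℝ) (Nat.log 2 Z)
    push_cast
    linarith
  have hL' : 0 < Real.log X := by linarith
  have a4 : |SS X (TT C0 Y) (MF Z U) (fun τ => ![lam, lam, gg (WW B X), flat (Q4 (WW B X) τ) k])| ≤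
      3 * Real.log X * (19 * ((X : ℝ) ^ 2 * (Y : ℝ) ^ 2) / Real.log X ^ 5) := by
    rw [blocks X _ Z hR0.one_le.2]
    refine (abs_sum_le_sum_abs _ _).trans ((sum_le_card_nsmul _ _ _ fun j hj =>
      h1 X (by omega) Y Z U _ k C0 hR (Nat.le_mul_of_pos_right _ (by positivity))
        (mem_filter.1 hj).2 hk2).trans ?_)
    rw [nsmul_eq_mul]
    refine mul_le_mul_of_nonneg_right (le_trans ?_ a3) (by positivity)
    exact_mod_cast (card_filter_le _ _).trans_eq (card_range _)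
  have a5 : (X : ℝ) ^ 2 * (Y : ℝ) ^ 2 * Real.log X ^ C / 2 ^ k ≤ (X : ℝ) ^ 2 * (Y : ℝ) ^ 2 / 2 := by
    rw [mul_div_assoc, div_eq_mul_one_div _ (2 : ℝ)]
    refine mul_le_mul_of_nonneg_left ?_ (by positivity)
    rw [div_le_div_iff₀ (by positivity) (by norm_num), one_mul]
    refine le_trans ?_ hk1
    rw [pow_succ]
    exact mul_le_mul_of_nonneg_left (by linarith) (by positivity)
  have a6 : Real.log X * (3 * Real.log X * (19 * ((X : ℝ) ^ 2 * (Y : ℝ) ^ 2) / Real.log X ^ 5)) ≤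
      (X : ℝ) ^ 2 * (Y : ℝ) ^ 2 / 2 := by
    have b1 : (10 : ℝ) ^ 3 ≤ Real.log X ^ 3 := pow_le_pow_left₀ (by norm_num) hL 3
    have e : Real.log X * (3 * Real.log X * (19 * ((X : ℝ) ^ 2 * (Y : ℝ) ^ 2) / Real.log X ^ 5)) =
        (X : ℝ) ^ 2 * (Y : ℝ) ^ 2 * (57 / Real.log X ^ 3) := by
      field_simp
      ring
    rw [e, div_eq_mul_one_div _ (2 : ℝ)]
    refine mul_le_mul_of_nonneg_left ?_ (by positivity)
    rw [div_le_div_iff₀ (by positivity) (by norm_num)]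
    linarith
  have a7 := mul_le_mul a2 a4 (abs_nonneg _) hL'.le
  have a8 := abs_sub_abs_le_abs_sub
    (SS X (TT C0 Y) (MF Z U) (fun _ => ![lam, lam, gg (WW B X), shp (WW B X)])) (cW (WW B X) *
      SS X (TT C0 Y) (MF Z U) (fun τ => ![lam, lam, gg (WW B X), flat (Q4 (WW B X) τ) k]))
  rw [abs_mul, abs_of_nonneg (zero_le_one.trans (one_le_cW _))] at a8
  linarith

end Pool.Agent.MP_e23604_nt.P
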