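import Pool.Agent.MP_e23604_nt.P.H4
import Pool.Agent.MP_e23604_nt.P.CW

/-!
The trivial terms of step 4.
-/

open Finset
open scoped Classical

noncomputable section

namespace Pool.Agent.MP_e23604_nt.P

/-- The points that are treated trivially. -/
def xT4_N (X Y : ℕ) (V : ℝ) (H : ℕ) (b : (ℕ × ℕ) × (ℕ × ℕ)) : Finset (ℤ × ℤ) :=
  if |((∏ i, f4 i b : ℤ) : ℝ)| < (Y : ℝ) ^ 8 / (4 * V ^ 2) then box X
  else (dat4 X (b, 0, 0)).nr (40 * X * (Y : ℝ) ^ 4) H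

theorem xT4_sub (X Y : ℕ) (V : ℝ) (H : ℕ) (b : (ℕ × ℕ) × (ℕ × ℕ)) : xT4_N X Y V H b ⊆ box X := by
  unfold xT4_N
  split_ifs
  · exact Subset.rfl
  · exact filter_subset _ _

theorem xT4_fib {C0 : ℝ} {X Y Z U : ℕ} {b : (ℕ × ℕ) × (ℕ × ℕ)} (hb : b ∈ TT C0 Y ×ˢ TT C0 Y)
    {z : ℤ × ℤ} (hz : z ∈ box X) :
    ∑ π ∈ (P4 (TT C0 Y) Z U).filter fun π => π.1 = b, |(dat4 X π).F z.1 z.2| ≤
      (∏ i, tau (LL b.1 z.1 z.2 i) ^ 3) * tau (LL b.2 z.1 z.2 3) ^ 3 := by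
  have n1 : ∀ τ ∈ TT C0 Y, ∀ i, LL τ z.1 z.2 i ≠ 0 := fun τ hτ i =>
    ((Int.natCast_nonneg X).trans_lt (LL_gt (mem_TT hτ).1 hz i)).ne'
  have n2 := n1 _ (mem_product.1 hb).1
  have n3 := n1 _ (mem_product.1 hb).2 3
  set P := ((P4 (TT C0 Y) Z U).filter fun π => π.1 = b).filter
    fun π => GG b.2 π.2.2 z.1 z.2 ≠ 0 with hP
  have hm : ∀ π ∈ P, π ∈ P4 (TT C0 Y) Z U ∧ π.1 = b ∧ GG b.2 π.2.2 z.1 z.2 ≠ 0 := fun π h => by
    simpa only [hP, mem_filter, and_assoc] using h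
  have hi : Set.InjOn (fun π : I4 => (π.2.1, π.2.2 3)) P := by
    intro π h π' h' e
    obtain ⟨a1, a2, -⟩ := hm π h
    obtain ⟨b1, b2, -⟩ := hm π' h'
    obtain ⟨-, -, -, -, c0, c1, c2⟩ := mem_P4.1 a1
    obtain ⟨-, -, -, -, d0, d1, d2⟩ := mem_P4.1 b1
    obtain ⟨e1, e2⟩ := Prod.mk.inj e
    refine Prod.ext (a2.trans b2.symm) (Prod.ext e1 (funext fun i => ?_))
    fin_cases i
    · exact c0.symm.trans ((congrFun e1 0).trans d0)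
    · exact c1.symm.trans ((congrFun e1 1).trans d1)
    · exact c2.symm.trans ((congrFun e1 2).trans d2)
    · exact e2
  have h3 : ∀ {n : ℤ}, n ≠ 0 → tau n ≤ tau n ^ 3 := fun hn => le_self_pow₀ (one_le_tau hn) (by simp)
  calc _ = ∑ π ∈ P, |(dat4 X π).F z.1 z.2| := by
        symm
        apply sum_filter_of_ne
        intro π h hn e
        refine hn ?_
        change |GG π.1.1 π.2.1 z.1 z.2 * GG π.1.2 π.2.2 z.1 z.2| = 0
        rw [(mem_filter.1 h).2, e, mul_zero, abs_zero]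
    _ ≤ ∑ π ∈ P, |GG b.1 π.2.1 z.1 z.2| := by
        refine sum_le_sum fun π h => ?_
        change |GG π.1.1 π.2.1 z.1 z.2 * GG π.1.2 π.2.2 z.1 z.2| ≤ _
        rw [(hm π h).2.1, abs_mul]
        exact mul_le_of_le_one_right (abs_nonneg _) (abs_GG_le _ _ _ _)
    _ = ∑ p ∈ P.image fun π : I4 => (π.2.1, π.2.2 3), |GG b.1 p.1 z.1 z.2| :=
        (sum_image (f := fun p : (Fin 4 → ℕ) × ℕ => |GG b.1 p.1 z.1 z.2|) hi).symm
    _ ≤ ∑ p ∈ (P.image fun π => π.2.1) ×ˢ (P.image fun π => π.2.2 3), |GG b.1 p.1 z.1 z.2| := by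
        refine sum_le_sum_of_subset_of_nonneg (fun p hp => ?_) fun _ _ _ => abs_nonneg _
        obtain ⟨π, h, rfl⟩ := mem_image.1 hp
        exact mem_product.2 ⟨mem_image_of_mem _ h, mem_image_of_mem _ h⟩
    _ = (∑ m ∈ P.image fun π => π.2.1, |GG b.1 m z.1 z.2|) *
          ((P.image fun π => π.2.2 3).card : ℝ) := by
        rw [sum_product, sum_mul]
        simp only [sum_const, nsmul_eq_mul, mul_comm]
    _ ≤ _ := by
        refine mul_le_mul ((sum_GG_le n2 _).trans (prod_le_prod (fun i _ => tau_nonneg _)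
          fun i _ => h3 (n2 i))) ((card_le_tau n3 _ fun d hd => ?_).trans (h3 n3))
          (Nat.cast_nonneg _) (prod_nonneg fun i _ => pow_nonneg (tau_nonneg _) _)
        obtain ⟨π, h, rfl⟩ := mem_image.1 hd
        exact ((GG_cond (hm π h).2.2).2.2 3).1

theorem xT4_eta {X Y V H a D c : ℝ} (hX : 0 ≤ X) (hY : 0 < Y) (hV : 0 < V) (hH : V ^ 3 / 2 ≤ H)
    (ha : a ≤ c * Y ^ 4) (hc : 0 ≤ c) (hD : 16 * (Y ^ 8 / (4 * V ^ 2)) ≤ D) :
    40 * X * Y ^ 4 * a / (H * D) ≤ 20 * c * X / V := by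
  have h0 : 0 ≤ H := le_trans (by positivity) hH
  calc _ ≤ 40 * X * Y ^ 4 * (c * Y ^ 4) / (V ^ 3 / 2 * (16 * (Y ^ 8 / (4 * V ^ 2)))) := by gcongr
    _ = _ := by
      field_simp
      ring

theorem xT4_card {C0 V : ℝ} {X Y H : ℕ} (hY : 1 ≤ Y) (hV : 1 ≤ V) (hX : V ≤ X)
    (hH : V ^ 3 / 2 ≤ H) {b : (ℕ × ℕ) × (ℕ × ℕ)} (hb : b ∈ TT C0 Y ×ˢ TT C0 Y) :
    ((xT4_N X Y V H b).card : ℝ) ≤ (if |((∏ i, f4 i b : ℤ) : ℝ)| < (Y : ℝ) ^ 8 / (4 * V ^ 2)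
      then (X : ℝ) ^ 2 else 0) + 804 * (X : ℝ) ^ 2 / V := by
  have V0 : 0 < V := by linarith
  unfold xT4_N
  split_ifs with h
  · rw [card_box]
    exact le_add_of_nonneg_right (by positivity)
  · have Y0 : (0 : ℝ) < Y := by exact_mod_cast hY
    obtain ⟨-, t1, -, t2⟩ := TT_bounds (mem_product.1 hb).2
    have d1 : 16 * ((Y : ℝ) ^ 8 / (4 * V ^ 2)) ≤ |((dat4 X (b, 0, 0)).det : ℝ)| := by
      rw [det4, Int.cast_mul, abs_mul]
      exact mul_le_mul (by norm_num) (not_lt.1 h) (by positivity) (abs_nonneg _)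
    have d2 : |((dat4 X (b, 0, 0)).β' : ℝ)| ≤ 4 * (Y : ℝ) ^ 4 := by
      have : |ss b.2 ^ 2| ≤ 4 * (Y : ℤ) ^ 4 := by rwa [abs_of_nonneg (by positivity)]
      exact_mod_cast this
    have d3 : |((dat4 X (b, 0, 0)).α' : ℝ)| ≤ 16 * (Y : ℝ) ^ 4 := by
      have : |4 * kk b.2 ^ 2| ≤ 16 * (Y : ℤ) ^ 4 := by rwa [abs_of_nonneg (by positivity)]
      exact_mod_cast this
    have X0 : (0 : ℝ) ≤ X := Nat.cast_nonneg X
    have e1 := xT4_eta X0 Y0 V0 hH d2 (by norm_num) d1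
    have e2 := xT4_eta X0 Y0 V0 hH d3 (by norm_num) d1
    have s1 : (((2 * X : ℤ) : ℤ) : ℝ) - ((X : ℤ) : ℝ) ≤ X := by
      push_cast
      linarith
    refine (card_near _ (by positivity) (by positivity) X0 X0 s1 s1).trans ?_
    have e3 : 1 ≤ (X : ℝ) / V := (one_le_div V0).2 hX
    have e4 : 804 * (X : ℝ) ^ 2 / V = 804 * (X / V) * X := by ring
    rw [mul_div_assoc _ (X : ℝ)] at e1 e2
    rw [zero_add, e4, ← add_mul]
    exact mul_le_mul_of_nonneg_right (by linarith) X0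

theorem xT4_S {C0 V : ℝ} {X Y H : ℕ} (hY : 1 ≤ Y) (hV : 1 ≤ V) (hVY : V ≤ Y) (hX : V ≤ X)
    (hH : V ^ 3 / 2 ≤ H) : ∑ b ∈ TT C0 Y ×ˢ TT C0 Y, ((xT4_N X Y V H b).card : ℝ) ≤
      900 * (X : ℝ) ^ 2 * (Y : ℝ) ^ 4 / V := by
  refine (sum_le_sum fun b hb => xT4_card hY hV hX hH hb).trans ?_
  rw [sum_add_distrib, ← sum_filter, sum_const, sum_const, nsmul_eq_mul, nsmul_eq_mul, card_product,
    Nat.cast_mul]
  have h1 := card_bad4 (C0 := C0) hV hVY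
  have h2 := card_TT C0 Y
  have V0 : 0 < V := by linarith
  calc _ ≤ 10 * (Y : ℝ) ^ 4 / V * (X : ℝ) ^ 2 +
        (Y : ℝ) ^ 2 * (Y : ℝ) ^ 2 * (804 * (X : ℝ) ^ 2 / V) := by gcongr
    _ = 814 * (X : ℝ) ^ 2 * (Y : ℝ) ^ 4 / V := by ring
    _ ≤ _ := by gcongr; norm_num

theorem triv4 (A : ℕ) : ∃ h A1 X1 : ℕ, ∀ X ≥ X1, ∀ (Y Z U : ℕ) (C0 : ℝ), Reg A1 X Y Z U →
    ∑ π ∈ (P4 (TT C0 Y) Z U).filter fun π => π.1 ∈ B4 (TT C0 Y),
        (dat4 X π).mass ((dat4 X π).nr (40 * X * (Y : ℝ) ^ 4) ⌊Real.log X ^ h⌋₊) +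
      ∑ π ∈ (P4 (TT C0 Y) Z U).filter fun π => π.1 ∉ B4 (TT C0 Y),
        (dat4 X π).mass (dat4 X π).bx ≤
      (X : ℝ) ^ 2 * (Y : ℝ) ^ 4 / Real.log X ^ A := by
  obtain ⟨C, hC⟩ := triv_L4
  obtain ⟨X1, h1⟩ := log_pow_le 0 0 30
  refine ⟨2 * (A + C + 1) * 3, 2 * (A + C + 1), max X1 100, fun X hX Y Z U C0 hR => ?_⟩
  have hL := (h1 X (le_of_max_le_left hX)).1
  have hY := hR.hY
  rw [pow_mul]
  set L := Real.log X
  set V := L ^ (2 * (A + C + 1)) with hV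
  have V1 : 1 ≤ V := one_le_pow₀ (by linarith)
  have Y1 : 1 ≤ Y := by exact_mod_cast V1.trans hY
  have hVX : V ≤ X := hY.trans (by
    exact_mod_cast (Nat.le_self_pow (by norm_num) Y).trans hR.hY')
  have hH := (Nat.div_two_lt_floor (one_le_pow₀ (n := 3) V1)).le
  generalize ⌊V ^ 3⌋₊ = H at hH ⊢
  have hm : ∀ (π : I4) {s t : Finset (ℤ × ℤ)}, s ⊆ t → (dat4 X π).mass s ≤ (dat4 X π).mass t :=
    fun π _ _ h => sum_le_sum_of_subset_of_nonneg h fun _ _ _ => abs_nonneg _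
  let S := ((TT C0 Y ×ˢ TT C0 Y) ×ˢ box X).filter fun x => x.2 ∈ xT4_N X Y V H x.1
  have hS : ∀ x, x ∈ S ↔ x.1 ∈ TT C0 Y ×ˢ TT C0 Y ∧ x.2 ∈ xT4_N X Y V H x.1 := fun x =>
    ⟨fun h => ⟨(mem_product.1 (mem_filter.1 h).1).1, (mem_filter.1 h).2⟩,
      fun h => mem_filter.2 ⟨mem_product.2 ⟨h.1, xT4_sub _ _ _ _ _ h.2⟩, h.2⟩⟩
  have hc : (S.card : ℝ) ≤ (30 * X * (Y : ℝ) ^ 2 / L ^ (A + C + 1)) ^ 2 := by
    rw [card_eq_sum_ones, sum_finset_product _ _ _ hS]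
    simp only [sum_const, smul_eq_mul, mul_one, Nat.cast_sum]
    refine (xT4_S Y1 V1 hY hVX hH).trans (le_of_eq ?_)
    rw [hV]
    ring
  have L0 : 0 < L := by linarith
  calc _ ≤ ∑ π ∈ P4 (TT C0 Y) Z U, (dat4 X π).mass (xT4_N X Y V H π.1) := by
        rw [← sum_filter_add_sum_filter_not (P4 (TT C0 Y) Z U) fun π => π.1 ∈ B4 (TT C0 Y)]
        refine add_le_add (sum_le_sum fun π _ => hm π ?_) (sum_le_sum fun π h => hm π ?_)
        · unfold xT4_N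
          split_ifs
          · exact filter_subset _ _
          · exact Subset.rfl
        · obtain ⟨a1, a2⟩ := mem_filter.1 h
          obtain ⟨a3, a4, -⟩ := mem_P4.1 a1
          have a5 : ¬ ∀ i, f4 i π.1 ≠ 0 := fun a => a2 (mem_filter.2 ⟨mem_product.2 ⟨a3, a4⟩, a⟩)
          push Not at a5
          obtain ⟨i, hi⟩ := a5
          rw [xT4_N, prod_eq_zero (f := fun i => f4 i π.1) (mem_univ i) hi, Int.cast_zero, abs_zero,
            if_pos (by positivity)]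
          exact Subset.rfl
    _ ≤ ∑ x ∈ S, (∏ i, tau (LL x.1.1 x.2.1 x.2.2 i) ^ 3) * tau (LL x.1.2 x.2.1 x.2.2 3) ^ 3 := by
        rw [sum_finset_product _ _ _ hS, ← sum_fiberwise_of_maps_to (g := Prod.fst)
          (t := TT C0 Y ×ˢ TT C0 Y) fun π h => mem_product.2 ⟨(mem_P4.1 h).1, (mem_P4.1 h).2.1⟩]
        refine sum_le_sum fun b hb => ?_
        rw [sum_congr rfl fun π h => by rw [(mem_filter.1 h).2]]
        unfold Datum.mass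
        rw [sum_comm]
        exact sum_le_sum fun z hz => xT4_fib hb (xT4_sub _ _ _ _ _ hz)
    _ ≤ √(S.card) * X * (Y : ℝ) ^ 2 * L ^ C :=
        hC C0 X Y (le_of_max_le_right hX) Y1 hR.hY' S (filter_subset _ _)
    _ ≤ 30 * X * (Y : ℝ) ^ 2 / L ^ (A + C + 1) * X * (Y : ℝ) ^ 2 * L ^ C := by
        gcongr
        exact Real.sqrt_le_iff.2 ⟨by positivity, hc⟩
    _ = 30 / L * ((X : ℝ) ^ 2 * (Y : ℝ) ^ 4 / L ^ A) := by
        field_simp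
        ring
    _ ≤ _ := mul_le_of_le_one_left (by positivity) ((div_le_one L0).2 hL)

end Pool.Agent.MP_e23604_nt.P
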