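import Pool.Agent.MP_e23604_nt.P.Core
import Pool.Agent.MP_e23604_nt.P.C4
import Pool.Agent.MP_e23604_nt.P.T4

/-!
Step 4.
-/

open Finset
open scoped Classical

noncomputable section

namespace Pool.Agent.MP_e23604_nt.P

theorem xStep4_bd {C0 : ℝ} {X Y W : ℕ} {τ : ℕ × ℕ} {g : ℤ → ℝ} (hg : Wt W X g) (hX : 40 ≤ X)
    (hY : Y ^ 100 ≤ X) (hτ : τ ∈ TT C0 Y) {z : ℤ × ℤ} (hz : z ∈ box X) (m : ℕ) :
    |g (LL τ z.1 z.2 3 / (m : ℤ))| ≤ 3 * Real.log X := by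
  have h1 := LL_gt (mem_TT hτ).1 hz 3
  have h2 := LL_le hτ hz 3
  have h0 : (0 : ℤ) ≤ LL τ z.1 z.2 3 := (Int.natCast_nonneg X).trans h1.le
  have h3 : Y ^ 4 ≤ X := (Nat.pow_le_pow_right (mem_TT hτ).2.2.2.2.2.1 (by norm_num)).trans hY
  have h4 : 40 * X * Y ^ 4 ≤ X ^ 3 := by
    calc 40 * X * Y ^ 4 ≤ X * X * X := by gcongr
      _ = X ^ 3 := by ring
  have h5 : (40 : ℤ) * X * (Y : ℤ) ^ 4 ≤ (X : ℤ) ^ 3 := by exact_mod_cast h4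
  exact hg.1 _ (Int.ediv_nonneg h0 (Int.natCast_nonneg m))
    ((Int.ediv_le_self _ h0).trans (h2.trans h5))

theorem step4 : ∃ A B0 : ℕ, ∀ B ≥ B0, ∃ X1 : ℕ, ∀ X ≥ X1, ∀ (Y Z U : ℕ) (C0 : ℝ),
    Reg A X Y Z U →
    |SS X (TT C0 Y) (MF Z U) (fun _ => ![lam, lam, lam, gg (WW B X)])| ≤
      (X : ℝ) ^ 2 * (Y : ℝ) ^ 2 := by
  obtain ⟨C, X2, h2⟩ := cs4
  obtain ⟨h, A1, X3, h3⟩ := triv4 (C + 3)
  obtain ⟨B0, hB⟩ := core (C + 1) h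
  obtain ⟨X4, h4⟩ := hyp4
  obtain ⟨X5, h5⟩ := log_pow_le 0 0 489
  refine ⟨A1, B0, fun B hB0 => ?_⟩
  obtain ⟨X6, h6⟩ := hB B hB0
  obtain ⟨X7, h7⟩ := wt_all B
  refine ⟨X2 + X3 + X4 + X5 + X6 + X7 + 40, fun X hX Y Z U C0 hR => ?_⟩
  have hR0 : Reg 0 X Y Z U := hR.mono (Nat.zero_le _) (by omega)
  have hY : (0 : ℝ) < Y := by exact_mod_cast hR0.one_le.1
  have hL := (h5 X (by omega)).1
  have hW := (h7 X (by omega)).2.2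
  have a1 := h2 X (by omega) Y Z U C0 (gg (WW B X))
  have a2 := h3 X (by omega) Y Z U C0 hR
  have hp : (1 : ℝ) ≤ Real.log X ^ h := one_le_pow₀ (by linarith)
  have a3 := h6 X (by omega) _ _ _ _ _ _ _ _ ⌊Real.log X ^ h⌋₊ (gg (WW B X))
    (h4 X (by omega) Y Z U C0 hR0) (Nat.le_floor (by exact_mod_cast hp))
    (Nat.floor_le (by linarith)) hW
  have a4 : ∑ π ∈ (P4 (TT C0 Y) Z U).filter fun π => π.1 ∉ B4 (TT C0 Y),
      |(dat4 X π).T (gg (WW B X)) (gg (WW B X))| ≤ 9 * Real.log X ^ 2 *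
        ∑ π ∈ (P4 (TT C0 Y) Z U).filter fun π => π.1 ∉ B4 (TT C0 Y),
          (dat4 X π).mass (dat4 X π).bx := by
    rw [mul_sum]
    refine sum_le_sum fun π hπ => ?_
    obtain ⟨b1, b2, -⟩ := mem_P4.1 (mem_filter.1 hπ).1
    refine (T_le_mass (dat4 X π) _ _ (Γ := 3 * Real.log X) fun z hz =>
      ⟨xStep4_bd hW (by omega) hR.hY' b1 hz _, xStep4_bd hW (by omega) hR.hY' b2 hz _⟩).trans_eq ?_
    ring
  have a5 : ∑ π ∈ P4 (TT C0 Y) Z U, (dat4 X π).T (gg (WW B X)) (gg (WW B X)) ≤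
      ∑ π ∈ (P4 (TT C0 Y) Z U).filter fun π => π.1 ∈ B4 (TT C0 Y),
        |(dat4 X π).T (gg (WW B X)) (gg (WW B X))| +
      ∑ π ∈ (P4 (TT C0 Y) Z U).filter fun π => π.1 ∉ B4 (TT C0 Y),
        |(dat4 X π).T (gg (WW B X)) (gg (WW B X))| := by
    rw [sum_filter_add_sum_filter_not]
    exact sum_le_sum fun π _ => le_abs_self _
  generalize Real.log X = L at *
  have hL0 : 0 < L := by linarith
  have a6 : ∑ π ∈ P4 (TT C0 Y) Z U, (dat4 X π).T (gg (WW B X)) (gg (WW B X)) ≤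
      489 * ((X : ℝ) ^ 2 * (Y : ℝ) ^ 4 / L ^ (C + 1)) := by
    have e1 : 40 * X * (Y : ℝ) ^ 4 * (X / (Y : ℝ) ^ 4) * (12 * (Y : ℝ) ^ 4) / L ^ (C + 1) =
        480 * ((X : ℝ) ^ 2 * (Y : ℝ) ^ 4 / L ^ (C + 1)) := by
      field_simp
      ring
    have e2 : 9 * L ^ 2 * ((X : ℝ) ^ 2 * (Y : ℝ) ^ 4 / L ^ (C + 3)) =
        9 * ((X : ℝ) ^ 2 * (Y : ℝ) ^ 4 / L ^ (C + 1)) := by
      field_simp
      ring
    have e3 := mul_le_mul_of_nonneg_left a2 (by positivity : 0 ≤ 9 * L ^ 2)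
    rw [e2, mul_add] at e3
    rw [e1] at a3
    linarith
  refine abs_le_of_sq_le_sq (a1.trans ?_) (by positivity)
  calc _ ≤ (X : ℝ) ^ 2 * L ^ C * (489 * ((X : ℝ) ^ 2 * (Y : ℝ) ^ 4 / L ^ (C + 1))) :=
        mul_le_mul_of_nonneg_left a6 (by positivity)
    _ = ((X : ℝ) ^ 2 * (Y : ℝ) ^ 2) ^ 2 * (489 / L) := by
        field_simp
        ring
    _ ≤ _ := mul_le_of_le_one_right (by positivity) ((div_le_one hL0).2 hL)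

end Pool.Agent.MP_e23604_nt.P
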