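import Pool.Agent.MP_e23604_nt.P.Basic

/-!
Many admissible parameters.
-/

open Finset
open scoped Classical

noncomputable section

namespace Pool.Agent.MP_e23604_nt.P

theorem xTau_cnt (Y m r : ℕ) (hm : 0 < m) :
    (Y : ℝ) / (2 * m) - 1 ≤ (((Ioc (Y / 2) Y).filter fun x => x ≡ r [MOD m]).card : ℝ) ∧
    (((Ioc (Y / 2) Y).filter fun x => x ≡ r [MOD m]).card : ℝ) ≤ (Y : ℝ) / (2 * m) + 2 := by
  have h := Nat.Ioc_filter_modEq_card (Y / 2) Y hm r
  set c : ℕ := ((Ioc (Y / 2) Y).filter fun x => x ≡ r [MOD m]).card with hc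
  set h2 : ℕ := Y / 2 with hh
  have e1 : (2 * h2 : ℚ) ≤ Y := by exact_mod_cast Nat.mul_div_le Y 2
  have e2 : (Y : ℚ) ≤ 2 * h2 + 1 := by
    have : Y ≤ 2 * h2 + 1 := by omega
    exact_mod_cast this
  have hmq : (0 : ℚ) < m := by exact_mod_cast hm
  have hm1 : (1 : ℚ) ≤ m := by exact_mod_cast hm
  have a1 := Int.floor_le (((Y : ℚ) - r) / m)
  have a2 := Int.sub_one_lt_floor (((Y : ℚ) - r) / m)
  have b1 := Int.floor_le (((h2 : ℚ) - r) / m)
  have b2 := Int.sub_one_lt_floor (((h2 : ℚ) - r) / m)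
  have d : ((Y : ℚ) - r) / m - ((h2 : ℚ) - r) / m = ((Y : ℚ) - h2) / m := by ring
  have l1 : (Y : ℚ) / (2 * m) ≤ ((Y : ℚ) - h2) / m := by
    rw [div_le_div_iff₀ (by positivity) hmq]; nlinarith
  have l2 : ((Y : ℚ) - h2) / m ≤ (Y : ℚ) / (2 * m) + 1 := by
    rw [div_add_one (by positivity), div_le_div_iff₀ hmq (by positivity)]; nlinarith
  have hq : (c : ℚ) = max ((⌊((Y : ℚ) - r) / m⌋ : ℚ) - (⌊((h2 : ℚ) - r) / m⌋ : ℚ)) 0 := by
    exact_mod_cast h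
  have y0 : (0 : ℚ) ≤ (Y : ℚ) / (2 * m) := by positivity
  have q1 : (Y : ℚ) / (2 * m) - 1 ≤ c := by
    rw [hq]; exact le_trans (by linarith) (le_max_left _ _)
  have q2 : (c : ℚ) ≤ (Y : ℚ) / (2 * m) + 2 := by
    rw [hq]; exact max_le (by linarith) (by linarith)
  constructor
  · have := (Rat.cast_le (K := ℝ)).2 q1
    push_cast at this; exact this
  · have := (Rat.cast_le (K := ℝ)).2 q2
    push_cast at this; exact this

theorem xTau_adm (Y : ℕ) (hY : 4000 ≤ Y) :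
    (Y : ℝ) ^ 2 / 256 ≤ (((Ioc (Y / 2) Y ×ˢ Ioc (Y / 2) Y).filter Adm).card : ℝ) := by
  set B := Ioc (Y / 2) Y with hB
  set F : ℕ → ℕ → Finset ℕ := fun m r => B.filter fun x => x ≡ r [MOD m] with hF
  have hsub : F 2 1 ×ˢ F 4 0 ⊆ ((B ×ˢ B).filter Adm) ∪
      (Ioc 2 Y).biUnion fun l => F (2 * l) l ×ˢ F (4 * l) 0 := by
    rintro ⟨p, q⟩ hx
    simp only [hF, mem_product, mem_filter, Nat.ModEq] at hx
    obtain ⟨⟨hp, hp2⟩, hq, hq4⟩ := hx
    have hq' := hq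
    have hp' := hp
    rw [hB, mem_Ioc] at hq' hp'
    by_cases hc : Nat.Coprime p q
    · refine mem_union_left _ (mem_filter.2 ⟨mem_product.2 ⟨hp, hq⟩, ?_, ?_, ?_, hc⟩)
      · simpa using hp2
      · exact Nat.dvd_of_mod_eq_zero (by simpa using hq4)
      · show 0 < q; omega
    · refine mem_union_right _ ?_
      obtain ⟨l, hl, hlp, hlq⟩ := Nat.Prime.not_coprime_iff_dvd.1 hc
      have hl2 : l ≠ 2 := by
        rintro rfl
        omega
      have hodd : l % 2 = 1 := (hl.eq_two_or_odd).resolve_left hl2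
      have hl3 : 2 < l := lt_of_le_of_ne hl.two_le (Ne.symm hl2)
      have hlY : l ≤ Y := (Nat.le_of_dvd (by omega) hlp).trans hp'.2
      refine mem_biUnion.2 ⟨l, mem_Ioc.2 ⟨hl3, hlY⟩, ?_⟩
      simp only [hF, mem_product, mem_filter]
      refine ⟨⟨hp, ?_⟩, hq, ?_⟩
      · obtain ⟨k, rfl⟩ := hlp
        have hk : k % 2 = 1 := by
          rcases Nat.mod_two_eq_zero_or_one k with h | h
          · rw [Nat.mul_mod, h] at hp2; simp at hp2
          · exact h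
        have : l * k ≡ l * 1 [MOD l * 2] := Nat.ModEq.mul_left' l (by unfold Nat.ModEq; omega)
        simpa [mul_comm] using this
      · have h4 : 4 ∣ q := Nat.dvd_of_mod_eq_zero (by simpa using hq4)
        have hco : Nat.Coprime 4 l := by
          have : Nat.Coprime 2 l := (Nat.coprime_primes Nat.prime_two hl).2 (Ne.symm hl2)
          exact Nat.Coprime.pow_left 2 this
        exact (Nat.modEq_zero_iff_dvd).2 (Nat.Coprime.mul_dvd_of_dvd_of_dvd hco h4 hlq)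
  have hc := (card_le_card hsub).trans (card_union_le _ _)
  have hc2 := card_biUnion_le (s := Ioc 2 Y) (t := fun l => F (2 * l) l ×ˢ F (4 * l) 0)
  have hYr : (4000 : ℝ) ≤ Y := by exact_mod_cast hY
  have h1 : ((Y : ℝ) / 4 - 1) * ((Y : ℝ) / 8 - 1) ≤ ((F 2 1 ×ˢ F 4 0).card : ℝ) := by
    rw [card_product]; push_cast
    have a := (xTau_cnt Y 2 1 (by norm_num)).1
    have b := (xTau_cnt Y 4 0 (by norm_num)).1
    norm_num at a b
    apply mul_le_mul _ _ (by linarith) (by positivity)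
    · simp only [hF, hB]; linarith
    · simp only [hF, hB]; linarith
  have h2 : ∀ l ∈ Ioc 2 Y, ((F (2 * l) l ×ˢ F (4 * l) 0).card : ℝ) ≤
      3 * (Y : ℝ) ^ 2 / 64 * ((l : ℝ) ^ 2)⁻¹ + 13 := by
    intro l hl
    have hl0 : 0 < l := by have := (mem_Ioc.1 hl).1; omega
    have hlr : (0 : ℝ) < l := by exact_mod_cast hl0
    rw [card_product]; push_cast
    have a := (xTau_cnt Y (2 * l) l (by omega)).2
    have b := (xTau_cnt Y (4 * l) 0 (by omega)).2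
    set u : ℝ := (Y : ℝ) / (8 * l) with hu
    have ea : (Y : ℝ) / (2 * ((2 * l : ℕ) : ℝ)) = 2 * u := by
      rw [hu]; push_cast; field_simp; ring
    have eb : (Y : ℝ) / (2 * ((4 * l : ℕ) : ℝ)) = u := by
      rw [hu]; push_cast; field_simp; ring
    have ec : 3 * (Y : ℝ) ^ 2 / 64 * ((l : ℝ) ^ 2)⁻¹ = 3 * u ^ 2 := by
      rw [hu]; field_simp; ring
    rw [ea] at a
    rw [eb] at b
    rw [ec]
    have u0 : 0 ≤ u := by positivity
    calc _ ≤ (2 * u + 2) * (u + 2) := mul_le_mul a b (by positivity) (by positivity)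
      _ ≤ _ := by nlinarith [sq_nonneg (u - 3)]
  have h3 : ∑ l ∈ Ioc 2 Y, ((l : ℝ) ^ 2)⁻¹ ≤ 1 / 2 := by
    have := sum_Ioc_inv_sq_le_sub (α := ℝ) (k := 2) (n := Y) (by norm_num) (by omega)
    have h0 : (0 : ℝ) ≤ (Y : ℝ)⁻¹ := by positivity
    norm_num at this ⊢
    linarith
  have h4 : ((∑ l ∈ Ioc 2 Y, (F (2 * l) l ×ˢ F (4 * l) 0).card : ℕ) : ℝ) ≤
      3 * (Y : ℝ) ^ 2 / 128 + 13 * Y := by
    push_cast
    refine (sum_le_sum h2).trans ?_
    rw [sum_add_distrib, ← mul_sum, sum_const, Nat.card_Ioc, nsmul_eq_mul]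
    have : ((Y - 2 : ℕ) : ℝ) ≤ Y := by exact_mod_cast Nat.sub_le Y 2
    have h5 : 3 * (Y : ℝ) ^ 2 / 64 * ∑ l ∈ Ioc 2 Y, ((l : ℝ) ^ 2)⁻¹ ≤
        3 * (Y : ℝ) ^ 2 / 64 * (1 / 2) := mul_le_mul_of_nonneg_left h3 (by positivity)
    linarith
  have h5 : ((F 2 1 ×ˢ F 4 0).card : ℝ) ≤ (((B ×ˢ B).filter Adm).card : ℝ) +
      ((∑ l ∈ Ioc 2 Y, (F (2 * l) l ×ˢ F (4 * l) 0).card : ℕ) : ℝ) := by
    exact_mod_cast hc.trans (Nat.add_le_add_left hc2 _)
  nlinarith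

theorem xTau_cnt' (Y l r : ℕ) (hl : 0 < l) (hlY : l ≤ Y) :
    (((Ioc (Y / 2) Y).filter fun x => x ≡ r [MOD l]).card : ℝ) ≤ 3 * (Y : ℝ) / l := by
  have a := (xTau_cnt Y l r hl).2
  have hlr : (0 : ℝ) < l := by exact_mod_cast hl
  have h1 : (1 : ℝ) ≤ (Y : ℝ) / l := by
    rw [le_div_iff₀ hlr, one_mul]; exact_mod_cast hlY
  have e : (Y : ℝ) / (2 * l) = (Y : ℝ) / l / 2 := by field_simp
  have e2 : 3 * (Y : ℝ) / l = 3 * ((Y : ℝ) / l) := by ring
  rw [e] at a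
  rw [e2]
  linarith

theorem xTau_root (Y l p : ℕ) (hl : l.Prime) (hl2 : l ≠ 2) (hlY : l ≤ Y) (hp : ¬ l ∣ p) :
    (((Ioc (Y / 2) Y).filter fun q => l ∣ nn (p, q)).card : ℝ) ≤ 15 * (Y : ℝ) / l := by
  have := Fact.mk hl
  set f : Polynomial (ZMod l) := (Polynomial.C ((p : ZMod l) ^ 2) - Polynomial.X ^ 2) *
    (Polynomial.C ((p : ZMod l) ^ 2) + Polynomial.X ^ 2) *
      (Polynomial.C (2 * (p : ZMod l)) * Polynomial.X) with hf
  have hp0 : (p : ZMod l) ≠ 0 := fun h => hp ((ZMod.natCast_eq_zero_iff p l).1 h)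
  have h20 : (2 : ZMod l) ≠ 0 := fun h => by
    have h' : ((2 : ℕ) : ZMod l) = 0 := by exact_mod_cast h
    have := (ZMod.natCast_eq_zero_iff 2 l).1 h'
    exact hl2 ((Nat.prime_dvd_prime_iff_eq hl Nat.prime_two).1 this)
  have hf0 : f ≠ 0 := by
    refine mul_ne_zero (mul_ne_zero ?_ ?_) (mul_ne_zero ?_ Polynomial.X_ne_zero)
    · intro h
      have := congrArg (Polynomial.eval 0) h
      simp at this
      exact hp0 this
    · intro h
      have := congrArg (Polynomial.eval 0) h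
      simp at this
      exact hp0 this
    · exact Polynomial.C_ne_zero.2 (mul_ne_zero h20 hp0)
  have hdeg : f.natDegree ≤ 5 := by
    rw [hf]; compute_degree
  have hR : f.roots.toFinset.card ≤ 5 :=
    (Multiset.toFinset_card_le _).trans ((Polynomial.card_roots' f).trans hdeg)
  have hsub : ((Ioc (Y / 2) Y).filter fun q => l ∣ nn (p, q)) ⊆
      f.roots.toFinset.biUnion fun b => (Ioc (Y / 2) Y).filter fun x => x ≡ b.val [MOD l] := by
    intro q hq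
    obtain ⟨hq1, hq2⟩ := mem_filter.1 hq
    refine mem_biUnion.2 ⟨(q : ZMod l), ?_, mem_filter.2 ⟨hq1, ?_⟩⟩
    · rw [Multiset.mem_toFinset, Polynomial.mem_roots hf0, Polynomial.IsRoot.def]
      have h1 : (l : ℤ) ∣ rr (p, q) * ss (p, q) * kk (p, q) := Int.natCast_dvd.2 hq2
      have h2 := (ZMod.intCast_zmod_eq_zero_iff_dvd _ l).2 h1
      simp only [rr, ss, kk] at h2
      push_cast at h2
      simp only [hf, Polynomial.eval_mul, Polynomial.eval_sub, Polynomial.eval_add,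
        Polynomial.eval_C, Polynomial.eval_pow, Polynomial.eval_X]
      exact h2
    · rw [ZMod.val_natCast]
      exact (Nat.mod_modEq q l).symm
  have h1 := (card_le_card hsub).trans card_biUnion_le
  have h2 : ((∑ b ∈ f.roots.toFinset, ((Ioc (Y / 2) Y).filter fun x =>
      x ≡ b.val [MOD l]).card : ℕ) : ℝ) ≤ 5 * (3 * (Y : ℝ) / l) := by
    push_cast
    refine (sum_le_sum fun b _ => xTau_cnt' Y l b.val hl.pos hlY).trans ?_
    rw [sum_const, nsmul_eq_mul]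
    exact mul_le_mul_of_nonneg_right (by exact_mod_cast hR) (by positivity)
  have h3 : (((Ioc (Y / 2) Y).filter fun q => l ∣ nn (p, q)).card : ℝ) ≤
      5 * (3 * (Y : ℝ) / l) := le_trans (by exact_mod_cast h1) h2
  calc _ ≤ _ := h3
    _ = _ := by ring

theorem xTau_cardB (Y : ℕ) : ((Ioc (Y / 2) Y).card : ℝ) ≤ Y := by
  rw [Nat.card_Ioc]; exact_mod_cast Nat.sub_le _ _

theorem xTau_div (Y l : ℕ) (hl : l.Prime) (hlY : l ≤ Y) :
    (((Ioc (Y / 2) Y ×ˢ Ioc (Y / 2) Y).filter fun τ => l ∣ nn τ).card : ℝ) ≤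
      18 * (Y : ℝ) ^ 2 / l := by
  set B := Ioc (Y / 2) Y with hB
  have hcB : (B.card : ℝ) ≤ Y := xTau_cardB Y
  have hlr : (0 : ℝ) < l := by exact_mod_cast hl.pos
  by_cases hl2 : l = 2
  · subst hl2
    have : (((B ×ˢ B).filter fun τ => 2 ∣ nn τ).card : ℝ) ≤ (B.card : ℝ) * B.card := by
      rw [← Nat.cast_mul, ← card_product]; exact_mod_cast card_filter_le _ _
    have h2 : (B.card : ℝ) * B.card ≤ Y * Y := mul_le_mul hcB hcB (by positivity) (by positivity)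
    push_cast
    nlinarith
  have e : (((B ×ˢ B).filter fun τ => l ∣ nn τ).card : ℝ) =
      ∑ p ∈ B, ((B.filter fun q => l ∣ nn (p, q)).card : ℝ) := by
    rw [card_filter, sum_product]
    push_cast
    refine sum_congr rfl fun p _ => ?_
    rw [card_filter]; push_cast; rfl
  rw [e]
  have h1 : ∀ p ∈ B, ((B.filter fun q => l ∣ nn (p, q)).card : ℝ) ≤
      (if p ≡ 0 [MOD l] then (Y : ℝ) else 0) + 15 * (Y : ℝ) / l := by
    intro p _
    split_ifs with h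
    · have : ((B.filter fun q => l ∣ nn (p, q)).card : ℝ) ≤ B.card := by
        exact_mod_cast card_filter_le _ _
      have h0 : 0 ≤ 15 * (Y : ℝ) / l := by positivity
      linarith
    · rw [zero_add]
      exact xTau_root Y l p hl hl2 hlY fun h' => h ((Nat.modEq_zero_iff_dvd).2 h')
  refine (sum_le_sum h1).trans ?_
  rw [sum_add_distrib, ← sum_filter, sum_const, sum_const, nsmul_eq_mul, nsmul_eq_mul]
  have a := xTau_cnt' Y l 0 hl.pos hlY
  have a1 := mul_le_mul_of_nonneg_right a (Nat.cast_nonneg (α := ℝ) Y)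
  have a2 := mul_le_mul_of_nonneg_right hcB (show 0 ≤ 15 * (Y : ℝ) / l by positivity)
  calc _ ≤ 3 * (Y : ℝ) / l * Y + Y * (15 * (Y : ℝ) / l) := add_le_add a1 a2
    _ = _ := by ring

theorem xTau_nn_le (Y p q : ℕ) (hp : p ≤ Y) (hq : q ≤ Y) : nn (p, q) ≤ 4 * Y ^ 6 := by
  have hp' : (p : ℤ) ≤ Y := by exact_mod_cast hp
  have hq' : (q : ℤ) ≤ Y := by exact_mod_cast hq
  have p0 : (0 : ℤ) ≤ p := by positivity
  have q0 : (0 : ℤ) ≤ q := by positivity
  have p2 : (p : ℤ) ^ 2 ≤ (Y : ℤ) ^ 2 := pow_le_pow_left₀ p0 hp' 2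
  have q2 : (q : ℤ) ^ 2 ≤ (Y : ℤ) ^ 2 := pow_le_pow_left₀ q0 hq' 2
  have h1 : |rr (p, q)| ≤ (Y : ℤ) ^ 2 := by
    simp only [rr]; rw [abs_le]; constructor <;> nlinarith [sq_nonneg (p : ℤ), sq_nonneg (q : ℤ)]
  have h2 : |ss (p, q)| ≤ 2 * (Y : ℤ) ^ 2 := by
    simp only [ss]; rw [abs_of_nonneg (by positivity)]; linarith
  have h3 : |kk (p, q)| ≤ 2 * (Y : ℤ) ^ 2 := by
    simp only [kk]; rw [abs_of_nonneg (by positivity)]
    nlinarith [mul_le_mul hp' hq' q0 (p0.trans hp')]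
  have h4 : ((nn (p, q) : ℕ) : ℤ) ≤ (Y : ℤ) ^ 2 * (2 * (Y : ℤ) ^ 2) * (2 * (Y : ℤ) ^ 2) := by
    rw [nn, Int.natCast_natAbs, abs_mul, abs_mul]
    exact mul_le_mul (mul_le_mul h1 h2 (abs_nonneg _) (by positivity)) h3 (abs_nonneg _)
      (by positivity)
  have h5 : ((nn (p, q) : ℕ) : ℤ) ≤ 4 * (Y : ℤ) ^ 6 := by linarith [h4, show (Y : ℤ) ^ 2 *
    (2 * (Y : ℤ) ^ 2) * (2 * (Y : ℤ) ^ 2) = 4 * (Y : ℤ) ^ 6 by ring]
  exact_mod_cast h5

theorem xTau_split (Y n : ℕ) (hY : 7 ≤ Y) (hn : n ≤ 4 * Y ^ 6) :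
    ∑ l ∈ n.primeFactors, (1 : ℝ) / l ≤
      1 + ∑ l ∈ (Ioc 1 Y).filter Nat.Prime, if l ∣ n then (1 : ℝ) / l else 0 := by
  rw [← sum_filter_add_sum_filter_not n.primeFactors (fun l => Y < l)]
  have hYr : (7 : ℝ) ≤ Y := by exact_mod_cast hY
  apply add_le_add
  · set S := n.primeFactors.filter fun l => Y < l with hS
    have hc : S.card ≤ 7 := by
      rcases Nat.eq_zero_or_pos n with rfl | hn0
      · simp [hS]
      have h1 : Y ^ S.card ≤ ∏ l ∈ S, l :=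
        pow_card_le_prod S (fun l => l) Y fun x hx => (mem_filter.1 hx).2.le
      have h2 : ∏ l ∈ S, l ∣ n :=
        (prod_dvd_prod_of_subset _ _ _ (filter_subset _ _)).trans (Nat.prod_primeFactors_dvd n)
      have h3 : Y ^ S.card ≤ Y ^ 7 := by
        refine h1.trans ((Nat.le_of_dvd hn0 h2).trans (hn.trans ?_))
        rw [pow_succ' Y 6]
        exact Nat.mul_le_mul_right _ (by omega)
      exact (Nat.pow_le_pow_iff_right (by omega)).1 h3
    have h4 : ∀ l ∈ S, (1 : ℝ) / l ≤ 1 / 7 := by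
      intro l hl
      have : (Y : ℝ) < l := by exact_mod_cast (mem_filter.1 hl).2
      exact one_div_le_one_div_of_le (by norm_num) (by linarith)
    refine (sum_le_sum h4).trans ?_
    rw [sum_const, nsmul_eq_mul]
    have : (S.card : ℝ) ≤ 7 := by exact_mod_cast hc
    linarith
  · rw [← sum_filter]
    apply sum_le_sum_of_subset_of_nonneg
    · intro l hl
      obtain ⟨h1, h2⟩ := mem_filter.1 hl
      have hp := Nat.prime_of_mem_primeFactors h1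
      exact mem_filter.2 ⟨mem_filter.2 ⟨mem_Ioc.2 ⟨hp.one_lt, by omega⟩, hp⟩,
        Nat.dvd_of_mem_primeFactors h1⟩
    · intro l _ _; positivity

theorem xTau_mean (Y : ℕ) (hY : 7 ≤ Y) :
    ∑ τ ∈ Ioc (Y / 2) Y ×ˢ Ioc (Y / 2) Y, ∑ l ∈ (nn τ).primeFactors, (1 : ℝ) / l ≤
      19 * (Y : ℝ) ^ 2 := by
  set B := Ioc (Y / 2) Y with hB
  have hcB : (B.card : ℝ) ≤ Y := xTau_cardB Y
  have h1 : ∀ τ ∈ B ×ˢ B, ∑ l ∈ (nn τ).primeFactors, (1 : ℝ) / l ≤
      1 + ∑ l ∈ (Ioc 1 Y).filter Nat.Prime, if l ∣ nn τ then (1 : ℝ) / l else 0 := by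
    rintro ⟨p, q⟩ h
    obtain ⟨hp, hq⟩ := mem_product.1 h
    exact xTau_split Y _ hY (xTau_nn_le Y p q (mem_Ioc.1 hp).2 (mem_Ioc.1 hq).2)
  refine (sum_le_sum h1).trans ?_
  rw [sum_add_distrib, sum_comm, sum_const, card_product, nsmul_eq_mul, mul_one]
  have h2 : ∀ l ∈ (Ioc 1 Y).filter Nat.Prime,
      (∑ τ ∈ B ×ˢ B, if l ∣ nn τ then (1 : ℝ) / l else 0) ≤ 18 * (Y : ℝ) ^ 2 * ((l : ℝ) ^ 2)⁻¹ := by
    intro l hl
    obtain ⟨hl1, hl2⟩ := mem_filter.1 hl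
    rw [← sum_filter, sum_const, nsmul_eq_mul]
    have a := xTau_div Y l hl2 (mem_Ioc.1 hl1).2
    have hlr : (0 : ℝ) < l := by exact_mod_cast hl2.pos
    calc _ ≤ 18 * (Y : ℝ) ^ 2 / l * (1 / l) := mul_le_mul_of_nonneg_right a (by positivity)
      _ = _ := by field_simp
  have h3 : ∑ l ∈ (Ioc 1 Y).filter Nat.Prime, ((l : ℝ) ^ 2)⁻¹ ≤ 1 := by
    refine (sum_le_sum_of_subset_of_nonneg (filter_subset _ _) fun _ _ _ => by positivity).trans ?_
    have := sum_Ioc_inv_sq_le_sub (α := ℝ) (k := 1) (n := Y) (by norm_num) (by omega)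
    have h0 : (0 : ℝ) ≤ (Y : ℝ)⁻¹ := by positivity
    norm_num at this ⊢
    linarith
  have h4 := (sum_le_sum h2)
  rw [← mul_sum] at h4
  have h5 := mul_le_mul_of_nonneg_left h3 (show 0 ≤ 18 * (Y : ℝ) ^ 2 by positivity)
  have h6 : (B.card : ℝ) * B.card ≤ Y * Y := mul_le_mul hcB hcB (by positivity) (by positivity)
  push_cast
  nlinarith

theorem tau_set : ∃ C0 c : ℝ, 0 < c ∧ ∃ Y0 : ℕ, ∀ Y ≥ Y0,
    c * (Y : ℝ) ^ 2 ≤ (TT C0 Y).card := by
  refine ⟨19 * 512, 1 / 512, by norm_num, 4000, fun Y hY => ?_⟩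
  set B := Ioc (Y / 2) Y with hB
  set S : ℕ × ℕ → ℝ := fun τ => ∑ l ∈ (nn τ).primeFactors, (1 : ℝ) / l with hS
  have hS0 : ∀ τ, 0 ≤ S τ := fun τ => sum_nonneg fun _ _ => by positivity
  have h1 : (Y : ℝ) ^ 2 / 256 ≤ (((B ×ˢ B).filter Adm).card : ℝ) := xTau_adm Y hY
  have h2 := xTau_mean Y (by omega)
  set Bad := (B ×ˢ B).filter fun τ => 19 * 512 < S τ with hBad
  have h3 : (Bad.card : ℝ) * (19 * 512) ≤ 19 * (Y : ℝ) ^ 2 := by
    rw [← nsmul_eq_mul, ← sum_const]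
    refine le_trans (sum_le_sum fun τ hτ => (mem_filter.1 hτ).2.le) (le_trans ?_ h2)
    exact sum_le_sum_of_subset_of_nonneg (filter_subset _ _) fun τ _ _ => hS0 τ
  have hsub : (B ×ˢ B).filter Adm ⊆ TT (19 * 512) Y ∪ Bad := by
    intro τ hτ
    obtain ⟨a, b⟩ := mem_filter.1 hτ
    by_cases h : 19 * 512 < S τ
    · exact mem_union_right _ (mem_filter.2 ⟨a, h⟩)
    · exact mem_union_left _ (mem_filter.2 ⟨a, b, not_lt.1 h⟩)
  have h4 : (((B ×ˢ B).filter Adm).card : ℝ) ≤ (TT (19 * 512) Y).card + Bad.card := by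
    exact_mod_cast (card_le_card hsub).trans (card_union_le _ _)
  have h5 := h1.trans h4
  show 1 / 512 * (Y : ℝ) ^ 2 ≤ ((TT (19 * 512) Y).card : ℝ)
  generalize ((TT (19 * 512) Y).card : ℝ) = t at h5 ⊢
  generalize (Bad.card : ℝ) = b at h3 h5
  generalize (Y : ℝ) ^ 2 = y at h3 h5 ⊢
  linarith

end Pool.Agent.MP_e23604_nt.P
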