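import Pool.Agent.MP_e23604_nt.P.Step2
import Pool.Agent.MP_e23604_nt.P.Step3
import Pool.Agent.MP_e23604_nt.P.Step4
import Pool.Agent.MP_e23604_nt.P.MT
import Pool.Agent.MP_e23604_nt.P.Tau
import Pool.Agent.MP_e23604_nt.P.Count
import Pool.Agent.MP_e23604_nt.P.BMain

/-!
The final assembly.
-/

open Finset
open scoped Classical

noncomputable section

namespace Pool.Agent.MP_e23604_nt.P

theorem tele (X W : ℕ) (T : Finset (ℕ × ℕ)) (Mf : ℕ × ℕ → Finset (Fin 4 → ℕ)) :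
    SS X T Mf (fun _ _ => lam) = SS X T Mf (fun _ _ => shp W) +
      SS X T Mf (fun _ => ![gg W, shp W, shp W, shp W]) +
      SS X T Mf (fun _ => ![lam, gg W, shp W, shp W]) +
      SS X T Mf (fun _ => ![lam, lam, gg W, shp W]) +
      SS X T Mf (fun _ => ![lam, lam, lam, gg W]) := by
  simp only [SS, ← Finset.sum_add_distrib]
  refine Finset.sum_congr rfl fun τ _ => Finset.sum_congr rfl fun m _ =>
    Finset.sum_congr rfl fun z _ => ?_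
  simp only [Fin.prod_univ_four, Matrix.cons_val_zero, Matrix.cons_val_one, Matrix.cons_val, gg]
  ring

/-- The lower bound for the model. -/
theorem model_low (B : ℕ) (hB : 2 ≤ B) : ∃ X1 : ℕ, ∀ X ≥ X1, ∀ (Y Z U : ℕ) (C0 κ : ℝ),
    Z ^ 100 ≤ X → 1 ≤ Z → (∀ τ ∈ TT C0 Y, κ ≤ ∑ m ∈ MS (nn τ) Z U, pgood m / MM m) →
    (X : ℝ) ^ 2 * κ / 2048 * (TT C0 Y).card - 2 * ((X : ℝ) ^ 2 * (Y : ℝ) ^ 2) ≤
      SS X (TT C0 Y) (MF Z U) (fun _ _ => shp (WW B X)) := by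
  obtain ⟨X1, h1⟩ := main_term B hB
  obtain ⟨X2, h2⟩ := log_pow_le 0 1 2
  refine ⟨max X1 X2, fun X hX Y Z U C0 κ hZ hZ1 hκ => ?_⟩
  have hL : 2 ≤ Real.log X := (h2 X (le_of_max_le_right hX)).1
  have hZ' : (1 : ℝ) ≤ Z := by exact_mod_cast hZ1
  have hZX : (Z : ℝ) ^ 100 ≤ X := by exact_mod_cast hZ
  have hX0 : (0 : ℝ) < X := lt_of_lt_of_le (by positivity) hZX
  have hlog : 1 + Real.log Z ≤ Real.log X := by
    have := Real.log_le_log (by positivity) hZX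
    rw [Real.log_pow] at this
    push_cast at this
    linarith
  have hlog0 : 0 ≤ Real.log Z := Real.log_nonneg hZ'
  have hZ4 : (Z : ℝ) ^ 4 ≤ √X := by
    refine Real.le_sqrt_of_sq_le ?_
    calc ((Z : ℝ) ^ 4) ^ 2 = (Z : ℝ) ^ 8 := by ring
      _ ≤ (Z : ℝ) ^ 100 := pow_le_pow_right₀ hZ' (by norm_num)
      _ ≤ X := hZX
  have hs : √(X : ℝ) * √X = X := Real.mul_self_sqrt hX0.le
  have key : ∀ τ ∈ TT C0 Y, (X : ℝ) ^ 2 * κ / 2048 - 2 * (X : ℝ) ^ 2 ≤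
      ∑ m ∈ MF Z U τ, ∑ z ∈ box X, GG τ m z.1 z.2 * ∏ i, shp (WW B X) (uu τ m z i) := by
    intro τ hτ
    have e1 : ∑ m ∈ MS (nn τ) Z U, ((X : ℝ) ^ 2 * pgood m / (2048 * MM m) -
        (X : ℝ) ^ 2 / (MM m * Real.log X ^ 5) - X * √X) ≤
        ∑ m ∈ MF Z U τ, ∑ z ∈ box X, GG τ m z.1 z.2 * ∏ i, shp (WW B X) (uu τ m z i) := by
      refine Finset.sum_le_sum fun m hm => ?_
      have hm' := mem_MS.1 hm
      exact h1 X (le_of_max_le_left hX) τ m (mem_TT hτ).1 hm'.1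
        ((Nat.pow_le_pow_left hm'.2.1 100).trans hZ)
    refine le_trans ?_ e1
    rw [Finset.sum_sub_distrib, Finset.sum_sub_distrib, Finset.sum_const, nsmul_eq_mul]
    have a1 : ∑ m ∈ MS (nn τ) Z U, (X : ℝ) ^ 2 * pgood m / (2048 * MM m) =
        (X : ℝ) ^ 2 / 2048 * ∑ m ∈ MS (nn τ) Z U, pgood m / MM m := by
      rw [Finset.mul_sum]
      exact Finset.sum_congr rfl fun m _ => by ring
    have a2 : ∑ m ∈ MS (nn τ) Z U, (X : ℝ) ^ 2 / (MM m * Real.log X ^ 5) =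
        (X : ℝ) ^ 2 / Real.log X ^ 5 * ∑ m ∈ MS (nn τ) Z U, (1 : ℝ) / MM m := by
      rw [Finset.mul_sum]
      exact Finset.sum_congr rfl fun m _ => by ring
    have a3 : (X : ℝ) ^ 2 / Real.log X ^ 5 * ∑ m ∈ MS (nn τ) Z U, (1 : ℝ) / MM m ≤
        (X : ℝ) ^ 2 := by
      have b1 := sum_MS (nn τ) Z U
      have b2 : (1 + Real.log Z) ^ 4 ≤ Real.log X ^ 5 :=
        (pow_le_pow_left₀ (by linarith) hlog 4).trans
          (pow_le_pow_right₀ (by linarith) (by norm_num))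
      have b3 : 0 < Real.log X ^ 5 := by positivity
      calc _ ≤ (X : ℝ) ^ 2 / Real.log X ^ 5 * Real.log X ^ 5 := by
            gcongr
            exact b1.trans b2
        _ = _ := by field_simp
    have a4 : ((MS (nn τ) Z U).card : ℝ) * (X * √X) ≤ (X : ℝ) ^ 2 := by
      calc _ ≤ √X * (X * √X) := by
            gcongr
            exact (card_MS _ _ _).trans hZ4
        _ = X * (√X * √X) := by ring
        _ = _ := by rw [hs]; ring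
    have a5 : (X : ℝ) ^ 2 / 2048 * κ ≤
        (X : ℝ) ^ 2 / 2048 * ∑ m ∈ MS (nn τ) Z U, pgood m / MM m := by
      gcongr
      exact hκ τ hτ
    rw [a1, a2]
    linarith
  have := Finset.sum_le_sum key
  rw [Finset.sum_const, nsmul_eq_mul] at this
  have hc := card_TT C0 Y
  have : (X : ℝ) ^ 2 * (TT C0 Y).card ≤ (X : ℝ) ^ 2 * (Y : ℝ) ^ 2 := by gcongr
  unfold SS
  linarith

/-- The count in the dyadic box. -/
theorem count_box :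
    ∃ (A : ℕ) (δ c : ℝ), 0 < δ ∧ 0 < c ∧ ∃ X₀ : ℕ, ∀ X Y : ℕ, X₀ ≤ X → Real.log X ^ A ≤ Y →
      Y ^ 100 ≤ X → Real.log Y ≤ δ * Real.log X →
      ∃ Z : ℕ, Z ^ 100 ≤ X ∧ c * (X : ℝ) ^ 2 * (Y : ℝ) ^ 2 ≤ (GS X Y Z).ncard := by
  obtain ⟨C0, cT, hcT, Y0, hT⟩ := tau_set
  obtain ⟨c, K, ε, s0, hc, hK, hε, hb⟩ := bmain C0
  obtain ⟨B1, h1⟩ := step1
  obtain ⟨B2, h2⟩ := step2
  obtain ⟨A3, B3, h3⟩ := step3
  obtain ⟨A4, B4, h4⟩ := step4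
  obtain ⟨B, hB1, hB2, hB3, hB4, hB⟩ : ∃ B, B1 ≤ B ∧ B2 ≤ B ∧ B3 ≤ B ∧ B4 ≤ B ∧ 2 ≤ B :=
    ⟨B1 + B2 + B3 + B4 + 2, by omega, by omega, by omega, by omega, by omega⟩
  obtain ⟨X1, h1⟩ := h1 B hB1
  obtain ⟨X2, h2⟩ := h2 B hB2
  obtain ⟨X3, h3⟩ := h3 B hB3
  obtain ⟨X4, h4⟩ := h4 B hB4
  obtain ⟨X5, h5⟩ := model_low B hB
  obtain ⟨c1, hc1d⟩ : ∃ c1 : ℝ, c1 = cT * c / (2048 * (200 * K) ^ 4) := ⟨_, rfl⟩
  have hK0 : 0 < K := by linarith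
  have hc1 : 0 < c1 := by rw [hc1d]; positivity
  obtain ⟨C, hC1, hC2, hC3, hC4, hC5, hC6⟩ : ∃ C : ℝ, (Y0 : ℝ) ≤ C ∧ 200 * K * s0 ≤ C ∧
      1200 * K / ε ≤ C ∧ 12 / c1 ≤ C ∧ 128 / c1 ≤ C ∧ 2 ^ 100 ≤ C := by
    refine ⟨Y0 + |200 * K * s0| + 1200 * K / ε + 12 / c1 + 128 / c1 + 2 ^ 100, ?_⟩
    have := le_abs_self (200 * K * s0)
    have := abs_nonneg (200 * K * s0)
    have : 0 ≤ 1200 * K / ε := by positivity
    have : 0 ≤ 12 / c1 := by positivity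
    have : 0 ≤ 128 / c1 := by positivity
    have : (0 : ℝ) ≤ Y0 := by positivity
    have : (0 : ℝ) ≤ 2 ^ 100 := by positivity
    refine ⟨?_, ?_, ?_, ?_, ?_, ?_⟩ <;> linarith
  obtain ⟨X6, h6⟩ := log_pow_le 0 2 C
  refine ⟨A3 + A4 + 1, ε / (1600 * K), c1 / 4096, by positivity, by positivity,
    X1 + X2 + X3 + X4 + X5 + X6 + 100, fun X Y hX hY hY1 hY2 => ?_⟩
  obtain ⟨hL, hCX⟩ := h6 X (by omega)
  rw [pow_zero, mul_one] at hCX
  have hL1 : 1 ≤ Real.log X := le_trans (le_trans (by norm_num) hC6) hL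
  have hX0 : (0 : ℝ) < X := by exact_mod_cast (show 0 < X by omega)
  have hCs : C ≤ √X := Real.le_sqrt_of_sq_le hCX
  have hs : √(X : ℝ) * √X = X := Real.mul_self_sqrt hX0.le
  have hYL : Real.log X ≤ Y := le_trans (le_self_pow₀ hL1 (by omega)) hY
  have hY1' : (1 : ℝ) ≤ Y := hL1.trans hYL
  obtain ⟨s, hsd⟩ : ∃ s : ℝ, s = Real.log X / (200 * K) := ⟨_, rfl⟩
  obtain ⟨Z, hZd⟩ : ∃ Z : ℕ, Z = ⌈Real.exp (K * s)⌉₊ := ⟨_, rfl⟩
  have hZ1 : Real.exp (K * s) ≤ Z := by rw [hZd]; exact Nat.le_ceil _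
  have hKs : K * s = Real.log X / 200 := by rw [hsd]; field_simp
  have he1 : 1 ≤ Real.exp (K * s) := Real.one_le_exp (by rw [hKs]; linarith)
  have hZ2 : (Z : ℝ) ≤ 2 * Real.exp (K * s) := by
    have := Nat.ceil_lt_add_one (show 0 ≤ Real.exp (K * s) by positivity)
    rw [hZd]; linarith
  have hZ3 : (1 : ℝ) ≤ Z := he1.trans hZ1
  have he2 : Real.exp (K * s) ^ 100 = √X := by
    rw [← Real.exp_nat_mul, hKs, Real.sqrt_eq_rpow, Real.rpow_def_of_pos hX0]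
    congr 1
    push_cast
    ring
  have hZ4 : (Z : ℝ) ^ 100 ≤ X := by
    calc (Z : ℝ) ^ 100 ≤ (2 * Real.exp (K * s)) ^ 100 := by gcongr
      _ = 2 ^ 100 * √X := by rw [mul_pow, he2]
      _ ≤ √X * √X := by gcongr; exact hC6.trans hCs
      _ = X := hs
  have hZ5 : Z ^ 100 ≤ X := by exact_mod_cast hZ4
  refine ⟨Z, hZ5, ?_⟩
  have hreg : Reg (A3 + A4 + 1) X Y Z (4 * Y ^ 4) := ⟨hY, hY1, hZ5, le_rfl⟩
  have hX3 : 3 ≤ X := by omega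
  have r0 : Reg 0 X Y Z (4 * Y ^ 4) := hreg.mono (by omega) hX3
  have hU : 1 + Real.log ((4 * Y ^ 4 : ℕ) : ℝ) ≤ ε * s := by
    have l4 : Real.log 4 ≤ 2 := by
      have : Real.log 4 = 2 * Real.log 2 := by
        rw [show (4 : ℝ) = 2 ^ 2 by norm_num, Real.log_pow]; norm_num
      have := Real.log_two_lt_d9
      linarith
    have e1 : Real.log ((4 * Y ^ 4 : ℕ) : ℝ) = Real.log 4 + 4 * Real.log Y := by
      push_cast
      rw [Real.log_mul (by norm_num) (by positivity), Real.log_pow]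
      norm_num
    have e2 : ε * s = 8 * (ε / (1600 * K) * Real.log X) := by rw [hsd]; field_simp; norm_num
    have e3 : 3 ≤ 4 * (ε / (1600 * K) * Real.log X) := by
      calc (3 : ℝ) = 4 * (ε / (1600 * K) * (1200 * K / ε)) := by field_simp; norm_num
        _ ≤ _ := by gcongr; exact hC3.trans hL
    linarith
  have hs0 : s0 ≤ s := by
    rw [hsd, le_div_iff₀ (by positivity)]
    linarith
  have m1 := h5 X (by omega) Y Z (4 * Y ^ 4) C0 (c * s ^ 4) hZ5 (by exact_mod_cast hZ3)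
    fun τ hτ => hb s hs0 _ _ _ (mem_TT hτ).1.six_dvd (mem_TT hτ).1.nn_ne
      (mem_TT hτ).2.2.2.2.2.2 hU hZ1
  have m2 := abs_le.1 (h1 X (by omega) Y Z _ C0 r0)
  have m3 := abs_le.1 (h2 X (by omega) Y Z _ C0 r0)
  have m4 := abs_le.1 (h3 X (by omega) Y Z _ C0 (hreg.mono (by omega) hX3))
  have m5 := abs_le.1 (h4 X (by omega) Y Z _ C0 (hreg.mono (by omega) hX3))
  have m6 := count X (by omega) Y Z _ C0 r0
  have m7 := tele X (WW B X) (TT C0 Y) (MF Z (4 * Y ^ 4))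
  have m8 := hT Y (by exact_mod_cast (hC1.trans hL).trans hYL)
  obtain ⟨P, hP⟩ : ∃ P : ℝ, P = (X : ℝ) ^ 2 * (Y : ℝ) ^ 2 := ⟨_, rfl⟩
  obtain ⟨N, hN⟩ : ∃ N : ℝ, N = ((GS X Y Z).ncard : ℝ) := ⟨_, rfl⟩
  obtain ⟨L, hLd⟩ : ∃ L : ℝ, L = Real.log X ^ 4 := ⟨_, rfl⟩
  have hP0 : 0 < P := by rw [hP]; positivity
  have hL4 : Real.log X ≤ L := by rw [hLd]; exact le_self_pow₀ hL1 (by norm_num)
  have n1 : c1 * L * P ≤ (X : ℝ) ^ 2 * (c * s ^ 4) / 2048 * (TT C0 Y).card := by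
    calc c1 * L * P = (X : ℝ) ^ 2 * (c * s ^ 4) / 2048 * (cT * (Y : ℝ) ^ 2) := by
          rw [hc1d, hLd, hP, hsd]; field_simp
      _ ≤ _ := by gcongr
  have n2 : 12 * P ≤ c1 * L * P := by
    have : 12 / c1 ≤ L := (hC4.trans hL).trans hL4
    rw [div_le_iff₀ hc1] at this
    gcongr
    linarith
  have n3 : 2 * X * (Y : ℝ) ^ 2 * (Z : ℝ) ^ 4 ≤ c1 / 64 * P := by
    have b1 : (Z : ℝ) ^ 4 ≤ √X := by
      refine Real.le_sqrt_of_sq_le ?_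
      calc ((Z : ℝ) ^ 4) ^ 2 = (Z : ℝ) ^ 8 := by ring
        _ ≤ (Z : ℝ) ^ 100 := pow_le_pow_right₀ hZ3 (by norm_num)
        _ ≤ X := hZ4
    have b2 : 128 ≤ √X * c1 := by
      have := hC5.trans hCs
      rwa [div_le_iff₀ hc1] at this
    calc 2 * X * (Y : ℝ) ^ 2 * (Z : ℝ) ^ 4 ≤ 2 * X * (Y : ℝ) ^ 2 * √X := by gcongr
      _ = 128 * (X * (Y : ℝ) ^ 2 * √X / 64) := by ring
      _ ≤ (√X * c1) * (X * (Y : ℝ) ^ 2 * √X / 64) := by gcongr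
      _ = c1 / 64 * (X * (√X * √X) * (Y : ℝ) ^ 2) := by ring
      _ = c1 / 64 * P := by rw [hs, hP]; ring
  have hL0 : 0 < L := by linarith
  have n4 : (2 * Real.log X) ^ 4 * (64 * N + 2 * X * (Y : ℝ) ^ 2 * (Z : ℝ) ^ 4) ≤
      16 * L * (64 * N + c1 / 64 * P) := by
    rw [mul_pow, ← hLd]
    gcongr
    · rw [hN]; positivity
    · norm_num
  rw [← hP] at m1 m2 m3 m4 m5
  rw [← hN] at m6 ⊢
  have n5 : L * (c1 * P / 4) ≤ L * (1024 * N) := by nlinarith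
  have n6 := le_of_mul_le_mul_left n5 hL0
  rw [mul_assoc, ← hP]
  linarith

end Pool.Agent.MP_e23604_nt.P
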