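import Pool.Agent.MP_e23604_nt.P.SGrow

/-!
Real characters: positivity of coefficients and signs on the real line.
-/

open Finset DirichletCharacter
open scoped Classical ComplexOrder

noncomputable section

namespace Pool.Agent.MP_e23604_nt.P

theorem xSCoef_pp (f g : ArithmeticFunction ℂ) {p : ℕ} (hp : p.Prime) (k : ℕ) :
    (f * g) (p ^ k) = ∑ i ∈ range (k + 1), f (p ^ i) * g (p ^ (k - i)) := by
  rw [ArithmeticFunction.mul_apply, Nat.sum_divisorsAntidiagonal fun a b => f a * g b,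
    Nat.sum_divisors_prime_pow hp]
  exact sum_congr rfl fun i hi => by rw [Nat.pow_div (Nat.lt_succ_iff.1 (mem_range.1 hi)) hp.pos]

theorem xSCoef_mul {f g : ArithmeticFunction ℂ} {p : ℕ} (hp : p.Prime) (hf : ∀ k, 0 ≤ f (p ^ k))
    (hg : ∀ k, 0 ≤ g (p ^ k)) (k : ℕ) : 0 ≤ (f * g) (p ^ k) := by
  rw [xSCoef_pp f g hp]
  exact sum_nonneg fun i _ => mul_nonneg (hf _) (hg _)

theorem xSCoef_geo {f g : ArithmeticFunction ℂ} {p : ℕ} (hp : p.Prime) {x y : ℂ}
    (hf : ∀ k, f (p ^ k) = x ^ k) (hg : ∀ k, g (p ^ k) = y ^ k)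
    (h : (0 ≤ x ∧ 0 ≤ y) ∨ (x = -1 ∧ y = 1)) (k : ℕ) : 0 ≤ (f * g) (p ^ k) := by
  rcases h with ⟨hx, hy⟩ | ⟨rfl, rfl⟩
  · exact xSCoef_mul hp (fun j => hf j ▸ pow_nonneg hx j) (fun j => hg j ▸ pow_nonneg hy j) k
  · simp only [xSCoef_pp f g hp, hf, hg, one_pow, mul_one, neg_one_geom_sum]
    split_ifs
    exacts [le_rfl, zero_le_one]

theorem xSCoef_A {N : ℕ} (χ : DirichletCharacter ℂ N) {p : ℕ} (hp : p.Prime) (k : ℕ) :
    toArithmeticFunction (χ ·) (p ^ k) = χ p ^ k := by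
  rw [← χ.apply_eq_toArithmeticFunction_apply (pow_ne_zero k hp.ne_zero), Nat.cast_pow, map_pow]

theorem xSCoef_sum {N : ℕ} [NeZero N] (χ : DirichletCharacter ℂ N) {s : ℂ} (hs : 1 < s.re) :
    LSeriesSummable (toArithmeticFunction (χ ·)) s :=
  (LSeriesSummable_congr _ fun h => (χ.apply_eq_toArithmeticFunction_apply h).symm).mpr <|
    ZMod.LSeriesSummable_of_one_lt_re χ hs

theorem xSCoef_L {N : ℕ} [NeZero N] (χ : DirichletCharacter ℂ N) {s : ℂ} (hs : 1 < s.re) :
    LSeries (toArithmeticFunction (χ ·)) s = LFunction χ s := by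
  rw [χ.LFunction_eq_LSeries hs]
  exact (LSeries_congr χ.apply_eq_toArithmeticFunction_apply s).symm

theorem xSCoef_Z {N : ℕ} [NeZero N] (χ : DirichletCharacter ℂ N) {s : ℂ} (hs : 1 < s.re) :
    LSeries χ.zetaMul s = riemannZeta s * LFunction χ s := by
  have h : LSeriesSummable (ArithmeticFunction.zeta : ArithmeticFunction ℂ) s :=
    ArithmeticFunction.LSeriesSummable_zeta_iff.mpr hs
  rw [zetaMul, ArithmeticFunction.LSeries_mul' h (xSCoef_sum χ hs), xSCoef_L χ hs,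
    ← ArithmeticFunction.LSeries_zeta_eq_riemannZeta hs]
  rfl

theorem four_coeff {N : ℕ} [NeZero N] {χ ψ : DirichletCharacter ℂ N} (hχ : χ ^ 2 = 1)
    (hψ : ψ ^ 2 = 1) : ∃ a : ℕ → ℂ, 0 ≤ a ∧ a 1 = 1 ∧
      (∀ s : ℂ, 1 < s.re → LSeriesSummable a s) ∧ ∀ s : ℂ, 1 < s.re →
        LSeries a s = riemannZeta s * (LFunction χ s * LFunction ψ s * LFunction (χ * ψ) s) := by
  have hm := χ.isMultiplicative_zetaMul.mul (ψ.isMultiplicative_toArithmeticFunction.mul
    (χ * ψ).isMultiplicative_toArithmeticFunction)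
  refine ⟨⇑(χ.zetaMul * (toArithmeticFunction (ψ ·) * toArithmeticFunction ((χ * ψ) ·))),
    fun n => ?_, hm.map_one, fun s hs => ArithmeticFunction.LSeriesSummable_mul
      (χ.LSeriesSummable_zetaMul hs) (ArithmeticFunction.LSeriesSummable_mul (xSCoef_sum ψ hs)
        (xSCoef_sum _ hs)), fun s hs => ?_⟩
  · rcases eq_or_ne n 0 with rfl | hn
    · exact ArithmeticFunction.map_zero.ge
    rw [hm.multiplicative_factorization _ hn]
    refine prod_nonneg fun p hp => ?_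
    have hp : p.Prime := Nat.prime_of_mem_primeFactors hp
    have h1 := xSCoef_A χ hp
    have h2 := xSCoef_A ψ hp
    have h3 := xSCoef_A (χ * ψ) hp
    have z1 := zetaMul_prime_pow_nonneg hχ hp
    have z2 := zetaMul_prime_pow_nonneg hψ hp
    have e : χ.zetaMul * (toArithmeticFunction (ψ ·) * toArithmeticFunction ((χ * ψ) ·)) =
        ψ.zetaMul * (toArithmeticFunction ((χ * ψ) ·) * toArithmeticFunction (χ ·)) := by
      rw [zetaMul, zetaMul]
      ring
    rw [MulChar.mul_apply] at h3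
    rcases MulChar.isQuadratic_iff_sq_eq_one.mpr hχ p with h | h | h <;>
      rcases MulChar.isQuadratic_iff_sq_eq_one.mpr hψ p with h' | h' | h'
    · exact xSCoef_mul hp z1 (xSCoef_geo hp h2 h3 (by simp [h, h'])) _
    · exact xSCoef_mul hp z1 (xSCoef_geo hp h2 h3 (by simp [h, h'])) _
    · exact e ▸ xSCoef_mul hp z2 (xSCoef_geo hp h3 h1 (by simp [h, h'])) _
    · exact xSCoef_mul hp z1 (xSCoef_geo hp h2 h3 (by simp [h, h'])) _
    · exact xSCoef_mul hp z1 (xSCoef_geo hp h2 h3 (by simp [h, h'])) _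
    · exact e ▸ xSCoef_mul hp z2 (xSCoef_geo hp h3 h1 (by simp [h, h'])) _
    · exact xSCoef_mul hp z1 (xSCoef_geo hp h2 h3 (by simp [h, h'])) _
    · exact xSCoef_mul hp z1 (mul_comm (toArithmeticFunction (ψ ·)) _ ▸
        xSCoef_geo hp h3 h2 (by simp [h, h'])) _
    · exact xSCoef_mul hp z1 (xSCoef_geo hp h2 h3 (by simp [h, h'])) _
  · rw [ArithmeticFunction.LSeries_mul' (χ.LSeriesSummable_zetaMul hs)
      (ArithmeticFunction.LSeriesSummable_mul (xSCoef_sum ψ hs) (xSCoef_sum _ hs)),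
      ArithmeticFunction.LSeries_mul' (xSCoef_sum ψ hs) (xSCoef_sum _ hs), xSCoef_Z χ hs,
      xSCoef_L ψ hs, xSCoef_L _ hs]
    ring

theorem two_coeff {N : ℕ} [NeZero N] {χ : DirichletCharacter ℂ N} (hχ : χ ^ 2 = 1) :
    ∃ a : ℕ → ℂ, 0 ≤ a ∧ a 1 = 1 ∧ (∀ s : ℂ, 1 < s.re → LSeriesSummable a s) ∧
      ∀ s : ℂ, 1 < s.re → LSeries a s = riemannZeta s * LFunction χ s :=
  ⟨⇑χ.zetaMul, zetaMul_nonneg hχ, χ.isMultiplicative_zetaMul.map_one,
    fun _ => χ.LSeriesSummable_zetaMul, fun _ => xSCoef_Z χ⟩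

theorem L_real {N : ℕ} [NeZero N] {χ : DirichletCharacter ℂ N} (hχ : χ ^ 2 = 1) (h1 : χ ≠ 1)
    (x : ℝ) : (LFunction χ x).im = 0 := by
  have hd := differentiable_LFunction h1
  have hg : Differentiable ℂ fun z => starRingEnd ℂ (LFunction χ (starRingEnd ℂ z)) :=
    fun z => differentiableAt_conj_conj_iff.mpr (hd _)
  have hgz (z : ℂ) (hz : 1 < z.re) :
      starRingEnd ℂ (LFunction χ (starRingEnd ℂ z)) = LFunction χ z := by
    rw [χ.LFunction_eq_LSeries (by rwa [Complex.conj_re]), χ.LFunction_eq_LSeries hz, LSeries,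
      LSeries, Complex.conj_tsum]
    refine tsum_congr fun n => ?_
    rcases eq_or_ne n 0 with rfl | hn
    · simp
    rw [LSeries.term_of_ne_zero hn, LSeries.term_of_ne_zero hn, map_div₀,
      ← Complex.conj_cpow _ _ (by rw [Complex.natCast_arg]; positivity), Complex.conj_natCast]
    congr 1
    rcases MulChar.isQuadratic_iff_sq_eq_one.mpr hχ n with h | h | h <;> simp [h]
  have heq := AnalyticOnNhd.eq_of_eventuallyEq (hg.differentiableOn.analyticOnNhd isOpen_univ)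
    (hd.differentiableOn.analyticOnNhd isOpen_univ) (z₀ := 2) (Filter.eventuallyEq_of_mem
      ((isOpen_lt continuous_const Complex.continuous_re).mem_nhds (by norm_num)) hgz)
  have h := congrFun heq x
  rw [Complex.conj_ofReal] at h
  exact Complex.conj_eq_iff_im.1 h

theorem L_pos {N : ℕ} [NeZero N] {χ : DirichletCharacter ℂ N} (hχ : χ ^ 2 = 1) (h1 : χ ≠ 1)
    {β : ℝ} (h : ∀ x : ℝ, β ≤ x → x < 1 → LFunction χ x ≠ 0) : 0 < (LFunction χ β).re := by
  obtain ⟨a, a0, a1, hs, hL⟩ := two_coeff hχ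
  have hy : (1 : ℝ) < max β 2 := one_lt_two.trans_le (le_max_right _ _)
  have h2 : 0 < (LFunction χ (max β 2 : ℝ)).re := by
    have h3 := LSeries.positive a0 (a1 ▸ zero_lt_one) (x := max β 2)
      ((LSeries.abscissaOfAbsConv_le_of_forall_lt_LSeriesSummable (x := 1)
        fun y hy => hs y hy).trans_lt (by exact_mod_cast hy))
    rw [hL _ hy] at h3
    have h4 := (Complex.pos_iff.1 h3).1
    rw [Complex.mul_re, riemannZeta_im_eq_zero_of_one_lt hy, zero_mul, sub_zero] at h4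
    exact (mul_pos_iff_of_pos_left (riemannZeta_re_pos_of_one_lt hy)).1 h4
  by_contra hn
  have hc : Continuous fun x : ℝ => (LFunction χ x).re :=
    Complex.continuous_re.comp ((differentiable_LFunction h1).continuous.comp
      Complex.continuous_ofReal)
  obtain ⟨x, hx, e⟩ := intermediate_value_Icc (le_max_left β 2) hc.continuousOn
    ⟨not_lt.1 hn, h2.le⟩
  have h0 : LFunction χ x = 0 := Complex.ext e (L_real hχ h1 x)
  rcases lt_or_ge x 1 with h3 | h3
  · exact h x hx.1 h3 h0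
  · exact LFunction_ne_zero_of_one_le_re χ (.inl h1) h3 h0

theorem zeta_neg : ∃ ε : ℝ, 0 < ε ∧ ∀ x : ℝ, 1 - ε ≤ x → x < 1 →
    (riemannZeta x).im = 0 ∧ (riemannZeta x).re < 0 := by
  refine ⟨1 / 100, by norm_num, fun x h0 h1 => ⟨?_, ?_⟩⟩
  · rw [← Complex.conj_eq_iff_im, ← riemannZeta_conj, Complex.conj_ofReal]
  · have h2 := zH_ub (ε := 1 / 2) (by norm_num) le_rfl (s := x)
      (by rw [Complex.ofReal_re]; linarith)
    rw [Complex.norm_real, Real.norm_of_nonneg (by linarith), mul_one_div_cancel two_ne_zero,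
      Real.rpow_one] at h2
    have h3 := (Complex.re_le_norm (zH x)).trans h2
    have h4 : (1 / ((x : ℂ) - 1)).re = 1 / (x - 1) := by
      rw [← Complex.ofReal_one, ← Complex.ofReal_sub, ← Complex.ofReal_div, Complex.ofReal_re]
    have h5 : 1 / (x - 1) ≤ -100 := by
      rw [div_le_iff_of_neg (by linarith)]
      linarith
    rw [zeta_eq (by exact_mod_cast h1.ne), Complex.add_re, h4]
    linarith

end Pool.Agent.MP_e23604_nt.P
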