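import Pool.Agent.MP_e23604_nt.P.Defs

/-!
The lemma of Estermann.
-/

open Finset
open scoped Classical ComplexOrder

noncomputable section

namespace Pool.Agent.MP_e23604_nt.P

theorem xSEst_inv (Λ : ℂ) (m : ℕ) :
    iteratedDeriv m (fun s : ℂ => Λ / (s - 1)) 2 = Λ * ((-1) ^ m * (m.factorial : ℂ)) := by
  have h1 : (fun s : ℂ => Λ / (s - 1)) = fun s : ℂ => Λ * (s - 1)⁻¹ := by
    funext s; rw [div_eq_mul_inv]
  have h2 : iteratedDeriv m (fun s : ℂ => (s - 1)⁻¹) 2 = (-1) ^ m * (m.factorial : ℂ) := by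
    have h3 := iteratedDeriv_comp_sub_const m (fun z : ℂ => z⁻¹) (1 : ℂ)
    rw [h3]
    simp only
    rw [iteratedDeriv_eq_iterate]
    have h4 := iter_deriv_inv m ((2 : ℂ) - 1)
    have h5 : (2 : ℂ) - 1 = 1 := by norm_num
    rw [h5] at h4 ⊢
    rw [one_zpow, mul_one] at h4
    exact h4
  rw [h1, iteratedDeriv_const_mul_field, h2]

theorem xSEst_real (r : ℕ → ℝ) (Λ B u S : ℝ) (M : ℕ) (hM : 1 ≤ M) (hu1 : 1 < u)
    (hu2 : u ≤ 9 / 8) (hB : 0 ≤ B) (h0 : 1 - Λ ≤ r 0) (hr : ∀ m, -Λ ≤ r m)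
    (hb : ∀ m, |r m| ≤ B * (2 / 3) ^ m) (hS : HasSum (fun m => r m * u ^ m) S) :
    1 - Λ * ((u ^ M - 1) / (u - 1)) - 4 * B * (3 / 4) ^ M ≤ S := by
  have hu0 : 0 < u := by linarith
  have hsplit := hS.summable.sum_add_tsum_nat_add M
  rw [hS.tsum_eq] at hsplit
  have hhead : 1 - Λ * ((u ^ M - 1) / (u - 1)) ≤ ∑ m ∈ range M, r m * u ^ m := by
    rw [← geom_sum_eq hu1.ne' M]
    obtain ⟨N, rfl⟩ : ∃ N, M = N + 1 := ⟨M - 1, by omega⟩
    rw [sum_range_succ', sum_range_succ', mul_add, mul_sum]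
    have : ∑ i ∈ range N, -(Λ * u ^ (i + 1)) ≤ ∑ i ∈ range N, r (i + 1) * u ^ (i + 1) := by
      refine sum_le_sum fun i _ => ?_
      have := mul_le_mul_of_nonneg_right (hr (i + 1)) (pow_pos hu0 (i + 1)).le
      linarith
    rw [sum_neg_distrib] at this
    simp only [pow_zero, mul_one]
    linarith
  have hgeo : HasSum (fun m : ℕ => -(B * (3 / 4 : ℝ) ^ M * (3 / 4) ^ m))
      (-(B * (3 / 4 : ℝ) ^ M * (1 - 3 / 4)⁻¹)) :=
    ((hasSum_geometric_of_lt_one (by norm_num) (by norm_num)).mul_left _).neg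
  have htail : -(B * (3 / 4 : ℝ) ^ M * (1 - 3 / 4)⁻¹) ≤ ∑' m, r (m + M) * u ^ (m + M) := by
    refine hasSum_le (fun m => ?_) hgeo ((summable_nat_add_iff M).2 hS.summable).hasSum
    have h1 : -(B * (2 / 3) ^ (m + M)) ≤ r (m + M) := (abs_le.1 (hb (m + M))).1
    have h2 : u ^ (m + M) ≤ (9 / 8) ^ (m + M) := pow_le_pow_left₀ hu0.le hu2 _
    have h3 : B * (3 / 4 : ℝ) ^ M * (3 / 4) ^ m = B * (2 / 3) ^ (m + M) * (9 / 8) ^ (m + M) := by
      rw [mul_assoc, mul_assoc, ← pow_add, ← mul_pow, add_comm]; norm_num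
    rw [h3]
    have h4 : 0 ≤ B * (2 / 3 : ℝ) ^ (m + M) := by positivity
    have h5 := mul_le_mul_of_nonneg_right h1 (pow_pos hu0 (m + M)).le
    have h6 := mul_le_mul_of_nonneg_left h2 h4
    linarith
  have h7 : B * (3 / 4 : ℝ) ^ M * (1 - 3 / 4)⁻¹ = 4 * B * (3 / 4) ^ M := by ring
  linarith

theorem xSEst_M (B : ℝ) (hB : 2 ≤ B) : ∃ M : ℕ, 1 ≤ M ∧ 4 * B * (3 / 4) ^ M ≤ 1 / 2 ∧
    (M : ℝ) ≤ 20 * Real.log B := by
  have hB0 : 0 < B := by linarith
  have hl2 : (1 / 2 : ℝ) < Real.log 2 := by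
    have := Real.log_two_gt_d9; linarith
  have hlB : Real.log 2 ≤ Real.log B := Real.log_le_log (by norm_num) hB
  have h8 : Real.log (8 * B) = 3 * Real.log 2 + Real.log B := by
    rw [Real.log_mul (by norm_num) hB0.ne', show (8 : ℝ) = 2 ^ 3 by norm_num, Real.log_pow]
    norm_num
  have hpos : 0 < 4 * Real.log (8 * B) := by rw [h8]; linarith
  refine ⟨⌈4 * Real.log (8 * B)⌉₊, Nat.one_le_iff_ne_zero.2 (Nat.ceil_pos.2 hpos).ne', ?_, ?_⟩
  · set M := ⌈4 * Real.log (8 * B)⌉₊ with hM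
    have h1 : 4 * Real.log (8 * B) ≤ M := Nat.le_ceil _
    have h2 : (3 / 4 : ℝ) ≤ Real.exp (-(1 / 4)) := by
      have := Real.add_one_le_exp (-(1 / 4) : ℝ); linarith
    have h3 : (3 / 4 : ℝ) ^ M ≤ Real.exp (-(1 / 4)) ^ M := pow_le_pow_left₀ (by norm_num) h2 _
    rw [← Real.exp_nat_mul] at h3
    have h4 : Real.exp (M * -(1 / 4)) ≤ Real.exp (-Real.log (8 * B)) :=
      Real.exp_le_exp.2 (by linarith)
    rw [Real.exp_neg, Real.exp_log (by positivity)] at h4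
    have h5 : 4 * B * (3 / 4) ^ M ≤ 4 * B * (8 * B)⁻¹ :=
      mul_le_mul_of_nonneg_left (h3.trans h4) (by positivity)
    have h6 : 4 * B * (8 * B)⁻¹ = 1 / 2 := by field_simp; norm_num
    linarith
  · have h1 := (Nat.ceil_lt_add_one hpos.le).le
    rw [h8] at h1 ⊢
    linarith

theorem estermann : ∃ C : ℝ, 1 ≤ C ∧ ∀ (a : ℕ → ℂ) (f : ℂ → ℂ) (Λ B β : ℝ), 0 ≤ a → a 1 = 1 →
    (∀ s : ℂ, 1 < s.re → LSeriesSummable a s) → Differentiable ℂ f →
    (∀ s : ℂ, 1 < s.re → LSeries a s = Λ / (s - 1) + f s) → 0 ≤ Λ → 2 ≤ B →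
    (∀ s ∈ Metric.sphere (2 : ℂ) (3 / 2), ‖f s‖ ≤ B) → 7 / 8 ≤ β → β < 1 →
    1 / 2 - Λ * B ^ (C * (1 - β)) / (1 - β) ≤ (f β + Λ / (β - 1)).re := by
  refine ⟨20, by norm_num, fun a f Λ B β ha ha1 hsum hf heq hΛ hB hbd hβ1 hβ2 => ?_⟩
  have hB0 : 0 < B := by linarith
  have habs : LSeries.abscissaOfAbsConv a < ((2 : ℝ) : EReal) := by
    have h1 : LSeries.abscissaOfAbsConv a ≤ ((1 : ℝ) : EReal) :=
      LSeries.abscissaOfAbsConv_le_of_forall_lt_LSeriesSummable fun y hy =>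
        hsum y (by simpa using hy)
    exact h1.trans_lt (by exact_mod_cast (by norm_num : (1 : ℝ) < 2))
  have hev : LSeries a =ᶠ[nhds (2 : ℂ)] (fun s : ℂ => (Λ : ℂ) / (s - 1)) + f := by
    have ho : IsOpen {s : ℂ | 1 < s.re} := Complex.continuous_re.isOpen_preimage _ isOpen_Ioi
    filter_upwards [ho.mem_nhds (show (2 : ℂ) ∈ {s : ℂ | 1 < s.re} by simp)] with s hs
    exact heq s hs
  have hder : ∀ m : ℕ, iteratedDeriv m (LSeries a) 2 =
      Λ * ((-1) ^ m * (m.factorial : ℂ)) + iteratedDeriv m f 2 := by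
    intro m
    rw [hev.iteratedDeriv_eq m, iteratedDeriv_add, xSEst_inv]
    · refine ContDiffAt.div contDiffAt_const (contDiffAt_id.sub contDiffAt_const) (by norm_num)
    · exact (hf.contDiff (n := m)).contDiffAt
  set c : ℕ → ℂ := fun m => (-1) ^ m * iteratedDeriv m f 2 / (m.factorial : ℂ) with hc
  have hcb : ∀ m : ℕ, c m = (-1) ^ m * iteratedDeriv m (LSeries a) 2 / (m.factorial : ℂ) - Λ := by
    intro m
    have h1 : (m.factorial : ℂ) ≠ 0 := by exact_mod_cast m.factorial_ne_zero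
    have h2 : ((-1 : ℂ) ^ m) * (-1) ^ m = 1 := by rw [← mul_pow]; norm_num
    rw [hder m, hc]
    field_simp
    linear_combination (-(Λ : ℂ) * m.factorial) * h2
  have hr : ∀ m : ℕ, -Λ ≤ (c m).re := by
    intro m
    have h1 := LSeries.iteratedDeriv_alternating ha habs m
    have h2 : ((2 : ℝ) : ℂ) = 2 := by norm_num
    rw [h2] at h1
    have h3 := (Complex.le_def.1 h1).1
    rw [hcb m, Complex.sub_re, Complex.div_natCast_re, Complex.ofReal_re]
    have h4 : 0 ≤ ((-1) ^ m * iteratedDeriv m (LSeries a) 2).re / (m.factorial : ℝ) :=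
      div_nonneg (by simpa using h3) (by positivity)
    linarith
  have h0 : 1 - Λ ≤ (c 0).re := by
    rw [hcb 0]
    have h1 : LSeries.term a 2 1 ≤ LSeries a 2 := by
      refine (hsum 2 (by norm_num)).le_tsum 1 fun n _ => ?_
      have := LSeries.term_nonneg (ha n) (2 : ℝ)
      simpa using this
    rw [LSeries.term_of_ne_zero one_ne_zero, ha1] at h1
    have h2 := (Complex.le_def.1 h1).1
    simp only [Nat.cast_one, Complex.one_cpow, div_one, Complex.one_re] at h2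
    simp only [pow_zero, iteratedDeriv_zero, one_mul, Nat.factorial_zero, Nat.cast_one, div_one,
      Complex.sub_re, Complex.ofReal_re]
    linarith
  have hb : ∀ m : ℕ, |(c m).re| ≤ B * (2 / 3) ^ m := by
    intro m
    refine (Complex.abs_re_le_norm _).trans ?_
    have h1 := Complex.norm_iteratedDeriv_le_of_forall_mem_sphere_norm_le m
      (by norm_num : (0 : ℝ) < 3 / 2) hf.diffContOnCl hbd
    have h2 : (0 : ℝ) < m.factorial := by exact_mod_cast m.factorial_pos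
    rw [hc]
    simp only [norm_div, norm_mul, norm_pow, norm_neg, norm_one, one_pow, one_mul,
      Complex.norm_natCast]
    rw [div_le_iff₀ h2]
    refine h1.trans (le_of_eq ?_)
    rw [show (2 / 3 : ℝ) = (3 / 2)⁻¹ by norm_num, inv_pow]
    field_simp
  have hS : HasSum (fun m => (c m).re * (2 - β) ^ m) (f β).re := by
    have h1 := Complex.hasSum_taylorSeries_of_entire hf 2 (β : ℂ)
    have h2 := Complex.hasSum_re h1
    have h3 : (fun m : ℕ => (c m).re * (2 - β) ^ m) = fun m : ℕ =>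
        ((m.factorial : ℂ)⁻¹ • ((β : ℂ) - 2) ^ m • iteratedDeriv m f 2).re := by
      funext m
      have h4 : (m.factorial : ℂ)⁻¹ • ((β : ℂ) - 2) ^ m • iteratedDeriv m f 2 =
          c m * (((2 - β) ^ m : ℝ) : ℂ) := by
        have h5 : ((β : ℂ) - 2) ^ m = (-1) ^ m * (2 - β) ^ m := by
          rw [← mul_pow]; congr 1; ring
        rw [hc, smul_eq_mul, smul_eq_mul, h5]
        push_cast
        ring
      rw [h4, Complex.re_mul_ofReal]
    rw [h3]
    exact h2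
  obtain ⟨M, hM1, hM2, hM3⟩ := xSEst_M B hB
  have hmain := xSEst_real (fun m => (c m).re) Λ B (2 - β) (f β).re M hM1 (by linarith)
    (by linarith) hB0.le h0 hr hb hS
  have hpow : (2 - β) ^ M ≤ B ^ (20 * (1 - β)) := by
    have h1 : 2 - β ≤ Real.exp (1 - β) := by
      have := Real.add_one_le_exp (1 - β); linarith
    have h2 : (2 - β) ^ M ≤ Real.exp (1 - β) ^ M := pow_le_pow_left₀ (by linarith) h1 _
    rw [← Real.exp_nat_mul] at h2
    rw [Real.rpow_def_of_pos hB0]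
    refine h2.trans (Real.exp_le_exp.2 ?_)
    have h3 : 0 ≤ 1 - β := by linarith
    nlinarith
  have hre : (f β + Λ / (β - 1)).re = (f β).re - Λ / (1 - β) := by
    have h1 : ((Λ : ℂ) / (β - 1)) = ((-(Λ / (1 - β)) : ℝ) : ℂ) := by
      push_cast
      rw [← div_neg, neg_sub]
    rw [Complex.add_re, h1, Complex.ofReal_re]
    ring
  have hd : 0 < 1 - β := by linarith
  have h9 : Λ * (2 - β) ^ M / (1 - β) ≤ Λ * B ^ (20 * (1 - β)) / (1 - β) :=
    div_le_div_of_nonneg_right (mul_le_mul_of_nonneg_left hpow hΛ) hd.le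
  have h10 : Λ * (((2 - β) ^ M - 1) / (2 - β - 1)) = Λ * (2 - β) ^ M / (1 - β) - Λ / (1 - β) := by
    rw [show 2 - β - 1 = 1 - β by ring]; ring
  rw [hre]
  linarith

end Pool.Agent.MP_e23604_nt.P
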