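import Pool.Agent.MP_e23604_nt.P.Defs

/-!
The smoothed Perron formula.
-/

open Finset
open scoped Classical

noncomputable section

namespace Pool.Agent.MP_e23604_nt.P

theorem xSPer_sum (a : ℕ → ℂ) (ha : ∀ n, ‖a n‖ ≤ 1 + Real.log n) {s : ℂ} (h1 : 1 < s.re)
    (h2 : s.re ≤ 2) : Summable (fun n => ‖LSeries.term a s n‖) ∧
      ∑' n, ‖LSeries.term a s n‖ ≤ 9 / (s.re - 1) ^ 2 := by
  obtain ⟨d, hd, hs⟩ : ∃ d : ℝ, 0 < d ∧ s.re = 1 + 2 * d :=
    ⟨(s.re - 1) / 2, by linarith, by ring⟩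
  have hb : ∀ n : ℕ, ‖LSeries.term a s (n + 1)‖ ≤ (1 + 1 / d) * (1 / (n + 1 : ℝ) ^ (1 + d)) := by
    intro n
    have h0 : (1 : ℝ) ≤ n + 1 := by linarith [Nat.cast_nonneg (α := ℝ) n]
    have h3 := Real.log_le_rpow_div (zero_le_one.trans h0) hd
    have h4 := Real.one_le_rpow h0 hd.le
    have h5 := ha (n + 1)
    rw [LSeries.norm_term_eq, if_neg n.succ_ne_zero, hs, show 1 + 2 * d = d + (1 + d) by ring]
    push_cast at h5 ⊢
    rw [Real.rpow_add (by positivity), ← div_div, mul_one_div]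
    refine div_le_div_of_nonneg_right ?_ (by positivity)
    rw [div_le_iff₀ (by positivity), add_mul, one_mul, one_div_mul_eq_div]
    linarith
  have hz : Summable fun n : ℕ => 1 / (n + 1 : ℝ) ^ (1 + d) := by
    exact_mod_cast (summable_nat_add_iff 1).2 (Real.summable_one_div_nat_rpow.2 (by linarith))
  have hz' : ∑' n : ℕ, 1 / (n + 1 : ℝ) ^ (1 + d) ≤ 1 + 1 / d := by
    have h3 := ZetaAsymptotics.zeta_limit_aux1 (s := 1 + d) (by linarith)
    have h4 : 0 ≤ (1 + d) * ZetaAsymptotics.termTSum (1 + d) :=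
      mul_nonneg (by linarith) (tsum_nonneg fun n => ZetaAsymptotics.term_nonneg _ _)
    rw [add_sub_cancel_left] at h3
    linarith
  have h3 := Summable.of_nonneg_of_le (fun _ => norm_nonneg _) hb (hz.mul_left _)
  have h4 := (summable_nat_add_iff (f := fun n => ‖LSeries.term a s n‖) 1).1 h3
  refine ⟨h4, ?_⟩
  rw [h4.tsum_eq_zero_add, LSeries.term_zero, norm_zero, zero_add]
  refine (h3.tsum_le_tsum hb (hz.mul_left _)).trans ?_
  rw [tsum_mul_left]
  refine (mul_le_mul_of_nonneg_left hz' (by positivity)).trans ?_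
  rw [hs, add_sub_cancel_left, le_div_iff₀ (by positivity)]
  have h5 : (1 + 1 / d) * (1 + 1 / d) * (2 * d) ^ 2 = 4 * (d + 1) ^ 2 := by field_simp; ring
  rw [h5]
  nlinarith

theorem norm_LSeries_le : ∃ C : ℝ, 0 < C ∧ ∀ (a : ℕ → ℂ), (∀ n, ‖a n‖ ≤ 1 + Real.log n) →
    ∀ s : ℂ, 1 < s.re → s.re ≤ 2 →
      LSeriesSummable a s ∧ ‖LSeries a s‖ ≤ C / (s.re - 1) ^ 2 := by
  refine ⟨9, by norm_num, fun a ha s h1 h2 => ?_⟩
  obtain ⟨h3, h4⟩ := xSPer_sum a ha h1 h2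
  exact ⟨h3.of_norm, (norm_tsum_le_tsum_norm h3).trans h4⟩

theorem xSPer_ne {c : ℝ} (hc : 1 < c) (t : ℝ) :
    (c + t * Complex.I : ℂ) ≠ 0 ∧ (c + t * Complex.I + 1 : ℂ) ≠ 0 := by
  constructor <;> intro h <;> have h1 := congrArg Complex.re h <;> simp at h1 <;> linarith

theorem xSPer_cont {c : ℝ} (hc : 1 < c) :
    Continuous fun t : ℝ => ((c + t * Complex.I) * (c + t * Complex.I + 1) : ℂ)⁻¹ :=
  Continuous.inv₀ (by fun_prop) fun t => mul_ne_zero (xSPer_ne hc t).1 (xSPer_ne hc t).2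

theorem xSPer_int {c : ℝ} (hc : 1 < c) : MeasureTheory.Integrable
    fun t : ℝ => ((c + t * Complex.I) * (c + t * Complex.I + 1) : ℂ)⁻¹ := by
  refine integrable_inv_one_add_sq.mono' (xSPer_cont hc).aestronglyMeasurable
    (Filter.Eventually.of_forall fun t => ?_)
  rw [norm_inv]
  refine inv_anti₀ (by positivity) (abs_le_of_sq_le_sq' ?_ (norm_nonneg _)).2
  rw [norm_mul, mul_pow, Complex.sq_norm, Complex.sq_norm, Complex.normSq_apply,
    Complex.normSq_apply, pow_two]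
  refine mul_le_mul ?_ ?_ (by positivity) (add_nonneg (mul_self_nonneg _) (mul_self_nonneg _)) <;>
    simp <;> nlinarith

theorem xSPer_mellin {s : ℂ} (hs : 0 < s.re) :
    HasMellin (fun x : ℝ => ((max (1 - x) 0 : ℝ) : ℂ)) s (1 / s - 1 / (s + 1)) := by
  obtain ⟨h1, h2⟩ := hasMellin_one_Ioc hs
  obtain ⟨h3, h4⟩ := hasMellin_cpow_Ioc 1 (s := s) (by rw [Complex.one_re]; linarith)
  obtain ⟨h5, h6⟩ := hasMellin_sub h1 h3
  rw [h2, h4] at h6
  have h : Set.EqOn (fun x : ℝ => (x : ℂ) ^ (s - 1) •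
      (Set.indicator (Set.Ioc 0 1) (fun _ => 1 : ℝ → ℂ) x -
        Set.indicator (Set.Ioc 0 1) (fun t => (t : ℂ) ^ (1 : ℂ) : ℝ → ℂ) x))
      (fun x : ℝ => (x : ℂ) ^ (s - 1) • ((max (1 - x) 0 : ℝ) : ℂ)) (Set.Ioi 0) := by
    intro x hx
    rcases le_or_gt x 1 with h | h
    · have hm : x ∈ Set.Ioc (0 : ℝ) 1 := ⟨hx, h⟩
      simp [Set.indicator_of_mem hm, max_eq_left (sub_nonneg.2 h)]
    · have hm : x ∉ Set.Ioc (0 : ℝ) 1 := fun h' => h'.2.not_gt h
      simp [Set.indicator_of_notMem hm, max_eq_right (sub_nonpos.2 h.le)]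
  exact ⟨h5.congr_fun h measurableSet_Ioi,
    (MeasureTheory.setIntegral_congr_fun measurableSet_Ioi h).symm.trans h6⟩

theorem xSPer_inv {c x : ℝ} (hc : 1 < c) (hx : 0 < x) :
    (1 / (2 * Real.pi) : ℂ) * ∫ t : ℝ, (x : ℂ) ^ (-((c : ℂ) + t * Complex.I)) *
      ((c + t * Complex.I) * (c + t * Complex.I + 1) : ℂ)⁻¹ = ((max (1 - x) 0 : ℝ) : ℂ) := by
  have h : ∀ t : ℝ, mellin (fun x : ℝ => ((max (1 - x) 0 : ℝ) : ℂ)) (c + t * Complex.I) =
      ((c + t * Complex.I) * (c + t * Complex.I + 1) : ℂ)⁻¹ := fun t => by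
    obtain ⟨h1, h2⟩ := xSPer_ne hc t
    rw [(xSPer_mellin (by simp; linarith)).2]
    field_simp
    ring
  have h1 := mellinInv_mellin_eq c (fun x : ℝ => ((max (1 - x) 0 : ℝ) : ℂ)) hx
    (xSPer_mellin (by simp; linarith)).1 ((xSPer_int hc).congr (.of_forall fun t => (h t).symm))
    (by fun_prop)
  simp only [mellinInv, h, smul_eq_mul, Complex.real_smul] at h1
  rw [← h1]
  push_cast
  rfl

theorem perron (a : ℕ → ℂ) (ha : ∀ n, ‖a n‖ ≤ 1 + Real.log n) {c y : ℝ} (hc : 1 < c)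
    (hc' : c ≤ 2) (hy : 0 < y) :
    MeasureTheory.Integrable (fun t : ℝ => LSeries a (c + t * Complex.I) *
      (y : ℂ) ^ ((c : ℂ) + t * Complex.I) / ((c + t * Complex.I) * (c + t * Complex.I + 1))) ∧
    ∑ n ∈ Icc 1 ⌊y⌋₊, a n * (1 - n / y) = (1 / (2 * Real.pi) : ℂ) *
      ∫ t : ℝ, LSeries a (c + t * Complex.I) *
        (y : ℂ) ^ ((c : ℂ) + t * Complex.I) / ((c + t * Complex.I) * (c + t * Complex.I + 1)) :=
  by
  obtain ⟨hs, -⟩ := xSPer_sum a ha (s := c) hc hc'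
  have hn : ∀ n (t : ℝ), ‖LSeries.term a (c + t * Complex.I) n‖ = ‖LSeries.term a c n‖ :=
    fun n t => by simp [LSeries.norm_term_eq]
  have hy0 : (y : ℂ) ≠ 0 := Complex.ofReal_ne_zero.2 hy.ne'
  have hyc : Continuous fun t : ℝ => (y : ℂ) ^ ((c : ℂ) + t * Complex.I) :=
    Continuous.const_cpow (by fun_prop) (Or.inl hy0)
  have hyn : ∀ t : ℝ, ‖(y : ℂ) ^ ((c : ℂ) + t * Complex.I)‖ = y ^ c := fun t => by
    simp [Complex.norm_cpow_eq_rpow_re_of_pos hy]
  have hct : ∀ n, Continuous fun t : ℝ => LSeries.term a (c + t * Complex.I) n := fun n => by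
    rcases eq_or_ne n 0 with rfl | h
    · exact continuous_const
    have h0 : (n : ℂ) ≠ 0 := Nat.cast_ne_zero.2 h
    simp only [LSeries.term_of_ne_zero h]
    exact continuous_const.div (Continuous.const_cpow (by fun_prop) (Or.inl h0))
      fun t => Complex.cpow_ne_zero_iff.2 (Or.inl h0)
  have hI : ∀ (f : ℝ → ℂ) (B : ℝ), Continuous f → (∀ t, ‖f t‖ ≤ B) →
      MeasureTheory.Integrable fun t : ℝ => f t * (y : ℂ) ^ ((c : ℂ) + t * Complex.I) /
        ((c + t * Complex.I) * (c + t * Complex.I + 1)) := fun f B hf hB =>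
    (xSPer_int hc).bdd_mul (c := B * y ^ c) (hf.mul hyc).aestronglyMeasurable
      (.of_forall fun t => by
        rw [norm_mul, hyn]
        exact mul_le_mul_of_nonneg_right (hB t) (by positivity))
  refine ⟨hI _ (∑' n, ‖LSeries.term a c n‖) (continuous_tsum hct hs fun n t => (hn n t).le)
    fun t => tsum_of_norm_bounded hs.hasSum fun n => (hn n t).le, ?_⟩
  have h1 := MeasureTheory.hasSum_integral_of_summable_integral_norm
    (fun n => hI _ _ (hct n) fun t => (hn n t).le) (by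
      simp only [div_eq_mul_inv, norm_mul, hn, hyn, MeasureTheory.integral_const_mul]
      exact (hs.mul_right _).mul_right _)
  simp only [tsum_div_const, tsum_mul_right] at h1
  have h2 : ∀ n : ℕ, n ≠ 0 → (1 / (2 * Real.pi) : ℂ) * ∫ t : ℝ,
      LSeries.term a (c + t * Complex.I) n * (y : ℂ) ^ ((c : ℂ) + t * Complex.I) /
        ((c + t * Complex.I) * (c + t * Complex.I + 1)) = a n * ((max (1 - n / y) 0 : ℝ) : ℂ) := by
    intro n h
    have h0 : (0 : ℝ) < n := Nat.cast_pos.2 (Nat.pos_of_ne_zero h)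
    rw [← xSPer_inv hc (div_pos h0 hy), mul_left_comm, ← MeasureTheory.integral_const_mul (a n)]
    congr 2
    funext t
    rw [LSeries.term_of_ne_zero h, Complex.ofReal_div, Complex.cpow_neg,
      Complex.div_cpow_ofReal_nonneg h0.le hy.le, inv_div, Complex.ofReal_natCast]
    ring
  refine Eq.trans (sum_congr rfl fun n h => ?_) ((hasSum_sum_of_ne_finset_zero
    (s := Icc 1 ⌊y⌋₊) fun n h => ?_).unique (h1.mul_left (1 / (2 * Real.pi) : ℂ)))
  · obtain ⟨h3, h4⟩ := mem_Icc.1 h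
    rw [h2 n (by omega), max_eq_left
      (sub_nonneg.2 ((div_le_one hy).2 ((Nat.le_floor_iff hy.le).1 h4)))]
    push_cast
    rfl
  · rcases eq_or_ne n 0 with rfl | h0
    · simp
    have h3 : y < n := (Nat.floor_lt hy.le).1 (by rw [mem_Icc] at h; omega)
    rw [h2 n h0, max_eq_right (sub_nonpos.2 ((one_le_div hy).2 h3.le))]
    simp

end Pool.Agent.MP_e23604_nt.P
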