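import Pool.Agent.MP_e23604_nt.P.STau
import Pool.Agent.MP_e23604_nt.P.SZfL
import Pool.Agent.MP_e23604_nt.P.SZfZ

/-!
The prime number theorem for characters of small modulus.
-/

open Finset DirichletCharacter
open scoped Classical

noncomputable section

namespace Pool.Agent.MP_e23604_nt.P

theorem xSPsi_log_pow (n : ℕ) : ∀ᶠ x : ℝ in Filter.atTop, Real.log x ^ n ≤ x := by
  have h := (Real.isLittleO_pow_log_id_atTop (n := n)).bound (c := 1) one_pos
  filter_upwards [h, Filter.eventually_ge_atTop (1 : ℝ)] with x hx h1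
  have h0 : 0 ≤ Real.log x := Real.log_nonneg h1
  rw [Real.norm_of_nonneg (pow_nonneg h0 n), one_mul, id, Real.norm_of_nonneg (by linarith)] at hx
  exact hx

theorem xSPsi_pow_exp (n : ℕ) {c : ℝ} (hc : 0 < c) :
    ∀ᶠ u : ℝ in Filter.atTop, u ^ n ≤ Real.exp (c * u) := by
  have h := (isLittleO_pow_exp_pos_mul_atTop n hc).bound (c := 1) one_pos
  filter_upwards [h, Filter.eventually_ge_atTop (0 : ℝ)] with u hu h0
  rw [Real.norm_of_nonneg (pow_nonneg h0 n), one_mul,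
    Real.norm_of_nonneg (Real.exp_pos _).le] at hu
  exact hu

theorem xSPsi_num (A : ℕ) {C K u x E : ℝ} (hC : 0 < C) (hK : 0 ≤ K) (hu : 1 ≤ u) (hx : 0 < x)
    (hE : 0 ≤ E) (hE' : E * u ^ (4 * A + 9) ≤ 1) (hbig : C * (2 + 2 * K) ≤ u ^ 2) :
    C * (x ^ 2 / (x / (u ^ 2) ^ (A + 2)) * ((u ^ 2) ^ 2 / (u ^ 2) ^ (2 * A + 6) +
      K * u / ((u ^ 2) ^ (2 * A + 6)) ^ 2 + K * u * E) + x / (u ^ 2) ^ (A + 2) * u ^ 2) ≤
      x / (u ^ 2) ^ A := by
  have hu0 : 0 < u := by linarith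
  obtain ⟨v, hv⟩ : ∃ v : ℝ, v = u ^ (2 * A) := ⟨_, rfl⟩
  have hv1 : 1 ≤ v := by rw [hv]; exact one_le_pow₀ hu
  have hv0 : 0 < v := by linarith
  have e1 : (u ^ 2) ^ A = v := by rw [hv, ← pow_mul]
  have e2 : (u ^ 2) ^ (A + 2) = v * u ^ 4 := by rw [hv]; ring
  have e3 : (u ^ 2) ^ (2 * A + 6) = v ^ 2 * u ^ 12 := by rw [hv]; ring
  have e4 : u ^ (4 * A + 9) = v ^ 2 * u ^ 9 := by rw [hv]; ring
  rw [e4] at hE'
  rw [e1, e2, e3]
  have hp : ∀ k : ℕ, 1 ≤ u ^ k := fun k => one_le_pow₀ hu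
  have t1 : x ^ 2 / (x / (v * u ^ 4)) * ((u ^ 2) ^ 2 / (v ^ 2 * u ^ 12)) ≤ x / (v * u ^ 2) := by
    have : x ^ 2 / (x / (v * u ^ 4)) * ((u ^ 2) ^ 2 / (v ^ 2 * u ^ 12)) =
        x / (v * u ^ 2) / u ^ 2 := by field_simp
    rw [this]
    exact div_le_self (by positivity) (hp 2)
  have t2 : x ^ 2 / (x / (v * u ^ 4)) * (K * u / (v ^ 2 * u ^ 12) ^ 2) ≤
      K * (x / (v * u ^ 2)) := by
    have : x ^ 2 / (x / (v * u ^ 4)) * (K * u / (v ^ 2 * u ^ 12) ^ 2) =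
        K * (x / (v * u ^ 2)) / (v ^ 2 * u ^ 17) := by field_simp
    rw [this]
    exact div_le_self (by positivity)
      (one_le_mul_of_one_le_of_one_le (one_le_pow₀ hv1) (hp 17))
  have t3 : x ^ 2 / (x / (v * u ^ 4)) * (K * u * E) ≤ K * (x / (v * u ^ 2)) := by
    have : x ^ 2 / (x / (v * u ^ 4)) * (K * u * E) =
        K * (x / (v * u ^ 2)) * (E * (v ^ 2 * u ^ 9)) / u ^ 2 := by field_simp
    rw [this]
    refine (div_le_self (by positivity) (hp 2)).trans ?_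
    exact mul_le_of_le_one_right (by positivity) hE'
  have t4 : x / (v * u ^ 4) * u ^ 2 = x / (v * u ^ 2) := by field_simp
  have hy : 0 < x / (v * u ^ 2) := by positivity
  have t5 : x / v = u ^ 2 * (x / (v * u ^ 2)) := by field_simp
  rw [t4, t5, mul_add (x ^ 2 / (x / (v * u ^ 4))), mul_add (x ^ 2 / (x / (v * u ^ 4)))]
  calc C * (x ^ 2 / (x / (v * u ^ 4)) * ((u ^ 2) ^ 2 / (v ^ 2 * u ^ 12)) +
        x ^ 2 / (x / (v * u ^ 4)) * (K * u / (v ^ 2 * u ^ 12) ^ 2) +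
        x ^ 2 / (x / (v * u ^ 4)) * (K * u * E) + x / (v * u ^ 2))
      ≤ C * ((2 + 2 * K) * (x / (v * u ^ 2))) := by
        refine mul_le_mul_of_nonneg_left ?_ hC.le
        linarith
    _ = C * (2 + 2 * K) * (x / (v * u ^ 2)) := by ring
    _ ≤ u ^ 2 * (x / (v * u ^ 2)) := mul_le_mul_of_nonneg_right hbig hy.le

theorem xSPsi_cor (A : ℕ) {c K : ℝ} (hc : 0 < c) (hc2 : c ≤ 1 / 2) (hK : 0 ≤ K) :
    ∀ᶠ x : ℝ in Filter.atTop, ∀ (a : ℕ → ℂ) (F : ℂ → ℂ), (∀ n, ‖a n‖ ≤ 1 + Real.log n) →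
      DifferentiableOn ℂ F (Set.Icc (1 - c / √(Real.log x)) (1 + c / √(Real.log x)) ×ℂ
        Set.Icc (-(Real.log x ^ (2 * A + 6))) (Real.log x ^ (2 * A + 6))) →
      (∀ s : ℂ, 1 < s.re → F s = LSeries a s) →
      (∀ s ∈ Set.Icc (1 - c / √(Real.log x)) (1 + c / √(Real.log x)) ×ℂ
        Set.Icc (-(Real.log x ^ (2 * A + 6))) (Real.log x ^ (2 * A + 6)),
        ‖F s‖ ≤ K * √(Real.log x)) →
      ‖∑ n ∈ Icc 1 ⌊x⌋₊, a n‖ ≤ x / Real.log x ^ A := by
  obtain ⟨C, hC, H⟩ := tauber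
  have hT : Filter.Tendsto (fun x : ℝ => √(Real.log x)) Filter.atTop Filter.atTop :=
    Real.tendsto_sqrt_atTop.comp Real.tendsto_log_atTop
  filter_upwards [xSPsi_log_pow (A + 2), Filter.eventually_ge_atTop (3 : ℝ),
    hT.eventually (xSPsi_pow_exp (4 * A + 9) hc), hT.eventually_ge_atTop 1,
    hT.eventually_ge_atTop (1 / c),
    Real.tendsto_log_atTop.eventually_ge_atTop (C * (2 + 2 * K))] with x h1 h3 h4 h5 h6 h7
  intro a F ha hF hL hB
  have hx0 : 0 < x := by linarith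
  have hL0 : 0 ≤ Real.log x := Real.log_nonneg (by linarith)
  obtain ⟨u, hu⟩ : ∃ u : ℝ, u = √(Real.log x) := ⟨_, rfl⟩
  have hLu : Real.log x = u ^ 2 := by rw [hu, Real.sq_sqrt hL0]
  rw [← hu] at h4 h5 h6 hF hB
  have hu0 : 0 < u := by linarith
  have hL1 : 1 ≤ Real.log x := by rw [hLu]; exact one_le_pow₀ h5
  have hP : 0 < Real.log x ^ (A + 2) := by positivity
  have key := H a F (c / u) (Real.log x ^ (2 * A + 6)) (K * u) x (x / Real.log x ^ (A + 2)) ha h3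
    ((one_le_div hP).2 h1) (div_le_self hx0.le (one_le_pow₀ hL1)) (one_le_pow₀ hL1)
    ((div_le_self hc.le h5).trans hc2)
    (by
      rw [hLu, div_le_div_iff₀ (by positivity) hu0]
      rw [div_le_iff₀ hc] at h6
      nlinarith)
    hF (fun s hs _ _ => hL s hs) hB
  refine key.trans ?_
  have hE : x ^ (-(c / u)) * u ^ (4 * A + 9) ≤ 1 := by
    have : x ^ (-(c / u)) = (Real.exp (c * u))⁻¹ := by
      rw [Real.rpow_def_of_pos hx0, ← Real.exp_neg, hLu]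
      congr 1
      field_simp
    rw [this, inv_mul_le_iff₀ (Real.exp_pos _), mul_one]
    exact h4
  have h7' : C * (2 + 2 * K) ≤ u ^ 2 := by rw [← hLu]; exact h7
  have := xSPsi_num A hC hK h5 hx0 (Real.rpow_nonneg hx0.le _) hE h7'
  rw [← hLu] at this
  exact this

theorem xSPsi_rpow {L y : ℝ} {n : ℕ} (hn : 0 < n) (hL : 1 ≤ L) (hy0 : 0 ≤ y) (hy : y ≤ L ^ n) :
    y ^ (1 / (2 * (n : ℝ))) ≤ √L := by
  have hn' : (0 : ℝ) < n := by exact_mod_cast hn
  have hL0 : 0 ≤ L := by linarith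
  calc y ^ (1 / (2 * (n : ℝ))) ≤ (L ^ n) ^ (1 / (2 * (n : ℝ))) :=
        Real.rpow_le_rpow hy0 hy (by positivity)
    _ = √L := by
        rw [← Real.rpow_natCast, ← Real.rpow_mul hL0, Real.sqrt_eq_rpow]
        congr 1
        field_simp

theorem xSPsi_mem {η T : ℝ} {s : ℂ}
    (hs : s ∈ Set.Icc (1 - η) (1 + η) ×ℂ Set.Icc (-T) T) : |s.re - 1| ≤ η ∧ |s.im| ≤ T := by
  rw [Complex.mem_reProdIm] at hs
  obtain ⟨⟨h1, h2⟩, h3, h4⟩ := hs
  exact ⟨abs_le.2 ⟨by linarith, by linarith⟩, abs_le.2 ⟨h3, h4⟩⟩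

theorem xSPsi_width {c y ε w : ℝ} (hc : 0 ≤ c) (hy : 0 < y) (hw : y ^ ε ≤ w) :
    c / w ≤ c * y ^ (-ε) := by
  rw [Real.rpow_neg hy.le, ← div_eq_mul_inv]
  exact div_le_div_of_nonneg_left hc (Real.rpow_pos_of_pos hy _) hw

theorem xSPsi_diff {f : ℂ → ℂ} (hf : Differentiable ℂ f) {s : ℂ} (hs : f s ≠ 0) :
    DifferentiableAt ℂ (logDeriv f) s := by
  have h : logDeriv f = fun z => deriv f z / f z := by
    funext z
    rw [logDeriv_apply]
  rw [h]
  exact ((hf.analyticAt s).deriv.differentiableAt).div (hf s) hs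

theorem psi_chi (A B : ℕ) : ∃ x0 : ℝ, ∀ x ≥ x0, ∀ (q : ℕ) [NeZero q] (χ : DirichletCharacter ℂ q),
    (q : ℝ) ≤ Real.log x ^ B → χ ≠ 1 →
    ‖∑ n ∈ Icc 1 ⌊x⌋₊, χ n * (ArithmeticFunction.vonMangoldt n : ℂ)‖ ≤ x / Real.log x ^ A := by
  have hn : 0 < B + (2 * A + 6) := by omega
  have hε : (0 : ℝ) < 1 / (2 * ((B + (2 * A + 6) : ℕ) : ℝ)) := by positivity
  obtain ⟨c, hc, hc2, H⟩ := zf_L hε
  have hev := (xSPsi_cor A hc hc2 (K := 1 / c) (by positivity)).and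
    (Real.tendsto_log_atTop.eventually_ge_atTop 1)
  obtain ⟨x0, hx0⟩ := Filter.eventually_atTop.1 hev
  refine ⟨x0, fun x hx q _ χ hq hχ => ?_⟩
  obtain ⟨hcor, hL1⟩ := hx0 x hx
  have hq0 : (0 : ℝ) < q := by exact_mod_cast Nat.pos_of_ne_zero (NeZero.ne q)
  have hT1 : 1 ≤ Real.log x ^ (2 * A + 6) := one_le_pow₀ hL1
  have hqT : (0 : ℝ) < q * Real.log x ^ (2 * A + 6) := by positivity
  have hr : ((q : ℝ) * Real.log x ^ (2 * A + 6)) ^ (1 / (2 * ((B + (2 * A + 6) : ℕ) : ℝ))) ≤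
      √(Real.log x) := by
    refine xSPsi_rpow hn hL1 hqT.le ?_
    rw [pow_add (Real.log x) B]
    exact mul_le_mul_of_nonneg_right hq (by linarith)
  have hz : ∀ s ∈ Set.Icc (1 - c / √(Real.log x)) (1 + c / √(Real.log x)) ×ℂ
        Set.Icc (-(Real.log x ^ (2 * A + 6))) (Real.log x ^ (2 * A + 6)),
      LFunction χ s ≠ 0 ∧ ‖logDeriv (LFunction χ) s‖ ≤ 1 / c * √(Real.log x) := by
    intro s hs
    obtain ⟨h1, h2⟩ := xSPsi_mem hs
    obtain ⟨h3, h4⟩ := H q χ hχ _ hT1 s (h1.trans (xSPsi_width hc.le hqT hr)) h2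
    refine ⟨h3, h4.trans ?_⟩
    rw [one_div_mul_eq_div]
    exact div_le_div_of_nonneg_right hr hc.le
  refine hcor (fun n => χ n * (ArithmeticFunction.vonMangoldt n : ℂ))
    (fun s => -logDeriv (LFunction χ) s) ?_ ?_ ?_ ?_
  · intro n
    rw [norm_mul, Complex.norm_real,
      Real.norm_of_nonneg ArithmeticFunction.vonMangoldt_nonneg]
    have h1 : ‖χ n‖ ≤ 1 := DirichletCharacter.norm_le_one χ _
    have h2 := ArithmeticFunction.vonMangoldt_le_log (n := n)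
    have h3 := ArithmeticFunction.vonMangoldt_nonneg (n := n)
    nlinarith
  · intro s hs
    exact (xSPsi_diff (differentiable_LFunction hχ) (hz s hs).1).neg.differentiableWithinAt
  · intro s hs
    have h := DirichletCharacter.LSeries_twist_vonMangoldt_eq χ hs
    rw [logDeriv_apply, deriv_LFunction_eq_deriv_LSeries χ hs, LFunction_eq_LSeries χ hs,
      ← neg_div]
    exact h.symm
  · intro s hs
    rw [norm_neg]
    exact (hz s hs).2

theorem xSPsi_LS {s : ℂ} (hs : 1 < s.re) :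
    -logDeriv zeta1 s - zH s =
      LSeries (fun n => (ArithmeticFunction.vonMangoldt n : ℂ) - 1) s := by
  have hs1 : s ≠ 1 := by
    rintro rfl
    simp at hs
  have hs1' : s - 1 ≠ 0 := sub_ne_zero.2 hs1
  have hz : riemannZeta s ≠ 0 := riemannZeta_ne_zero_of_one_lt_re hs
  have h1 : LSeries (fun n => (ArithmeticFunction.vonMangoldt n : ℂ) - 1) s =
      LSeries (fun n => (ArithmeticFunction.vonMangoldt n : ℂ)) s - LSeries 1 s :=
    LSeries_sub (ArithmeticFunction.LSeriesSummable_vonMangoldt hs)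
      (LSeriesSummable_one_iff.2 hs)
  have h2 := ArithmeticFunction.LSeries_vonMangoldt_eq_deriv_riemannZeta_div hs
  have h3 : zeta1 =ᶠ[nhds s] fun z => (z - 1) * riemannZeta z := by
    filter_upwards [isOpen_ne.mem_nhds hs1] with z hz
    exact Function.update_of_ne hz _ _
  have h4 : deriv zeta1 s = riemannZeta s + (s - 1) * deriv riemannZeta s := by
    rw [h3.deriv_eq]
    have := ((hasDerivAt_id' s).sub_const 1).fun_mul
      (differentiableAt_riemannZeta hs1).hasDerivAt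
    rw [this.deriv, one_mul]
  have h5 : zH s = riemannZeta s - 1 / (s - 1) := by rw [zeta_eq hs1]; ring
  rw [h1, h2, LSeries_one_eq_riemannZeta hs, logDeriv_apply, h4, h3.eq_of_nhds, h5]
  field_simp
  ring

theorem psi_one (A : ℕ) : ∃ x0 : ℝ, ∀ x ≥ x0,
    |∑ n ∈ Icc 1 ⌊x⌋₊, ArithmeticFunction.vonMangoldt n - x| ≤ x / Real.log x ^ A := by
  have hn : 0 < 2 * (A + 1) + 6 := by omega
  obtain ⟨ε, hεd⟩ : ∃ ε : ℝ, ε = 1 / (2 * ((2 * (A + 1) + 6 : ℕ) : ℝ)) := ⟨_, rfl⟩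
  have hε : 0 < ε := by rw [hεd]; positivity
  have hε1 : ε ≤ 1 := by
    rw [hεd, div_le_one (by positivity)]
    have : (1 : ℝ) ≤ ((2 * (A + 1) + 6 : ℕ) : ℝ) := by exact_mod_cast hn
    linarith
  obtain ⟨c, hc, hc2, H⟩ := zf_zeta hε
  have hc' : 0 < min c (ε / 2) := lt_min hc (by positivity)
  have hev := ((xSPsi_cor (A + 1) hc' ((min_le_left _ _).trans hc2)
    (K := 1 / c + 20 / (ε / 2) * 4) (by positivity)).and
    (Real.tendsto_log_atTop.eventually_ge_atTop 2)).and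
    ((xSPsi_log_pow (A + 1)).and (Filter.eventually_ge_atTop (1 : ℝ)))
  obtain ⟨x0, hx0⟩ := Filter.eventually_atTop.1 hev
  refine ⟨x0, fun x hx => ?_⟩
  obtain ⟨⟨hcor, hL2⟩, hpow, hx1⟩ := hx0 x hx
  have hL1 : 1 ≤ Real.log x := by linarith
  have hT1 : 1 ≤ Real.log x ^ (2 * (A + 1) + 6) := one_le_pow₀ hL1
  have hT0 : 0 < Real.log x ^ (2 * (A + 1) + 6) := by linarith
  have hr : (Real.log x ^ (2 * (A + 1) + 6)) ^ ε ≤ √(Real.log x) := by
    rw [hεd]
    exact xSPsi_rpow hn hL1 hT0.le le_rfl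
  have hu1 : 1 ≤ √(Real.log x) := Real.one_le_sqrt.2 hL1
  have hz : ∀ s ∈ Set.Icc (1 - min c (ε / 2) / √(Real.log x))
        (1 + min c (ε / 2) / √(Real.log x)) ×ℂ
        Set.Icc (-(Real.log x ^ (2 * (A + 1) + 6))) (Real.log x ^ (2 * (A + 1) + 6)),
      zeta1 s ≠ 0 ∧ ‖-logDeriv zeta1 s - zH s‖ ≤
        (1 / c + 20 / (ε / 2) * 4) * √(Real.log x) := by
    intro s hs
    obtain ⟨h1, h2⟩ := xSPsi_mem hs
    have h1' : min c (ε / 2) / √(Real.log x) ≤ c / √(Real.log x) :=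
      div_le_div_of_nonneg_right (min_le_left _ _) (by linarith)
    obtain ⟨h3, h4⟩ := H _ hT1 s ((h1.trans h1').trans (xSPsi_width hc.le hT0 hr)) h2
    refine ⟨h3, ?_⟩
    have h5 : |s.re - 1| ≤ ε / 2 :=
      h1.trans ((div_le_self hc'.le hu1).trans (min_le_right _ _))
    have h5' := abs_le.1 h5
    have h6 := zH_ub (ε := ε / 2) (by positivity) (by linarith) (s := s) (by linarith)
    have h7 : ‖s‖ + 1 ≤ 4 * Real.log x ^ (2 * (A + 1) + 6) := by
      have := Complex.norm_le_abs_re_add_abs_im s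
      have h8 : |s.re| ≤ 2 := abs_le.2 ⟨by linarith, by linarith⟩
      linarith
    have h8 : (‖s‖ + 1) ^ (2 * (ε / 2)) ≤ 4 * √(Real.log x) := by
      rw [show 2 * (ε / 2) = ε by ring]
      calc (‖s‖ + 1) ^ ε ≤ (4 * Real.log x ^ (2 * (A + 1) + 6)) ^ ε :=
            Real.rpow_le_rpow (by positivity) h7 hε.le
        _ = 4 ^ ε * (Real.log x ^ (2 * (A + 1) + 6)) ^ ε :=
            Real.mul_rpow (by norm_num) hT0.le
        _ ≤ 4 * √(Real.log x) := by
            refine mul_le_mul ?_ hr (by positivity) (by norm_num)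
            calc (4 : ℝ) ^ ε ≤ 4 ^ (1 : ℝ) :=
                  Real.rpow_le_rpow_of_exponent_le (by norm_num) hε1
              _ = 4 := Real.rpow_one _
    have h9 : ‖logDeriv zeta1 s‖ ≤ 1 / c * √(Real.log x) := by
      refine h4.trans ?_
      rw [one_div_mul_eq_div]
      exact div_le_div_of_nonneg_right hr hc.le
    have h10 : ‖zH s‖ ≤ 20 / (ε / 2) * (4 * √(Real.log x)) :=
      h6.trans (mul_le_mul_of_nonneg_left h8 (by positivity))
    calc ‖-logDeriv zeta1 s - zH s‖ ≤ ‖-logDeriv zeta1 s‖ + ‖zH s‖ := norm_sub_le _ _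
      _ ≤ 1 / c * √(Real.log x) + 20 / (ε / 2) * (4 * √(Real.log x)) := by
          rw [norm_neg]
          exact add_le_add h9 h10
      _ = (1 / c + 20 / (ε / 2) * 4) * √(Real.log x) := by ring
  have key := hcor (fun n => (ArithmeticFunction.vonMangoldt n : ℂ) - 1)
    (fun s => -logDeriv zeta1 s - zH s)
    (by
      intro n
      refine (norm_sub_le _ _).trans ?_
      rw [Complex.norm_real, Real.norm_of_nonneg ArithmeticFunction.vonMangoldt_nonneg, norm_one]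
      have h2 := ArithmeticFunction.vonMangoldt_le_log (n := n)
      linarith)
    (fun s hs => ((xSPsi_diff zeta1_diff (hz s hs).1).neg.sub (zH_diff s)).differentiableWithinAt)
    (fun s hs => xSPsi_LS hs) (fun s hs => (hz s hs).2)
  have hsum : ∑ n ∈ Icc 1 ⌊x⌋₊, ((ArithmeticFunction.vonMangoldt n : ℂ) - 1) =
      ((∑ n ∈ Icc 1 ⌊x⌋₊, ArithmeticFunction.vonMangoldt n - (⌊x⌋₊ : ℝ) : ℝ) : ℂ) := by
    rw [Finset.sum_sub_distrib]
    simp
  rw [hsum, Complex.norm_real, Real.norm_eq_abs] at key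
  have hf1 : (⌊x⌋₊ : ℝ) ≤ x := Nat.floor_le (by linarith)
  have hf2 : x < (⌊x⌋₊ : ℝ) + 1 := Nat.lt_floor_add_one x
  have hP : 0 < Real.log x ^ (A + 1) := by positivity
  have hone : 1 ≤ x / Real.log x ^ (A + 1) := (one_le_div hP).2 hpow
  have hfin : 2 * (x / Real.log x ^ (A + 1)) ≤ x / Real.log x ^ A := by
    have : x / Real.log x ^ A = Real.log x * (x / Real.log x ^ (A + 1)) := by
      have hL0 : 0 < Real.log x := by linarith
      rw [pow_succ]
      field_simp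
    rw [this]
    exact mul_le_mul_of_nonneg_right hL2 (by linarith)
  have hk := abs_le.1 key
  exact abs_le.2 ⟨by linarith, by linarith⟩

end Pool.Agent.MP_e23604_nt.P
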