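import Pool.Agent.MP_e23604_nt.P.SEst
import Pool.Agent.MP_e23604_nt.P.SCoef
import Pool.Agent.MP_2a1f0e_nt.Div

/-!
The theorem of Siegel.
-/

open Finset DirichletCharacter
open scoped Classical ComplexOrder

noncomputable section

namespace Pool.Agent.MP_e23604_nt.P

theorem xSSieg_sphere {s : ℂ} (hs : s ∈ Metric.sphere (2 : ℂ) (3 / 2)) :
    1 / 2 ≤ s.re ∧ ‖s‖ ≤ 7 / 2 ∧ 1 / 2 ≤ ‖s - 1‖ := by
  have h : ‖s - 2‖ = 3 / 2 := by simpa [dist_eq_norm] using hs
  refine ⟨?_, ?_, ?_⟩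
  · have h1 := Complex.abs_re_le_norm (s - 2)
    rw [h] at h1
    have h2 := (abs_le.mp h1).1
    simp at h2
    linarith
  · have h1 := norm_add_le (s - 2) 2
    have h2 : ‖(2 : ℂ)‖ = 2 := by simp
    rw [sub_add_cancel, h, h2] at h1
    linarith
  · have h1 := norm_sub_le (s - 1) 1
    have h2 : s - 1 - 1 = s - 2 := by ring
    rw [h2, h, norm_one] at h1
    linarith

theorem xSSieg_common : ∃ C : ℝ, 1 ≤ C ∧ ∀ (G : ℂ → ℂ) (a : ℕ → ℂ) (B β : ℝ),
    Differentiable ℂ G → 0 ≤ a → a 1 = 1 → (∀ s : ℂ, 1 < s.re → LSeriesSummable a s) →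
    (∀ s : ℂ, 1 < s.re → LSeries a s = riemannZeta s * G s) → (G 1).im = 0 → 0 ≤ (G 1).re →
    1 ≤ B → (∀ s ∈ Metric.sphere (2 : ℂ) (3 / 2), ‖G s‖ ≤ B) → ‖G 1‖ ≤ B → 7 / 8 ≤ β → β < 1 →
    (riemannZeta β * G β).re ≤ 0 → (1 - β) / 2 ≤ ‖G 1‖ * (200 * B) ^ (C * (1 - β)) := by
  obtain ⟨C, hC, H⟩ := estermann
  refine ⟨C, hC, ?_⟩
  intro G a B β hG ha ha1 hsum hL him hre hB hS h1 hβ hβ1 hneg
  have hG1 : ((G 1).re : ℂ) = G 1 := by
    apply Complex.ext <;> simp [him]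
  have key : ∀ s : ℂ, s ≠ 1 →
      riemannZeta s * G s = ((G 1).re : ℂ) / (s - 1) + (zH s * G s + dslope G 1 s) := by
    intro s hs
    have hs' : s - 1 ≠ 0 := sub_ne_zero.mpr hs
    rw [hG1, zeta_eq hs, dslope_of_ne _ hs, slope_def_field]
    field_simp
    ring
  have hd : Differentiable ℂ (dslope G 1) := by
    rw [← differentiableOn_univ, Complex.differentiableOn_dslope Filter.univ_mem]
    exact hG.differentiableOn
  have hf : Differentiable ℂ fun s => zH s * G s + dslope G 1 s := (zH_diff.mul hG).add hd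
  have hbd : ∀ s ∈ Metric.sphere (2 : ℂ) (3 / 2), ‖zH s * G s + dslope G 1 s‖ ≤ 200 * B := by
    intro s hs
    obtain ⟨h1', h2, h3⟩ := xSSieg_sphere hs
    have hs1 : s ≠ 1 := by
      rintro rfl
      norm_num at h3
    have hz : ‖zH s‖ ≤ 180 := by
      have := zH_ub (ε := 1 / 2) (by norm_num) le_rfl (s := s) (by linarith)
      norm_num at this
      linarith
    have hd1 : ‖dslope G 1 s‖ ≤ 4 * B := by
      rw [dslope_of_ne _ hs1, slope_def_field, norm_div, div_le_iff₀ (by linarith)]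
      have := norm_sub_le (G s) (G 1)
      have := hS s hs
      nlinarith
    have h4 : ‖zH s * G s‖ ≤ 180 * B := by
      rw [norm_mul]
      exact mul_le_mul hz (hS s hs) (norm_nonneg _) (by norm_num)
    have := norm_add_le (zH s * G s) (dslope G 1 s)
    linarith
  have hmain := H a (fun s => zH s * G s + dslope G 1 s) (G 1).re (200 * B) β ha ha1 hsum hf
    (fun s hs => by
      have hs1 : s ≠ 1 := by
        rintro rfl
        simp at hs
      rw [hL s hs, key s hs1]) hre (by linarith) hbd hβ hβ1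
  have hβ' : (β : ℂ) ≠ 1 := by
    intro h
    have : β = 1 := by exact_mod_cast h
    linarith
  rw [add_comm, ← key β hβ'] at hmain
  have h5 : 1 / 2 ≤ (G 1).re * (200 * B) ^ (C * (1 - β)) / (1 - β) := by linarith
  rw [le_div_iff₀ (by linarith)] at h5
  have h6 : (G 1).re ≤ ‖G 1‖ := Complex.re_le_norm _
  have h7 : 0 ≤ (200 * B) ^ (C * (1 - β)) := by positivity
  nlinarith [mul_le_mul_of_nonneg_right h6 h7]

theorem xSSieg_crude {N : ℕ} [NeZero N] {χ : DirichletCharacter ℂ N} (h1 : χ ≠ 1) {s : ℂ}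
    (hs : 1 / 2 ≤ s.re) (hs' : ‖s‖ ≤ 7 / 2) : ‖LFunction χ s‖ ≤ 360 * N := by
  have hN : (1 : ℝ) ≤ N := by exact_mod_cast Nat.one_le_iff_ne_zero.mpr (NeZero.ne N)
  have := L_ub h1 (ε := 1 / 2) (by norm_num) le_rfl (s := s) (by linarith)
  norm_num at this
  have h0 := norm_nonneg s
  nlinarith

theorem xSSieg_one {N : ℕ} [NeZero N] {χ : DirichletCharacter ℂ N} (h2 : χ ^ 2 = 1)
    (h1 : χ ≠ 1) : (LFunction χ 1).im = 0 ∧ 0 ≤ (LFunction χ 1).re := by
  have a1 := L_real h2 h1 1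
  have a2 := L_pos h2 h1 (β := 1) (fun x hx hx' => absurd hx' (not_lt.mpr hx))
  simp only [Complex.ofReal_one] at a1 a2
  exact ⟨a1, a2.le⟩

theorem xSSieg_level {q N : ℕ} [NeZero q] [NeZero N] (h : q ∣ N) {χ : DirichletCharacter ℂ q}
    (h1 : χ ≠ 1) : ‖LFunction (changeLevel h χ) 1‖ ≤ (N.divisors.card : ℝ) * ‖LFunction χ 1‖ := by
  rw [LFunction_changeLevel h χ (Or.inl h1), norm_mul, mul_comm]
  refine mul_le_mul_of_nonneg_right ?_ (norm_nonneg _)
  rw [norm_prod, Nat.card_divisors (NeZero.ne N)]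
  push_cast
  refine prod_le_prod (fun _ _ => norm_nonneg _) fun p hp => ?_
  have hp' := Nat.prime_of_mem_primeFactors hp
  have hf : (1 : ℝ) ≤ N.factorization p := by
    have := hp'.factorization_pos_of_dvd (NeZero.ne N) (Nat.dvd_of_mem_primeFactors hp)
    exact_mod_cast this
  have hp1 : (1 : ℝ) ≤ p := by exact_mod_cast hp'.one_le
  have h3 : ‖χ p * (p : ℂ) ^ (-1 : ℂ)‖ ≤ 1 := by
    rw [norm_mul, Complex.cpow_neg_one, norm_inv, Complex.norm_natCast]
    exact mul_le_one₀ (χ.norm_le_one _) (by positivity) (inv_le_one_of_one_le₀ hp1)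
  have h4 := norm_sub_le (1 : ℂ) (χ p * (p : ℂ) ^ (-1 : ℂ))
  rw [norm_one] at h4
  linarith

theorem xSSieg_pow {C η β x : ℝ} (hx : 1 ≤ x) (h : C * (1 - β) ≤ η) :
    x ^ (C * (1 - β)) ≤ x ^ η := Real.rpow_le_rpow_of_exponent_le hx h

/-- The two lower bounds at a fixed level. -/
theorem xSSieg_two {η : ℝ} (hη : 0 < η) : ∃ e K : ℝ, 0 < e ∧ e ≤ 1 / 8 ∧ 0 < K ∧
    (∀ (N : ℕ) [NeZero N] (χ : DirichletCharacter ℂ N) (β : ℝ), χ ^ 2 = 1 → χ ≠ 1 →
      1 - e ≤ β → β < 1 → (riemannZeta β * LFunction χ β).re ≤ 0 →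
      (1 - β) / 2 ≤ ‖LFunction χ 1‖ * (K * (N : ℝ) ^ η)) ∧
    (∀ (N : ℕ) [NeZero N] (χ ψ : DirichletCharacter ℂ N) (β : ℝ), χ ^ 2 = 1 → χ ≠ 1 →
      ψ ^ 2 = 1 → ψ ≠ 1 → χ * ψ ≠ 1 → 1 - e ≤ β → β < 1 → LFunction ψ β = 0 →
      (1 - β) / 2 ≤ ‖LFunction χ 1‖ * ‖LFunction ψ 1‖ * ‖LFunction (χ * ψ) 1‖ *
        (K * ((N : ℝ) ^ η) ^ 3)) := by
  obtain ⟨C, hC, H⟩ := xSSieg_common
  have hC0 : 0 < C := by linarith
  refine ⟨min (1 / 8) (η / C), (200 * 360 ^ 3) ^ η, lt_min (by norm_num) (by positivity),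
    min_le_left _ _, by positivity, ?_, ?_⟩
  · intro N _ χ β h2 h1 hβ hβ1 hneg
    have hN : (1 : ℝ) ≤ N := by exact_mod_cast Nat.one_le_iff_ne_zero.mpr (NeZero.ne N)
    have e1 := min_le_left (1 / 8 : ℝ) (η / C)
    have e2 : C * (1 - β) ≤ η := by
      have := min_le_right (1 / 8 : ℝ) (η / C)
      have h3 : 1 - β ≤ η / C := by linarith
      rwa [le_div_iff₀ hC0, mul_comm] at h3
    obtain ⟨a, ha, ha1, hsum, hL⟩ := two_coeff h2
    have h3 := H (LFunction χ) a (360 * N) β (differentiable_LFunction h1) ha ha1 hsum hL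
      (xSSieg_one h2 h1).1 (xSSieg_one h2 h1).2 (by linarith)
      (fun s hs => xSSieg_crude h1 (xSSieg_sphere hs).1 (xSSieg_sphere hs).2.1)
      (xSSieg_crude h1 (by norm_num) (by norm_num)) (by linarith) hβ1 hneg
    refine h3.trans (mul_le_mul_of_nonneg_left ?_ (norm_nonneg _))
    refine (xSSieg_pow (by linarith) e2).trans ?_
    rw [← Real.mul_rpow (by norm_num) (by linarith)]
    exact Real.rpow_le_rpow (by positivity) (by linarith) hη.le
  · intro N _ χ ψ β h2 h1 k2 k1 hk hβ hβ1 hz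
    have hN : (1 : ℝ) ≤ N := by exact_mod_cast Nat.one_le_iff_ne_zero.mpr (NeZero.ne N)
    have e1 := min_le_left (1 / 8 : ℝ) (η / C)
    have e2 : C * (1 - β) ≤ η := by
      have := min_le_right (1 / 8 : ℝ) (η / C)
      have h3 : 1 - β ≤ η / C := by linarith
      rwa [le_div_iff₀ hC0, mul_comm] at h3
    have m2 : (χ * ψ) ^ 2 = 1 := by rw [mul_pow, h2, k2, one_mul]
    obtain ⟨a, ha, ha1, hsum, hL⟩ := four_coeff h2 k2
    have hb : ∀ s : ℂ, 1 / 2 ≤ s.re → ‖s‖ ≤ 7 / 2 →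
        ‖LFunction χ s * LFunction ψ s * LFunction (χ * ψ) s‖ ≤ (360 * N) ^ 3 := by
      intro s hs hs'
      rw [norm_mul, norm_mul, pow_succ, pow_two]
      exact mul_le_mul (mul_le_mul (xSSieg_crude h1 hs hs') (xSSieg_crude k1 hs hs')
        (norm_nonneg _) (by positivity)) (xSSieg_crude hk hs hs') (norm_nonneg _) (by positivity)
    obtain ⟨a1, a2⟩ := xSSieg_one h2 h1
    obtain ⟨b1, b2⟩ := xSSieg_one k2 k1
    obtain ⟨c1, c2⟩ := xSSieg_one m2 hk
    have hB : (1 : ℝ) ≤ (360 * N) ^ 3 := one_le_pow₀ (by linarith)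
    have h3 := H (fun s => LFunction χ s * LFunction ψ s * LFunction (χ * ψ) s) a
      ((360 * N) ^ 3) β (((differentiable_LFunction h1).mul (differentiable_LFunction k1)).mul
        (differentiable_LFunction hk)) ha ha1 hsum hL
      (by simp [Complex.mul_im, a1, b1, c1])
      (by
        simp only [Complex.mul_re, Complex.mul_im, a1, b1, c1, mul_zero, sub_zero]
        positivity) hB
      (fun s hs => hb s (xSSieg_sphere hs).1 (xSSieg_sphere hs).2.1)
      (hb 1 (by norm_num) (by norm_num)) (by linarith) hβ1 (by simp [hz])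
    rw [norm_mul, norm_mul] at h3
    refine h3.trans (mul_le_mul_of_nonneg_left ?_ (by positivity))
    refine (xSSieg_pow (by linarith) e2).trans (le_of_eq ?_)
    rw [mul_pow, ← mul_assoc, Real.mul_rpow (by norm_num) (by positivity),
      Real.rpow_pow_comm (by linarith)]

theorem xSSieg_small {η : ℝ} (hη : 0 < η) (hη' : η ≤ 1 / 2) {N : ℕ} [NeZero N]
    {χ : DirichletCharacter ℂ N} (h1 : χ ≠ 1) :
    ‖LFunction χ 1‖ ≤ 80 / η * ((N : ℝ) ^ η) ^ 2 := by
  have hN : (1 : ℝ) ≤ N := by exact_mod_cast Nat.one_le_iff_ne_zero.mpr (NeZero.ne N)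
  have h := L_ub h1 hη hη' (s := 1) (by simp; linarith)
  rw [norm_one] at h
  have h2 : (((N : ℝ) + 1) * (1 + 1)) ^ (2 * η) ≤ 4 * ((N : ℝ) ^ η) ^ 2 := by
    calc (((N : ℝ) + 1) * (1 + 1)) ^ (2 * η) ≤ (4 * (N : ℝ)) ^ (2 * η) :=
          Real.rpow_le_rpow (by positivity) (by linarith) (by positivity)
      _ = 4 ^ (2 * η) * ((N : ℝ) ^ η) ^ 2 := by
          rw [Real.mul_rpow (by norm_num) (by linarith), ← Real.rpow_natCast,
            ← Real.rpow_mul (by linarith), mul_comm η]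
          norm_num
      _ ≤ 4 * ((N : ℝ) ^ η) ^ 2 := by
          refine mul_le_mul_of_nonneg_right ?_ (by positivity)
          have := Real.rpow_le_rpow_of_exponent_le (x := 4) (by norm_num)
            (show 2 * η ≤ 1 by linarith)
          simpa using this
  refine h.trans ?_
  calc 20 / η * (((N : ℝ) + 1) * (1 + 1)) ^ (2 * η) ≤ 20 / η * (4 * ((N : ℝ) ^ η) ^ 2) :=
        mul_le_mul_of_nonneg_left h2 (by positivity)
    _ = 80 / η * ((N : ℝ) ^ η) ^ 2 := by ring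

theorem xSSieg_main {η : ℝ} (hη : 0 < η) (hη' : η ≤ 1 / 2) : ∃ c : ℝ, 0 < c ∧ ∀ (q : ℕ) [NeZero q]
    (χ : DirichletCharacter ℂ q), χ ^ 2 = 1 → χ ≠ 1 →
      c ≤ ‖LFunction χ 1‖ * ((q : ℝ) ^ η) ^ 8 := by
  obtain ⟨e, K, he, he8, hK, H2, H4⟩ := xSSieg_two hη
  obtain ⟨e', he', hz⟩ := zeta_neg
  obtain ⟨D, hD, hτ⟩ := Pool.Agent.MP_2a1f0e_nt.divisor_bound hη
  have hu : ∀ (N : ℕ) [NeZero N], (1 : ℝ) ≤ (N : ℝ) ^ η := fun N _ =>
    Real.one_le_rpow (by exact_mod_cast Nat.one_le_iff_ne_zero.mpr (NeZero.ne N)) hη.le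
  set d : ℝ := min e e' with hd
  have hd0 : 0 < d := lt_min he he'
  have hd1 : d ≤ e := min_le_left _ _
  have hd2 : d ≤ e' := min_le_right _ _
  by_cases hex : ∃ (q1 : ℕ) (_ : NeZero q1) (ψ : DirichletCharacter ℂ q1) (β : ℝ),
      ψ ^ 2 = 1 ∧ ψ ≠ 1 ∧ 1 - d ≤ β ∧ β < 1 ∧ LFunction ψ β = 0
  · obtain ⟨q1, _, ψ, β, k2, k1, hβ, hβ1, hz0⟩ := hex
    have hv := hu q1
    set v : ℝ := (q1 : ℝ) ^ η with hvd
    set E : ℝ := 80 / η with hE
    have hE1 : 1 ≤ E := by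
      rw [hE, le_div_iff₀ hη]
      linarith
    refine ⟨(1 - β) / 2 / (D * E ^ 2 * K * v ^ 8), by
      have : 0 < 1 - β := by linarith
      positivity, ?_⟩
    intro q _ χ h2 h1
    have : NeZero (q1 * q) := ⟨mul_ne_zero (NeZero.ne q1) (NeZero.ne q)⟩
    have d1 : q ∣ q1 * q := dvd_mul_left _ _
    have d2 : q1 ∣ q1 * q := dvd_mul_right _ _
    have h2' : changeLevel d1 χ ^ 2 = 1 := by rw [← map_pow, h2, map_one]
    have k2' : changeLevel d2 ψ ^ 2 = 1 := by rw [← map_pow, k2, map_one]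
    have h1' : changeLevel d1 χ ≠ 1 := h1 ∘ (changeLevel_eq_one_iff d1).mp
    have k1' : changeLevel d2 ψ ≠ 1 := k1 ∘ (changeLevel_eq_one_iff d2).mp
    have hz' : LFunction (changeLevel d2 ψ) β = 0 := by
      rw [LFunction_changeLevel d2 ψ (Or.inl k1), hz0, zero_mul]
    have hw := hu q
    have hU1 := hu (q1 * q)
    have hU : ((q1 * q : ℕ) : ℝ) ^ η = v * (q : ℝ) ^ η := by
      rw [Nat.cast_mul, Real.mul_rpow (by positivity) (by positivity)]
    have hlev : ‖LFunction (changeLevel d1 χ) 1‖ ≤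
        D * ((q1 * q : ℕ) : ℝ) ^ η * ‖LFunction χ 1‖ :=
      (xSSieg_level d1 h1).trans (mul_le_mul_of_nonneg_right (hτ _) (norm_nonneg _))
    have hfin : (1 - β) / 2 ≤
        ‖LFunction χ 1‖ * (D * E ^ 2 * K * (((q1 * q : ℕ) : ℝ) ^ η) ^ 8) := by
      set U : ℝ := ((q1 * q : ℕ) : ℝ) ^ η with hUd
      have hL0 := norm_nonneg (LFunction χ 1)
      by_cases hk : changeLevel d1 χ * changeLevel d2 ψ = 1
      · have heq : changeLevel d1 χ = changeLevel d2 ψ := by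
          calc changeLevel d1 χ = changeLevel d1 χ * changeLevel d2 ψ ^ 2 := by rw [k2', mul_one]
            _ = changeLevel d2 ψ := by rw [pow_two, ← mul_assoc, hk, one_mul]
        have h3 := H2 (q1 * q) (changeLevel d1 χ) β h2' h1' (by linarith) hβ1
          (by rw [heq, hz']; simp)
        refine h3.trans ?_
        have h4 : U ^ 2 ≤ E ^ 2 * U ^ 8 :=
          (pow_le_pow_right₀ hU1 (by norm_num)).trans
            (le_mul_of_one_le_left (by positivity) (one_le_pow₀ hE1))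
        calc ‖LFunction (changeLevel d1 χ) 1‖ * (K * U) ≤ D * U * ‖LFunction χ 1‖ * (K * U) :=
              mul_le_mul_of_nonneg_right hlev (by positivity)
          _ = ‖LFunction χ 1‖ * (D * K) * U ^ 2 := by ring
          _ ≤ ‖LFunction χ 1‖ * (D * K) * (E ^ 2 * U ^ 8) :=
              mul_le_mul_of_nonneg_left h4 (by positivity)
          _ = _ := by ring
      · have h3 := H4 (q1 * q) (changeLevel d1 χ) (changeLevel d2 ψ) β h2' h1' k2' k1' hk
          (by linarith) hβ1 hz'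
        refine h3.trans ?_
        have s1 := xSSieg_small hη hη' k1'
        have s2 := xSSieg_small hη hη' hk
        calc _ ≤ D * U * ‖LFunction χ 1‖ * (E * U ^ 2) * (E * U ^ 2) * (K * U ^ 3) :=
              mul_le_mul_of_nonneg_right (mul_le_mul (mul_le_mul hlev s1 (norm_nonneg _)
                (by positivity)) s2 (norm_nonneg _) (by positivity)) (by positivity)
          _ = _ := by ring
    rw [div_le_iff₀ (by positivity)]
    refine hfin.trans (le_of_eq ?_)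
    rw [hU]
    ring
  · refine ⟨d / 2 / K, by positivity, ?_⟩
    intro q _ χ h2 h1
    have hw := hu q
    have hne : ∀ x : ℝ, 1 - d ≤ x → x < 1 → LFunction χ x ≠ 0 := fun x hx hx' h0 =>
      hex ⟨q, inferInstance, χ, x, h2, h1, hx, hx', h0⟩
    have p1 := L_pos h2 h1 hne
    have p2 := L_real h2 h1 (1 - d)
    obtain ⟨z1, z2⟩ := hz (1 - d) (by linarith) (by linarith)
    have h3 := H2 q χ (1 - d) h2 h1 (by linarith) (by linarith) (by
      rw [Complex.mul_re, z1, zero_mul, sub_zero]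
      exact (mul_neg_of_neg_of_pos z2 p1).le)
    rw [div_le_iff₀ hK]
    have h4 : (q : ℝ) ^ η ≤ ((q : ℝ) ^ η) ^ 8 := le_self_pow₀ hw (by norm_num)
    calc d / 2 = (1 - (1 - d)) / 2 := by ring
      _ ≤ ‖LFunction χ 1‖ * (K * (q : ℝ) ^ η) := h3
      _ ≤ ‖LFunction χ 1‖ * (K * ((q : ℝ) ^ η) ^ 8) :=
          mul_le_mul_of_nonneg_left (mul_le_mul_of_nonneg_left h4 hK.le) (norm_nonneg _)
      _ = _ := by ring

theorem siegel {ε : ℝ} (hε : 0 < ε) : ∃ c : ℝ, 0 < c ∧ ∀ (q : ℕ) [NeZero q]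
    (χ : DirichletCharacter ℂ q), χ ^ 2 = 1 → χ ≠ 1 → c * (q : ℝ) ^ (-ε) ≤ ‖LFunction χ 1‖ := by
  have hη : 0 < min (ε / 8) (1 / 2) := lt_min (by positivity) (by norm_num)
  obtain ⟨c, hc, H⟩ := xSSieg_main hη (min_le_right _ _)
  refine ⟨c, hc, ?_⟩
  intro q _ χ h2 h1
  have hq : (1 : ℝ) ≤ q := by exact_mod_cast Nat.one_le_iff_ne_zero.mpr (NeZero.ne q)
  have h3 := H q χ h2 h1
  have h4 : ((q : ℝ) ^ min (ε / 8) (1 / 2)) ^ 8 ≤ (q : ℝ) ^ ε := by
    rw [← Real.rpow_natCast, ← Real.rpow_mul (by linarith)]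
    refine Real.rpow_le_rpow_of_exponent_le hq ?_
    have := min_le_left (ε / 8) (1 / 2)
    push_cast
    linarith
  have h5 : 0 < (q : ℝ) ^ ε := by positivity
  rw [Real.rpow_neg (by linarith), ← div_eq_mul_inv, div_le_iff₀ h5]
  exact h3.trans (mul_le_mul_of_nonneg_left h4 (norm_nonneg _))

end Pool.Agent.MP_e23604_nt.P
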