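import Pool.Agent.MP_e23604_nt.P.Defs
import Pool.Agent.MP_f259ea_nt.A_HeightsGrowth

/-!
Growth of a Dirichlet series with bounded error term close to the line of real part one.
-/

open Finset
open scoped Classical

noncomputable section

namespace Pool.Agent.MP_e23604_nt.P

open MeasureTheory Pool.Agent.MP_f259ea_nt

/-- the integrand -/
def xSUb_f (a : ℕ → ℂ) (c s : ℂ) (t : ℝ) : ℂ :=
  (∑ k ∈ Icc 1 ⌊t⌋₊, a k - c * t) * (t : ℂ) ^ (-(s + 1))

theorem xSUb_le {a : ℕ → ℂ} {c : ℂ} {B : ℝ} (hc : ‖c‖ ≤ 1)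
    (hB : ∀ n : ℕ, ‖∑ k ∈ Icc 1 n, a k - c * n‖ ≤ B) {s : ℂ} (hs : 1 / 2 ≤ s.re) {t : ℝ}
    (ht : 1 < t) : ‖xSUb_f a c s t‖ ≤ (B + 1) * t ^ (-(3 / 2 : ℝ)) := by
  have h1 := norm_errFun_le hB t
  unfold errFun at h1
  rw [Set.indicator_of_mem (show t ∈ Set.Ioi 1 from ht)] at h1
  rw [xSUb_f, norm_mul, Complex.norm_cpow_eq_rpow_re_of_pos (by linarith)]
  refine mul_le_mul (by linarith) (Real.rpow_le_rpow_of_exponent_le ht.le ?_) (by positivity)
    ((norm_nonneg _).trans (h1.trans (by linarith)))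
  simp only [Complex.neg_re, Complex.add_re, Complex.one_re]
  linarith

theorem xSUb_int {a : ℕ → ℂ} {c : ℂ} {B : ℝ} (hc : ‖c‖ ≤ 1)
    (hB : ∀ n : ℕ, ‖∑ k ∈ Icc 1 n, a k - c * n‖ ≤ B) {s : ℂ} (hs : 1 / 2 ≤ s.re) {x : ℝ}
    (hx : 1 ≤ x) : IntegrableOn (xSUb_f a c s) (Set.Ioi x) ∧
      ‖∫ t in Set.Ioi x, xSUb_f a c s t‖ ≤ 2 * (B + 1) / √x := by
  have hint : IntegrableOn (fun t : ℝ => (B + 1) * t ^ (-(3 / 2 : ℝ))) (Set.Ioi x) :=
    (integrableOn_Ioi_rpow_of_lt (by norm_num) (by linarith)).const_mul _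
  have hb : ∀ᵐ t ∂volume.restrict (Set.Ioi x), ‖xSUb_f a c s t‖ ≤ (B + 1) * t ^ (-(3 / 2 : ℝ)) :=
    (ae_restrict_iff' measurableSet_Ioi).2
      (Filter.Eventually.of_forall fun t ht => xSUb_le hc hB hs (hx.trans_lt ht))
  refine ⟨hint.mono' (AEStronglyMeasurable.mul ?_ ?_) hb,
    (norm_integral_le_of_norm_le hint hb).trans (le_of_eq ?_)⟩
  · refine (Measurable.sub ?_ (by fun_prop)).aestronglyMeasurable
    exact (measurable_from_nat (f := fun n => ∑ k ∈ Icc 1 n, a k)).comp Nat.measurable_floor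
  · exact (Measurable.pow_const (by fun_prop) _).aestronglyMeasurable
  · rw [integral_const_mul, integral_Ioi_rpow_of_lt (by norm_num) (by linarith),
      show -(3 / 2 : ℝ) + 1 = -(1 / 2) by norm_num, Real.rpow_neg (by linarith), Real.sqrt_eq_rpow]
    ring

theorem xSUb_ftc (A c : ℂ) {s : ℂ} (hs : s ≠ 0) {x y : ℝ} (hx : 0 < x) (hxy : x ≤ y) :
    s * ∫ t in x..y, (A - c * t) * (t : ℂ) ^ (-(s + 1)) =
      (A - c * x) * (x : ℂ) ^ (-s) - (A - c * y) * (y : ℂ) ^ (-s) -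
        c * ∫ t in x..y, (t : ℂ) ^ (-s) := by
  have h0 : (0 : ℝ) ∉ Set.uIcc x y := by
    rw [Set.uIcc_of_le hxy]
    exact fun h => absurd h.1 (not_le.2 hx)
  have i1 : IntervalIntegrable (fun t : ℝ => (A - c * t) * (t : ℂ) ^ (-(s + 1))) volume x y :=
    (intervalIntegral.intervalIntegrable_cpow (Or.inr h0)).continuousOn_mul (by fun_prop)
  have i2 : IntervalIntegrable (fun t : ℝ => (t : ℂ) ^ (-s)) volume x y :=
    intervalIntegral.intervalIntegrable_cpow (Or.inr h0)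
  have e := intervalIntegral.integral_eq_sub_of_hasDerivAt
    (f := fun t : ℝ => -((A - c * t) * (t : ℂ) ^ (-s)))
    (f' := fun t : ℝ => s * ((A - c * t) * (t : ℂ) ^ (-(s + 1))) + c * (t : ℂ) ^ (-s))
    (fun t ht => by
      have h1 := hasDerivAt_ofReal_cpow_const (x := t) (fun h => h0 (h ▸ ht)) (neg_ne_zero.2 hs)
      have h2 := ((Complex.ofRealCLM.hasDerivAt (x := t)).const_mul c).const_sub A
      refine (h2.mul h1).neg.congr_deriv ?_
      rw [show -s - 1 = -(s + 1) by ring]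
      simp only [Complex.ofRealCLM_apply, Complex.ofReal_one]
      ring) ((i1.const_mul s).add (i2.const_mul c))
  rw [intervalIntegral.integral_add (i1.const_mul s) (i2.const_mul c),
    intervalIntegral.integral_const_mul, intervalIntegral.integral_const_mul] at e
  linear_combination e

theorem xSUb_step {s : ℂ} {ε x : ℝ} (hε : 0 < ε) (hε1 : ε ≤ 1) (hs : 1 - ε ≤ s.re) (hx : 1 ≤ x) :
    ‖((x + 1 : ℝ) : ℂ) ^ (-s)‖ ≤ ((x + 1) ^ ε - x ^ ε) / ε ∧
      ‖∫ t in x..x + 1, (t : ℂ) ^ (-s)‖ ≤ ((x + 1) ^ ε - x ^ ε) / ε := by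
  have e : ∫ t in x..x + 1, t ^ (ε - 1) = ((x + 1) ^ ε - x ^ ε) / ε := by
    rw [integral_rpow (Or.inl (by linarith)), sub_add_cancel]
  have hi : IntervalIntegrable (fun t : ℝ => t ^ (ε - 1)) volume x (x + 1) :=
    intervalIntegral.intervalIntegrable_rpow' (by linarith)
  have hb : ∀ t : ℝ, 1 ≤ t → ‖(t : ℂ) ^ (-s)‖ ≤ t ^ (ε - 1) := fun t ht => by
    rw [Complex.norm_cpow_eq_rpow_re_of_pos (by linarith)]
    exact Real.rpow_le_rpow_of_exponent_le ht (by rw [Complex.neg_re]; linarith)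
  rw [← e]
  refine ⟨(hb _ (by linarith)).trans ?_, intervalIntegral.norm_integral_le_of_norm_le (by linarith)
    (Filter.Eventually.of_forall fun t ht => hb t (hx.trans ht.1.le)) hi⟩
  have := intervalIntegral.integral_mono_on (f := fun _ => (x + 1) ^ (ε - 1)) (by linarith)
    intervalIntegrable_const hi fun t ht =>
      Real.rpow_le_rpow_of_nonpos (by linarith [ht.1]) ht.2 (by linarith)
  simpa using this

theorem xSUb_head {a : ℕ → ℂ} {c : ℂ} {B : ℝ} (ha : ∀ n, ‖a n‖ ≤ 1) (hc : ‖c‖ ≤ 1)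
    (hB : ∀ n : ℕ, ‖∑ k ∈ Icc 1 n, a k - c * n‖ ≤ B) {s : ℂ} {ε : ℝ} (hε : 0 < ε)
    (hε1 : ε ≤ 1 / 2) (hs : 1 - ε ≤ s.re) (N : ℕ) (hN : 1 ≤ N) :
    ‖c + s * (∫ t in Set.Ioi (1 : ℝ), xSUb_f a c s t) - s * (∫ t in Set.Ioi (N : ℝ), xSUb_f a c s t)
      + (∑ k ∈ Icc 1 N, a k - c * N) * (N : ℂ) ^ (-s)‖ ≤ 1 + 2 * (((N : ℝ) ^ ε - 1) / ε) := by
  have hs0 : s ≠ 0 := fun h => by
    rw [h, Complex.zero_re] at hs
    linarith
  induction N, hN using Nat.le_induction with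
  | base => simpa using ha 1
  | succ N hN ih =>
    have hN' : (1 : ℝ) ≤ N := by exact_mod_cast hN
    have e1 := intervalIntegral.integral_interval_add_Ioi
      (xSUb_int hc hB (s := s) (by linarith) hN').1
      (xSUb_int hc hB (s := s) (x := N + 1) (by linarith) (by linarith)).1
    have e2 : ∫ t in (N : ℝ)..N + 1, xSUb_f a c s t =
        ∫ t in (N : ℝ)..N + 1, (∑ k ∈ Icc 1 N, a k - c * t) * (t : ℂ) ^ (-(s + 1)) :=
      intervalIntegral.integral_congr_Ioo_of_le (by linarith) fun t ht => by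
        rw [xSUb_f, (Nat.floor_eq_iff (by linarith [ht.1])).2 ⟨ht.1.le, ht.2⟩]
    have e3 := xSUb_ftc (∑ k ∈ Icc 1 N, a k) c hs0 (x := N) (y := N + 1) (by linarith) (by linarith)
    obtain ⟨b1, b2⟩ := xSUb_step hε (by linarith) hs hN'
    have b3 := mul_le_mul (ha (N + 1)) b1 (norm_nonneg _) zero_le_one
    have b4 := mul_le_mul hc b2 (norm_nonneg _) zero_le_one
    rw [← norm_mul, one_mul] at b3 b4
    have := (norm_add_le _ _).trans (add_le_add ih ((norm_sub_le _ _).trans (add_le_add b3 b4)))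
    rw [← e1, e2] at this
    rw [sum_Icc_succ_top (by omega)]
    push_cast at this e3 ⊢
    refine (le_of_eq (congrArg norm ?_)).trans (this.trans (le_of_eq (by ring)))
    linear_combination e3

theorem ub_abs (a : ℕ → ℂ) (c : ℂ) (B : ℝ) (ha : ∀ n, ‖a n‖ ≤ 1) (hc : ‖c‖ ≤ 1)
    (hB : ∀ n : ℕ, ‖∑ k ∈ Icc 1 n, a k - c * n‖ ≤ B) :
    ∃ h : ℂ → ℂ, DifferentiableOn ℂ h {s | 0 < s.re} ∧
      (∀ s : ℂ, 1 < s.re → LSeries a s = c / (s - 1) + h s) ∧
      ∀ ε : ℝ, 0 < ε → ε ≤ 1 / 2 → ∀ s : ℂ, 1 - ε ≤ s.re →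
        ‖h s‖ ≤ 20 / ε * ((B + 1) * (‖s‖ + 1)) ^ (2 * ε) := by
  refine ⟨fun s => c + s * mellin (errFun a c) (-s), fun s hs =>
    ((differentiableAt_id.mul (differentiableAt_mellin_errFun hB hs)).const_add
      c).differentiableWithinAt, fun s hs => ?_, fun ε hε hε1 s hs => ?_⟩
  · have h1 : s - 1 ≠ 0 := fun h => by
      rw [sub_eq_zero.1 h, Complex.one_re] at hs
      exact lt_irrefl _ hs
    rw [LSeries_eq_err hB hs (LSeriesSummable_of_bounded_of_one_lt_re (fun n _ => ha n) hs)]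
    field_simp
    ring
  have hB0 : 0 ≤ B := (norm_nonneg _).trans (hB 0)
  have hs0 := norm_nonneg s
  obtain ⟨M, hM⟩ : ∃ M, M = (B + 1) * (‖s‖ + 1) := ⟨_, rfl⟩
  have hM1 : 1 ≤ M := by nlinarith
  obtain ⟨N, hN1, hN2⟩ : ∃ N : ℕ, M ^ 2 ≤ N ∧ (N : ℝ) ≤ 2 * M ^ 2 :=
    ⟨⌈M ^ 2⌉₊, Nat.le_ceil _, by nlinarith [Nat.ceil_lt_add_one (sq_nonneg M)]⟩
  have hN : (1 : ℝ) ≤ N := by nlinarith
  have hq : M ≤ √N := Real.le_sqrt_of_sq_le hN1
  have hq0 : 0 < √(N : ℝ) := by linarith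
  have h1 := xSUb_head ha hc hB hε hε1 hs N (by exact_mod_cast hN)
  have h2 : ‖s * ∫ t in Set.Ioi (N : ℝ), xSUb_f a c s t‖ ≤ 2 := by
    rw [norm_mul]
    refine (mul_le_mul_of_nonneg_left (xSUb_int hc hB (by linarith) hN).2 hs0).trans ?_
    rw [← mul_div_assoc, div_le_iff₀ hq0]
    nlinarith
  have h3 : ‖(∑ k ∈ Icc 1 N, a k - c * N) * (N : ℂ) ^ (-s)‖ ≤ 1 := by
    have : ‖(N : ℂ) ^ (-s)‖ ≤ (√N)⁻¹ := by
      rw [← Complex.ofReal_natCast, Complex.norm_cpow_eq_rpow_re_of_pos (by linarith),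
        Real.sqrt_eq_rpow, ← Real.rpow_neg (by linarith)]
      exact Real.rpow_le_rpow_of_exponent_le hN (by rw [Complex.neg_re]; linarith)
    rw [norm_mul]
    refine (mul_le_mul (hB N) this (norm_nonneg _) hB0).trans ?_
    rw [← div_eq_mul_inv, div_le_one hq0]
    nlinarith
  have h4 : (N : ℝ) ^ ε ≤ 2 * M ^ (2 * ε) := by
    refine (Real.rpow_le_rpow (by linarith) hN2 hε.le).trans ?_
    rw [Real.mul_rpow zero_le_two (sq_nonneg M), Real.rpow_mul (by linarith), Real.rpow_two]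
    refine mul_le_mul_of_nonneg_right ?_ (by positivity)
    exact (Real.rpow_le_rpow_of_exponent_le one_le_two (by linarith : ε ≤ 1)).trans
      (Real.rpow_one 2).le
  have h5 : 1 ≤ M ^ (2 * ε) := Real.one_le_rpow hM1 (by linarith)
  have h6 := (norm_sub_le _ _).trans (add_le_add ((norm_add_le _ _).trans (add_le_add h1 h2)) h3)
  change ‖c + s * mellin (errFun a c) (-s)‖ ≤ _
  rw [mellin_errFun, ← hM]
  refine (le_of_eq (congrArg norm ?_)).trans (h6.trans ?_)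
  · unfold xSUb_f
    ring
  · rw [div_mul_eq_mul_div, le_div_iff₀ hε]
    field_simp
    nlinarith

end Pool.Agent.MP_e23604_nt.P
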