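import Pool.Agent.MP_e23604_nt.P.SPsi

/-!
The theorem of Siegel and Walfisz.
-/

open Finset DirichletCharacter
open scoped Classical

noncomputable section

namespace Pool.Agent.MP_e23604_nt.P

theorem xSW_orth (I : Finset ℕ) (f : ℕ → ℝ) (d c : ℕ) [NeZero d] (hc : Nat.Coprime c d) :
    (d.totient : ℂ) * ((∑ n ∈ I.filter fun n => n % d = c % d, f n : ℝ) : ℂ) =
      ∑ χ : DirichletCharacter ℂ d, χ (c : ZMod d)⁻¹ * ∑ n ∈ I, χ n * (f n : ℂ) := by
  have hu : IsUnit (c : ZMod d) := (ZMod.isUnit_iff_coprime c d).2 hc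
  simp only [mul_sum]
  rw [sum_comm, sum_filter, Complex.ofReal_sum, mul_sum]
  refine sum_congr rfl fun n _ => ?_
  simp only [← mul_assoc]
  rw [← sum_mul, sum_char_inv_mul_char_eq ℂ hu]
  have e : (c : ZMod d) = (n : ZMod d) ↔ n % d = c % d := by
    rw [eq_comm, ZMod.natCast_eq_natCast_iff']
  by_cases h : n % d = c % d
  · rw [if_pos h, if_pos (e.2 h)]
  · rw [if_neg h, if_neg (fun h' => h (e.1 h'))]
    simp

theorem xSW_np {x : ℝ} (hx : 1 ≤ x) :
    ∑ n ∈ (Icc 1 ⌊x⌋₊).filter (fun n => ¬ n.Prime), ArithmeticFunction.vonMangoldt n ≤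
      2 * √x * Real.log x := by
  have h := Chebyshev.psi_sub_theta_le hx
  rw [Chebyshev.psi_sub_theta_eq_sum_not_prime] at h
  have e : Ioc 0 ⌊x⌋₊ = Icc 1 ⌊x⌋₊ := by
    ext n
    simp only [mem_Ioc, mem_Icc]
    omega
  rwa [e] at h

theorem xSW_pf {d : ℕ} (hd : 1 ≤ d) : ∑ p ∈ d.primeFactors, Real.log p ≤ d := by
  rw [← Real.log_prod (fun p hp => by
    exact_mod_cast (Nat.prime_of_mem_primeFactors hp).ne_zero), ← Nat.cast_prod]
  have h1 : ∏ p ∈ d.primeFactors, p ≤ d := Nat.le_of_dvd hd (Nat.prod_primeFactors_dvd d)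
  have h2 : 0 < ∏ p ∈ d.primeFactors, p :=
    prod_pos fun p hp => (Nat.prime_of_mem_primeFactors hp).pos
  have h3 : (0 : ℝ) < ((∏ p ∈ d.primeFactors, p : ℕ) : ℝ) := by exact_mod_cast h2
  have h4 : ((∏ p ∈ d.primeFactors, p : ℕ) : ℝ) ≤ d := by exact_mod_cast h1
  linarith [Real.log_le_sub_one_of_pos h3]

theorem xSW_prin {x : ℝ} (hx : 1 ≤ x) (d : ℕ) [NeZero d] :
    ‖∑ n ∈ Icc 1 ⌊x⌋₊, (1 : DirichletCharacter ℂ d) n * (ArithmeticFunction.vonMangoldt n : ℂ) -
      ((∑ n ∈ Icc 1 ⌊x⌋₊, ArithmeticFunction.vonMangoldt n : ℝ) : ℂ)‖ ≤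
      2 * √x * Real.log x + d := by
  have hd : 1 ≤ d := Nat.pos_of_ne_zero (NeZero.ne d)
  rw [Complex.ofReal_sum, ← sum_sub_distrib]
  refine (norm_sum_le _ _).trans ?_
  have h1 : ∀ n ∈ Icc 1 ⌊x⌋₊,
      ‖(1 : DirichletCharacter ℂ d) n * (ArithmeticFunction.vonMangoldt n : ℂ) -
        (ArithmeticFunction.vonMangoldt n : ℂ)‖ ≤
      (if ¬ n.Prime then ArithmeticFunction.vonMangoldt n else 0) +
        (if n ∈ d.primeFactors then Real.log n else 0) := by
    intro n _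
    have hΛ : 0 ≤ ArithmeticFunction.vonMangoldt n := ArithmeticFunction.vonMangoldt_nonneg
    have hl : 0 ≤ Real.log n := Real.log_natCast_nonneg n
    by_cases hu : IsUnit (n : ZMod d)
    · rw [MulChar.one_apply hu, one_mul, sub_self, norm_zero]
      positivity
    · rw [MulChar.map_nonunit _ hu, zero_mul, zero_sub, norm_neg, Complex.norm_real,
        Real.norm_of_nonneg hΛ]
      by_cases hp : n.Prime
      · have hnd : n ∣ d := by
          by_contra hn
          exact hu ((ZMod.isUnit_iff_coprime n d).2 ((Nat.Prime.coprime_iff_not_dvd hp).2 hn))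
        rw [if_neg (not_not.2 hp), if_pos (Nat.mem_primeFactors.2 ⟨hp, hnd, NeZero.ne d⟩),
          ArithmeticFunction.vonMangoldt_apply_prime hp, zero_add]
      · rw [if_pos hp]
        have : (0 : ℝ) ≤ if n ∈ d.primeFactors then Real.log n else 0 := by positivity
        linarith
  refine (sum_le_sum h1).trans ?_
  rw [sum_add_distrib, ← sum_filter, ← sum_filter]
  refine add_le_add (xSW_np hx) (le_trans ?_ (xSW_pf hd))
  exact sum_le_sum_of_subset_of_nonneg (fun n hn => (mem_filter.1 hn).2)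
    fun n _ _ => Real.log_natCast_nonneg n

theorem xSW_ev (k : ℕ) (C : ℝ) (hC : 0 < C) :
    ∀ᶠ x : ℝ in Filter.atTop, C * Real.log x ^ k ≤ x := by
  have h := (Real.isLittleO_pow_log_id_atTop (n := k)).bound (c := 1 / C) (by positivity)
  filter_upwards [h, Filter.eventually_ge_atTop 1] with x hx h1
  have hl : 0 ≤ Real.log x := Real.log_nonneg h1
  rw [Real.norm_of_nonneg (by positivity), id, Real.norm_of_nonneg (by linarith)] at hx
  calc C * Real.log x ^ k ≤ C * (1 / C * x) := mul_le_mul_of_nonneg_left hx hC.le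
    _ = x := by field_simp

theorem siegel_walfisz (A B : ℕ) : ∃ x0 : ℝ, ∀ x ≥ x0, ∀ d c : ℕ, 1 ≤ d →
    (d : ℝ) ≤ Real.log x ^ B → Nat.Coprime c d →
    |∑ n ∈ (Icc 1 ⌊x⌋₊).filter fun n => n.Prime ∧ n % d = c % d, Real.log n - x / d.totient| ≤
      x / Real.log x ^ A := by
  obtain ⟨x1, h1⟩ := psi_chi (A + 1) B
  obtain ⟨x2, h2⟩ := psi_one (A + 1)
  have hev : ∀ᶠ x : ℝ in Filter.atTop, x1 ≤ x ∧ x2 ≤ x ∧ 1 ≤ x ∧ 2 ≤ Real.log x ∧
      256 * Real.log x ^ (2 * (A + 1)) ≤ x ∧ 4 * Real.log x ^ (A + B) ≤ x := by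
    filter_upwards [Filter.eventually_ge_atTop x1, Filter.eventually_ge_atTop x2,
      Filter.eventually_ge_atTop 1, Real.tendsto_log_atTop.eventually_ge_atTop 2,
      xSW_ev (2 * (A + 1)) 256 (by norm_num), xSW_ev (A + B) 4 (by norm_num)] with x a b c d e f
    exact ⟨a, b, c, d, e, f⟩
  obtain ⟨x0, h0⟩ := Filter.eventually_atTop.1 hev
  refine ⟨x0, fun x hx d c hd hdB hc => ?_⟩
  obtain ⟨a1, a2, a3, a4, a5, a6⟩ := h0 x hx
  have : NeZero d := ⟨by omega⟩
  set L := Real.log x with hL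
  have hL0 : 0 < L := by linarith
  set E := x / L ^ (A + 1) with hE
  have hE0 : 0 ≤ E := by positivity
  set D := 2 * √x * L with hD
  have hD0 : 0 ≤ D := by positivity
  have hu : IsUnit (c : ZMod d) := (ZMod.isUnit_iff_coprime c d).2 hc
  set P : ℝ := ∑ n ∈ (Icc 1 ⌊x⌋₊).filter fun n => n % d = c % d,
    ArithmeticFunction.vonMangoldt n with hP
  have hφ : (0 : ℝ) < d.totient := by exact_mod_cast Nat.totient_pos.2 hd
  have hb : ∀ χ : DirichletCharacter ℂ d,
      ‖χ (c : ZMod d)⁻¹ * ∑ n ∈ Icc 1 ⌊x⌋₊, χ n * (ArithmeticFunction.vonMangoldt n : ℂ) -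
        (if χ = 1 then (x : ℂ) else 0)‖ ≤ E + (D + d) := by
    intro χ
    by_cases hχ : χ = 1
    · subst hχ
      have hi : IsUnit (c : ZMod d)⁻¹ :=
        IsUnit.of_mul_eq_one _ (ZMod.inv_mul_of_unit _ hu)
      rw [if_pos rfl, MulChar.one_apply hi, one_mul]
      have b1 := xSW_prin a3 d
      have b2 := h2 x a2
      have b3 : ‖((∑ n ∈ Icc 1 ⌊x⌋₊, ArithmeticFunction.vonMangoldt n : ℝ) : ℂ) - (x : ℂ)‖ ≤ E := by
        rw [← Complex.ofReal_sub, Complex.norm_real, Real.norm_eq_abs]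
        exact b2
      refine (norm_sub_le_norm_sub_add_norm_sub _ _ _).trans ((add_le_add b1 b3).trans ?_)
      linarith
    · rw [if_neg hχ, sub_zero, norm_mul]
      have b1 := h1 x a1 d χ hdB hχ
      have b2 := χ.norm_le_one (c : ZMod d)⁻¹
      have b3 : (0 : ℝ) ≤ d := by positivity
      calc _ ≤ 1 * E := mul_le_mul b2 b1 (norm_nonneg _) zero_le_one
        _ ≤ _ := by linarith
  have hP1 : |P - x / d.totient| ≤ E + (D + d) := by
    have e : ((d.totient * P - x : ℝ) : ℂ) = ∑ χ : DirichletCharacter ℂ d,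
        (χ (c : ZMod d)⁻¹ * ∑ n ∈ Icc 1 ⌊x⌋₊, χ n * (ArithmeticFunction.vonMangoldt n : ℂ) -
          (if χ = 1 then (x : ℂ) else 0)) := by
      rw [sum_sub_distrib, ← xSW_orth _ _ d c hc, sum_ite_eq' univ (1 : DirichletCharacter ℂ d),
        if_pos (mem_univ _), ← hP]
      push_cast
      rfl
    have b : |d.totient * P - x| ≤ d.totient * (E + (D + d)) := by
      rw [← Real.norm_eq_abs, ← Complex.norm_real, e]
      refine (norm_sum_le _ _).trans ((sum_le_sum fun χ _ => hb χ).trans (le_of_eq ?_))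
      rw [sum_const, card_univ, ← Nat.card_eq_fintype_card,
        card_eq_totient_of_hasEnoughRootsOfUnity ℂ d, nsmul_eq_mul]
    have e2 : P - x / d.totient = (d.totient * P - x) / d.totient := by field_simp
    rw [e2, abs_div, abs_of_pos hφ, div_le_iff₀ hφ, mul_comm (E + (D + d))]
    exact b
  have hP2 : |∑ n ∈ (Icc 1 ⌊x⌋₊).filter fun n => n.Prime ∧ n % d = c % d, Real.log n - P| ≤ D := by
    have e : P = ∑ n ∈ (Icc 1 ⌊x⌋₊).filter fun n => n.Prime ∧ n % d = c % d, Real.log n +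
        ∑ n ∈ (Icc 1 ⌊x⌋₊).filter fun n => ¬ n.Prime ∧ n % d = c % d,
          ArithmeticFunction.vonMangoldt n := by
      rw [hP, sum_filter, sum_filter, sum_filter, ← sum_add_distrib]
      refine sum_congr rfl fun n _ => ?_
      by_cases hp : n.Prime
      · simp [hp, ArithmeticFunction.vonMangoldt_apply_prime hp]
      · simp [hp]
    rw [e, sub_add_cancel_left, abs_neg,
      abs_of_nonneg (sum_nonneg fun _ _ => ArithmeticFunction.vonMangoldt_nonneg)]
    refine le_trans (sum_le_sum_of_subset_of_nonneg (fun n hn => ?_)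
      fun _ _ _ => ArithmeticFunction.vonMangoldt_nonneg) (xSW_np a3)
    exact mem_filter.2 ⟨(mem_filter.1 hn).1, (mem_filter.1 hn).2.1⟩
  refine (abs_sub_le _ P _).trans ((add_le_add hP2 hP1).trans ?_)
  have hLA : 0 < L ^ A := by positivity
  have c1 : E ≤ x / L ^ A / 2 := by
    rw [hE, pow_succ, ← div_div]
    exact div_le_div_of_nonneg_left (by positivity) (by norm_num) a4
  have c2 : 16 * L ^ (A + 1) ≤ √x := by
    refine Real.le_sqrt_of_sq_le ?_
    calc (16 * L ^ (A + 1)) ^ 2 = 256 * L ^ (2 * (A + 1)) := by ring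
      _ ≤ x := a5
  have c3 : 2 * D ≤ x / L ^ A / 4 := by
    rw [div_div, le_div_iff₀ (by positivity), hD]
    calc 2 * (2 * √x * L) * (L ^ A * 4) = √x * (16 * L ^ (A + 1)) := by ring
      _ ≤ √x * √x := mul_le_mul_of_nonneg_left c2 (Real.sqrt_nonneg _)
      _ = x := Real.mul_self_sqrt (by linarith)
  have c4 : (d : ℝ) ≤ x / L ^ A / 4 := by
    refine hdB.trans ?_
    rw [div_div, le_div_iff₀ (by positivity)]
    calc L ^ B * (L ^ A * 4) = 4 * L ^ (A + B) := by ring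
      _ ≤ x := a6
  linarith

end Pool.Agent.MP_e23604_nt.P
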