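import Pool.Agent.MP_e23604_nt.P.Core
import Pool.Agent.MP_e23604_nt.P.Repl
import Pool.Agent.MP_e23604_nt.P.H2

/-!
Steps 1 and 2.
-/

open Finset
open scoped Classical

noncomputable section

namespace Pool.Agent.MP_e23604_nt.P

theorem xStep2_fin {S S' c Q L k M H : ℝ} {C1 C2 : ℕ} (hQ : 0 ≤ Q) (hL : 20 ≤ L)
    (h1 : |S - c ^ 2 * S'| ≤ Q * L ^ C1 / k) (hk : L ^ (C1 + 1) ≤ k) (hc0 : 0 ≤ c) (hc : c ≤ L)
    (h2 : |S'| ≤ 2 * Q / L ^ 4 + 9 * L ^ 2 * M) (h3 : M ≤ Q * L ^ C2 / H)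
    (h4 : L ^ (C2 + 5) ≤ H) : |S| ≤ Q := by
  have h0 : 0 < L := by linarith
  have a1 : Q * L ^ C1 / k ≤ Q / L :=
    (div_le_div_of_nonneg_left (by positivity) (by positivity) hk).trans
      (le_of_eq (by field_simp; ring))
  have a2 : M ≤ Q / L ^ 5 :=
    h3.trans ((div_le_div_of_nonneg_left (by positivity) (by positivity) h4).trans
      (le_of_eq (by field_simp; ring)))
  have a3 : |S'| ≤ 2 * Q / L ^ 4 + 9 * L ^ 2 * (Q / L ^ 5) :=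
    h2.trans (add_le_add_right (mul_le_mul_of_nonneg_left a2 (by positivity)) _)
  have a4 : |c ^ 2 * S'| ≤ L ^ 2 * (2 * Q / L ^ 4 + 9 * L ^ 2 * (Q / L ^ 5)) := by
    rw [abs_mul, abs_of_nonneg (sq_nonneg c)]
    exact mul_le_mul (pow_le_pow_left₀ hc0 hc 2) a3 (abs_nonneg _) (sq_nonneg L)
  have a5 : L ^ 2 * (2 * Q / L ^ 4 + 9 * L ^ 2 * (Q / L ^ 5)) = 2 * (Q / L / L) + 9 * (Q / L) := by
    field_simp
  have a6 : Q / L ≤ Q / 20 := div_le_div_of_nonneg_left hQ (by norm_num) hL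
  have a7 : Q / L / L ≤ Q / L := div_le_self (by positivity) (by linarith)
  have a8 : |S| ≤ |S - c ^ 2 * S'| + |c ^ 2 * S'| := by
    have := abs_add_le (S - c ^ 2 * S') (c ^ 2 * S')
    rwa [sub_add_cancel] at this
  linarith

theorem xStep2_main : ∃ B0 : ℕ, ∀ B ≥ B0, ∃ X1 : ℕ, ∀ X ≥ X1, ∀ (Y Z U : ℕ) (C0 : ℝ),
    Reg 0 X Y Z U →
    |SS X (TT C0 Y) (MF Z U) (fun _ => ![lam, gg (WW B X), shp (WW B X), shp (WW B X)])| ≤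
      (X : ℝ) ^ 2 * (Y : ℝ) ^ 2 ∧
    |SS X (TT C0 Y) (MF Z U)
      (fun _ => ![gg (WW B X), shp (WW B X), shp (WW B X), shp (WW B X)])| ≤
      (X : ℝ) ^ 2 * (Y : ℝ) ^ 2 := by
  obtain ⟨C1, hC1⟩ := repl2
  obtain ⟨C2, hC2⟩ := triv2
  obtain ⟨B0, hB0⟩ := core 4 ((C2 + 6) * 2)
  refine ⟨B0, fun B hB => ?_⟩
  obtain ⟨X1, h1⟩ := hB0 B hB
  obtain ⟨X2, h2⟩ := hC1 B
  obtain ⟨X3, h3⟩ := hyp2
  obtain ⟨X4, h4⟩ := cW_le B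
  obtain ⟨X5, h5⟩ := wt_all B
  obtain ⟨X6, h6⟩ := exists_level B (C1 + 1) 100
  obtain ⟨X7, h7⟩ := log_pow_le (C2 + 5) 2 20
  refine ⟨X1 + X2 + X3 + X4 + X5 + X6 + X7 + 100, fun X hX Y Z U C0 hR => ?_⟩
  obtain ⟨k, k1, k2⟩ := h6 X (by omega)
  obtain ⟨l1, l2⟩ := h7 X (by omega)
  obtain ⟨w1, w2, w3⟩ := h5 X (by omega)
  obtain ⟨y2, y1⟩ := h3 X (by omega) Y Z U _ k C0 hR k2
  obtain ⟨u1, u2⟩ := WW_bounds (C2 + 5) (X := X) (by omega)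
  have hL : 0 < Real.log X := by linarith
  have hp : 0 < Real.log X ^ (C2 + 5) := pow_pos hL _
  have hH : ((WW (C2 + 5) X ^ 2 : ℕ) : ℝ) ≤ (2 * Real.log X ^ (C2 + 5)) ^ 2 := by
    rw [Nat.cast_pow]
    exact pow_le_pow_left₀ (Nat.cast_nonneg _) u2 2
  have H1 : 1 ≤ WW (C2 + 5) X ^ 2 := Nat.one_le_pow _ _ (Nat.cast_pos.1 (hp.trans_le u1))
  have H2 : ((WW (C2 + 5) X ^ 2 : ℕ) : ℝ) ≤ Real.log X ^ ((C2 + 6) * 2) := by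
    rw [pow_mul, pow_succ' _ (C2 + 5)]
    exact hH.trans (pow_le_pow_left₀ (by positivity)
      (mul_le_mul_of_nonneg_right (by linarith) hp.le) 2)
  have H3 : WW (C2 + 5) X ^ 2 ≤ X := Nat.cast_le.1 (hH.trans ((pow_le_pow_left₀ (by positivity)
    (mul_le_mul_of_nonneg_right (by norm_num) hp.le) 2).trans l2))
  have H4 : Real.log X ^ (C2 + 5) ≤ √((WW (C2 + 5) X ^ 2 : ℕ) : ℝ) := by
    rwa [Nat.cast_pow, Real.sqrt_sq (Nat.cast_nonneg _)]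
  obtain ⟨t2, t1⟩ := hC2 X Y Z U (WW B X) k _ C0 (by omega) hR H1 H3
  have c0 : 0 ≤ cW (WW B X) := zero_le_one.trans (one_le_cW _)
  have e : 2 * (X : ℝ) * X * (Y : ℝ) ^ 2 = 2 * ((X : ℝ) ^ 2 * (Y : ℝ) ^ 2) := by ring
  constructor
  · refine xStep2_fin (by positivity) l1 (h2 X (by omega) Y Z U k C0 _ _ hR w1 w3) k1 c0
      (h4 X (by omega)) ?_ t2 H4
    rw [exp2, ← e]
    exact (abs_sum_le_sum_abs _ _).trans (h1 X (by omega) _ _ _ _ _ _ _ _ _ _ y2 H1 H2 w1)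
  · refine xStep2_fin (by positivity) l1 (h2 X (by omega) Y Z U k C0 _ _ hR w3 w2) k1 c0
      (h4 X (by omega)) ?_ t1 H4
    rw [exp1, ← e]
    exact (abs_sum_le_sum_abs _ _).trans (h1 X (by omega) _ _ _ _ _ _ _ _ _ _ y1 H1 H2 w2)

theorem step2 : ∃ B0 : ℕ, ∀ B ≥ B0, ∃ X1 : ℕ, ∀ X ≥ X1, ∀ (Y Z U : ℕ) (C0 : ℝ), Reg 0 X Y Z U →
    |SS X (TT C0 Y) (MF Z U) (fun _ => ![lam, gg (WW B X), shp (WW B X), shp (WW B X)])| ≤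
      (X : ℝ) ^ 2 * (Y : ℝ) ^ 2 := by
  obtain ⟨B0, h⟩ := xStep2_main
  refine ⟨B0, fun B hB => ?_⟩
  obtain ⟨X1, h1⟩ := h B hB
  exact ⟨X1, fun X hX Y Z U C0 hR => (h1 X hX Y Z U C0 hR).1⟩

theorem step1 : ∃ B0 : ℕ, ∀ B ≥ B0, ∃ X1 : ℕ, ∀ X ≥ X1, ∀ (Y Z U : ℕ) (C0 : ℝ), Reg 0 X Y Z U →
    |SS X (TT C0 Y) (MF Z U)
      (fun _ => ![gg (WW B X), shp (WW B X), shp (WW B X), shp (WW B X)])| ≤
      (X : ℝ) ^ 2 * (Y : ℝ) ^ 2 := by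
  obtain ⟨B0, h⟩ := xStep2_main
  refine ⟨B0, fun B hB => ?_⟩
  obtain ⟨X1, h1⟩ := h B hB
  exact ⟨X1, fun X hX Y Z U C0 hR => (h1 X hX Y Z U C0 hR).2⟩

end Pool.Agent.MP_e23604_nt.P
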